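import Pool.Agent.Lib_helper89.FL.FinalDefs
import Pool.Agent.KCS.FinalDefs

/-!
Moments of the area of self-avoiding polygons under a force (problem MP_f6626d_co). `SAP`, `pos`,
`area` are in `Lib_helper27/Defs.lean`, `Staircase`, `areaCdf` in
`Lib_helper41/SapR/FinalDefs.lean`, `span`, `forceZ`, `forceCdf` in
`Lib_helper89/FL/FinalDefs.lean`, `airyMoment` in `KCS/FinalDefs.lean`.
-/

set_option autoImplicit false

namespace Pool.Agent.AreaLaw

/-- The `r`-th moment of `area / E[area]` for the self-avoiding polygons of perimeter `2n` with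
probabilities proportional to `exp (f * span)`: `E[area ^ r] / E[area] ^ r`. -/
noncomputable def forceMoment (f : ℝ) (n r : ℕ) : ℝ :=
  ((∑ s ∈ SAP n, Real.exp (f * span n s) * area n s ^ r) / forceZ f n) /
    ((∑ s ∈ SAP n, Real.exp (f * span n s) * area n s) / forceZ f n) ^ r

end Pool.Agent.AreaLaw
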