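import Pool.Agent.EXW.Stmts2
import Pool.Agent.EXW.FinalDefs
import Pool.Agent.KCS.StM

/-!
# Project EXW, version 3 (MP_f6626d_co): all moments under a vanishing force

The statements of versions 1 and 2 are used as they are. `mr r P` is the moment of order `r` of the
coefficients of `P` (`KCG.mr`), so `mr 0 P = P.eval 1` and `mr 1 P = P.derivative.eval 1`. Every doc
string contains the proof.
-/

set_option autoImplicit false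

namespace Pool.Agent.EXW

open Finset Pool.Agent.Lib27 Pool.Agent.SapR Pool.Agent.Gap Pool.Agent.FL Filter Topology
  Pool.Agent.AreaLaw MeasureTheory
open Pool.Agent.KCG (mr)
open Pool.Agent.KCS (airyMoment kap)
open scoped NNReal ENNReal

/-! ### Tails of the area of the closed model -/

/-- CHA (algebra). Paths whose gaps are all at most `g0`, and the rest `U`. PROOF.
`0 ≤ coeff` by strong induction on `n`. Put `U n g = B n g` for `g > g0`, `U n g = 0` for `g < 1`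
and define `U n g` for `1 ≤ g ≤ g0` by recursion on `n` (`1 ≤ i.1`: `pos_mem`); nonnegative
coefficients by induction. `BT = B - U` satisfies `BT n g = 0` for `g < 1` and for `g > g0`, and
`BT n g = C (s n g) + ∑ ...` (the recursion of `IsSol` with `BT`) for `1 ≤ g ≤ g0`; so nonnegative
coefficients and `natDegree (BT n g) ≤ 2 * g0 * n` (`i.2 ≤ i.1` by `Loc.h_le`, and only
`g' ≤ g0` contributes: `i.2 (g + g') ≤ 2 g0 i.1`). For `B`: `B n g = 0` if `g > 2 n` (`s n g ≠ 0` only for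
`g ≤ n`; `K i g g' ≤ T i (g' - g) = 0` if `|g' - g| > 2 i.1`), so in the recursion the exponent is at
most `i.1 * (2 n + 2 n)` and `natDegree (B n g) ≤ 4 n ^ 2` (`4 n i + 4 (n - i)^2 ≤ 4 n^2`); the same for `U`.
`closeP` is linear in the array, `mr r` is additive, and for a polynomial with nonnegative
coefficients and `natDegree ≤ d` : `mr r P ≤ d ^ r * P.eval 1`. -/
def CHA_Stmt : Prop := ∀ G : GapKernel, Loc G → ∀ (C0 : ℕ) (s t : ℕ → ℤ → ℝ),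
  IsCap C0 s → IsCap C0 t → (∀ (m : ℕ) (g : ℤ), (m : ℤ) < g → s m g = 0) →
  (∀ (m : ℕ) (g : ℤ), (m : ℤ) < g → t m g = 0) → ∀ B, IsSol G s B →
  (∀ n j, 0 ≤ (closeP C0 t B n).coeff j) ∧
  ∀ g0 : ℕ, 1 ≤ g0 → ∃ U : ℕ → ℤ → Polynomial ℝ,
    (∀ n (g : ℤ), g < 1 → U n g = 0) ∧ (∀ n (g : ℤ), (g0 : ℤ) < g → U n g = B n g) ∧
    (∀ n (g : ℤ), 1 ≤ g → g ≤ g0 → U n g = ∑ i ∈ G.S, if i.1 ≤ n then
      ∑ g' ∈ Icc (g - G.R) (g + G.R),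
        Polynomial.C (G.K i g g') * Polynomial.X ^ ((i.2 : ℤ) * (g + g')).toNat * U (n - i.1) g'
      else 0) ∧
    ∀ r n : ℕ, mr r (closeP C0 t B n) ≤ (2 * (n : ℝ) * g0) ^ r * (closeP C0 t B n).eval 1 +
      (8 * (n : ℝ) ^ 2) ^ r * (closeP C0 t U n).eval 1

/-- CHB (Chernoff bound). PROOF. `θ = 1 - 1/D`, `a n g = ρ^n (B n g).eval 1`. By strong induction
`a n g ≤ ∑_{m ≤ n} D θ^m ≤ D^2` : `ρ^n s n g ≤ D θ^n` (`ClsCap.dec`, `ClsCap.supp`) and the row sums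
`∑_i ρ^i.1 ∑_g' K i g g' ≤ ∑_i ρ^i.1 ∑_d T i d = 1` (`K_le`, reindexing, `crit`). Let `0 ≤ τ ≤ 1/(8D)`.
`∑_i ρ^i.1 ∑_d T i d exp(τ d) ≤ 1 + τ^2 D^K'` : by `T_even` replace `exp (τ d)` by
`cosh (τ d) ≤ 1 + (τ d)^2 exp |τ d|`, `|d| ≤ 2 i.1` (`T_loc`), and sum over `m = i.1` with `Cls.dec`:
`∑_m D θ^m 4 τ^2 m^2 exp(2 τ m)`, `θ exp(2τ) ≤ exp(-3/(4D)) ≤ 1 - 1/(4D)` or similar. Put
`ψ = D^K' τ^2`. CLAIM `ρ^n u n g ≤ D^2 exp(ψ n + τ (g - g0))` for `g ≥ 1`, by strong induction on `n`: for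
`g > g0` it is `a n g ≤ D^2`; for `g ≤ g0` the recursion gives at most `D^2 exp(ψ n + τ (g - g0)) *
∑_i ρ^i.1 ∑_d T i d exp(τ d - ψ i.1)`, `i.1 ≥ 1` and `(1 + ψ) exp(-ψ) ≤ 1`. Closing: `t m g ≠ 0` only for
`g ≤ m`, `ρ^m ∑_g t m g exp(τ g) ≤ exp(τ m) D θ^m`, and `∑_m D θ^m exp(τ m) ≤ 2 D^2`. So the left side is
at most `2 D^4 exp(D^K' τ^2 n - τ g0)`; take `τ = g0 / (2 D^K' n)`, which is `≤ 1/(8D)` since `g0 ≤ n`
(`K' ≥ 3`). (`n ≥ 1` since `g0 ≥ 1`.) -/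
def CHB_Stmt : Prop := ∃ K : ℕ, ∀ D : ℝ, 2 ≤ D → ∀ G : GapKernel, Cls D (1 - D⁻¹) G →
  ∀ (C0 : ℕ) (s t : ℕ → ℤ → ℝ), ClsCap D (1 - D⁻¹) G C0 s → ClsCap D (1 - D⁻¹) G C0 t →
  ∀ B, IsSol G s B → ∀ g0 : ℕ, 1 ≤ g0 → ∀ u : ℕ → ℤ → ℝ, (∀ n (g : ℤ), g < 1 → u n g = 0) →
    (∀ n (g : ℤ), (g0 : ℤ) < g → u n g = (B n g).eval 1) →
    (∀ n (g : ℤ), 1 ≤ g → g ≤ g0 → u n g = ∑ i ∈ G.S, if i.1 ≤ n then
      ∑ g' ∈ Icc (g - G.R) (g + G.R), G.K i g g' * u (n - i.1) g' else 0) →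
    ∀ n : ℕ, g0 ≤ n → G.rho ^ n * ∑ m ∈ range (n + 1), ∑ g ∈ Icc (1 : ℤ) C0, t m g * u (n - m) g ≤
      D ^ K * Real.exp (-((g0 : ℝ) ^ 2 / (D ^ K * n)))

/-- MOMA (from QRAT, CHA, CHB): moments of the area of the closed model, up to a power of `log n`.
PROOF. `P = closeP C0 t B n`, `ℓ = log n`, `p = n √n ρ^n P(1) ≥ D^-K1` (QRAT). Take
`g0 = ⌈D^K' √n ℓ⌉`, `K'` large; `g0 ≤ n` since `(D W)^K0 ≤ n` with `K0` large. CHA and CHB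
(`u n g = (U n g).eval 1`, `(closeP C0 t U n).eval 1` is the double sum) give
`mr r P ≤ (2 n g0)^r P(1) + (8 n^2)^r ρ^-n D^K exp(-g0^2/(D^K n))`, `exp(-g0^2/(D^K n)) ≤ exp(-ℓ^2) ≤ n^-(2r+2)` for
`ℓ ≥ 2 r + 2` (`n ≥ 4^K0`), and `ρ^-n = n √n P(1) / p ≤ D^K1 n √n P(1)`. -/
def MOMA_Stmt : Prop := ∀ r : ℕ, ∃ K0 K1 : ℕ, ∀ D : ℝ, 2 ≤ D → ∀ G : GapKernel,
  Cls D (1 - D⁻¹) G → ∀ (C0 : ℕ) (s t : ℕ → ℤ → ℝ) (Vs Vt : ℤ → ℝ) (B : ℕ → ℤ → Polynomial ℝ),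
    ClsCap D (1 - D⁻¹) G C0 s → ClsCap D (1 - D⁻¹) G C0 t →
    CritSol D G (GE.sr G.rho C0 s) Vs → CritSol D G (GE.sr G.rho C0 t) Vt → IsSol G s B →
  ∀ (W : ℝ) (n n0 : ℕ), Sc0 K0 D W G n n0 → D ^ K0 ≤ W →
    mr r (closeP C0 t B n) ≤
      D ^ K1 * ((n : ℝ) * Real.sqrt n * Real.log n) ^ r * (closeP C0 t B n).eval 1

/-! ### Moments from Laplace transforms -/

/-- FDX (pure). PROOF. Coefficient of `X^m`, `y = x m ≥ 0`: `∑_j (-1)^j C(r,j) exp(-j y) = (1 - exp(-y))^r`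
(binomial theorem), `0 ≤ 1 - exp(-y) ≤ y`, `y - (1 - exp(-y)) ≤ y^2`, and
`0 ≤ y^r - b^r ≤ r (y - b) y^(r-1) ≤ r y^(r+1)` for `0 ≤ b ≤ y` (`r ≥ 1`; both sides are `0` for `r = 0`). -/
def FDX_Stmt : Prop := ∀ (r : ℕ) (P : Polynomial ℝ) (x : ℝ), (∀ j, 0 ≤ P.coeff j) → 0 ≤ x →
  |∑ j ∈ range (r + 1), (-1 : ℝ) ^ j * (r.choose j) * P.eval (Real.exp (-((j : ℝ) * x)))
    - x ^ r * mr r P| ≤ r * x ^ (r + 1) * mr (r + 1) P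

/-- SMM: moments of the staircase model. PROOF. `KCS.feq`: `closeP 1 cap1 B0 (n + 2) = KCS.eP n`
(`B0_isSol`), `KCS.IDN.nat_coeff` or induction for the coefficients, `mr 0 P = P.eval 1`
(`KCS.mrc`: `mr 0 (eP n) = catalan (n + 1) > 0`), and `KCS.t_CRA KCS.mrc KCS.cv1 KCS.cv2 KCS.cba`:
`mr r (eP n) / 4^n * n^(3/2 - 3r/2) → kap r`; divide by the case `r = 0` (`kap 0 = 4/√π ≠ 0`,
`KCS.IDN` has `kap_zero_pos`): `mr r (eP n) / (mr 0 (eP n) * n^(3r/2)) → kap r / kap 0`; replace `n` by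
`n + 2` in the power (`(n/(n+2))^(3r/2) → 1`), `n^(3r/2) = (n √n)^r`, and shift. -/
def SMM_Stmt : Prop :=
  (∀ n : ℕ, 2 ≤ n → (∀ j, 0 ≤ (closeP 1 cap1 B0 n).coeff j) ∧ 0 < (closeP 1 cap1 B0 n).eval 1) ∧
  ∀ r : ℕ, Tendsto (fun n : ℕ => mr r (closeP 1 cap1 B0 n) /
    (((n : ℝ) * Real.sqrt n) ^ r * (closeP 1 cap1 B0 n).eval 1)) atTop (𝓝 (kap r / kap 0))

/-- MOMD (from QRAT, MOMA, CHA, FDX, SMM, QPAR): the scaled moments of the model and of the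
staircase model. PROOF. `P = closeP C0 t B n`, `P0 = closeP 1 cap1 B0 n0`, `eps' = lam/(n0 √n0)`,
`eps = 2 sig2 eps' / hbar`. FDX for `P` at `eps` and for `P0` at `eps'` (coefficients nonnegative: CHA with
`Cls.loc`, `ClsCap.cap`, `ClsCap.supp`; SMM), divided by `P(1)`, `P0(1)`:
`|∑_j ± C(r,j) P(exp(-j eps))/P(1) - eps^r mr r P / P(1)| ≤ r eps^(r+1) mr (r+1) P / P(1) ≤
D^K lam^(r+1) (log n)^(r+1)` by MOMA for `r + 1`, since `eps n √n ≤ D^K lam` (`Base.par_bounds` for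
`sig2`, `hbar`; `n ≤ D^K1 n0` by QPAR with `eps = eps' = 0`); the staircase error is at most
`r lam^(r+1) C` with `C` absolute (the sequence of SMM for `r + 1` is bounded for `n0 ≥ 2`), `C ≤ 2^K ≤ D^K`.
QRAT with the parameters `j eps`, `j eps'` (`j lam ≤ r ≤ W`) bounds the difference of the two
alternating sums by `2^r ((D W)^K1 / qn n + D^K1 / √W)`. Divide by `lam^r`; `1 ≤ log n` from `4^K0 ≤ n`,
`2^r ≤ D^r`. -/
def MOMD_Stmt : Prop := ∀ r : ℕ, ∃ K0 K1 : ℕ, ∀ D : ℝ, 2 ≤ D → ∀ G : GapKernel,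
  Cls D (1 - D⁻¹) G → ∀ (C0 : ℕ) (s t : ℕ → ℤ → ℝ) (Vs Vt : ℤ → ℝ) (B : ℕ → ℤ → Polynomial ℝ),
    ClsCap D (1 - D⁻¹) G C0 s → ClsCap D (1 - D⁻¹) G C0 t →
    CritSol D G (GE.sr G.rho C0 s) Vs → CritSol D G (GE.sr G.rho C0 t) Vt → IsSol G s B →
  ∀ (W : ℝ) (n n0 : ℕ) (lam : ℝ), Sc0 K0 D W G n n0 → D ^ K0 ≤ W → 0 < lam → lam ≤ 1 →
    |(2 * G.sig2 / (G.hbar * ((n0 : ℝ) * Real.sqrt n0))) ^ r *
        (mr r (closeP C0 t B n) / (closeP C0 t B n).eval 1)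
      - mr r (closeP 1 cap1 B0 n0) /
        (((n0 : ℝ) * Real.sqrt n0) ^ r * (closeP 1 cap1 B0 n0).eval 1)|
      ≤ ((D * W) ^ K1 / qn n + D ^ K1 / Real.sqrt W) / lam ^ r +
        D ^ K1 * (Real.log n) ^ (r + 1) * lam

/-- the moment of order `r` of `T / E[T]` under the weights -/
noncomputable def QModel.mom {D : ℕ → ℝ} (M : QModel D) (n r : ℕ) : ℝ :=
  ((∑ y : M.Omega n, M.wt n y * M.T n y ^ r) / M.W n) /
    ((∑ y : M.Omega n, M.wt n y * M.T n y) / M.W n) ^ r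

/-- MOMC (from MOMD, MOMA, QRAT, SMM, QPAR): limits for the area polynomials of a sequence of
models. PROOF. `l n = log n + 2`, `n0 n = ⌊2 sig2 n / mbar⌋₊`, `lam n = (D n * l n)^-K3`,
`W n = (D n * l n)^K4` (`K3`, then `K4` large, for each `r`): `Sc0 K0 (D n) (W n) (G n) n (n0 n)` and
`D^K0 ≤ W` hold eventually since `(D n)^j (l n)^j / n → 0` for all `j` (`Slow`), and the bounds of MOMD and
QRAT tend to zero. `n0 n → ∞` (QPAR: `n ≤ D^K1 n0`). So with `κ n = 2 sig2/(hbar n0 √n0)`: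
`κ^r mr r P / P(1) → kap r / kap 0` for every `r` (MOMD, SMM), `kap 1 / kap 0 > 0` (`KCS.IDN`:
`kap_one`, `kap_zero_pos`); quotient and `KCS.IDN.kap_ratio` give (1). (2): `κ mr 1 P / P(1) ≥ c > 0` eventually,
`1/κ ≥ D^-K n √n` (`par_bounds`, QPAR). (3) MOMA. (4) the first part of QRAT. -/
def MOMC_Stmt : Prop := ∀ D : ℕ → ℝ, Slow D → ∀ M : QModel D,
  (∀ r : ℕ, Tendsto (fun n : ℕ => (mr r (M.P n) / (M.P n).eval 1) /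
    (mr 1 (M.P n) / (M.P n).eval 1) ^ r) atTop (𝓝 (airyMoment r))) ∧
  (∃ K : ℕ, ∀ᶠ n : ℕ in atTop, (D n ^ K)⁻¹ * ((n : ℝ) * Real.sqrt n) ≤
    mr 1 (M.P n) / (M.P n).eval 1) ∧
  (∀ r : ℕ, ∃ K : ℕ, ∀ᶠ n : ℕ in atTop, mr r (M.P n) / (M.P n).eval 1 ≤
    D n ^ K * ((n : ℝ) * Real.sqrt n * Real.log n) ^ r) ∧
  ∃ K : ℕ, ∀ᶠ n : ℕ in atTop, (D n ^ K)⁻¹ ≤ ((n : ℝ) * Real.sqrt n) * (M.G n).rho ^ n *
    (M.P n).eval 1

/-- moments of the error of the area functional -/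
def NearP {D : ℕ → ℝ} (M : QModel D) : Prop := ∀ p : ℕ, ∃ K : ℕ, ∀ᶠ n : ℕ in atTop,
  ∑ x ∈ M.good n, M.wt n x * |M.T n x - M.A n x| ^ p ≤
    (D n ^ K * n * Real.log n) ^ p * ∑ x ∈ M.good n, M.wt n x +
      D n ^ K * (M.c n / ((n : ℝ) ^ 2 * (M.G n).rho ^ n))

/-- moments over the bad part -/
def BadP {D : ℕ → ℝ} (M : QModel D) : Prop := ∀ p : ℕ, ∀ᶠ n : ℕ in atTop,
  ∑ x : M.Omega n, M.wt n x * M.T n x ^ p - ∑ x ∈ M.good n, M.wt n x * M.T n x ^ p ≤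
    M.c n / ((n : ℝ) ^ 2 * (M.G n).rho ^ n)

/-- MOMK (from MOMC): moments of `T`. PROOF. `Wg = ∑_good wt = c P(1)`, `∑_good wt A^r = c mr r P` (count
at `X = 1` and its moments: `mr` is additive), `E` = average over the good part with respect to `wt`,
`δ = |T - A|`. By MOMC `c/(n^2 ρ^n) ≤ Wg D^K / √n`. NearP: `E δ^p ≤ (D^K n log n)^p + D^K/√n ≤ (D^K' n log n)^p`
eventually (`p ≥ 1`). For `r ≥ 1`: `|T^r - A^r| ≤ r δ (A + T)^(r-1) ≤ r δ (2 A + δ)^(r-1) ≤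
r 4^r (δ A^(r-1) + δ^r)`; Cauchy-Schwarz: `E[δ A^(r-1)] ≤ √(E δ^2) √(E A^(2r-2)) ≤ D^K (n log n) (n √n log n)^(r-1)` by
MOMC (3). Divided by `(E A)^r ≥ (D^-K n √n)^r` this is at most `D^K (log n)^r / √n → 0` (`Slow`). So
`E T^r / (E A)^r - E A^r / (E A)^r → 0`, in particular `E T / E A → 1`, hence `E T^r / (E T)^r → airyMoment r`
by MOMC (1). Bad part: `0 ≤ ∑_Ω wt T^p - ∑_good wt T^p ≤ Wg D^K / √n` (BadP), for `p = 0` the total weight, so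
`M.W / Wg → 1` and `(∑_Ω wt T^p)/(Wg (E A)^p) - E T^p/(E A)^p → 0`. The case `r = 0`: `airyMoment 0 = 1`
(from MOMC (1): both are limits of `1`). -/
def MOMK_Stmt : Prop := ∀ D : ℕ → ℝ, Slow D → ∀ M : QModel D, NearP M → BadP M →
  ∀ r : ℕ, Tendsto (fun n : ℕ => M.mom n r) atTop (𝓝 (airyMoment r))

/-! ### Polygons -/

/-- NEARP (old QNEAR with all powers of `n`). PROOF. The text of `EXW.QNEAR.core`: in
`FL.NEAR.inner` the pointwise bound is `|..| ≤ 4 L n + (fE + vv L k)` with `fE, vv ≥ 0`, so the same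
proof bounds `∑ wtq * max 0 (|..| - 4 L n)` by the second part alone. Take `L = ⌈(J+1)/(-log q) * log n⌉`, so
`q^L ≤ n^-(J+1)`, and `4 L ≤ D^K log n`. -/
def NEARP_Stmt : Prop := ∀ J : ℕ, ∃ K : ℕ, ∀ D : ℝ, 2 ≤ D →
  ∀ (n : ℕ) (s rho : ℝ), 2 ≤ n → 0 < s → s ≤ 1 → 0 < rho →
    ∑ p ∈ Pc (2 * n - 1), rho ^ hl p * s ^ (hl p - htn p) = 1 → Tails D (1 - D⁻¹) n s rho →
    ∑ q ∈ M41.Om (2 * n - 1) n, wtq n s q *
      max 0 (|(|((dbl 0 q.2.2.2 + dbl 0 q.2.2.1 : ℤ) : ℝ)| - (M41.Ar (2 * n - 1) q.2.2.2 : ℝ))| -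
        D ^ K * n * Real.log n) ≤ D ^ K / ((n : ℝ) ^ J * rho ^ n)

/-- PDIF (from NEARP). PROOF. `δ(q)` the error, `L = D^K n log n` (`K` of NEARP with
`J = 3 p + 2`). Pointwise `δ ≤ 4 (2n+1)^2 n ≤ 36 n^3` for `q` in `Om (2n-1) n` (inside the proof of
`near` in `M41.model`, `Lib_helper41/SapR/Model.lean`; the K-statements are proved in
`Lib_helper66/SapR`). If `δ ≤ L + 1` then `δ^p ≤ (L + 1)^p`, else `δ^p ≤ (36 n^3)^p max 0 (δ - L)`. -/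
def PDIF_Stmt : Prop := ∀ p : ℕ, ∃ K : ℕ, ∀ D : ℝ, 2 ≤ D →
  ∀ (n : ℕ) (s rho : ℝ), 2 ≤ n → 0 < s → s ≤ 1 → 0 < rho →
    ∑ p ∈ Pc (2 * n - 1), rho ^ hl p * s ^ (hl p - htn p) = 1 → Tails D (1 - D⁻¹) n s rho →
    ∑ q ∈ M41.Om (2 * n - 1) n, wtq n s q *
      |(|((dbl 0 q.2.2.2 + dbl 0 q.2.2.1 : ℤ) : ℝ)| - (M41.Ar (2 * n - 1) q.2.2.2 : ℝ))| ^ p ≤
    (D ^ K * n * Real.log n) ^ p * ∑ q ∈ M41.Om (2 * n - 1) n, wtq n s q +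
      D ^ K * (1 / ((n : ℝ) ^ 2 * rho ^ n))

/-- the moment of order `r` on the sample space -/
noncomputable def momO (n : ℕ) (s : ℝ) (r : ℕ) : ℝ :=
  ((∑ y : Omg n, wtO n s y * (TZ n y : ℝ) ^ r) / ∑ y : Omg n, wtO n s y) /
    ((∑ y : Omg n, wtO n s y * (TZ n y : ℝ)) / ∑ y : Omg n, wtO n s y) ^ r

/-- MOD3 (from QNEAR, PDIF). PROOF. The sequence of models of `EXW.t_MOD2` (copy the text, or
extract it as a definition). Moments: `rfl`. NearP: PDIF for `mx N0 n = n` (`n ≥ N0`), `M ≤ D`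
(`Tails` for `M`), `sum_goodO` as in `near`. BadP: as in `FL.bad_bound`: the difference is
`∑_{w ∈ NoCut n} 1/(4n) s^(n - spn w) |dbl 0 w|^p`, `|dbl 0 w| ≤ 4 n^2` (`H66.abs_dbl_le`), `Tails` third part:
`≤ (4 n^2)^p/(4n) M n θ^n / ρ^n`, which is at most `1/(n^2 ρ^n)` eventually by the last hypothesis. -/
def MOD3_Stmt : Prop := ∃ Kn : ℕ, ∀ (M D f : ℕ → ℝ) (N0 : ℕ), 2 ≤ N0 → (∀ n, 2 ≤ M n) →
  (∀ n, M n ≤ D n) → (∀ n, 0 < f n) →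
  (∀ j : ℕ, Tendsto (fun n : ℕ => kap0 (M n ^ Kn) (M n) (1 - (M n)⁻¹) n * D n ^ j)
    atTop (𝓝 0)) →
  (∀ i j : ℕ, Tendsto (fun n : ℕ => (n : ℝ) ^ i * D n ^ j * (1 - (M n)⁻¹) ^ n) atTop (𝓝 0)) →
  ∀ (d : ∀ n, Dat (M n) (1 - (M n)⁻¹) (mx N0 n) (Real.exp (-f n))) (V : ℕ → ℤ → ℝ),
    (∀ n, CritSol (D n) (d n).G
      (GE.sr (d n).G.rho (2 * mx N0 n) (capW (mx N0 n) (Real.exp (-f n)))) (V n)) →
  ∃ Q : QModel D, (∀ n x, Q.cdf n x = cdfO (mx N0 n) (Real.exp (-f n)) x) ∧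
    (∀ n r, Q.mom n r = momO (mx N0 n) (Real.exp (-f n)) r) ∧ NearP Q ∧ BadP Q

/-- SLOW3: sequences (pure analysis). PROOF. As SLOW2: `(1 - 1/M)^n ≤ exp(-n/M)` and `M ≤ √n`
eventually (`Mf A (f n) ^ K ≤ n` eventually for every `K`, SLOW2), so the product is at most
`n^(i+j) exp(-√n) → 0`. -/
def SLOW3_Stmt : Prop := ∀ A : ℝ, 1 ≤ A → ∀ f : ℕ → ℝ,
  Tendsto (fun n : ℕ => f n * Real.log n) atTop atTop → ∀ i j : ℕ,
    Tendsto (fun n : ℕ => (n : ℝ) ^ i * Mf A (f n) ^ j * (1 - (Mf A (f n))⁻¹) ^ n) atTop (𝓝 0)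

/-- TRM: the moments of the polygons on the sample space. PROOF. As `FL.forceCdf_eq` (in
`Lib_helper89/FL/FinB.lean`): `FL.transfer` with `Φ a = a^r`, `1`, `a`; `area = |dbl| / 2`, the factor `2^-r`
and the common factor cancel. -/
def TRM_Stmt : Prop := ∀ (n : ℕ) (f : ℝ) (r : ℕ), 1 ≤ n →
  forceMoment f n r = momO n (Real.exp (-f)) r

/-- the final theorem, version 3: law and moments -/
def FINAL3_Stmt : Prop := ∃ μ : Measure ℝ, IsProbabilityMeasure μ ∧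
  (∀ r : ℕ, Integrable (fun x : ℝ => x ^ r) μ ∧ ∫ x, x ^ r ∂μ = airyMoment r) ∧
  (∀ x : ℝ, μ {x} = 0 →
    Tendsto (fun n : ℕ => areaCdf n (Staircase n) x) atTop (𝓝 (μ (Set.Iic x)).toReal)) ∧
  ∀ f : ℕ → ℝ, Tendsto (fun n : ℕ => f n * Real.log n) atTop atTop →
    (∀ x : ℝ, μ {x} = 0 →
      Tendsto (fun n : ℕ => forceCdf (f n) n x) atTop (𝓝 (μ (Set.Iic x)).toReal)) ∧
    ∀ r : ℕ, Tendsto (fun n : ℕ => forceMoment (f n) n r) atTop (𝓝 (airyMoment r))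

end Pool.Agent.EXW
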