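import Pool.Agent.EXW.Stmts3

/-!
# Project EXW, version 3, module CHB: Chernoff bound of the maximal gap (MP_f6626d_co)

`CHB_Stmt` of `Stmts3.lean`. The exponential moment of a step is `1 + O(D^13 τ^2)`, so
`ρ^n u n g ≤ D^2 exp (ψ n + τ (g - g0))` with `ψ = D^13 τ^2`, and `τ = g0 / (2 D^13 n)`.
-/

set_option autoImplicit false

namespace Pool.Agent.EXW

open Finset Pool.Agent.Gap Pool.Agent.FL

namespace CHB

variable {D : ℝ} {G : GapKernel} {C0 : ℕ} {s t : ℕ → ℤ → ℝ} {B : ℕ → ℤ → Polynomial ℝ}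

/-- row sums of the kernel are at most sums of the translation invariant kernel -/
lemma row (G : GapKernel) (i : ℕ × ℕ) (g : ℤ) (w : ℤ → ℝ) (hw : ∀ g', 0 ≤ w g') :
    ∑ g' ∈ Icc (g - G.R) (g + G.R), G.K i g g' * w g' ≤
      ∑ d ∈ Icc (-(G.R : ℤ)) G.R, G.T i d * w (g + d) := by
  have h : ∑ g' ∈ Icc (g - (G.R : ℤ)) (g + G.R), G.K i g g' * w g' =
      ∑ d ∈ Icc (-(G.R : ℤ)) G.R, G.K i g (g + d) * w (g + d) := by
    refine Finset.sum_nbij' (fun g' => g' - g) (fun d => g + d) ?_ ?_ ?_ ?_ ?_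
    · intro a ha
      rw [Finset.mem_Icc] at ha ⊢
      omega
    · intro a ha
      rw [Finset.mem_Icc] at ha ⊢
      omega
    · intro a _
      ring
    · intro a _
      ring
    · intro a _
      have : g + (a - g) = a := by ring
      simp only [this]
  rw [h]
  refine Finset.sum_le_sum fun d _ => ?_
  have h1 := G.K_le i g (g + d)
  rw [add_sub_cancel_left] at h1
  exact mul_le_mul_of_nonneg_right h1 (hw _)

/-- one step of the recursion -/
lemma step_le (G : GapKernel) (n : ℕ) (g : ℤ) (x : ℕ → ℤ → ℝ) (W : ℕ × ℕ → ℤ → ℝ)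
    (hW : ∀ i g', 0 ≤ W i g')
    (hx : ∀ i ∈ G.S, i.1 ≤ n → ∀ g', G.rho ^ (n - i.1) * x (n - i.1) g' ≤ W i g') :
    G.rho ^ n * ∑ i ∈ G.S, (if i.1 ≤ n then
      ∑ g' ∈ Icc (g - G.R) (g + G.R), G.K i g g' * x (n - i.1) g' else 0) ≤
    ∑ i ∈ G.S, G.rho ^ i.1 * ∑ d ∈ Icc (-(G.R : ℤ)) G.R, G.T i d * W i (g + d) := by
  rw [Finset.mul_sum]
  refine Finset.sum_le_sum fun i hi => ?_
  have hr : 0 ≤ G.rho ^ i.1 := pow_nonneg G.rho_pos.le _
  split_ifs with h
  · refine le_trans ?_ (mul_le_mul_of_nonneg_left (row G i g (W i) (hW i)) hr)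
    have e : G.rho ^ n = G.rho ^ i.1 * G.rho ^ (n - i.1) := by
      rw [← pow_add]
      congr 1
      omega
    rw [e, mul_assoc]
    refine mul_le_mul_of_nonneg_left ?_ hr
    rw [Finset.mul_sum]
    refine Finset.sum_le_sum fun g' _ => ?_
    calc G.rho ^ (n - i.1) * (G.K i g g' * x (n - i.1) g')
        = G.K i g g' * (G.rho ^ (n - i.1) * x (n - i.1) g') := by ring
      _ ≤ _ := mul_le_mul_of_nonneg_left (hx i hi h g') (G.K_nonneg i g g')
  · rw [mul_zero]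
    exact mul_nonneg hr (Finset.sum_nonneg fun d _ => mul_nonneg (G.T_nonneg i d) (hW _ _))

/-- the values at `X = 1` satisfy the recursion -/
lemma ev_step (hB : IsSol G s B) (n : ℕ) (g : ℤ) (hg : 1 ≤ g) :
    (B n g).eval 1 = s n g + ∑ i ∈ G.S, if i.1 ≤ n then
      ∑ g' ∈ Icc (g - G.R) (g + G.R), G.K i g g' * (B (n - i.1) g').eval 1 else 0 := by
  rw [hB.step n g hg, Polynomial.eval_add, Polynomial.eval_C, Polynomial.eval_finsetSum]
  congr 1
  refine Finset.sum_congr rfl fun i _ => ?_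
  split_ifs
  · rw [Polynomial.eval_finsetSum]
    refine Finset.sum_congr rfl fun g' _ => ?_
    simp
  · simp

/-- the source -/
lemma src_le (hD : 2 ≤ D) (hs : ClsCap D (1 - D⁻¹) G C0 s) (n : ℕ) (g : ℤ) :
    G.rho ^ n * s n g ≤ D * (1 - D⁻¹) ^ n := by
  have hθ := th_pos hD
  by_cases h : g ∈ Icc (1 : ℤ) n
  · refine le_trans ?_ (hs.dec n)
    exact Finset.single_le_sum (f := fun g : ℤ => G.rho ^ n * s n g)
      (fun g _ => mul_nonneg (pow_nonneg G.rho_pos.le _) (hs.cap.nonneg n g)) h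
  · have h0 : s n g = 0 := by
      rw [Finset.mem_Icc] at h
      rcases lt_or_ge g 1 with h1 | h1
      · exact hs.cap.supp_g n g (Or.inl h1)
      · exact hs.supp n g (by omega)
    rw [h0, mul_zero]
    positivity

lemma geo_sum (hD : 2 ≤ D) (n : ℕ) : ∑ m ∈ range n, (1 - D⁻¹) ^ m ≤ D := by
  have hθ := th_pos hD
  have h1 := th_lt hD
  have hD0 : 0 < D := by linarith
  have h2 : ∑ m ∈ range n, (1 - D⁻¹) ^ m ≤ (1 - (1 - D⁻¹))⁻¹ :=
    (summable_geometric_of_lt_one hθ.le h1).sum_le_tsum _ (fun m _ => by positivity) |>.trans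
      (le_of_eq (tsum_geometric_of_lt_one hθ.le h1))
  refine h2.trans (le_of_eq ?_)
  rw [sub_sub_cancel, inv_inv]

/-- bound of the critical array -/
lemma a_le (hD : 2 ≤ D) (hs : ClsCap D (1 - D⁻¹) G C0 s) (hB : IsSol G s B) :
    ∀ (n : ℕ) (g : ℤ), G.rho ^ n * (B n g).eval 1 ≤
      ∑ m ∈ range (n + 1), D * (1 - D⁻¹) ^ m := by
  have hθ := th_pos hD
  have hD0 : 0 < D := by linarith
  have mono : ∀ {a b : ℕ}, a ≤ b →
      ∑ m ∈ range a, D * (1 - D⁻¹) ^ m ≤ ∑ m ∈ range b, D * (1 - D⁻¹) ^ m := by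
    intro a b h
    exact Finset.sum_le_sum_of_subset_of_nonneg (Finset.range_mono h)
      fun m _ _ => by positivity
  intro n
  induction n using Nat.strong_induction_on with
  | _ n ih =>
    intro g
    rcases lt_or_ge g 1 with hg | hg
    · rw [hB.zero n g hg, Polynomial.eval_zero, mul_zero]
      exact Finset.sum_nonneg fun m _ => by positivity
    · rw [ev_step hB n g hg, mul_add, Finset.sum_range_succ, add_comm]
      refine add_le_add ?_ (src_le hD hs n g)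
      set A : ℝ := ∑ m ∈ range n, D * (1 - D⁻¹) ^ m with hA
      have hA0 : 0 ≤ A := Finset.sum_nonneg fun m _ => by positivity
      have h1 := step_le G n g (fun m g' => (B m g').eval 1) (fun _ _ => A) (fun _ _ => hA0)
        (fun i hi hin g' => by
          have h2 := (G.pos_mem i hi).1
          refine (ih (n - i.1) (by omega) g').trans (mono ?_)
          omega)
      refine h1.trans (le_of_eq ?_)
      have h3 : ∑ i ∈ G.S, G.rho ^ i.1 * ∑ d ∈ Icc (-(G.R : ℤ)) G.R, G.T i d * A =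
          (∑ i ∈ G.S, G.rho ^ i.1 * ∑ d ∈ Icc (-(G.R : ℤ)) G.R, G.T i d) * A := by
        rw [Finset.sum_mul]
        refine Finset.sum_congr rfl fun i _ => ?_
        rw [← Finset.sum_mul, mul_assoc]
      rw [h3, G.crit, one_mul]

lemma a_le' (hD : 2 ≤ D) (hs : ClsCap D (1 - D⁻¹) G C0 s) (hB : IsSol G s B) (n : ℕ) (g : ℤ) :
    G.rho ^ n * (B n g).eval 1 ≤ D ^ 2 := by
  refine (a_le hD hs hB n g).trans ?_
  rw [← Finset.mul_sum, pow_two]
  exact mul_le_mul_of_nonneg_left (geo_sum hD _) (by linarith)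

/-- second order bound of the exponential -/
lemma exp_le (x : ℝ) : Real.exp x ≤ 1 + x + |x| ^ 2 * Real.exp |x| := by
  have h := Complex.norm_exp_sub_sum_le_norm_mul_exp (x : ℂ) 2
  have e : Complex.exp (x : ℂ) - ∑ m ∈ range 2, (x : ℂ) ^ m / (m.factorial : ℂ) =
      ((Real.exp x - (1 + x) : ℝ) : ℂ) := by
    rw [Finset.sum_range_succ, Finset.sum_range_one]
    push_cast
    simp
  rw [e, Complex.norm_real, Complex.norm_real, Real.norm_eq_abs, Real.norm_eq_abs] at h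
  have := le_abs_self (Real.exp x - (1 + x))
  linarith

/-- the first moment of a piece type vanishes -/
lemma first (G : GapKernel) (i : ℕ × ℕ) :
    ∑ d ∈ Icc (-(G.R : ℤ)) G.R, G.T i d * (d : ℝ) = 0 := by
  have h : ∑ d ∈ Icc (-(G.R : ℤ)) G.R, G.T i d * (d : ℝ) =
      ∑ d ∈ Icc (-(G.R : ℤ)) G.R, G.T i (-d) * ((-d : ℤ) : ℝ) := by
    refine Finset.sum_nbij' (fun d => -d) (fun d => -d) ?_ ?_ ?_ ?_ ?_
    · intro a ha
      rw [Finset.mem_Icc] at ha ⊢
      omega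
    · intro a ha
      rw [Finset.mem_Icc] at ha ⊢
      omega
    · intro a _
      ring
    · intro a _
      ring
    · intro a _
      simp only [neg_neg]
  have h2 : ∑ d ∈ Icc (-(G.R : ℤ)) G.R, G.T i (-d) * ((-d : ℤ) : ℝ) =
      -∑ d ∈ Icc (-(G.R : ℤ)) G.R, G.T i d * (d : ℝ) := by
    rw [← Finset.sum_neg_distrib]
    refine Finset.sum_congr rfl fun d _ => ?_
    rw [G.T_even]
    push_cast
    ring
  rw [h2] at h
  linarith

/-- exponential moment of one piece type -/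
lemma one_type (hG : Loc G) {τ : ℝ} (hτ : 0 ≤ τ) (i : ℕ × ℕ) :
    ∑ d ∈ Icc (-(G.R : ℤ)) G.R, G.T i d * Real.exp (τ * d) ≤
      G.tot i + 4 * τ ^ 2 * (((i.1 : ℝ) ^ 2 * Real.exp (2 * τ) ^ i.1) * G.tot i) := by
  have key : ∀ d : ℤ, G.T i d * Real.exp (τ * d) ≤ G.T i d + τ * (G.T i d * (d : ℝ)) +
      4 * τ ^ 2 * ((i.1 : ℝ) ^ 2 * Real.exp (2 * τ) ^ i.1) * G.T i d := by
    intro d
    rcases lt_or_ge (2 * (i.1 : ℤ)) |d| with h5 | h5
    · rw [hG.T_loc i d h5]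
      simp
    · have h6 : |(d : ℝ)| ≤ 2 * (i.1 : ℝ) := by exact_mod_cast h5
      have h7 := exp_le (τ * d)
      have h8 : |τ * (d : ℝ)| ≤ τ * (2 * (i.1 : ℝ)) := by
        rw [abs_mul, abs_of_nonneg hτ]
        exact mul_le_mul_of_nonneg_left h6 hτ
      have h9 : |τ * (d : ℝ)| ^ 2 * Real.exp |τ * (d : ℝ)| ≤
          4 * τ ^ 2 * ((i.1 : ℝ) ^ 2 * Real.exp (2 * τ) ^ i.1) := by
        have e1 : |τ * (d : ℝ)| ^ 2 ≤ (τ * (2 * (i.1 : ℝ))) ^ 2 :=
          pow_le_pow_left₀ (abs_nonneg _) h8 2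
        have e2 : Real.exp |τ * (d : ℝ)| ≤ Real.exp (2 * τ) ^ i.1 := by
          rw [← Real.exp_nat_mul]
          apply Real.exp_le_exp.2
          linarith
        calc |τ * (d : ℝ)| ^ 2 * Real.exp |τ * (d : ℝ)|
            ≤ (τ * (2 * (i.1 : ℝ))) ^ 2 * Real.exp (2 * τ) ^ i.1 :=
              mul_le_mul e1 e2 (Real.exp_pos _).le (by positivity)
          _ = _ := by ring
      have hT := G.T_nonneg i d
      calc G.T i d * Real.exp (τ * d)
          ≤ G.T i d * (1 + τ * d + 4 * τ ^ 2 * ((i.1 : ℝ) ^ 2 * Real.exp (2 * τ) ^ i.1)) :=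
            mul_le_mul_of_nonneg_left (by linarith) hT
        _ = _ := by ring
  calc ∑ d ∈ Icc (-(G.R : ℤ)) G.R, G.T i d * Real.exp (τ * d)
      ≤ ∑ d ∈ Icc (-(G.R : ℤ)) G.R, (G.T i d + τ * (G.T i d * (d : ℝ)) +
        4 * τ ^ 2 * ((i.1 : ℝ) ^ 2 * Real.exp (2 * τ) ^ i.1) * G.T i d) :=
        Finset.sum_le_sum fun d _ => key d
    _ = G.tot i + τ * 0 +
        4 * τ ^ 2 * ((i.1 : ℝ) ^ 2 * Real.exp (2 * τ) ^ i.1) * G.tot i := by
        rw [Finset.sum_add_distrib, Finset.sum_add_distrib, ← Finset.mul_sum, ← Finset.mul_sum,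
          first G i]
        rfl
    _ = _ := by ring

/-- `θ exp (2 τ) ≤ 1 - 1/(4D)` -/
lemma rate (hD : 2 ≤ D) {τ : ℝ} (hτ : τ ≤ 1 / (8 * D)) :
    Real.exp (2 * τ) * (1 - D⁻¹) ≤ 1 - (4 * D)⁻¹ := by
  have hD0 : 0 < D := by linarith
  have hx := inv_le_half hD
  have hx0 : 0 < D⁻¹ := inv_pos.2 hD0
  have e1 : 2 * τ ≤ D⁻¹ / 4 := by
    have : 1 / (8 * D) = D⁻¹ / 8 := by
      field_simp
    rw [this] at hτ
    linarith
  have e2 : 1 - D⁻¹ ≤ Real.exp (-D⁻¹) := by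
    have := Real.add_one_le_exp (-D⁻¹)
    linarith
  have e3 : (4 * D)⁻¹ = D⁻¹ / 4 := by rw [mul_inv]; ring
  rw [e3]
  calc Real.exp (2 * τ) * (1 - D⁻¹) ≤ Real.exp (D⁻¹ / 4) * Real.exp (-D⁻¹) :=
        mul_le_mul (Real.exp_le_exp.2 e1) e2 (th_pos hD).le (Real.exp_pos _).le
    _ = (Real.exp (3 * D⁻¹ / 4))⁻¹ := by
        rw [← Real.exp_add, ← Real.exp_neg]
        congr 1
        ring
    _ ≤ (1 + 3 * D⁻¹ / 4)⁻¹ := by
        refine inv_anti₀ (by positivity) ?_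
        have := Real.add_one_le_exp (3 * D⁻¹ / 4)
        linarith
    _ ≤ 1 - D⁻¹ / 4 := by
        rw [inv_le_comm₀ (by positivity) (by linarith), inv_le_iff_one_le_mul₀ (by linarith)]
        nlinarith

/-- exponential moment of a step -/
lemma mgf (hD : 2 ≤ D) (hG : Cls D (1 - D⁻¹) G) {τ : ℝ} (h0 : 0 ≤ τ) (hτ : τ ≤ 1 / (8 * D)) :
    ∑ i ∈ G.S, G.rho ^ i.1 * ∑ d ∈ Icc (-(G.R : ℤ)) G.R, G.T i d * Real.exp (τ * d) ≤
      1 + D ^ 13 * τ ^ 2 := by
  have hD0 : 0 < D := by linarith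
  have hθ := th_pos hD
  have hr := rate hD hτ
  have h4D : 0 < (4 * D)⁻¹ := by positivity
  set q : ℝ := Real.exp (2 * τ) * (1 - D⁻¹) with hq
  have hq0 : 0 ≤ q := by positivity
  have hq1 : q < 1 := by linarith
  have hs : Summable fun m : ℕ => (m : ℝ) ^ 2 * q ^ m :=
    summable_pow_mul_geometric_of_norm_lt_one 2 (by rwa [Real.norm_of_nonneg hq0])
  have hF : ∀ m : ℕ, ((m : ℝ) ^ 2 * Real.exp (2 * τ) ^ m) * (1 - D⁻¹) ^ m =
      (m : ℝ) ^ 2 * q ^ m := by
    intro m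
    rw [hq, mul_pow]
    ring
  have h1 := GSum.sum_le hG hD0.le hθ.le (F := fun m => (m : ℝ) ^ 2 * Real.exp (2 * τ) ^ m)
    (fun m => by positivity) (hs.congr fun m => (hF m).symm)
  simp only [hF] at h1
  have h2 : ∑' m : ℕ, (m : ℝ) ^ 2 * q ^ m ≤ 2 / (4 * D)⁻¹ ^ 3 := by
    have h3 := geo_le 2 hq0 h4D hr
    refine le_trans ?_ (h3.trans (le_of_eq (by norm_num)))
    refine hs.tsum_le_tsum (fun m => ?_) (summable_geo 2 hq0 hq1)
    have : (m : ℝ) ^ 2 ≤ ((m : ℝ) + 1) ^ 2 := pow_le_pow_left₀ (by positivity) (by linarith) 2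
    exact mul_le_mul_of_nonneg_right this (by positivity)
  have h3 : (2 : ℝ) / (4 * D)⁻¹ ^ 3 = 128 * D ^ 3 := by
    rw [inv_pow, div_inv_eq_mul]
    ring
  rw [h3] at h2
  have h4 : D * ∑' m : ℕ, (m : ℝ) ^ 2 * q ^ m ≤ 128 * D ^ 4 := by
    calc D * ∑' m : ℕ, (m : ℝ) ^ 2 * q ^ m ≤ D * (128 * D ^ 3) :=
          mul_le_mul_of_nonneg_left h2 hD0.le
      _ = _ := by ring
  have h5 : (512 : ℝ) * D ^ 4 ≤ D ^ 13 := by
    have h6 : (2 : ℝ) ^ 9 ≤ D ^ 9 := pow_le_pow_left₀ (by norm_num) hD 9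
    have h7 : 0 ≤ D ^ 4 := by positivity
    calc (512 : ℝ) * D ^ 4 = 2 ^ 9 * D ^ 4 := by norm_num
      _ ≤ D ^ 9 * D ^ 4 := mul_le_mul_of_nonneg_right h6 h7
      _ = _ := by ring
  have h8 : ∑ i ∈ G.S, G.rho ^ i.1 * ∑ d ∈ Icc (-(G.R : ℤ)) G.R, G.T i d * Real.exp (τ * d) ≤
      ∑ i ∈ G.S, (G.rho ^ i.1 * G.tot i + 4 * τ ^ 2 *
        ((((i.1 : ℝ)) ^ 2 * Real.exp (2 * τ) ^ i.1) * (G.rho ^ i.1 * G.tot i))) := by
    refine Finset.sum_le_sum fun i _ => ?_
    refine (mul_le_mul_of_nonneg_left (one_type hG.loc h0 i)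
      (pow_nonneg G.rho_pos.le i.1)).trans (le_of_eq ?_)
    ring
  refine h8.trans ?_
  rw [Finset.sum_add_distrib, ← Finset.mul_sum, GSum.crit']
  have h9 : 4 * τ ^ 2 * ∑ i ∈ G.S, (((i.1 : ℝ)) ^ 2 * Real.exp (2 * τ) ^ i.1) *
      (G.rho ^ i.1 * G.tot i) ≤ 4 * τ ^ 2 * (128 * D ^ 4) :=
    mul_le_mul_of_nonneg_left (h1.trans h4) (by positivity)
  have h10 : 4 * τ ^ 2 * (128 * D ^ 4) ≤ D ^ 13 * τ ^ 2 := by
    calc 4 * τ ^ 2 * (128 * D ^ 4) = (512 * D ^ 4) * τ ^ 2 := by ring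
      _ ≤ _ := mul_le_mul_of_nonneg_right h5 (by positivity)
  linarith

end CHB

open CHB in
theorem t_CHB : CHB_Stmt := by
  refine ⟨15, fun D hD G hG C0 s t hs ht B hB g0 hg0 u hu0 hu1 hu2 n hn => ?_⟩
  have hD0 : 0 < D := by linarith
  have hD1 : 1 ≤ D := by linarith
  have hθ := th_pos hD
  have hg0' : (1 : ℝ) ≤ g0 := by exact_mod_cast hg0
  have hn' : (g0 : ℝ) ≤ n := by exact_mod_cast hn
  have hn0 : (0 : ℝ) < n := by linarith
  have hP : 0 < D ^ 13 := by positivity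
  set τ : ℝ := g0 / (2 * D ^ 13 * n) with hτd
  have hτ0 : 0 ≤ τ := by positivity
  have hτ1 : τ ≤ 1 / (8 * D) := by
    rw [hτd, div_le_div_iff₀ (by positivity) (by positivity)]
    have h1 : (2 : ℝ) ^ 12 ≤ D ^ 12 := pow_le_pow_left₀ (by norm_num) hD 12
    have h2 : 8 * D ≤ 2 * D ^ 13 := by
      have : 2 * D ^ 13 = (2 * D) * D ^ 12 := by ring
      rw [this]
      nlinarith
    calc (g0 : ℝ) * (8 * D) ≤ n * (2 * D ^ 13) :=
          mul_le_mul hn' h2 (by positivity) (by positivity)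
      _ = 1 * (2 * D ^ 13 * n) := by ring
  set ψ : ℝ := D ^ 13 * τ ^ 2 with hψd
  have hψ0 : 0 ≤ ψ := by positivity
  have hM := mgf hD hG hτ0 hτ1
  -- the main claim
  have claim : ∀ (k : ℕ) (g : ℤ),
      G.rho ^ k * u k g ≤ D ^ 2 * Real.exp (ψ * k + τ * ((g : ℝ) - g0)) := by
    intro k
    induction k using Nat.strong_induction_on with
    | _ k ih =>
      intro g
      rcases lt_or_ge g 1 with hg | hg
      · rw [hu0 k g hg, mul_zero]
        positivity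
      rcases lt_or_ge (g0 : ℤ) g with hg2 | hg2
      · rw [hu1 k g hg2]
        refine (a_le' hD hs hB k g).trans ?_
        have h1 : (g0 : ℝ) ≤ g := by exact_mod_cast hg2.le
        have h2 : 1 ≤ Real.exp (ψ * k + τ * ((g : ℝ) - g0)) := by
          apply Real.one_le_exp
          have : 0 ≤ τ * ((g : ℝ) - g0) := mul_nonneg hτ0 (by linarith)
          positivity
        have h3 : 0 ≤ D ^ 2 := by positivity
        nlinarith
      · rw [hu2 k g hg hg2]
        have h1 := step_le G k g u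
          (fun i g' => D ^ 2 * Real.exp (ψ * ((k : ℝ) - i.1) + τ * ((g' : ℝ) - g0)))
          (fun i g' => by positivity)
          (fun i hi hik g' => by
            have h2 := (G.pos_mem i hi).1
            have h3 := ih (k - i.1) (by omega) g'
            rwa [Nat.cast_sub hik] at h3)
        refine h1.trans ?_
        have h4 : ∑ i ∈ G.S, G.rho ^ i.1 * ∑ d ∈ Icc (-(G.R : ℤ)) G.R, G.T i d *
            (D ^ 2 * Real.exp (ψ * ((k : ℝ) - i.1) + τ * (((g + d : ℤ) : ℝ) - g0))) ≤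
            ∑ i ∈ G.S, (D ^ 2 * Real.exp (ψ * k + τ * ((g : ℝ) - g0)) * Real.exp (-ψ)) *
              (G.rho ^ i.1 * ∑ d ∈ Icc (-(G.R : ℤ)) G.R, G.T i d * Real.exp (τ * d)) := by
          refine Finset.sum_le_sum fun i hi => ?_
          have h5 : (1 : ℝ) ≤ i.1 := by exact_mod_cast (G.pos_mem i hi).1
          have hr : 0 ≤ G.rho ^ i.1 := pow_nonneg G.rho_pos.le _
          rw [← mul_assoc, mul_comm _ (G.rho ^ i.1), mul_assoc (G.rho ^ i.1)]
          refine mul_le_mul_of_nonneg_left ?_ hr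
          rw [Finset.mul_sum]
          refine Finset.sum_le_sum fun d _ => ?_
          have hT := G.T_nonneg i d
          have h6 : Real.exp (ψ * ((k : ℝ) - i.1) + τ * (((g + d : ℤ) : ℝ) - g0)) ≤
              Real.exp (ψ * k + τ * ((g : ℝ) - g0)) * Real.exp (-ψ) * Real.exp (τ * d) := by
            rw [← Real.exp_add, ← Real.exp_add]
            apply Real.exp_le_exp.2
            push_cast
            nlinarith
          calc G.T i d * (D ^ 2 *
                Real.exp (ψ * ((k : ℝ) - i.1) + τ * (((g + d : ℤ) : ℝ) - g0)))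
              ≤ G.T i d * (D ^ 2 *
                (Real.exp (ψ * k + τ * ((g : ℝ) - g0)) * Real.exp (-ψ) * Real.exp (τ * d))) := by
                gcongr
            _ = _ := by ring
        refine h4.trans ?_
        rw [← Finset.mul_sum]
        have h7 : Real.exp (-ψ) * (1 + ψ) ≤ 1 := by
          have h8 : 1 + ψ ≤ Real.exp ψ := by
            have := Real.add_one_le_exp ψ
            linarith
          calc Real.exp (-ψ) * (1 + ψ) ≤ Real.exp (-ψ) * Real.exp ψ :=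
                mul_le_mul_of_nonneg_left h8 (Real.exp_pos _).le
            _ = 1 := by rw [← Real.exp_add]; simp
        calc D ^ 2 * Real.exp (ψ * k + τ * ((g : ℝ) - g0)) * Real.exp (-ψ) *
              ∑ i ∈ G.S, G.rho ^ i.1 * ∑ d ∈ Icc (-(G.R : ℤ)) G.R, G.T i d * Real.exp (τ * d)
            ≤ D ^ 2 * Real.exp (ψ * k + τ * ((g : ℝ) - g0)) * Real.exp (-ψ) * (1 + ψ) :=
              mul_le_mul_of_nonneg_left hM (by positivity)
          _ = D ^ 2 * Real.exp (ψ * k + τ * ((g : ℝ) - g0)) * (Real.exp (-ψ) * (1 + ψ)) := by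
              ring
          _ ≤ D ^ 2 * Real.exp (ψ * k + τ * ((g : ℝ) - g0)) * 1 :=
              mul_le_mul_of_nonneg_left h7 (by positivity)
          _ = _ := mul_one _
  -- closing
  set E : ℝ := D ^ 2 * Real.exp (ψ * n - τ * g0) with hE
  have hE0 : 0 ≤ E := by positivity
  have hclose : G.rho ^ n * ∑ m ∈ range (n + 1), ∑ g ∈ Icc (1 : ℤ) C0, t m g * u (n - m) g ≤
      ∑ m ∈ range (n + 1), E * (D * (Real.exp (2 * τ) * (1 - D⁻¹)) ^ m) := by
    rw [Finset.mul_sum]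
    refine Finset.sum_le_sum fun m hm => ?_
    have hmn : m ≤ n := by
      rw [Finset.mem_range] at hm
      omega
    have hr : 0 ≤ G.rho ^ m := pow_nonneg G.rho_pos.le _
    have e : G.rho ^ n = G.rho ^ m * G.rho ^ (n - m) := by
      rw [← pow_add]
      congr 1
      omega
    have h1 : ∀ g ∈ Icc (1 : ℤ) C0, G.rho ^ n * (t m g * u (n - m) g) ≤
        if g ∈ Icc (1 : ℤ) m then E * Real.exp (2 * τ) ^ m * (G.rho ^ m * t m g) else 0 := by
      intro g hg
      rw [Finset.mem_Icc] at hg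
      have ht0 := ht.cap.nonneg m g
      split_ifs with h
      · rw [Finset.mem_Icc] at h
        have h2 := claim (n - m) g
        rw [Nat.cast_sub hmn] at h2
        have h3 : D ^ 2 * Real.exp (ψ * ((n : ℝ) - m) + τ * ((g : ℝ) - g0)) ≤
            E * Real.exp (2 * τ) ^ m := by
          rw [hE, ← Real.exp_nat_mul, mul_assoc (D ^ 2), ← Real.exp_add]
          refine mul_le_mul_of_nonneg_left (Real.exp_le_exp.2 ?_) (by positivity)
          have h4 : (g : ℝ) ≤ m := by exact_mod_cast h.2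
          have h5 : τ * g ≤ τ * m := mul_le_mul_of_nonneg_left h4 hτ0
          have h6 : 0 ≤ ψ * m := by positivity
          have h7 : 0 ≤ τ * m := by positivity
          nlinarith
        calc G.rho ^ n * (t m g * u (n - m) g)
            = (G.rho ^ m * t m g) * (G.rho ^ (n - m) * u (n - m) g) := by rw [e]; ring
          _ ≤ (G.rho ^ m * t m g) * (E * Real.exp (2 * τ) ^ m) :=
            mul_le_mul_of_nonneg_left (h2.trans h3) (by positivity)
          _ = _ := by ring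
      · have h2 : t m g = 0 := by
          apply ht.supp m g
          rw [Finset.mem_Icc] at h
          omega
        rw [h2, zero_mul, mul_zero]
    rw [Finset.mul_sum]
    refine (Finset.sum_le_sum h1).trans ?_
    rw [← Finset.sum_filter]
    have h2 : ∑ g ∈ Icc (1 : ℤ) C0 with g ∈ Icc (1 : ℤ) m,
        E * Real.exp (2 * τ) ^ m * (G.rho ^ m * t m g) ≤
        ∑ g ∈ Icc (1 : ℤ) m, E * Real.exp (2 * τ) ^ m * (G.rho ^ m * t m g) := by
      refine Finset.sum_le_sum_of_subset_of_nonneg (fun g hg => (Finset.mem_filter.1 hg).2) ?_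
      intro g _ _
      have ht0 := ht.cap.nonneg m g
      positivity
    refine h2.trans ?_
    rw [← Finset.mul_sum]
    calc E * Real.exp (2 * τ) ^ m * ∑ g ∈ Icc (1 : ℤ) m, G.rho ^ m * t m g
        ≤ E * Real.exp (2 * τ) ^ m * (D * (1 - D⁻¹) ^ m) :=
          mul_le_mul_of_nonneg_left (ht.dec m) (by positivity)
      _ = _ := by rw [mul_pow]; ring
  refine hclose.trans ?_
  rw [← Finset.mul_sum, ← Finset.mul_sum]
  have hr := rate hD hτ1
  have h4D : 0 < (4 * D)⁻¹ := by positivity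
  have hq0 : 0 ≤ Real.exp (2 * τ) * (1 - D⁻¹) := by positivity
  have hgeo : ∑ m ∈ range (n + 1), (Real.exp (2 * τ) * (1 - D⁻¹)) ^ m ≤ 4 * D := by
    have h1 : ∑ m ∈ range (n + 1), (Real.exp (2 * τ) * (1 - D⁻¹)) ^ m ≤
        ∑ m ∈ range (n + 1), (1 - (4 * D)⁻¹) ^ m :=
      Finset.sum_le_sum fun m _ => pow_le_pow_left₀ hq0 hr m
    exact h1.trans (geo_sum (D := 4 * D) (by linarith) _)
  have hexp : Real.exp (ψ * n - τ * g0) ≤ Real.exp (-((g0 : ℝ) ^ 2 / (D ^ 15 * n))) := by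
    apply Real.exp_le_exp.2
    have h1 : ψ * n - τ * g0 = -((g0 : ℝ) ^ 2 / (4 * D ^ 13 * n)) := by
      rw [hψd, hτd]
      field_simp
      ring
    rw [h1]
    apply neg_le_neg
    apply div_le_div_of_nonneg_left (by positivity) (by positivity)
    have h2 : (4 : ℝ) ≤ D ^ 2 := by nlinarith
    calc 4 * D ^ 13 * n ≤ D ^ 2 * D ^ 13 * n := by gcongr
      _ = _ := by ring
  have hfin : D ^ 2 * (D * (4 * D)) ≤ D ^ 15 := by
    have h2 : (4 : ℝ) ≤ D ^ 2 := by nlinarith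
    calc D ^ 2 * (D * (4 * D)) = 4 * D ^ 4 := by ring
      _ ≤ D ^ 2 * D ^ 4 := by gcongr
      _ = D ^ 6 := by ring
      _ ≤ D ^ 15 := pow_le_pow_right₀ hD1 (by norm_num)
  calc E * (D * ∑ m ∈ range (n + 1), (Real.exp (2 * τ) * (1 - D⁻¹)) ^ m)
      ≤ E * (D * (4 * D)) := by gcongr
    _ = (D ^ 2 * (D * (4 * D))) * Real.exp (ψ * n - τ * g0) := by rw [hE]; ring
    _ ≤ D ^ 15 * Real.exp (-((g0 : ℝ) ^ 2 / (D ^ 15 * n))) :=
        mul_le_mul hfin hexp (Real.exp_pos _).le (by positivity)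

end Pool.Agent.EXW
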