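import Mathlib
import Pool.Agent.EXW.Stmts3

/-!
# Project EXW, version 3: the sequence of models with moments
-/

set_option autoImplicit false

namespace Pool.Agent.EXW

open Finset Pool.Agent.Lib27 Pool.Agent.SapR Pool.Agent.Gap Pool.Agent.FL Filter Topology
  Pool.Agent.AreaLaw MeasureTheory
open scoped NNReal ENNReal

namespace MOD3

/-- the moments of the error for one model -/
lemma near_p (p K : ℕ) (hK : ∀ D : ℝ, 2 ≤ D →
    ∀ (n : ℕ) (s rho : ℝ), 2 ≤ n → 0 < s → s ≤ 1 → 0 < rho →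
      ∑ p ∈ Pc (2 * n - 1), rho ^ hl p * s ^ (hl p - htn p) = 1 → Tails D (1 - D⁻¹) n s rho →
      ∑ q ∈ M41.Om (2 * n - 1) n, wtq n s q *
        |(|((dbl 0 q.2.2.2 + dbl 0 q.2.2.1 : ℤ) : ℝ)| - (M41.Ar (2 * n - 1) q.2.2.2 : ℝ))| ^ p ≤
      (D ^ K * n * Real.log n) ^ p * ∑ q ∈ M41.Om (2 * n - 1) n, wtq n s q +
        D ^ K * (1 / ((n : ℝ) ^ 2 * rho ^ n)))
    (M D : ℝ) (hM : 2 ≤ M) (hMD : M ≤ D) (n' n : ℕ) (hnn : n' = n) (hn : 2 ≤ n) (s : ℝ)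
    (hs : 0 < s) (hs1 : s ≤ 1) (d : Dat M (1 - M⁻¹) n' s) :
    ∑ q ∈ M41.Om (2 * n' - 1) n', wtq n' s q *
        |(|((dbl 0 q.2.2.2 + dbl 0 q.2.2.1 : ℤ) : ℝ)| - (M41.Ar (2 * n' - 1) q.2.2.2 : ℝ))| ^ p ≤
      (D ^ K * n * Real.log n) ^ p * ∑ q ∈ M41.Om (2 * n' - 1) n', wtq n' s q +
        D ^ K * (1 / ((n : ℝ) ^ 2 * d.G.rho ^ n)) := by
  subst hnn
  have h1 := hK M hM n' s d.G.rho hn hs hs1 d.G.rho_pos d.crit d.tails
  refine h1.trans ?_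
  have hn1 : (1 : ℝ) ≤ n' := by
    have : 1 ≤ n' := by omega
    exact_mod_cast this
  have hn0 : (0 : ℝ) < n' := by linarith
  have hlog : 0 ≤ Real.log n' := Real.log_nonneg hn1
  have hρ := pow_pos d.G.rho_pos n'
  have hM0 : 0 ≤ M := by linarith
  have hpow : M ^ K ≤ D ^ K := pow_le_pow_left₀ hM0 hMD K
  have hS0 : 0 ≤ ∑ q ∈ M41.Om (2 * n' - 1) n', wtq n' s q := by
    refine Finset.sum_nonneg fun q _ => ?_
    unfold wtq
    positivity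
  have h2 : (M ^ K * n' * Real.log n') ^ p ≤ (D ^ K * n' * Real.log n') ^ p := by
    apply pow_le_pow_left₀ (by positivity)
    exact mul_le_mul_of_nonneg_right (mul_le_mul_of_nonneg_right hpow hn0.le) hlog
  exact add_le_add (mul_le_mul_of_nonneg_right h2 hS0)
    (mul_le_mul_of_nonneg_right hpow (by positivity))

/-- the moments on the bad part for one model -/
lemma bad_p (p : ℕ) (M D θ : ℝ) (hMD : M ≤ D) (hθ : 0 < θ) (n' n : ℕ) (hnn : n' = n)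
    (hn : 2 ≤ n) (s : ℝ) (hs : 0 < s) (d : Dat M θ n' s)
    (hsmall : (n : ℝ) ^ (2 * p + 2) * D ^ 1 * θ ^ n ≤ 1 / 4 ^ p) :
    ∑ w ∈ NoCut n', 1 / (4 * (n' : ℝ)) * s ^ (n' - spn w) * |((dbl 0 w : ℤ) : ℝ)| ^ p ≤
      1 / ((n : ℝ) ^ 2 * d.G.rho ^ n) := by
  subst hnn
  have hn0 : (0 : ℝ) < n' := by
    have : 0 < n' := by omega
    exact_mod_cast this
  have hρ := pow_pos d.G.rho_pos n'
  have hθn : 0 < θ ^ n' := pow_pos hθ n'
  have h3 := d.tails.2.2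
  rw [← Finset.mul_sum] at h3
  obtain ⟨S, hS⟩ : ∃ S, S = ∑ w ∈ NoCut n', s ^ (n' - spn w) := ⟨_, rfl⟩
  rw [← hS] at h3
  have h4 : S ≤ D * n' * θ ^ n' / d.G.rho ^ n' := by
    rw [le_div_iff₀ hρ]
    have h5 : M * n' * θ ^ n' ≤ D * n' * θ ^ n' :=
      mul_le_mul_of_nonneg_right (mul_le_mul_of_nonneg_right hMD hn0.le) hθn.le
    linarith
  have h5 : ∑ w ∈ NoCut n', 1 / (4 * (n' : ℝ)) * s ^ (n' - spn w) * |((dbl 0 w : ℤ) : ℝ)| ^ p ≤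
      1 / (4 * (n' : ℝ)) * (4 * (n' : ℝ) ^ 2) ^ p * S := by
    rw [hS, Finset.mul_sum]
    refine Finset.sum_le_sum fun w hw => ?_
    have hw' : w ∈ W n' := by
      classical
      exact (Finset.mem_filter.1 hw).1
    have hlen := ((mem_W n' w).1 hw').1
    have h6 := H66.abs_dbl_le w
    rw [hlen] at h6
    have h7 : |((dbl 0 w : ℤ) : ℝ)| ≤ 4 * (n' : ℝ) ^ 2 := by
      have h8 : ((|dbl 0 w| : ℤ) : ℝ) ≤ (((2 * n' : ℕ) : ℤ) ^ 2 : ℤ) := by exact_mod_cast h6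
      push_cast at h8
      nlinarith
    have h9 : |((dbl 0 w : ℤ) : ℝ)| ^ p ≤ (4 * (n' : ℝ) ^ 2) ^ p :=
      pow_le_pow_left₀ (abs_nonneg _) h7 p
    have h10 : 0 < s ^ (n' - spn w) := pow_pos hs _
    calc 1 / (4 * (n' : ℝ)) * s ^ (n' - spn w) * |((dbl 0 w : ℤ) : ℝ)| ^ p
        ≤ 1 / (4 * (n' : ℝ)) * s ^ (n' - spn w) * (4 * (n' : ℝ) ^ 2) ^ p :=
          mul_le_mul_of_nonneg_left h9 (by positivity)
      _ = _ := by ring
  refine h5.trans ?_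
  have h11 : 1 / (4 * (n' : ℝ)) * (4 * (n' : ℝ) ^ 2) ^ p * S ≤
      1 / (4 * (n' : ℝ)) * (4 * (n' : ℝ) ^ 2) ^ p * (D * n' * θ ^ n' / d.G.rho ^ n') :=
    mul_le_mul_of_nonneg_left h4 (by positivity)
  refine h11.trans ?_
  rw [one_div ((n' : ℝ) ^ 2 * d.G.rho ^ n'), mul_inv, ← div_eq_mul_inv, ← mul_div_assoc]
  refine div_le_div_of_nonneg_right ?_ hρ.le
  have e1 : 1 / (4 * (n' : ℝ)) * (4 * (n' : ℝ) ^ 2) ^ p * (D * n' * θ ^ n') =
      (1 / 4) * 4 ^ p * (((n' : ℝ) ^ (2 * p + 2) * D ^ 1 * θ ^ n')) * ((n' : ℝ) ^ 2)⁻¹ := by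
    rw [mul_pow, pow_add (n' : ℝ) (2 * p) 2, pow_mul, pow_one]
    field_simp
  rw [e1]
  have h12 : (1 / 4) * 4 ^ p * (((n' : ℝ) ^ (2 * p + 2) * D ^ 1 * θ ^ n')) ≤ 1 := by
    calc (1 / 4) * 4 ^ p * (((n' : ℝ) ^ (2 * p + 2) * D ^ 1 * θ ^ n'))
        ≤ (1 / 4) * 4 ^ p * (1 / 4 ^ p) := mul_le_mul_of_nonneg_left hsmall (by positivity)
      _ = 1 / 4 := by field_simp
      _ ≤ 1 := by norm_num
  have h13 : 0 < ((n' : ℝ) ^ 2)⁻¹ := by positivity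
  nlinarith [mul_le_mul_of_nonneg_right h12 h13.le]

end MOD3

theorem t_MOD3 (hNEAR : QNEAR_Stmt) (hPDIF : PDIF_Stmt) : MOD3_Stmt := by
  obtain ⟨Kn, hN⟩ := hNEAR
  refine ⟨Kn, fun M D f N0 hN0 hM hMD1 hf hκ hexp d V hV' => ?_⟩
  have hM0 : ∀ n, 0 < M n := fun n => by linarith [hM n]
  have hθ0 : ∀ n, 0 < 1 - (M n)⁻¹ := fun n => by
    have : (M n)⁻¹ ≤ 1 / 2 := by
      rw [← one_div]
      exact one_div_le_one_div_of_le (by norm_num) (hM n)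
    linarith
  have hs : ∀ n, 0 < Real.exp (-f n) := fun n => Real.exp_pos _
  have hs1 : ∀ n, Real.exp (-f n) ≤ 1 := fun n => by
    rw [Real.exp_le_one_iff]
    linarith [hf n]
  have key : ∃ Q : QModel D, (∀ n x, Q.cdf n x = cdfO (mx N0 n) (Real.exp (-f n)) x) ∧
      (∀ n r, Q.mom n r = momO (mx N0 n) (Real.exp (-f n)) r) ∧
      (∀ n, Q.G n = (d n).G) ∧ (∀ n, Q.c n = 1) ∧
      (∀ n, ∑ x ∈ Q.good n, Q.wt n x =
        ∑ q ∈ M41.Om (2 * mx N0 n - 1) (mx N0 n), wtq (mx N0 n) (Real.exp (-f n)) q) ∧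
      (∀ n p, ∑ x ∈ Q.good n, Q.wt n x * |Q.T n x - Q.A n x| ^ p =
        ∑ q ∈ M41.Om (2 * mx N0 n - 1) (mx N0 n), wtq (mx N0 n) (Real.exp (-f n)) q *
          |(|((dbl 0 q.2.2.2 + dbl 0 q.2.2.1 : ℤ) : ℝ)| -
            (M41.Ar (2 * mx N0 n - 1) q.2.2.2 : ℝ))| ^ p) ∧
      (∀ n p, ∑ x : Q.Omega n, Q.wt n x * Q.T n x ^ p - ∑ x ∈ Q.good n, Q.wt n x * Q.T n x ^ p =
        ∑ w ∈ NoCut (mx N0 n), 1 / (4 * ((mx N0 n : ℕ) : ℝ)) *
          (Real.exp (-f n)) ^ (mx N0 n - spn w) * |((dbl 0 w : ℤ) : ℝ)| ^ p) := by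
   refine ⟨{
    G := fun n => (d n).G
    C0 := fun n => 2 * mx N0 n
    s := fun n => capW (mx N0 n) (Real.exp (-f n))
    t := fun n => capW (mx N0 n) (Real.exp (-f n))
    Vs := V
    Vt := V
    cls := fun n => cls_mono (hM n) (hMD1 n) (d n).cls
    cap_s := fun n => clsCap_mono (hM n) (hMD1 n) (d n).cap
    cap_t := fun n => clsCap_mono (hM n) (hMD1 n) (d n).cap
    crit_s := hV'
    crit_t := hV'
    B := fun n => (d n).B
    sol := fun n => (d n).sol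
    Omega := fun n => Omg (mx N0 n)
    fin := fun n => inferInstance
    good := fun n => goodO (mx N0 n)
    wt := fun n => wtO (mx N0 n) (Real.exp (-f n))
    T := fun n x => (TZ (mx N0 n) x : ℝ)
    A := fun n => AO (mx N0 n)
    wt_nonneg := fun n x => wtO_nonneg _ _ (hs _) x
    T_nonneg := fun n x => TZ_nonneg _ x
    c := fun _ => 1
    c_pos := fun _ => one_pos
    κ := fun n => kap0 (M n ^ Kn) (M n) (1 - (M n)⁻¹) n
    κ_lim := hκ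
    n1 := N0
    count := ?_
    near := ?_
    bad := ?_ }, ?_, ?_, ?_, ?_, ?_, ?_, ?_⟩
   · intro n hn
     have h1 := (d n).count
     rw [Polynomial.C_1, one_mul]
     have h2 : closeP (2 * mx N0 n) (capW (mx N0 n) (Real.exp (-f n))) (d n).B (mx N0 n) =
         closeP (2 * mx N0 n) (capW (mx N0 n) (Real.exp (-f n))) (d n).B n :=
       congrArg (closeP (2 * mx N0 n) (capW (mx N0 n) (Real.exp (-f n))) (d n).B) (mx_eq N0 n hn)
     rw [← h2, ← h1]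
     exact sum_goodO (mx N0 n) (fun q => Polynomial.C (wtq (mx N0 n) (Real.exp (-f n)) q) *
       (Polynomial.X : Polynomial ℝ) ^ (M41.Ar (2 * mx N0 n - 1) q.2.2.2)) _ (fun q => rfl)
   · intro n hn
     have h1 := near_bound (hM0 n) (hθ0 n) (show 0 < M n ^ Kn from pow_pos (hM0 n) _)
       (hN (M n) (hM n)) (mx N0 n) n (mx_eq N0 n hn) (hN0.trans hn) _ (hs _) (hs1 _)
       (d n)
     have e1 : ∑ x ∈ goodO (mx N0 n), wtO (mx N0 n) (Real.exp (-f n)) x *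
         |(TZ (mx N0 n) x : ℝ) - AO (mx N0 n) x| =
         ∑ q ∈ M41.Om (2 * mx N0 n - 1) (mx N0 n), wtq (mx N0 n) (Real.exp (-f n)) q *
         |(|((dbl 0 q.2.2.2 + dbl 0 q.2.2.1 : ℤ) : ℝ)| -
           (M41.Ar (2 * mx N0 n - 1) q.2.2.2 : ℝ))| := by
       refine sum_goodO (mx N0 n) (fun q => wtq (mx N0 n) (Real.exp (-f n)) q *
         |(|((dbl 0 q.2.2.2 + dbl 0 q.2.2.1 : ℤ) : ℝ)| -
           (M41.Ar (2 * mx N0 n - 1) q.2.2.2 : ℝ))|) _ (fun q => ?_)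
       simp only [wtO, TZ, AO, Sum.elim_inl, Int.cast_abs]
     have e2 : ∑ x ∈ goodO (mx N0 n), wtO (mx N0 n) (Real.exp (-f n)) x =
         ∑ q ∈ M41.Om (2 * mx N0 n - 1) (mx N0 n), wtq (mx N0 n) (Real.exp (-f n)) q :=
       sum_goodO (mx N0 n) (fun q => wtq (mx N0 n) (Real.exp (-f n)) q) _ (fun q => rfl)
     rw [e1, e2]
     exact h1
   · intro n hn
     have h1 := bad_bound (hM0 n) (hθ0 n) (show 0 < M n ^ Kn from pow_pos (hM0 n) _)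
       (mx N0 n) n (mx_eq N0 n hn) (hN0.trans hn) _ (hs _) (d n)
     refine le_trans (le_of_eq ?_) h1
     have e1 : ∑ x : Omg (mx N0 n), wtO (mx N0 n) (Real.exp (-f n)) x *
           (1 + (TZ (mx N0 n) x : ℝ)) =
         ∑ q ∈ M41.Om (2 * mx N0 n - 1) (mx N0 n), wtq (mx N0 n) (Real.exp (-f n)) q *
           (1 + |((dbl 0 q.2.2.2 + dbl 0 q.2.2.1 : ℤ) : ℝ)|) +
         ∑ w ∈ NoCut (mx N0 n), 1 / (4 * ((mx N0 n : ℕ) : ℝ)) *
           (Real.exp (-f n)) ^ (mx N0 n - spn w) * (1 + |((dbl 0 w : ℤ) : ℝ)|) := by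
       refine sum_Omg (mx N0 n) _ _ _ (fun q => ?_) (fun w => ?_)
       · simp only [wtO, TZ, Sum.elim_inl, Int.cast_abs]
       · simp only [wtO, TZ, Sum.elim_inr, Int.cast_abs]
     have e2 : ∑ x ∈ goodO (mx N0 n), wtO (mx N0 n) (Real.exp (-f n)) x *
           (1 + (TZ (mx N0 n) x : ℝ)) =
         ∑ q ∈ M41.Om (2 * mx N0 n - 1) (mx N0 n), wtq (mx N0 n) (Real.exp (-f n)) q *
           (1 + |((dbl 0 q.2.2.2 + dbl 0 q.2.2.1 : ℤ) : ℝ)|) := by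
       refine sum_goodO (mx N0 n) (fun q => wtq (mx N0 n) (Real.exp (-f n)) q *
           (1 + |((dbl 0 q.2.2.2 + dbl 0 q.2.2.1 : ℤ) : ℝ)|)) _ (fun q => ?_)
       simp only [wtO, TZ, Sum.elim_inl, Int.cast_abs]
     rw [e1, e2]
     ring
   · intro n x
     rfl
   · intro n r
     rfl
   · intro n
     rfl
   · intro n
     rfl
   · intro n
     exact sum_goodO (mx N0 n) (fun q => wtq (mx N0 n) (Real.exp (-f n)) q) _ (fun q => rfl)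
   · intro n p
     refine sum_goodO (mx N0 n) (fun q => wtq (mx N0 n) (Real.exp (-f n)) q *
        |(|((dbl 0 q.2.2.2 + dbl 0 q.2.2.1 : ℤ) : ℝ)| -
          (M41.Ar (2 * mx N0 n - 1) q.2.2.2 : ℝ))| ^ p) _ (fun q => ?_)
     simp only [wtO, TZ, AO, Sum.elim_inl, Int.cast_abs]
   · intro n p
     have e1 : ∑ x : Omg (mx N0 n), wtO (mx N0 n) (Real.exp (-f n)) x *
          (TZ (mx N0 n) x : ℝ) ^ p =
        ∑ q ∈ M41.Om (2 * mx N0 n - 1) (mx N0 n), wtq (mx N0 n) (Real.exp (-f n)) q *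
          |((dbl 0 q.2.2.2 + dbl 0 q.2.2.1 : ℤ) : ℝ)| ^ p +
        ∑ w ∈ NoCut (mx N0 n), 1 / (4 * ((mx N0 n : ℕ) : ℝ)) *
          (Real.exp (-f n)) ^ (mx N0 n - spn w) * |((dbl 0 w : ℤ) : ℝ)| ^ p := by
       refine sum_Omg (mx N0 n) _ _ _ (fun q => ?_) (fun w => ?_)
       · simp only [wtO, TZ, Sum.elim_inl, Int.cast_abs]
       · simp only [wtO, TZ, Sum.elim_inr, Int.cast_abs]
     have e2 : ∑ x ∈ goodO (mx N0 n), wtO (mx N0 n) (Real.exp (-f n)) x *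
          (TZ (mx N0 n) x : ℝ) ^ p =
        ∑ q ∈ M41.Om (2 * mx N0 n - 1) (mx N0 n), wtq (mx N0 n) (Real.exp (-f n)) q *
          |((dbl 0 q.2.2.2 + dbl 0 q.2.2.1 : ℤ) : ℝ)| ^ p := by
       refine sum_goodO (mx N0 n) (fun q => wtq (mx N0 n) (Real.exp (-f n)) q *
          |((dbl 0 q.2.2.2 + dbl 0 q.2.2.1 : ℤ) : ℝ)| ^ p) _ (fun q => ?_)
       simp only [wtO, TZ, Sum.elim_inl, Int.cast_abs]
     change ∑ x : Omg (mx N0 n), wtO (mx N0 n) (Real.exp (-f n)) x * (TZ (mx N0 n) x : ℝ) ^ p -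
       ∑ x ∈ goodO (mx N0 n), wtO (mx N0 n) (Real.exp (-f n)) x * (TZ (mx N0 n) x : ℝ) ^ p = _
     rw [e1, e2]
     ring
  obtain ⟨Q, hcdf, hmom, hG, hc, hgood, hnear, hbad⟩ := key
  refine ⟨Q, hcdf, hmom, ?_, ?_⟩
  · intro p
    obtain ⟨K, hK⟩ := hPDIF p
    refine ⟨K, ?_⟩
    filter_upwards [eventually_ge_atTop N0] with n hn
    rw [hnear n p, hgood n, hG n, hc n]
    exact MOD3.near_p p K hK (M n) (D n) (hM n) (hMD1 n) (mx N0 n) n (mx_eq N0 n hn)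
      (hN0.trans hn) _ (hs _) (hs1 _) (d n)
  · intro p
    have h1 : ∀ᶠ n : ℕ in atTop,
        (n : ℝ) ^ (2 * p + 2) * D n ^ 1 * (1 - (M n)⁻¹) ^ n < 1 / 4 ^ p :=
      (hexp (2 * p + 2) 1).eventually_lt_const (by positivity)
    filter_upwards [eventually_ge_atTop N0, h1] with n hn h2
    rw [hbad n p, hG n, hc n]
    exact MOD3.bad_p p (M n) (D n) _ (hMD1 n) (hθ0 n) (mx N0 n) n (mx_eq N0 n hn)
      (hN0.trans hn) _ (hs _) (d n) h2.le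

end Pool.Agent.EXW
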