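import Pool.Agent.EXW.MainPre3
import Pool.Agent.EXW.CHB
import Pool.Agent.EXW.MOD3

/-!
# Project EXW, version 3: the final theorem
-/

set_option autoImplicit false

namespace Pool.Agent.EXW

open Finset Pool.Agent.Lib27 Pool.Agent.SapR Pool.Agent.Gap Pool.Agent.FL Filter Topology
  Pool.Agent.AreaLaw MeasureTheory
open scoped NNReal ENNReal

/-- The area law of self-avoiding polygons under forces `f` with `f n * log n → ∞`, with all
moments. -/
theorem main3 : FINAL3_Stmt :=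
  t_FINAL3 (m_QFIN m_QGW) (t_DAT2 m_QMG mg_main mgi2 (t_KW2 hg)) m_QCS t_SLOW2 t_SLOW3
    (t_MOD3 (t_QNEAR hg) (t_PDIF (t_NEARP hg))) (t_MOMK (m_MOMC t_CHB)) (t_TRM hg (tr K1H.k1h))
    m_IDN hg (tr K1H.k1h)

end Pool.Agent.EXW
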