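import Pool.Agent.EXW.StmtsM

/-!
# Project EXW, module MN: critical point of the free pieces and room above it
-/

set_option autoImplicit false

namespace Pool.Agent.EXW

open Finset Pool.Agent.Lib27 Pool.Agent.SapR Pool.Agent.FL
open scoped NNReal ENNReal

namespace MNx

theorem gfp_mono_x {x y : ℝ≥0} (h : x ≤ y) (S : Set (Wd × Wd)) : gfp x S ≤ gfp y S :=
  MG.gp_mono_x (x := (x : ℝ≥0∞)) (y := (y : ℝ≥0∞)) (by exact_mod_cast h) S

/-- `exp (-(A / f)) ≤ f` -/
theorem exp_le_self {A f : ℝ} (hA : 1 ≤ A) (hf : 0 < f) : Real.exp (-(A / f)) ≤ f := by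
  have h1 : 1 / f ≤ Real.exp (1 / f) := by
    have := Real.add_one_le_exp (1 / f)
    linarith
  have h2 : Real.exp (-(A / f)) ≤ Real.exp (-(1 / f)) := by
    apply Real.exp_le_exp.2
    have : 1 / f ≤ A / f := by gcongr
    linarith
  have h3 : Real.exp (-(1 / f)) ≤ f := by
    rw [Real.exp_neg, inv_le_comm₀ (Real.exp_pos _) hf]
    rwa [one_div] at h1 ⊢
  exact h2.trans h3

/-- the geometric series -/
theorem geo {a : ℝ} (ha : 0 < a) (ha1 : a ≤ 1) :
    ∑' H : ℕ, ENNReal.ofReal (Real.exp (-(a * H))) ≤ ENNReal.ofReal (2 / a) := by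
  have h1 : ∀ H : ℕ, ENNReal.ofReal (Real.exp (-(a * H))) =
      ENNReal.ofReal (Real.exp (-a)) ^ H := by
    intro H
    rw [← ENNReal.ofReal_pow (Real.exp_pos _).le, ← Real.exp_nat_mul]
    congr 2
    ring
  simp_rw [h1]
  rw [ENNReal.tsum_geometric, ← ENNReal.ofReal_one, ← ENNReal.ofReal_sub _ (Real.exp_pos _).le]
  have h2 : a / 2 ≤ 1 - Real.exp (-a) := by
    have h4 : 1 + a ≤ Real.exp a := by
      have := Real.add_one_le_exp a
      linarith
    have h5 : Real.exp (-a) ≤ 1 / (1 + a) := by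
      rw [Real.exp_neg, one_div]
      exact inv_anti₀ (by linarith) h4
    have h6 : 1 / (1 + a) ≤ 1 - a / 2 := by
      rw [div_le_iff₀ (by linarith)]
      nlinarith
    linarith
  have h3 : 0 < 1 - Real.exp (-a) := by linarith
  rw [← ENNReal.ofReal_inv_of_pos h3]
  apply ENNReal.ofReal_le_ofReal
  rw [inv_le_comm₀ h3 (by positivity)]
  rw [inv_div]
  exact h2

end MNx

theorem t_MN (hMC : MC_Stmt) (hG : MGAP_Stmt) : MN_Stmt := by
  obtain ⟨A0, hA0, hC⟩ := hMC
  obtain ⟨A1, hA1, hM⟩ := hG A0 hA0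
  refine ⟨A0 + 2 * A1 + 2, by linarith, fun f hf hf1 => ?_⟩
  obtain ⟨x, hx, hroom⟩ := hC f hf hf1
  set c : ℝ := Real.exp (-(A1 / f)) / 4 with hc
  have hE : Real.exp (-(A1 / f)) = 4 * c := by rw [hc]; ring
  have hc0 : 0 < c := by positivity
  have hcf : c ≤ f / 4 := by
    rw [hc]
    have := MNx.exp_le_self hA1 hf
    linarith
  obtain ⟨y, hxy, hUp, hchi⟩ := hroom c hc0 hcf
  set e : ℝ := c * Real.exp (-(A0 / f)) with he
  have he0 : 0 < e := by positivity
  have hexp1 : Real.exp (-(A0 / f)) ≤ 1 := by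
    rw [← Real.exp_zero]
    apply Real.exp_le_exp.2
    have : 0 ≤ A0 / f := by positivity
    linarith
  have he1 : e ≤ 1 := by
    rw [he]
    calc c * Real.exp (-(A0 / f)) ≤ 1 * 1 := by
          gcongr
          linarith
      _ = 1 := one_mul 1
  have h2c1 : 2 * c ≤ 1 := by linarith
  have hx0 : 0 < x := hx.x_pos
  have hl : Real.exp (-f) ≤ Real.exp (-(f / 2) + c) :=
    Real.exp_le_exp.2 (by linarith)
  have hl' : Real.exp (-(f / 2) + c) ≤ Real.exp (-(f / 4)) :=
    Real.exp_le_exp.2 (by linarith)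
  have hgap := hM f (Real.exp (-(f / 2) + c)) y.toNNReal hf hf1 hl hl' hUp hchi
  have hone : (1 : ℝ) ≤ 1 / f := by
    rw [le_div_iff₀ hf]
    linarith
  have hqs : ((((Real.exp (-f)).toNNReal)⁻¹ : ℝ≥0) : ℝ≥0∞) =
      (ENNReal.ofReal (Real.exp (-(f / 2))))⁻¹ ^ 2 := by
    have hne : (Real.exp (-f)).toNNReal ≠ 0 := by
      have : 0 < (Real.exp (-f)).toNNReal := Real.toNNReal_pos.2 (Real.exp_pos _)
      exact this.ne'
    rw [ENNReal.coe_inv hne, ← ENNReal.inv_pow, ← ENNReal.ofReal_pow (Real.exp_pos _).le,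
      ← Real.exp_nat_mul]
    congr 2
    show (Real.exp (-f)).toNNReal = (Real.exp (((2 : ℕ) : ℝ) * -(f / 2))).toNNReal
    congr 2
    push_cast
    ring
  have hSH : ∀ H : ℕ, ((((Real.exp (-f)).toNNReal)⁻¹ : ℝ≥0) : ℝ≥0∞) ^ H =
      ENNReal.ofReal (Real.exp (f * H)) := by
    intro H
    have h1 : (((Real.exp (-f)).toNNReal)⁻¹ : ℝ≥0) = (Real.exp f).toNNReal := by
      rw [← Real.toNNReal_inv, ← Real.exp_neg, neg_neg]
    rw [h1]
    show ENNReal.ofReal (Real.exp f) ^ H = _
    rw [← ENNReal.ofReal_pow (Real.exp_pos _).le, ← Real.exp_nat_mul, mul_comm]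
  set C0 : ℝ := Real.exp (A1 / f) * (2 / (2 * c)) with hC0
  have hC00 : 0 ≤ C0 := by positivity
  refine ⟨x.toNNReal, e.toNNReal, C0.toNNReal, by simpa using hx0, ?_, ?_, ?_, ?_, ?_⟩
  · rw [Real.coe_toNNReal _ he0.le, he, hc]
    have h4 : (4 : ℝ) ≤ Real.exp (2 / f) := by
      have h5 : Real.exp 2 ≤ Real.exp (2 / f) := by
        apply Real.exp_le_exp.2
        rw [le_div_iff₀ hf]
        linarith
      have h6 : (4 : ℝ) ≤ Real.exp 2 := by
        have h7 : (2.7 : ℝ) < Real.exp 1 := lt_trans (by norm_num) Real.exp_one_gt_d9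
        have h8 : Real.exp 2 = Real.exp 1 * Real.exp 1 := by
          rw [← Real.exp_add]; norm_num
        rw [h8]
        nlinarith
      linarith
    have h9 : Real.exp (-((A0 + 2 * A1 + 2) / f)) * Real.exp (2 / f) ≤
        Real.exp (-(A1 / f)) * Real.exp (-(A0 / f)) := by
      rw [← Real.exp_add, ← Real.exp_add]
      apply Real.exp_le_exp.2
      have h10 : 0 ≤ A1 / f := by positivity
      have h11 : -((A0 + 2 * A1 + 2) / f) + 2 / f = -(A0 / f) - 2 * (A1 / f) := by
        field_simp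
        ring
      rw [h11]
      linarith
    have h12 : 0 < Real.exp (-((A0 + 2 * A1 + 2) / f)) := Real.exp_pos _
    nlinarith
  · rw [← NNReal.coe_le_coe, Real.coe_toNNReal _ he0.le]
    exact_mod_cast he1
  · rw [Real.coe_toNNReal _ hC00, hC0]
    have h1 : 2 / (2 * c) = 4 * Real.exp (A1 / f) := by
      rw [hc, Real.exp_neg]
      field_simp
    rw [h1]
    have h4 : (4 : ℝ) ≤ Real.exp (2 / f) := by
      have h5 : Real.exp 2 ≤ Real.exp (2 / f) := by
        apply Real.exp_le_exp.2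
        rw [le_div_iff₀ hf]
        linarith
      have h6 : (4 : ℝ) ≤ Real.exp 2 := by
        have h7 : (2.7 : ℝ) < Real.exp 1 := lt_trans (by norm_num) Real.exp_one_gt_d9
        have h8 : Real.exp 2 = Real.exp 1 * Real.exp 1 := by
          rw [← Real.exp_add]; norm_num
        rw [h8]
        nlinarith
      linarith
    calc Real.exp (A1 / f) * (4 * Real.exp (A1 / f)) ≤
          Real.exp (A1 / f) * (Real.exp (2 / f) * Real.exp (A1 / f)) := by gcongr
      _ = Real.exp (A1 / f + (2 / f + A1 / f)) := by rw [Real.exp_add, Real.exp_add]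
      _ ≤ Real.exp ((A0 + 2 * A1 + 2) / f) := by
          apply Real.exp_le_exp.2
          have h10 : 0 ≤ A0 / f := by positivity
          have h11 : (A0 + 2 * A1 + 2) / f = A0 / f + (A1 / f + (2 / f + A1 / f)) := by
            field_simp
            ring
          rw [h11]
          linarith
  · exact MG.free_one hx.crE hqs
  · have hle : (1 + e.toNNReal) * x.toNNReal ≤ y.toNNReal := by
      have h1 : (1 + e.toNNReal) * x.toNNReal = ((1 + e) * x).toNNReal := by
        have h2 : (1 + e).toNNReal = 1 + e.toNNReal := by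
          rw [Real.toNNReal_add zero_le_one he0.le, Real.toNNReal_one]
        rw [← h2, ← Real.toNNReal_mul (by positivity)]
      rw [h1]
      apply Real.toNNReal_le_toNNReal
      calc (1 + e) * x = x * (1 + c * Real.exp (-(A0 / f))) := by rw [he]; ring
        _ ≤ y := hxy
    calc ∑' H : ℕ, ((((Real.exp (-f)).toNNReal)⁻¹ : ℝ≥0) : ℝ≥0∞) ^ H *
          gfp ((1 + e.toNNReal) * x.toNNReal) (NC H)
        ≤ ∑' H : ℕ, ENNReal.ofReal (Real.exp (A1 / f)) *
            ENNReal.ofReal (Real.exp (-((2 * c) * H))) := by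
          refine ENNReal.tsum_le_tsum fun H => ?_
          rw [hSH]
          refine (mul_le_mul' le_rfl ((MNx.gfp_mono_x hle _).trans (hgap H))).trans ?_
          rw [← ENNReal.ofReal_mul (by positivity), ← ENNReal.ofReal_mul (by positivity)]
          apply ENNReal.ofReal_le_ofReal
          rw [← Real.exp_nat_mul, ← Real.exp_add, ← Real.exp_add, ← Real.exp_add,
            ← Real.exp_add, hE]
          apply Real.exp_le_exp.2
          push_cast
          apply le_of_eq
          ring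
      _ = ENNReal.ofReal (Real.exp (A1 / f)) *
            ∑' H : ℕ, ENNReal.ofReal (Real.exp (-((2 * c) * H))) := ENNReal.tsum_mul_left
      _ ≤ ENNReal.ofReal (Real.exp (A1 / f)) * ENNReal.ofReal (2 / (2 * c)) := by
          gcongr
          exact MNx.geo (by positivity) h2c1
      _ = ((C0.toNNReal : ℝ≥0) : ℝ≥0∞) := by
          rw [← ENNReal.ofReal_mul (by positivity)]
          rfl

end Pool.Agent.EXW
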