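import Pool.Agent.EXW.Stmts2
import Pool.Agent.EXW.MN
import Pool.Agent.Lib_helper12.FL.MGT

/-!
# Project EXW, version 2, module ROOM
-/

set_option autoImplicit false

namespace Pool.Agent.EXW

open Finset Pool.Agent.Lib27 Pool.Agent.SapR Pool.Agent.Gap Pool.Agent.FL Filter Topology
open scoped NNReal ENNReal

namespace RoomX

/-- lower bound of the truncated sum at the critical point of the full series -/
lemma low (h2 : MGI1_Stmt) (s x e C0 : ℝ≥0) (hs : 0 < s) (hx : 0 < x) (he : 0 < e)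
    (hone : ∑' p : {p : Wd × Wd | FreePiece p.1 p.2}, (x : ℝ≥0∞) ^ ((p : Wd × Wd).1.length +
      (p : Wd × Wd).2.length) * ((s⁻¹ : ℝ≥0) : ℝ≥0∞) ^ htn p = 1)
    (hB : ∑' H : ℕ, ((s⁻¹ : ℝ≥0) : ℝ≥0∞) ^ H * gfp ((1 + e) * x) (NC H) ≤ C0)
    (n : ℕ) :
    1 - C0 * (((1 + (e : ℝ)) ^ 2)⁻¹) ^ (n + 1) ≤
      ∑ p ∈ Pc (2 * n - 1), ((x : ℝ) ^ 2 / s) ^ hl p * (s : ℝ) ^ (hl p - htn p) := by
  classical
  have hs' : (0 : ℝ) < s := hs
  have hx' : (0 : ℝ) < x := hx
  have he' : (0 : ℝ) < e := he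
  set θ : ℝ := ((1 + (e : ℝ)) ^ 2)⁻¹ with hθ
  have hθ0 : 0 < θ := by positivity
  set ri : ℝ := (x : ℝ) ^ 2 / s with hri
  have hri0 : 0 < ri := by positivity
  obtain ⟨hP, hT, hW⟩ := h2 ((1 + e) * x) s⁻¹
  have hg : ∀ p : Wd × Wd, FreePiece p.1 p.2 → htn p ≤ hl p := by
    intro p hp
    have := htn_le hp
    have := hl_pos hp
    omega
  set f : Wd × Wd → ℝ≥0∞ := fun p => (x : ℝ≥0∞) ^ (p.1.length + p.2.length) *
    ((s⁻¹ : ℝ≥0) : ℝ≥0∞) ^ htn p with hf
  set g : Wd × Wd → ℝ≥0∞ := fun p => (((1 + e) * x : ℝ≥0) : ℝ≥0∞) ^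
    (p.1.length + p.2.length) * ((s⁻¹ : ℝ≥0) : ℝ≥0∞) ^ htn p with hgd
  set th : ℝ≥0 := ((1 + e) ^ 2)⁻¹ with hth
  have e1 : ∀ p : Wd × Wd, FreePiece p.1 p.2 →
      f p ≤ (if p ∈ Pc (2 * n - 1) then f p else 0) + (th : ℝ≥0∞) ^ (n + 1) * g p := by
    intro p hp
    split_ifs with hmem
    · exact le_self_add
    · rw [zero_add, hf, hgd]
      beta_reduce
      have hlen : n + 1 ≤ hl p := by
        rw [mem_Pc] at hmem
        have h5 := hl_eq hp
        by_contra hc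
        exact hmem ⟨hp, by omega⟩
      have h6 : (x ^ (p.1.length + p.2.length) * (s⁻¹) ^ htn p : ℝ≥0) ≤
          th ^ (n + 1) * (((1 + e) * x) ^ (p.1.length + p.2.length) * (s⁻¹) ^ htn p) := by
        rw [hl_eq hp, ← mul_assoc]
        apply mul_le_mul_of_nonneg_right _ zero_le
        rw [pow_mul, pow_mul, mul_pow (1 + e) x 2, mul_pow]
        have h7 : (1 : ℝ≥0) ≤ th ^ (n + 1) * ((1 + e) ^ 2) ^ hl p := by
          obtain ⟨j, hj⟩ : ∃ j, hl p = (n + 1) + j := ⟨hl p - (n + 1), by omega⟩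
          rw [hj, pow_add ((1 + e) ^ 2) (n + 1) j, ← mul_assoc, ← mul_pow, hth,
            inv_mul_cancel₀ (by positivity), one_pow, one_mul]
          apply one_le_pow₀
          apply one_le_pow₀
          exact le_self_add
        calc (x ^ 2) ^ hl p = 1 * (x ^ 2) ^ hl p := by rw [one_mul]
          _ ≤ (th ^ (n + 1) * ((1 + e) ^ 2) ^ hl p) * (x ^ 2) ^ hl p :=
            mul_le_mul_of_nonneg_right h7 zero_le
          _ = _ := by ring
      exact_mod_cast h6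
  have e2 : (1 : ℝ≥0∞) ≤ ∑ p ∈ Pc (2 * n - 1), f p + (th : ℝ≥0∞) ^ (n + 1) * C0 := by
    rw [← hone]
    calc ∑' p : {p : Wd × Wd | FreePiece p.1 p.2}, f p
        ≤ ∑' p : {p : Wd × Wd | FreePiece p.1 p.2},
            ((if (p : Wd × Wd) ∈ Pc (2 * n - 1) then f p else 0) +
              (th : ℝ≥0∞) ^ (n + 1) * g p) := ENNReal.tsum_le_tsum (fun p => e1 p p.2)
      _ = ∑' p : {p : Wd × Wd | FreePiece p.1 p.2},
            (if (p : Wd × Wd) ∈ Pc (2 * n - 1) then f p else 0) +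
          (th : ℝ≥0∞) ^ (n + 1) * ∑' p : {p : Wd × Wd | FreePiece p.1 p.2}, g p := by
            rw [ENNReal.tsum_add, ENNReal.tsum_mul_left]
      _ ≤ ∑ p ∈ Pc (2 * n - 1), f p + (th : ℝ≥0∞) ^ (n + 1) * C0 := by
            apply add_le_add
            · calc ∑' p : {p : Wd × Wd | FreePiece p.1 p.2},
                  (if (p : Wd × Wd) ∈ Pc (2 * n - 1) then f p else 0)
                  ≤ ∑' p : Wd × Wd, (if p ∈ Pc (2 * n - 1) then f p else 0) :=
                    ENNReal.tsum_comp_le_tsum_of_injective Subtype.val_injective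
                      (fun p : Wd × Wd => if p ∈ Pc (2 * n - 1) then f p else 0)
                _ = ∑ p ∈ Pc (2 * n - 1), (if p ∈ Pc (2 * n - 1) then f p else 0) :=
                    tsum_eq_sum (fun p hp => if_neg hp)
                _ = ∑ p ∈ Pc (2 * n - 1), f p :=
                    sum_congr rfl (fun p hp => if_pos hp)
            · exact mul_le_mul_right (hP.trans hB) _
  have e3 : (1 : ℝ≥0) ≤ ∑ p ∈ Pc (2 * n - 1),
      (x ^ (p.1.length + p.2.length) * (s⁻¹) ^ htn p) + th ^ (n + 1) * C0 := by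
    rw [hf] at e2
    beta_reduce at e2
    exact_mod_cast e2
  have e4 : (1 : ℝ) ≤ ((∑ p ∈ Pc (2 * n - 1),
      (x ^ (p.1.length + p.2.length) * (s⁻¹) ^ htn p) + th ^ (n + 1) * C0 : ℝ≥0) : ℝ) := by
    exact_mod_cast e3
  have hthr : (th : ℝ) = θ := by
    rw [hth, hθ]
    push_cast
    rfl
  push_cast at e4
  rw [hthr] at e4
  have e5 : ∑ p ∈ Pc (2 * n - 1), ri ^ hl p * (s : ℝ) ^ (hl p - htn p) =
      ∑ p ∈ Pc (2 * n - 1), ((x : ℝ) ^ (p.1.length + p.2.length) * ((s : ℝ)⁻¹) ^ htn p) := by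
    apply sum_congr rfl
    intro p hp
    rw [mem_Pc] at hp
    rw [hl_eq hp.1, MGT.weight_eq s x ri e hs' hx' he' (hl p) (htn p) (hg p hp.1), ← hri,
      div_self hri0.ne', one_pow, one_mul, mul_pow, ← mul_assoc, ← mul_assoc]
    congr 1
    have : (((1 + (e : ℝ)) ^ 2)⁻¹) ^ hl p * (1 + (e : ℝ)) ^ (2 * hl p) = 1 := by
      rw [pow_mul, ← mul_pow, inv_mul_cancel₀ (by positivity), one_pow]
    rw [this, one_mul]
  rw [e5]
  linarith

/-- the critical weight of the truncated sum -/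
lemma ratio (n : ℕ) (s ri rho τ t : ℝ) (hs : 0 < s) (hri : 0 < ri) (hr : 0 < rho)
    (ht : 1 ≤ t ^ 2 * (1 - τ)) (hτ0 : 0 ≤ τ) (hτ : τ < 1)
    (hlow : 1 - τ ≤ ∑ p ∈ Pc (2 * n - 1), ri ^ hl p * s ^ (hl p - htn p))
    (hF : ∑ p ∈ Pc (2 * n - 1), rho ^ hl p * s ^ (hl p - htn p) = 1) : rho ≤ t ^ 2 * ri := by
  by_contra hcon
  rw [not_le] at hcon
  have ht2 : 1 ≤ t ^ 2 := by
    have h0 : 0 ≤ t ^ 2 := sq_nonneg t
    nlinarith
  have hle : ri ≤ rho := by nlinarith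
  have h1 : rho / ri * ∑ p ∈ Pc (2 * n - 1), ri ^ hl p * s ^ (hl p - htn p) ≤ 1 := by
    rw [← hF, mul_sum]
    refine sum_le_sum fun p hp => ?_
    rw [mem_Pc] at hp
    rw [← mul_assoc]
    refine mul_le_mul_of_nonneg_right ?_ (by positivity)
    obtain ⟨j, hj⟩ : ∃ j, hl p = j + 1 := ⟨hl p - 1, by have := hl_pos hp.1; omega⟩
    rw [hj, pow_succ, pow_succ]
    have h2 : rho / ri * (ri ^ j * ri) = ri ^ j * rho := by field_simp
    rw [h2]
    exact mul_le_mul_of_nonneg_right (pow_le_pow_left₀ hri.le hle j) hr.le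
  have h2 : rho / ri * (1 - τ) ≤ 1 :=
    (mul_le_mul_of_nonneg_left hlow (by positivity)).trans h1
  have h3 : t ^ 2 < rho / ri := by rwa [lt_div_iff₀ hri]
  have h4 : 0 < 1 - τ := by linarith
  have h5 : t ^ 2 * (1 - τ) < rho / ri * (1 - τ) := mul_lt_mul_of_pos_right h3 h4
  linarith

/-- uniqueness of the critical point -/
lemma uniq (S : ℝ≥0∞) (x x' : ℝ≥0) (hx : 0 < x)
    (h1 : ∑' p : {p : Wd × Wd | FreePiece p.1 p.2}, (x : ℝ≥0∞) ^ ((p : Wd × Wd).1.length +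
      (p : Wd × Wd).2.length) * S ^ htn p = 1)
    (h2 : ∑' p : {p : Wd × Wd | FreePiece p.1 p.2}, (x' : ℝ≥0∞) ^ ((p : Wd × Wd).1.length +
      (p : Wd × Wd).2.length) * S ^ htn p = 1) : x' ≤ x := by
  by_contra hcon
  rw [not_le] at hcon
  obtain ⟨r, hr⟩ : ∃ r : ℝ≥0, r = x' / x := ⟨_, rfl⟩
  have hr1 : 1 < r := by
    rw [hr, lt_div_iff₀ hx, one_mul]
    exact hcon
  have hrx : x' = r * x := by
    rw [hr, div_mul_cancel₀ _ hx.ne']
  have h3 : (r : ℝ≥0∞) * ∑' p : {p : Wd × Wd | FreePiece p.1 p.2}, (x : ℝ≥0∞) ^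
      ((p : Wd × Wd).1.length + (p : Wd × Wd).2.length) * S ^ htn p ≤
      ∑' p : {p : Wd × Wd | FreePiece p.1 p.2}, (x' : ℝ≥0∞) ^ ((p : Wd × Wd).1.length +
      (p : Wd × Wd).2.length) * S ^ htn p := by
    rw [← ENNReal.tsum_mul_left]
    refine ENNReal.tsum_le_tsum fun p => ?_
    rw [← mul_assoc]
    refine mul_le_mul_left ?_ _
    have hlen : 1 ≤ (p : Wd × Wd).1.length + (p : Wd × Wd).2.length := by
      have h4 := hl_eq p.2
      have h5 := hl_pos p.2
      omega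
    have h6 : (r * x ^ ((p : Wd × Wd).1.length + (p : Wd × Wd).2.length) : ℝ≥0) ≤
        x' ^ ((p : Wd × Wd).1.length + (p : Wd × Wd).2.length) := by
      rw [hrx, mul_pow]
      refine mul_le_mul_left ?_ _
      exact le_self_pow₀ hr1.le (by omega)
    exact_mod_cast h6
  rw [h1, h2, mul_one] at h3
  have h4 : r ≤ 1 := by exact_mod_cast h3
  exact absurd hr1 (not_lt.2 h4)

end RoomX

open RoomX in
theorem t_ROOM (hMC : MC_Stmt) (hMN : MN_Stmt) (hMA : MA_Stmt) (hI : FL.MGI1_Stmt) :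
    ROOM_Stmt := by
  obtain ⟨A0, hA0, hC⟩ := hMC
  obtain ⟨A1, hA1, hN⟩ := hMN
  refine ⟨4 * A0 + 2 * A1 + 4, by linarith, fun f hf hf1 n L rho hL hn hr hF => ?_⟩
  obtain ⟨x, hx, hroom⟩ := hC f hf hf1
  obtain ⟨x', e, C0, hx'0, he, he1, hC0, hone', hB⟩ := hN f hf hf1
  have hL1 : (1 : ℝ) ≤ L := by exact_mod_cast hL
  have hL0 : (0 : ℝ) < L := by linarith
  have hone : (1 : ℝ) ≤ 1 / f := by
    rw [le_div_iff₀ hf]
    linarith
  set s : ℝ≥0 := (Real.exp (-f)).toNNReal with hs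
  have hsr : (s : ℝ) = Real.exp (-f) := Real.coe_toNNReal _ (Real.exp_pos _).le
  have hs0 : 0 < s := Real.toNNReal_pos.2 (Real.exp_pos _)
  have hqs : ((s⁻¹ : ℝ≥0) : ℝ≥0∞) = (ENNReal.ofReal (Real.exp (-(f / 2))))⁻¹ ^ 2 := by
    rw [ENNReal.coe_inv hs0.ne', ← ENNReal.inv_pow, ← ENNReal.ofReal_pow (Real.exp_pos _).le,
      ← Real.exp_nat_mul]
    congr 2
    show (Real.exp (-f)).toNNReal = (Real.exp (((2 : ℕ) : ℝ) * -(f / 2))).toNNReal
    congr 2
    push_cast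
    ring
  -- the two critical points agree
  have hxx : x' ≤ x.toNNReal :=
    uniq ((s⁻¹ : ℝ≥0) : ℝ≥0∞) x.toNNReal x' (Real.toNNReal_pos.2 hx.x_pos)
      (MG.free_one hx.crE hqs) hone'
  have hxr : (x' : ℝ) ≤ x := by
    have h1 : ((x.toNNReal : ℝ≥0) : ℝ) = x := Real.coe_toNNReal _ hx.x_pos.le
    rw [← h1]
    exact_mod_cast hxx
  -- the choice of c
  set c : ℝ := f / (4 * L) with hc
  have hc0 : 0 < c := by positivity
  have hc1 : c ≤ f / 4 := by
    rw [hc]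
    apply div_le_div_of_nonneg_left hf.le (by norm_num)
    linarith
  have hcL : c * L ≤ 1 / 4 := by
    rw [hc]
    have : f / (4 * L) * L = f / 4 := by field_simp
    rw [this]
    linarith
  obtain ⟨y, hxy, hUp, hchi⟩ := hroom c hc0 hc1
  set δ : ℝ := c * Real.exp (-(A0 / f)) with hδ
  have hδ0 : 0 < δ := by positivity
  have hexp1 : Real.exp (-(A0 / f)) ≤ 1 := by
    rw [← Real.exp_zero]
    apply Real.exp_le_exp.2
    have : 0 ≤ A0 / f := by positivity
    linarith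
  have hδ1 : δ ≤ 1 / 4 := by
    rw [hδ]
    calc c * Real.exp (-(A0 / f)) ≤ (1 / 4) * 1 := by
          gcongr
          linarith
      _ = 1 / 4 := by norm_num
  have he0 : (0 : ℝ) < e := lt_of_lt_of_le (Real.exp_pos _) he
  have hn0 : (0 : ℝ) < n := by
    have h1 : 0 < Real.exp ((4 * A0 + 2 * A1 + 4) / f) * L := by positivity
    linarith
  -- the tail
  set τ : ℝ := C0 * (((1 + (e : ℝ)) ^ 2)⁻¹) ^ (n + 1) with hτ
  have hτ0 : 0 ≤ τ := by positivity
  have hτδ : τ ≤ δ := by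
    have h1 : 2 * (n : ℝ) * e ≤ ((1 + (e : ℝ)) ^ 2) ^ (n + 1) := by
      have h2 := one_add_mul_le_pow (a := (e : ℝ)) (by linarith) (2 * (n + 1))
      rw [← pow_mul]
      push_cast at h2 ⊢
      nlinarith
    have h3 : 0 < 2 * (n : ℝ) * e := by positivity
    have h4 : τ ≤ C0 / (2 * n * e) := by
      rw [hτ, inv_pow, div_eq_mul_inv]
      exact mul_le_mul_of_nonneg_left (inv_anti₀ h3 h1) C0.2
    have h5 : (C0 : ℝ) / (2 * n * e) ≤ Real.exp (A1 / f) / (2 * n * Real.exp (-(A1 / f))) := by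
      gcongr
    have h6 : Real.exp (A1 / f) / (2 * n * Real.exp (-(A1 / f))) ≤ δ := by
      rw [div_le_iff₀ (by positivity), hδ, hc]
      have h7 : 4 / f ≤ Real.exp (4 / f) := by
        have := Real.add_one_le_exp (4 / f)
        linarith
      have h8 : 4 * Real.exp (-(4 / f)) ≤ f := by
        rw [Real.exp_neg]
        rw [← div_eq_mul_inv, div_le_iff₀ (Real.exp_pos _)]
        rwa [div_le_iff₀ hf, mul_comm] at h7
      have h9 : Real.exp (A1 / f) = Real.exp (-(4 / f)) * Real.exp (-(A0 / f)) *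
          Real.exp (-(A1 / f)) * Real.exp ((A0 + 2 * A1 + 4) / f) := by
        rw [← Real.exp_add, ← Real.exp_add, ← Real.exp_add]
        congr 1
        field_simp
        ring
      have h10 : Real.exp ((A0 + 2 * A1 + 4) / f) ≤ Real.exp ((4 * A0 + 2 * A1 + 4) / f) := by
        apply Real.exp_le_exp.2
        gcongr
        linarith
      have h11 : Real.exp ((A0 + 2 * A1 + 4) / f) ≤ n / L := by
        rw [le_div_iff₀ hL0]
        calc Real.exp ((A0 + 2 * A1 + 4) / f) * L ≤ Real.exp ((4 * A0 + 2 * A1 + 4) / f) * L := by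
              gcongr
          _ ≤ n := hn
      rw [h9]
      have h12 : Real.exp (-(4 / f)) ≤ f / 4 := by linarith
      calc Real.exp (-(4 / f)) * Real.exp (-(A0 / f)) * Real.exp (-(A1 / f)) *
            Real.exp ((A0 + 2 * A1 + 4) / f)
          ≤ f / 4 * Real.exp (-(A0 / f)) * Real.exp (-(A1 / f)) * (n / L) := by gcongr
        _ = 1 / 2 * (f / (4 * L) * Real.exp (-(A0 / f)) * (2 * n * Real.exp (-(A1 / f)))) := by
            field_simp
        _ ≤ f / (4 * L) * Real.exp (-(A0 / f)) * (2 * n * Real.exp (-(A1 / f))) := by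
            have : 0 ≤ f / (4 * L) * Real.exp (-(A0 / f)) * (2 * n * Real.exp (-(A1 / f))) := by
              positivity
            linarith
    exact h4.trans (h5.trans h6)
  have ht : 1 ≤ (1 + δ) ^ 2 * (1 - τ) := by
    have h1 : (1 + δ) ^ 2 * (1 - δ) ≤ (1 + δ) ^ 2 * (1 - τ) :=
      mul_le_mul_of_nonneg_left (by linarith) (by positivity)
    nlinarith [mul_nonneg hδ0.le hδ0.le]
  have hrho := ratio n s ((x' : ℝ) ^ 2 / s) rho τ (1 + δ) hs0 (by positivity) hr ht hτ0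
    (by linarith) (low hI s x' e C0 hs0 hx'0 (by exact_mod_cast he0) hone' hB n)
    (by rw [hsr]; exact hF)
  have hy0 : 0 < y := by
    have h1 : 0 < x * (1 + c * Real.exp (-(A0 / f))) := by
      have := hx.x_pos
      positivity
    linarith
  refine ⟨y.toNNReal, ?_, fun k hk => ?_⟩
  · rw [Real.coe_toNNReal _ hy0.le, ← hsr]
    have h1 : rho * s ≤ (1 + δ) ^ 2 * (x' : ℝ) ^ 2 := by
      have h2 := mul_le_mul_of_nonneg_right hrho (show (0 : ℝ) ≤ s from s.2)
      have h3 : (1 + δ) ^ 2 * ((x' : ℝ) ^ 2 / s) * s = (1 + δ) ^ 2 * (x' : ℝ) ^ 2 := by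
        have : (s : ℝ) ≠ 0 := by
          rw [hsr]
          exact (Real.exp_pos _).ne'
        field_simp
      rwa [h3] at h2
    refine h1.trans ?_
    rw [← mul_pow]
    apply pow_le_pow_left₀ (by positivity)
    calc (1 + δ) * (x' : ℝ) ≤ (1 + δ) * x := by gcongr
      _ = x * (1 + c * Real.exp (-(A0 / f))) := by rw [hδ]; ring
      _ ≤ y := hxy
  · have h1 := hMA.2.2 y.toNNReal _ hUp (k : ℤ)
    rw [Int.natAbs_natCast] at h1
    have h2 : (chi y.toNNReal).toReal ≤ Real.exp (A0 / f) := by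
      have := ENNReal.toReal_mono ENNReal.ofReal_ne_top hchi
      rwa [ENNReal.toReal_ofReal (Real.exp_pos _).le] at this
    have h3 : gfw y.toNNReal (Gn k) ≤
        ENNReal.ofReal (Real.exp (A0 / f) ^ 2 * Real.exp (-(f / 2) + c) ^ k) := by
      refine h1.trans (ENNReal.ofReal_le_ofReal ?_)
      gcongr
    calc ENNReal.ofReal (((Real.exp (-f))⁻¹) ^ k) * gfw y.toNNReal (Gn k) ^ 2
        ≤ ENNReal.ofReal (((Real.exp (-f))⁻¹) ^ k) *
          ENNReal.ofReal (Real.exp (A0 / f) ^ 2 * Real.exp (-(f / 2) + c) ^ k) ^ 2 := by gcongr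
      _ = ENNReal.ofReal (((Real.exp (-f))⁻¹) ^ k *
          (Real.exp (A0 / f) ^ 2 * Real.exp (-(f / 2) + c) ^ k) ^ 2) := by
          rw [← ENNReal.ofReal_pow (by positivity), ← ENNReal.ofReal_mul (by positivity)]
      _ ≤ ENNReal.ofReal (Real.exp ((4 * A0 + 2 * A1 + 4) / f)) := by
          apply ENNReal.ofReal_le_ofReal
          have h4 : ((Real.exp (-f))⁻¹) ^ k *
              (Real.exp (A0 / f) ^ 2 * Real.exp (-(f / 2) + c) ^ k) ^ 2 =
              Real.exp (4 * (A0 / f) + 2 * (c * k)) := by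
            rw [← Real.exp_neg, neg_neg, ← Real.exp_nat_mul, ← Real.exp_nat_mul,
              ← Real.exp_nat_mul, ← Real.exp_add, ← Real.exp_nat_mul, ← Real.exp_add]
            congr 1
            push_cast
            ring
          rw [h4]
          apply Real.exp_le_exp.2
          have hkL : (k : ℝ) ≤ L := by exact_mod_cast hk
          have h5 : c * k ≤ 1 / 4 := (mul_le_mul_of_nonneg_left hkL hc0.le).trans hcL
          have h6 : (4 * A0 + 2 * A1 + 4) / f = 4 * (A0 / f) + (2 * (A1 / f) + 4 * (1 / f)) := by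
            field_simp
            ring
          rw [h6]
          have h7 : 0 ≤ A1 / f := by positivity
          linarith

end Pool.Agent.EXW
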