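import Pool.Agent.Lib_helper89.FL.GSum

/-!
# Project EXW, base file: functions of the class parameter `D ≥ 2` with polynomial bounds

`PB F` : `|F D| ≤ D ^ K` for all `D ≥ 2`.  `LB F` : `(D ^ K)⁻¹ ≤ F D` for all `D ≥ 2`.
-/

set_option autoImplicit false

open Finset Filter Topology

namespace Pool.Agent.EXW

open Pool.Agent.Gap Pool.Agent.FL

/-- polynomially bounded function of the parameter -/
def PB (F : ℝ → ℝ) : Prop := ∃ K : ℕ, ∀ D : ℝ, 2 ≤ D → |F D| ≤ D ^ K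

/-- bounded below by an inverse power of the parameter -/
def LB (F : ℝ → ℝ) : Prop := ∃ K : ℕ, ∀ D : ℝ, 2 ≤ D → (D ^ K)⁻¹ ≤ F D

namespace PB

variable {F G : ℝ → ℝ}

lemma pow_mono {D : ℝ} (hD : 2 ≤ D) {a b : ℕ} (h : a ≤ b) : D ^ a ≤ D ^ b :=
  pow_le_pow_right₀ (by linarith) h

/-- the form used at the end of a module -/
lemma le (h : PB F) : ∃ K : ℕ, ∀ D : ℝ, 2 ≤ D → F D ≤ D ^ K := by
  obtain ⟨K, hK⟩ := h
  exact ⟨K, fun D hD => (le_abs_self _).trans (hK D hD)⟩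

/-- common exponent for two functions -/
lemma le2 (h : PB F) (h' : PB G) : ∃ K : ℕ, ∀ D : ℝ, 2 ≤ D → F D ≤ D ^ K ∧ G D ≤ D ^ K := by
  obtain ⟨K, hK⟩ := h
  obtain ⟨K', hK'⟩ := h'
  refine ⟨max K K', fun D hD => ⟨?_, ?_⟩⟩
  · exact ((le_abs_self _).trans (hK D hD)).trans (pow_mono hD (le_max_left _ _))
  · exact ((le_abs_self _).trans (hK' D hD)).trans (pow_mono hD (le_max_right _ _))

lemma of_le (h : PB G) (hFG : ∀ D : ℝ, 2 ≤ D → |F D| ≤ G D) : PB F := by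
  obtain ⟨K, hK⟩ := h
  exact ⟨K, fun D hD => (hFG D hD).trans ((le_abs_self _).trans (hK D hD))⟩

lemma congr (h : PB G) (hFG : ∀ D : ℝ, 2 ≤ D → F D = G D) : PB F := by
  obtain ⟨K, hK⟩ := h
  exact ⟨K, fun D hD => by rw [hFG D hD]; exact hK D hD⟩

lemma const (c : ℝ) : PB fun _ => c := by
  obtain ⟨K, hK⟩ := exists_nat_ge |c|
  refine ⟨K, fun D hD => ?_⟩
  have h1 : (K : ℝ) ≤ 2 ^ K := by exact_mod_cast K.lt_two_pow_self.le
  have h2 : (2 : ℝ) ^ K ≤ D ^ K := pow_le_pow_left₀ (by norm_num) hD K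
  show |c| ≤ D ^ K
  linarith

lemma id : PB fun D => D := ⟨1, fun D hD => by
  show |D| ≤ D ^ 1
  rw [abs_of_nonneg (by linarith), pow_one]⟩

lemma mul (h : PB F) (h' : PB G) : PB fun D => F D * G D := by
  obtain ⟨K, hK⟩ := h
  obtain ⟨K', hK'⟩ := h'
  refine ⟨K + K', fun D hD => ?_⟩
  show |F D * G D| ≤ D ^ (K + K')
  rw [abs_mul, pow_add]
  have : 0 ≤ D ^ K := by positivity
  exact mul_le_mul (hK D hD) (hK' D hD) (abs_nonneg _) this

lemma add (h : PB F) (h' : PB G) : PB fun D => F D + G D := by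
  obtain ⟨K, hK⟩ := h
  obtain ⟨K', hK'⟩ := h'
  refine ⟨max K K' + 1, fun D hD => ?_⟩
  have h1 := (hK D hD).trans (pow_mono hD (le_max_left K K'))
  have h2 := (hK' D hD).trans (pow_mono hD (le_max_right K K'))
  have h3 : 0 ≤ D ^ (max K K') := by positivity
  calc |F D + G D| ≤ |F D| + |G D| := abs_add_le _ _
    _ ≤ D ^ (max K K') + D ^ (max K K') := add_le_add h1 h2
    _ ≤ D ^ (max K K') * D := by nlinarith
    _ = _ := (pow_succ _ _).symm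

lemma neg (h : PB F) : PB fun D => -F D := by
  obtain ⟨K, hK⟩ := h
  exact ⟨K, fun D hD => by
    show |-F D| ≤ D ^ K
    rw [abs_neg]; exact hK D hD⟩

lemma sub (h : PB F) (h' : PB G) : PB fun D => F D - G D := by
  have := h.add h'.neg
  exact this.congr fun D _ => sub_eq_add_neg _ _

lemma pow (h : PB F) (k : ℕ) : PB fun D => F D ^ k := by
  induction k with
  | zero => exact (const 1).congr fun D _ => pow_zero _
  | succ k ih => exact (ih.mul h).congr fun D _ => pow_succ _ _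

lemma pow_self (k : ℕ) : PB fun D => D ^ k := id.pow k

lemma abs (h : PB F) : PB fun D => |F D| := by
  obtain ⟨K, hK⟩ := h
  exact ⟨K, fun D hD => by
    show |(|F D|)| ≤ D ^ K
    rw [abs_abs]; exact hK D hD⟩

lemma max (h : PB F) (h' : PB G) : PB fun D => Max.max (F D) (G D) := by
  refine (h.abs.add h'.abs).of_le fun D _ => ?_
  have h1 := abs_nonneg (F D)
  have h2 := abs_nonneg (G D)
  rcases max_cases (F D) (G D) with ⟨h3, -⟩ | ⟨h3, -⟩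
  · rw [h3]; linarith
  · rw [h3]; linarith

lemma sqrt (h : PB F) : PB fun D => Real.sqrt (F D) := by
  refine (h.abs.add (const 1)).of_le fun D _ => ?_
  rw [abs_of_nonneg (Real.sqrt_nonneg _), Real.sqrt_le_left (by positivity)]
  have h1 := abs_nonneg (F D)
  have h2 := le_abs_self (F D)
  nlinarith

/-- inverse of a function bounded below -/
lemma inv (h : LB F) : PB fun D => (F D)⁻¹ := by
  obtain ⟨K, hK⟩ := h
  refine ⟨K, fun D hD => ?_⟩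
  have h1 := hK D hD
  have h2 : 0 < (D ^ K)⁻¹ := by positivity
  have h3 : 0 < F D := h2.trans_le h1
  show |(F D)⁻¹| ≤ D ^ K
  rw [abs_of_pos (inv_pos.2 h3)]
  have := inv_anti₀ h2 h1
  rwa [inv_inv] at this

lemma div (h : PB F) (h' : LB G) : PB fun D => F D / G D :=
  (h.mul (inv h')).congr fun D _ => div_eq_mul_inv _ _

/-- composition with a polynomially bounded function `≥ 2` -/
lemma comp (h : PB F) (h' : PB G) (h2 : ∀ D : ℝ, 2 ≤ D → 2 ≤ G D) : PB fun D => F (G D) := by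
  obtain ⟨K, hK⟩ := h
  exact (h'.pow K).of_le fun D hD => hK _ (h2 D hD)

end PB

namespace LB

variable {F G : ℝ → ℝ}

lemma of_le (h : LB G) (hFG : ∀ D : ℝ, 2 ≤ D → G D ≤ F D) : LB F := by
  obtain ⟨K, hK⟩ := h
  exact ⟨K, fun D hD => (hK D hD).trans (hFG D hD)⟩

lemma const {c : ℝ} (hc : 0 < c) : LB fun _ => c := by
  obtain ⟨K, hK⟩ := (PB.const c⁻¹).le
  refine ⟨K, fun D hD => ?_⟩
  have := inv_anti₀ (inv_pos.2 hc) (hK D hD)
  rwa [inv_inv] at this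

lemma mul (h : LB F) (h' : LB G) : LB fun D => F D * G D := by
  obtain ⟨K, hK⟩ := h
  obtain ⟨K', hK'⟩ := h'
  refine ⟨K + K', fun D hD => ?_⟩
  have h1 : 0 < (D ^ K)⁻¹ := by positivity
  have h2 : 0 < (D ^ K')⁻¹ := by positivity
  show (D ^ (K + K'))⁻¹ ≤ F D * G D
  rw [pow_add, mul_inv]
  exact mul_le_mul (hK D hD) (hK' D hD) h2.le (h1.le.trans (hK D hD))

lemma min (h : LB F) (h' : LB G) : LB fun D => Min.min (F D) (G D) := by
  obtain ⟨K, hK⟩ := h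
  obtain ⟨K', hK'⟩ := h'
  refine ⟨Max.max K K', fun D hD => le_min ?_ ?_⟩
  · exact (inv_anti₀ (by positivity) (PB.pow_mono hD (le_max_left _ _))).trans (hK D hD)
  · exact (inv_anti₀ (by positivity) (PB.pow_mono hD (le_max_right _ _))).trans (hK' D hD)

lemma pow (h : LB F) (k : ℕ) : LB fun D => F D ^ k := by
  obtain ⟨K, hK⟩ := h
  refine ⟨K * k, fun D hD => ?_⟩
  show (D ^ (K * k))⁻¹ ≤ F D ^ k
  rw [pow_mul, ← inv_pow]
  exact pow_le_pow_left₀ (by positivity) (hK D hD) k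

/-- inverse of a positive polynomially bounded function -/
lemma inv (h : PB F) (h0 : ∀ D : ℝ, 2 ≤ D → 0 < F D) : LB fun D => (F D)⁻¹ := by
  obtain ⟨K, hK⟩ := h.le
  exact ⟨K, fun D hD => inv_anti₀ (h0 D hD) (hK D hD)⟩

lemma one_div (h : PB F) (h0 : ∀ D : ℝ, 2 ≤ D → 0 < F D) : LB fun D => 1 / F D := by
  refine (inv h h0).of_le fun D _ => ?_
  rw [_root_.one_div]

lemma inv_self : LB fun D => D⁻¹ := inv PB.id fun D hD => by linarith

lemma pos (h : LB F) {D : ℝ} (hD : 2 ≤ D) : 0 < F D := by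
  obtain ⟨K, hK⟩ := h
  have h1 : 0 < (D ^ K)⁻¹ := by positivity
  exact h1.trans_le (hK D hD)

end LB

/-! ### Sums -/

lemma summable_geo (k : ℕ) {q : ℝ} (h0 : 0 ≤ q) (h1 : q < 1) :
    Summable fun m : ℕ => ((m : ℝ) + 1) ^ k * q ^ m := by
  have h2 : ∀ j : ℕ, Summable (fun m : ℕ => (m : ℝ) ^ j * q ^ m) := fun j =>
    summable_pow_mul_geometric_of_norm_lt_one j (by rwa [Real.norm_of_nonneg h0])
  have h3 : Summable fun m : ℕ => ∑ j ∈ range (k + 1), (m : ℝ) ^ j * q ^ m * (k.choose j : ℝ) :=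
    summable_sum fun j _ => (h2 j).mul_right _
  refine h3.congr fun m => ?_
  rw [add_pow, Finset.sum_mul]
  refine Finset.sum_congr rfl fun j _ => ?_
  ring

/-- `∑ (m + 1) ^ k q ^ m ≤ k! / δ ^ (k + 1)` for `q ≤ 1 - δ` -/
lemma geo_le (k : ℕ) {q δ : ℝ} (h0 : 0 ≤ q) (hδ : 0 < δ) (hq : q ≤ 1 - δ) :
    ∑' m : ℕ, ((m : ℝ) + 1) ^ k * q ^ m ≤ (k.factorial : ℝ) / δ ^ (k + 1) := by
  have h1 : q < 1 := by linarith
  have hn : ‖q‖ < 1 := by rwa [Real.norm_of_nonneg h0]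
  have h2 := tsum_choose_mul_geometric_of_norm_lt_one k hn
  have hs := summable_choose_mul_geometric_of_norm_lt_one k hn
  have h3 : ∀ m : ℕ, ((m : ℝ) + 1) ^ k * q ^ m ≤
      (k.factorial : ℝ) * (((m + k).choose k : ℕ) * q ^ m) := by
    intro m
    have h4 : (((m : ℝ) + 1) ^ k) ≤ (k.factorial : ℝ) * ((m + k).choose k : ℕ) := by
      have h5 : (m + 1) ^ k ≤ (m + 1).ascFactorial k := Nat.pow_succ_le_ascFactorial (m + 1) k |>.trans (le_refl _)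
      have h6 : (m + 1).ascFactorial k = k.factorial * (m + k).choose k :=
        Nat.ascFactorial_eq_factorial_mul_choose m k
      rw [h6] at h5
      exact_mod_cast h5
    rw [← mul_assoc]
    exact mul_le_mul_of_nonneg_right h4 (by positivity)
  calc ∑' m : ℕ, ((m : ℝ) + 1) ^ k * q ^ m
      ≤ ∑' m : ℕ, (k.factorial : ℝ) * (((m + k).choose k : ℕ) * q ^ m) :=
        (summable_geo k h0 h1).tsum_le_tsum h3 (hs.mul_left _)
    _ = (k.factorial : ℝ) * (1 / (1 - q) ^ (k + 1)) := by rw [tsum_mul_left, h2]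
    _ ≤ (k.factorial : ℝ) * (1 / δ ^ (k + 1)) := by
        refine mul_le_mul_of_nonneg_left ?_ (by positivity)
        refine one_div_le_one_div_of_le (by positivity) ?_
        exact pow_le_pow_left₀ hδ.le (by linarith) _
    _ = _ := by ring

/-- sums with powers, for `q D ≤ 1 - δ D` -/
lemma PB.geo (k : ℕ) {q δ : ℝ → ℝ} (h0 : ∀ D : ℝ, 2 ≤ D → 0 ≤ q D) (hδ : LB δ)
    (hq : ∀ D : ℝ, 2 ≤ D → q D ≤ 1 - δ D) :
    PB fun D => ∑' m : ℕ, ((m : ℝ) + 1) ^ k * q D ^ m := by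
  have h1 : PB fun D => (k.factorial : ℝ) / δ D ^ (k + 1) := (PB.const _).div (hδ.pow _)
  refine h1.of_le fun D hD => ?_
  rw [abs_of_nonneg (tsum_nonneg fun m => by have := h0 D hD; positivity)]
  exact geo_le k (h0 D hD) (hδ.pos hD) (hq D hD)

lemma PB.geo' (k : ℕ) {q δ : ℝ → ℝ} (h0 : ∀ D : ℝ, 2 ≤ D → 0 ≤ q D) (hδ : LB δ)
    (hq : ∀ D : ℝ, 2 ≤ D → q D ≤ 1 - δ D) :
    PB fun D => ∑' m : ℕ, (m : ℝ) ^ k * q D ^ m := by
  refine (PB.geo k h0 hδ hq).of_le fun D hD => ?_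
  have h1 := h0 D hD
  have h2 := hδ.pos hD
  have h3 := hq D hD
  rw [abs_of_nonneg (tsum_nonneg fun m => by positivity)]
  refine Summable.tsum_le_tsum (fun m => ?_) ?_ (summable_geo k h1 (by linarith))
  · have : (m : ℝ) ^ k ≤ ((m : ℝ) + 1) ^ k := pow_le_pow_left₀ (by positivity) (by linarith) k
    exact mul_le_mul_of_nonneg_right this (by positivity)
  · exact summable_pow_mul_geometric_of_norm_lt_one k (by
      rw [Real.norm_of_nonneg h1]; linarith)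

/-! ### The rate `1 - 1 / D` and its roots -/

lemma th_pos {D : ℝ} (hD : 2 ≤ D) : 0 < 1 - D⁻¹ := by
  have : D⁻¹ ≤ 2⁻¹ := inv_anti₀ (by norm_num) hD
  norm_num at this
  linarith

lemma th_lt {D : ℝ} (hD : 2 ≤ D) : 1 - D⁻¹ < 1 := by
  have : 0 < D⁻¹ := inv_pos.2 (by linarith)
  linarith

lemma inv_le_half {D : ℝ} (hD : 2 ≤ D) : D⁻¹ ≤ 1 / 2 := by
  have : D⁻¹ ≤ 2⁻¹ := inv_anti₀ (by norm_num) hD
  norm_num at this
  linarith

/-- `√(1 - 1/D) ≤ 1 - 1/(2D)` -/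
lemma sqrt_th {D : ℝ} (hD : 2 ≤ D) : Real.sqrt (1 - D⁻¹) ≤ 1 - (2 * D)⁻¹ := by
  have h1 := inv_le_half hD
  have h2 : 0 < D⁻¹ := inv_pos.2 (by linarith)
  have h3 : (2 * D)⁻¹ = D⁻¹ / 2 := by rw [mul_inv]; ring
  rw [h3, Real.sqrt_le_left (by linarith)]
  nlinarith

/-- `√√(1 - 1/D) ≤ 1 - 1/(4D)` -/
lemma sqrt_sqrt_th {D : ℝ} (hD : 2 ≤ D) : Real.sqrt (Real.sqrt (1 - D⁻¹)) ≤ 1 - (4 * D)⁻¹ := by
  have h1 := inv_le_half hD
  have h2 : 0 < D⁻¹ := inv_pos.2 (by linarith)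
  have h3 : (4 * D)⁻¹ = D⁻¹ / 4 := by rw [mul_inv]; ring
  have h4 : (2 * D)⁻¹ = D⁻¹ / 2 := by rw [mul_inv]; ring
  have h5 := sqrt_th hD
  rw [h4] at h5
  rw [h3, Real.sqrt_le_left (by linarith)]
  nlinarith

/-- `(1 - 1/D) ^ (1/3) ≤ 1 - 1/(3D)` -/
lemma cbrt_th {D : ℝ} (hD : 2 ≤ D) {q : ℝ} (hq0 : 0 ≤ q) (hq : q ^ 3 = 1 - D⁻¹) :
    q ≤ 1 - (3 * D)⁻¹ := by
  have h1 := inv_le_half hD
  have h2 : 0 < D⁻¹ := inv_pos.2 (by linarith)
  have h3 : (3 * D)⁻¹ = D⁻¹ / 3 := by rw [mul_inv]; ring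
  rw [h3]
  by_contra hcon
  push Not at hcon
  have h4 : (1 - D⁻¹ / 3) ^ 3 < q ^ 3 := pow_lt_pow_left₀ hcon (by linarith) (by norm_num)
  rw [hq] at h4
  nlinarith [sq_nonneg D⁻¹, mul_pos h2 h2]

lemma LB.invmul {c : ℝ} (hc : 0 < c) : LB fun D => (c * D)⁻¹ :=
  LB.inv ((PB.const c).mul PB.id) fun D hD => by positivity

lemma th_mono {D D' : ℝ} (hD : 2 ≤ D) (h : D ≤ D') : 1 - D⁻¹ ≤ 1 - D'⁻¹ := by
  have := inv_anti₀ (by linarith : 0 < D) h
  linarith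

lemma bd_mono {D D' : ℝ} (hD : 2 ≤ D) (h : D ≤ D') (m : ℕ) :
    D * (1 - D⁻¹) ^ m ≤ D' * (1 - D'⁻¹) ^ m := by
  have h1 := th_pos hD
  exact mul_le_mul h (pow_le_pow_left₀ h1.le (th_mono hD h) m) (by positivity) (by linarith)

/-! ### Monotonicity of the classes in the parameter -/

lemma cls_mono {D D' : ℝ} (hD : 2 ≤ D) (h : D ≤ D') {G : GapKernel} (hG : Cls D (1 - D⁻¹) G) :
    Cls D' (1 - D'⁻¹) G where
  loc := hG.loc
  rho_ge := (inv_anti₀ (by linarith) h).trans hG.rho_ge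
  dec m := (hG.dec m).trans (bd_mono hD h m)

lemma clsCap_mono {D D' : ℝ} (hD : 2 ≤ D) (h : D ≤ D') {G : GapKernel} {C0 : ℕ}
    {s : ℕ → ℤ → ℝ} (hs : ClsCap D (1 - D⁻¹) G C0 s) : ClsCap D' (1 - D'⁻¹) G C0 s where
  cap := hs.cap
  one := (inv_anti₀ (by linarith) h).trans hs.one
  supp := hs.supp
  dec m := (hs.dec m).trans (bd_mono hD h m)

lemma critSrc_mono {D D' : ℝ} (hD : 2 ≤ D) (h : D ≤ D') {R' : ℕ} {s : ℤ → ℝ}
    (hs : CritSrc D (1 - D⁻¹) R' s) : CritSrc D' (1 - D'⁻¹) R' s where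
  nonneg := hs.nonneg
  supp := hs.supp
  one := (inv_anti₀ (by linarith) h).trans hs.one
  dec g := (hs.dec g).trans (bd_mono hD h g)

lemma critSol_mono {D D' : ℝ} (hD : 2 ≤ D) (h : D ≤ D') {G : GapKernel} {s v : ℤ → ℝ}
    (hs : CritSol D G s v) : CritSol D' G s v where
  zero := hs.zero
  low g hg := (inv_anti₀ (by linarith) h).trans (hs.low g hg)
  up g := (hs.up g).trans h
  energy N := (hs.energy N).trans h
  eq := hs.eq

/-! ### Sums over the piece types -/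

/-- all moments of the half length are bounded by a power of `D` -/
lemma sum_pow (k : ℕ) : ∃ K : ℕ, ∀ D : ℝ, 2 ≤ D → ∀ G : GapKernel, Cls D (1 - D⁻¹) G →
    ∑ i ∈ G.S, (i.1 : ℝ) ^ k * (G.rho ^ i.1 * G.tot i) ≤ D ^ K := by
  have h1 : PB fun D => D * ∑' m : ℕ, (m : ℝ) ^ k * (1 - D⁻¹) ^ m :=
    PB.id.mul (PB.geo' k (fun D hD => (th_pos hD).le) LB.inv_self fun D _ => le_rfl)
  obtain ⟨K, hK⟩ := h1.le
  refine ⟨K, fun D hD G hG => le_trans ?_ (hK D hD)⟩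
  refine GSum.sum_le hG (by linarith) (th_pos hD).le (F := fun m => (m : ℝ) ^ k)
    (fun m => by positivity) ?_
  exact summable_pow_mul_geometric_of_norm_lt_one k (by
    rw [Real.norm_of_nonneg (th_pos hD).le]; exact th_lt hD)

/-- tails: `∑ over types of half length ≥ a` decays exponentially -/
lemma sum_tail (k : ℕ) : ∃ K : ℕ, ∀ D : ℝ, 2 ≤ D → ∀ G : GapKernel, Cls D (1 - D⁻¹) G →
    ∀ a : ℕ, ∑ i ∈ G.S.filter (fun i => a ≤ i.1), (i.1 : ℝ) ^ k * (G.rho ^ i.1 * G.tot i)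
      ≤ D ^ K * (1 - (2 * D)⁻¹) ^ a := by
  have hPB : PB fun D => D * ∑' m : ℕ, (m : ℝ) ^ k * (1 - (2 * D)⁻¹) ^ m :=
    PB.id.mul (PB.geo' k (fun D hD => by
      have := inv_le_half (show 2 ≤ 2 * D by linarith)
      linarith) (LB.invmul (c := 2) (by norm_num)) fun D _ => le_rfl)
  obtain ⟨K, hK⟩ := hPB.le
  refine ⟨K, fun D hD G hG a => ?_⟩
  have h2 : 2 ≤ 2 * D := by linarith
  set q : ℝ := 1 - (2 * D)⁻¹ with hq
  have hq0 : 0 < q := th_pos h2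
  have hq1 : q < 1 := th_lt h2
  have hθ := th_pos hD
  have hqq : 1 - D⁻¹ ≤ q * q := by
    have h3 := sqrt_th hD
    have h4 := Real.mul_self_sqrt hθ.le
    have h5 := Real.sqrt_nonneg (1 - D⁻¹)
    calc 1 - D⁻¹ = Real.sqrt (1 - D⁻¹) * Real.sqrt (1 - D⁻¹) := h4.symm
      _ ≤ q * q := mul_le_mul h3 h3 h5 hq0.le
  have hs : Summable fun m : ℕ => (m : ℝ) ^ k * q ^ m :=
    summable_pow_mul_geometric_of_norm_lt_one k (by rw [Real.norm_of_nonneg hq0.le]; exact hq1)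
  have key : ∀ m : ℕ, (if a ≤ m then (m : ℝ) ^ k else 0) * (1 - D⁻¹) ^ m
      ≤ q ^ a * ((m : ℝ) ^ k * q ^ m) := by
    intro m
    split_ifs with h
    · have e : (1 - D⁻¹) ^ m ≤ q ^ m * q ^ m := by
        rw [← mul_pow]
        exact pow_le_pow_left₀ hθ.le hqq m
      have e2 : q ^ m ≤ q ^ a := pow_le_pow_of_le_one hq0.le hq1.le h
      calc (m : ℝ) ^ k * (1 - D⁻¹) ^ m ≤ (m : ℝ) ^ k * (q ^ m * q ^ m) := by gcongr
        _ ≤ (m : ℝ) ^ k * (q ^ a * q ^ m) := by gcongr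
        _ = _ := by ring
    · rw [zero_mul]; positivity
  have hs2 : Summable fun m : ℕ => (if a ≤ m then (m : ℝ) ^ k else 0) * (1 - D⁻¹) ^ m :=
    Summable.of_nonneg_of_le (fun m => by split_ifs <;> positivity) key (hs.mul_left _)
  have h1 := GSum.sum_le hG (by linarith) hθ.le (F := fun m => if a ≤ m then (m : ℝ) ^ k else 0)
    (fun m => by split_ifs <;> positivity) hs2
  have h3 : ∑ i ∈ G.S.filter (fun i => a ≤ i.1), (i.1 : ℝ) ^ k * (G.rho ^ i.1 * G.tot i)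
      = ∑ i ∈ G.S, (if a ≤ i.1 then (i.1 : ℝ) ^ k else 0) * (G.rho ^ i.1 * G.tot i) := by
    rw [Finset.sum_filter]
    refine Finset.sum_congr rfl fun i _ => ?_
    split_ifs <;> simp
  rw [h3]
  refine h1.trans ?_
  have h4 : ∑' m : ℕ, (if a ≤ m then (m : ℝ) ^ k else 0) * (1 - D⁻¹) ^ m
      ≤ q ^ a * ∑' m : ℕ, (m : ℝ) ^ k * q ^ m := by
    rw [← tsum_mul_left]
    exact hs2.tsum_le_tsum key (hs.mul_left _)
  calc D * ∑' m : ℕ, (if a ≤ m then (m : ℝ) ^ k else 0) * (1 - D⁻¹) ^ m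
      ≤ D * (q ^ a * ∑' m : ℕ, (m : ℝ) ^ k * q ^ m) :=
        mul_le_mul_of_nonneg_left h4 (by linarith)
    _ = (D * ∑' m : ℕ, (m : ℝ) ^ k * q ^ m) * q ^ a := by ring
    _ ≤ _ := mul_le_mul_of_nonneg_right (hK D hD) (by positivity)

/-- the three parameters of a kernel of the class -/
lemma par_bounds : ∃ K : ℕ, ∀ D : ℝ, 2 ≤ D → ∀ G : GapKernel, Cls D (1 - D⁻¹) G →
    1 ≤ G.mbar ∧ G.mbar ≤ D ^ K ∧ 1 ≤ G.hbar ∧ G.hbar ≤ D ^ K ∧ D⁻¹ ≤ G.sig2 ∧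
      G.sig2 ≤ D ^ K := by
  obtain ⟨K1, h1⟩ := sum_pow 1
  obtain ⟨K2, h2⟩ := sum_pow 2
  refine ⟨K1 + K2 + 2, fun D hD G hG => ?_⟩
  have hD1 : (1 : ℝ) ≤ D := by linarith
  have hrho := G.rho_pos
  have hrt : ∀ i : ℕ × ℕ, 0 ≤ G.rho ^ i.1 * G.tot i := fun i => GSum.rt_nonneg G i
  have p1 : D ^ K1 ≤ D ^ (K1 + K2 + 2) := pow_le_pow_right₀ hD1 (by omega)
  have hm1 : 1 ≤ G.mbar := by
    rw [← GSum.crit' G]
    unfold GapKernel.mbar
    refine Finset.sum_le_sum fun i hi => ?_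
    have h1 : (1 : ℝ) ≤ i.1 := by exact_mod_cast (G.pos_mem i hi).1
    have h2 := hrt i
    nlinarith
  have hm2 : G.mbar ≤ D ^ (K1 + K2 + 2) := by
    refine le_trans (le_of_eq ?_) ((h1 D hD G hG).trans p1)
    unfold GapKernel.mbar
    refine Finset.sum_congr rfl fun i _ => ?_
    ring
  have hh1 : 1 ≤ G.hbar := by
    rw [← GSum.crit' G]
    unfold GapKernel.hbar
    refine Finset.sum_le_sum fun i hi => ?_
    have h1 : (1 : ℝ) ≤ i.2 := by exact_mod_cast (G.pos_mem i hi).2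
    have h2 := hrt i
    nlinarith
  have hh2 : G.hbar ≤ G.mbar := by
    unfold GapKernel.hbar GapKernel.mbar
    refine Finset.sum_le_sum fun i hi => ?_
    have h1 : (i.2 : ℝ) ≤ i.1 := by exact_mod_cast hG.loc.h_le i hi
    have h2 := hrt i
    nlinarith
  refine ⟨hm1, hm2, hh1, hh2.trans hm2, ?_, ?_⟩
  · refine hG.rho_ge.trans ?_
    have hR := GSum.one_le_R G
    have h : G.rho ^ 1 * ∑ d ∈ Icc (-(G.R : ℤ)) G.R, (d : ℝ) ^ 2 * G.T (1, 1) d ≤ G.sig2 := by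
      refine Finset.single_le_sum (f := fun i : ℕ × ℕ => G.rho ^ i.1 *
        ∑ d ∈ Icc (-(G.R : ℤ)) G.R, (d : ℝ) ^ 2 * G.T i d) ?_ G.i0_mem
      intro i _
      have h2 : 0 ≤ ∑ d ∈ Icc (-(G.R : ℤ)) G.R, (d : ℝ) ^ 2 * G.T i d :=
        Finset.sum_nonneg fun d _ => mul_nonneg (sq_nonneg _) (G.T_nonneg i d)
      positivity
    have h1 : (1 : ℝ) ≤ ∑ d ∈ Icc (-(G.R : ℤ)) G.R, (d : ℝ) ^ 2 * G.T (1, 1) d := by
      have h3 : ((1 : ℤ) : ℝ) ^ 2 * G.T (1, 1) 1 ≤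
          ∑ d ∈ Icc (-(G.R : ℤ)) G.R, (d : ℝ) ^ 2 * G.T (1, 1) d := by
        refine Finset.single_le_sum (f := fun d : ℤ => (d : ℝ) ^ 2 * G.T (1, 1) d)
          (fun d _ => mul_nonneg (sq_nonneg _) (G.T_nonneg _ d)) ?_
        rw [Finset.mem_Icc]
        omega
      rw [G.T_one.2.1] at h3
      norm_num at h3
      exact h3
    nlinarith
  · have h3 : G.sig2 ≤ 4 * ∑ i ∈ G.S, (i.1 : ℝ) ^ 2 * (G.rho ^ i.1 * G.tot i) := by
      unfold GapKernel.sig2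
      rw [Finset.mul_sum]
      refine Finset.sum_le_sum fun i _ => ?_
      have h4 : ∑ d ∈ Icc (-(G.R : ℤ)) G.R, (d : ℝ) ^ 2 * G.T i d ≤
          4 * (i.1 : ℝ) ^ 2 * G.tot i := by
        unfold GapKernel.tot
        rw [Finset.mul_sum]
        refine Finset.sum_le_sum fun d _ => ?_
        rcases lt_or_ge (2 * (i.1 : ℤ)) |d| with h5 | h5
        · rw [hG.loc.T_loc i d h5]
          simp
        · refine mul_le_mul_of_nonneg_right ?_ (G.T_nonneg i d)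
          have h6 : |(d : ℝ)| ≤ 2 * (i.1 : ℝ) := by exact_mod_cast h5
          rw [← sq_abs]
          calc |(d : ℝ)| ^ 2 ≤ (2 * (i.1 : ℝ)) ^ 2 := pow_le_pow_left₀ (abs_nonneg _) h6 2
            _ = _ := by ring
      calc G.rho ^ i.1 * ∑ d ∈ Icc (-(G.R : ℤ)) G.R, (d : ℝ) ^ 2 * G.T i d
          ≤ G.rho ^ i.1 * (4 * (i.1 : ℝ) ^ 2 * G.tot i) :=
            mul_le_mul_of_nonneg_left h4 (by positivity)
        _ = _ := by ring
    have h5 := h2 D hD G hG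
    have h6 : (4 : ℝ) ≤ D ^ 2 := by nlinarith
    have h7 : 0 ≤ D ^ K2 := by positivity
    calc G.sig2 ≤ 4 * D ^ K2 := h3.trans (by linarith)
      _ ≤ D ^ 2 * D ^ K2 := mul_le_mul_of_nonneg_right h6 h7
      _ = D ^ (2 + K2) := (pow_add _ _ _).symm
      _ ≤ _ := pow_le_pow_right₀ hD1 (by omega)

end Pool.Agent.EXW
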