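import Pool.Agent.EXW.StmtsF

/-!
# EXW, module QDAT: the kernel of a force
-/

set_option autoImplicit false

namespace Pool.Agent.EXW

open Finset Pool.Agent.Lib27 Pool.Agent.SapR Pool.Agent.Gap Pool.Agent.FL

namespace QDAT

/-- the tails are monotone in both constants -/
lemma tails_mono {C C' θ θ' : ℝ} (hC0 : 0 ≤ C) (hC : C ≤ C') (hθ : 0 ≤ θ) (hθ' : θ ≤ θ') {n : ℕ}
    {s rho : ℝ} (h : Tails C θ n s rho) : Tails C' θ' n s rho := by
  obtain ⟨h1, h2, h3⟩ := h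
  have hp : ∀ m : ℕ, θ ^ m ≤ θ' ^ m := fun m => pow_le_pow_left₀ hθ hθ' m
  have hm : ∀ m : ℕ, C * θ ^ m ≤ C' * θ' ^ m := fun m =>
    mul_le_mul hC (hp m) (pow_nonneg hθ m) (hC0.trans hC)
  refine ⟨fun m => (h1 m).trans (hm m), fun m => (h2 m).trans (hm m), h3.trans ?_⟩
  exact mul_le_mul (mul_le_mul_of_nonneg_right hC (Nat.cast_nonneg n)) (hp n) (pow_nonneg hθ n)
    (mul_nonneg (hC0.trans hC) (Nat.cast_nonneg n))

/-- the data from the tails -/
lemma core (hMG2 : MGI2_Stmt) (hKW : KW_Stmt) {C θ s : ℝ} {n : ℕ} (hC : 100 ≤ C) (hn1 : 1 ≤ n)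
    (hs : 0 < s) (hs1 : s ≤ 1)
    (hT0 : ∀ rho : ℝ, 0 < rho → ∑ p ∈ Pc (2 * n - 1), rho ^ hl p * s ^ (hl p - htn p) = 1 →
      Tails C θ n s rho) : Nonempty (Dat C θ n s) := by
  obtain ⟨G, B, hloc, hcrit, htot, hcap, hone, hsupp, hsol, hcount⟩ := hKW n s hn1 hs hs1
  have hT := hT0 G.rho G.rho_pos hcrit
  have hrho := hMG2.2 n s G.rho hn1 hs hs1 G.rho_pos hcrit
  have hCi : C⁻¹ ≤ 1 / 100 := by
    rw [← one_div]
    exact one_div_le_one_div_of_le (by norm_num) hC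
  refine ⟨⟨G, B, ⟨hloc, hCi.trans hrho.1, ?_⟩, ⟨hcap, ?_, hsupp, ?_⟩, hsol, hcount, hcrit, hT⟩⟩
  · intro m
    have h2 := hT.1 m
    rw [← Finset.mul_sum] at h2 ⊢
    rw [htot m]
    exact h2
  · refine (hCi.trans (by norm_num)).trans hone
  · intro m
    have h2 := hT.2.1 m
    refine le_trans (le_of_eq ?_) h2
    refine Finset.sum_congr rfl fun g hg => ?_
    rw [Finset.mem_Icc] at hg
    unfold capW
    rw [if_pos hg.1, Finset.mul_sum]

end QDAT

theorem t_QDAT (hQ : QMG_Stmt) (hMG : MG_Stmt) (hMG2 : MGI2_Stmt) (hKW : KW_Stmt) :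
    QDAT_Stmt := by
  obtain ⟨A0, hA0, hQ⟩ := hQ
  obtain ⟨C1, θ1, hC1, hθ1, hθ11, n1, h1⟩ := hMG (Real.exp (-1)) (Real.exp_pos _) (by
    rw [Real.exp_lt_one_iff]; norm_num)
  -- the constant
  obtain ⟨A, hA⟩ : ∃ A : ℝ, A = max (max A0 100) (max C1 (1 - θ1)⁻¹) := ⟨_, rfl⟩
  have hA00 : A0 ≤ A := by
    rw [hA]; exact (le_max_left _ _).trans (le_max_left _ _)
  have hA100 : 100 ≤ A := by
    rw [hA]; exact (le_max_right _ _).trans (le_max_left _ _)
  have hAC : C1 ≤ A := by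
    rw [hA]; exact (le_max_left _ _).trans (le_max_right _ _)
  have hAθ : (1 - θ1)⁻¹ ≤ A := by
    rw [hA]; exact (le_max_right _ _).trans (le_max_right _ _)
  have hA1 : 1 ≤ A := by linarith
  have hAe : A ≤ Real.exp A := by
    have := Real.add_one_le_exp A
    linarith
  refine ⟨A, hA1, max n1 2, le_max_right _ _, fun n f hn hf hM => ?_⟩
  have hn1 : n1 ≤ n := (le_max_left _ _).trans hn
  have hn2 : 1 ≤ n := le_trans (by norm_num) ((le_max_right _ _).trans hn)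
  have hmin : 0 < min f 1 := lt_min hf one_pos
  have hMA : Real.exp A ≤ Mf A f := by
    unfold Mf
    rw [Real.exp_le_exp, le_div_iff₀ hmin]
    have : min f 1 ≤ 1 := min_le_right _ _
    nlinarith
  have hM100 : 100 ≤ Mf A f := by linarith
  have hM0 : 0 < Mf A f := by linarith
  have hs1 : Real.exp (-f) ≤ 1 := by
    rw [Real.exp_le_one_iff]; linarith
  refine QDAT.core hMG2 hKW hM100 hn2 (Real.exp_pos _) hs1 fun rho hrho hcrit => ?_
  rcases le_or_gt f 1 with hf1 | hf1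
  · have hMf : Mf A f = Real.exp (A / f) := by
      unfold Mf
      rw [min_eq_left hf1]
    have hle : Real.exp (A0 / f) ≤ Mf A f := by
      rw [hMf, Real.exp_le_exp]
      exact div_le_div_of_nonneg_right hA00 hf.le
    have h2 := hQ f hf hf1 n rho (hle.trans hM) hrho hcrit
    have h3 : 1 ≤ Real.exp (A0 / f) := by
      rw [Real.one_le_exp_iff]
      have : 0 ≤ A0 := by linarith
      positivity
    refine QDAT.tails_mono (Real.exp_pos _).le hle ?_ ?_ h2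
    · have := inv_le_one_of_one_le₀ h3
      linarith
    · have := inv_anti₀ (Real.exp_pos _) hle
      linarith
  · have h2 := h1 n (Real.exp (-f)) rho hn1 (Real.exp_pos _) (by
      rw [Real.exp_le_exp]; linarith) hrho hcrit
    refine QDAT.tails_mono hC1.le (by linarith) hθ1.le ?_ h2
    have h4 : 0 < (1 - θ1)⁻¹ := inv_pos.2 (by linarith)
    have h5 : (Mf A f)⁻¹ ≤ ((1 - θ1)⁻¹)⁻¹ := inv_anti₀ h4 (by linarith)
    rw [inv_inv] at h5
    linarith

end Pool.Agent.EXW
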