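import Pool.Agent.EXW.Stmts3

/-!
# EXW version 3, module FDX: finite differences of a Laplace transform
-/

set_option autoImplicit false

namespace Pool.Agent.EXW

namespace FDXaux

open Finset

/-- The comparison of powers. -/
theorem pow_diff {y b : ℝ} (hb : 0 ≤ b) (hby : b ≤ y) (hd : y - b ≤ y ^ 2) (r : ℕ) :
    0 ≤ y ^ r - b ^ r ∧ y ^ r - b ^ r ≤ r * y ^ (r + 1) := by
  have hy : 0 ≤ y := hb.trans hby
  induction r with
  | zero => simp
  | succ r ih =>
    obtain ⟨h1, h2⟩ := ih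
    have e : y ^ (r + 1) - b ^ (r + 1) = y * (y ^ r - b ^ r) + (y - b) * b ^ r := by ring
    have h3 : 0 ≤ b ^ r := pow_nonneg hb r
    have h4 : b ^ r ≤ y ^ r := by linarith
    have h5 : 0 ≤ y - b := by linarith
    refine ⟨?_, ?_⟩
    · rw [e]
      exact add_nonneg (mul_nonneg hy h1) (mul_nonneg h5 h3)
    · rw [e]
      have h6 : y * (y ^ r - b ^ r) ≤ y * (r * y ^ (r + 1)) := mul_le_mul_of_nonneg_left h2 hy
      have h7 : (y - b) * b ^ r ≤ y ^ 2 * y ^ r := mul_le_mul hd h4 h3 (by positivity)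
      have h8 : y * (r * y ^ (r + 1)) + y ^ 2 * y ^ r = ((r + 1 : ℕ) : ℝ) * y ^ (r + 1 + 1) := by
        push_cast
        ring
      linarith

theorem exp_bounds {y : ℝ} (hy : 0 ≤ y) :
    0 ≤ 1 - Real.exp (-y) ∧ 1 - Real.exp (-y) ≤ y ∧ y - (1 - Real.exp (-y)) ≤ y ^ 2 := by
  have h1 : Real.exp (-y) ≤ 1 := Real.exp_le_one_iff.2 (by linarith)
  have h2 : -y + 1 ≤ Real.exp (-y) := Real.add_one_le_exp _
  have h3 : y + 1 ≤ Real.exp y := Real.add_one_le_exp _
  have h4 : Real.exp (-y) * Real.exp y = 1 := by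
    rw [← Real.exp_add]
    simp
  have h5 : 0 < Real.exp (-y) := Real.exp_pos _
  refine ⟨by linarith, by linarith, ?_⟩
  have h6 : Real.exp (-y) * (y + 1) ≤ 1 :=
    (mul_le_mul_of_nonneg_left h3 h5.le).trans h4.le
  have h7 : Real.exp (-y) ≤ 1 - y + y ^ 2 := by
    have h8 : (1 - y + y ^ 2) * (y + 1) = 1 + y ^ 3 := by ring
    have h9 : 0 ≤ y ^ 3 := by positivity
    by_contra h
    push Not at h
    have h10 : (1 - y + y ^ 2) * (y + 1) < Real.exp (-y) * (y + 1) :=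
      mul_lt_mul_of_pos_right h (by linarith)
    linarith
  linarith

theorem term_bound {y : ℝ} (hy : 0 ≤ y) (r : ℕ) :
    |(1 - Real.exp (-y)) ^ r - y ^ r| ≤ r * y ^ (r + 1) := by
  obtain ⟨h1, h2, h3⟩ := exp_bounds hy
  obtain ⟨h4, h5⟩ := pow_diff h1 h2 h3 r
  rw [abs_sub_comm, abs_of_nonneg h4]
  exact h5

theorem binom (b : ℝ) (r : ℕ) :
    ∑ j ∈ range (r + 1), (-1 : ℝ) ^ j * (r.choose j) * b ^ j = (1 - b) ^ r := by
  have h := (Commute.all (-b) (1 : ℝ)).add_pow r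
  rw [show (1 : ℝ) - b = -b + 1 by ring, h]
  refine Finset.sum_congr rfl fun j _ => ?_
  rw [one_pow, neg_pow]
  ring

end FDXaux

open Finset in
open Pool.Agent.KCG (mr) in
theorem t_FDX : FDX_Stmt := by
  intro r P x hP hx
  have e1 : ∀ j : ℕ, P.eval (Real.exp (-((j : ℝ) * x))) =
      ∑ m ∈ P.support, P.coeff m * (Real.exp (-(x * m))) ^ j := by
    intro j
    rw [Polynomial.eval_eq_sum, Polynomial.sum]
    refine Finset.sum_congr rfl fun m _ => ?_
    rw [← Real.exp_nat_mul, ← Real.exp_nat_mul]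
    congr 2
    ring
  have e2 : ∑ j ∈ range (r + 1), (-1 : ℝ) ^ j * (r.choose j) *
      P.eval (Real.exp (-((j : ℝ) * x))) =
      ∑ m ∈ P.support, P.coeff m * (1 - Real.exp (-(x * m))) ^ r := by
    simp only [e1, Finset.mul_sum]
    rw [Finset.sum_comm]
    refine Finset.sum_congr rfl fun m _ => ?_
    rw [← FDXaux.binom, Finset.mul_sum]
    refine Finset.sum_congr rfl fun j _ => ?_
    ring
  have e3 : x ^ r * mr r P = ∑ m ∈ P.support, P.coeff m * (x * m) ^ r := by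
    unfold mr
    rw [Polynomial.sum, Finset.mul_sum]
    refine Finset.sum_congr rfl fun m _ => ?_
    rw [mul_pow]
    ring
  have e4 : (r : ℝ) * x ^ (r + 1) * mr (r + 1) P =
      ∑ m ∈ P.support, P.coeff m * (r * (x * m) ^ (r + 1)) := by
    unfold mr
    rw [Polynomial.sum, Finset.mul_sum]
    refine Finset.sum_congr rfl fun m _ => ?_
    rw [mul_pow]
    ring
  rw [e2, e3, e4, ← Finset.sum_sub_distrib]
  refine (Finset.abs_sum_le_sum_abs _ _).trans (Finset.sum_le_sum fun m _ => ?_)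
  rw [← mul_sub, abs_mul, abs_of_nonneg (hP m)]
  exact mul_le_mul_of_nonneg_left
    (FDXaux.term_bound (mul_nonneg hx (Nat.cast_nonneg m)) r) (hP m)

end Pool.Agent.EXW
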