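import Pool.Agent.EXW.StmtsF
import Pool.Agent.Lib_helper89.FL.FinC

/-!
# Project EXW, module QFINAL: the final theorem from the modules
-/

set_option autoImplicit false

namespace Pool.Agent.EXW

open Finset Pool.Agent.Lib27 Pool.Agent.SapR Pool.Agent.Gap Pool.Agent.FL Filter Topology
  Pool.Agent.AreaLaw MeasureTheory
open scoped NNReal ENNReal

lemma two_le_Mf (A f : ℝ) (hA : 1 ≤ A) (hf : 0 < f) : 2 ≤ Mf A f := by
  unfold Mf
  have h0 : 0 < min f 1 := lt_min hf one_pos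
  have h1 : 1 ≤ A / min f 1 := by
    rw [le_div_iff₀ h0, one_mul]
    exact (min_le_right _ _).trans hA
  have h2 := Real.add_one_le_exp (A / min f 1)
  linarith

lemma two_le_exp_pow (M : ℝ) (hM : 2 ≤ M) (K : ℕ) : 2 ≤ Real.exp (M ^ K) := by
  have h1 : 1 ≤ M ^ K := one_le_pow₀ (by linarith)
  have h2 := Real.add_one_le_exp (M ^ K)
  linarith

/-- QFINAL -/
theorem t_QFINAL (hFIN : QFIN_Stmt) (hDAT : QDAT_Stmt) (hSLOW : QSLOW_Stmt) (hMOD : QMOD_Stmt)
    (hHG : HG_Stmt) (hTR : TR_Stmt) : QFINAL_Stmt := by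
  obtain ⟨μ, hμ, hold, hnew⟩ := hFIN
  obtain ⟨A, hA, N1, hN1, hD⟩ := hDAT
  obtain ⟨Kv, Kn, hM⟩ := hMOD
  obtain ⟨C, hC, hS⟩ := hSLOW A Kv Kn hA
  refine ⟨μ, hμ, ?_, C, hC, fun f hf x hx => ?_⟩
  · intro x hx
    have key : Tendsto (fun n : ℕ => areaCdf n (Short 1 n) x) atTop (𝓝 (μ (Set.Iic x)).toReal) := by
      refine (hold (M41.mdl 1 le_rfl) x hx).congr' ?_
      filter_upwards [eventually_gt_atTop 1] with n hn
      exact (M41.short_cdf 1 le_rfl n (by omega) x).symm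
    refine key.congr' ?_
    filter_upwards [eventually_ge_atTop 2] with n hn
    exact (M41.stair_cdf n hn x).symm
  · obtain ⟨h1, h2, h3⟩ := hS f hf
    obtain ⟨N2, hN2⟩ := eventually_atTop.1 h1
    set N0 : ℕ := max N1 N2 with hN0
    have hN0' : 2 ≤ N0 := hN1.trans (le_max_left _ _)
    have hN01 : N1 ≤ N0 := le_max_left _ _
    have hN02 : N2 ≤ N0 := le_max_right _ _
    have hmx : ∀ n, N0 ≤ mx N0 n := fun n => le_max_right _ _
    set f' : ℕ → ℝ := fun n => f (mx N0 n) with hf'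
    have hf'pos : ∀ n, 0 < f' n := fun n => (hN2 (mx N0 n) (hN02.trans (hmx n))).1
    set M : ℕ → ℝ := fun n => Mf A (f' n) with hMdef
    have hM2 : ∀ n, 2 ≤ M n := fun n => two_le_Mf A (f' n) hA (hf'pos n)
    set D : ℕ → ℝ := fun n => Real.exp (M n ^ Kv) with hDdef
    have hev : ∀ᶠ n : ℕ in atTop, f' n = f n := by
      filter_upwards [eventually_ge_atTop N0] with n hn
      simp only [hf', mx_eq N0 n hn]
    have hslow : Slow D := by
      refine ⟨fun n => two_le_exp_pow (M n) (hM2 n) Kv, fun K => ?_⟩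
      refine (h2 K).congr' ?_
      filter_upwards [hev] with n hn
      simp only [hDdef, hMdef, hn]
    obtain ⟨Q, hQ⟩ := hM M D f' N0 hN0' hM2 (fun n => le_refl _) hf'pos
      (fun j => by
        refine (h3 j).congr' ?_
        filter_upwards [hev] with n hn
        simp only [hDdef, hMdef, hn])
      (fun n => hD (mx N0 n) (f (mx N0 n)) (hN01.trans (hmx n)) (hf'pos n)
        (hN2 (mx N0 n) (hN02.trans (hmx n))).2)
    refine (hnew D hslow Q x hx).congr' ?_
    filter_upwards [eventually_ge_atTop N0, hev] with n hn hn'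
    rw [hQ, mx_eq N0 n hn, hn', forceCdf_eq hHG hTR n (by omega)]

end Pool.Agent.EXW
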