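import Pool.Agent.EXW.Stmts3
import Pool.Agent.EXW.FINAL2

/-!
# Project EXW, version 3, module FINAL3: the final theorem from the modules
-/

set_option autoImplicit false

namespace Pool.Agent.EXW

open Finset Pool.Agent.Lib27 Pool.Agent.SapR Pool.Agent.Gap Pool.Agent.FL Filter Topology
  Pool.Agent.AreaLaw MeasureTheory
open scoped NNReal ENNReal

/-- FINAL3 -/
theorem t_FINAL3 (hFIN : QFIN_Stmt) (hDAT : DAT2_Stmt) (hQCS : QCS_Stmt) (hSLOW : SLOW2_Stmt)
    (hSLOW3 : SLOW3_Stmt) (hMOD : MOD3_Stmt) (hMOMK : MOMK_Stmt) (hTRM : TRM_Stmt)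
    (hIDN : KCS.IDN_Stmt) (hHG : HG_Stmt) (hTR : TR_Stmt) : FINAL3_Stmt := by
  obtain ⟨μ, hμ, hold, hnew⟩ := hFIN
  obtain ⟨A, hA, N1, hN1, hD⟩ := hDAT
  obtain ⟨K, hK⟩ := hQCS A hA
  obtain ⟨Kn, hM⟩ := hMOD
  refine ⟨μ, hμ, hIDN μ hμ hold, ?_, fun f hf => ?_⟩
  · intro x hx
    have key : Tendsto (fun n : ℕ => areaCdf n (Short 1 n) x) atTop (𝓝 (μ (Set.Iic x)).toReal) := by
      refine (hold (M41.mdl 1 le_rfl) x hx).congr' ?_
      filter_upwards [eventually_gt_atTop 1] with n hn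
      exact (M41.short_cdf 1 le_rfl n (by omega) x).symm
    refine key.congr' ?_
    filter_upwards [eventually_ge_atTop 2] with n hn
    exact (M41.stair_cdf n hn x).symm
  · obtain ⟨h1, h2, h3⟩ := hSLOW A Kn hA f hf
    have h4 := hSLOW3 A hA f hf
    obtain ⟨K', hK'⟩ : ∃ K' : ℕ, K' = K + 1 := ⟨_, rfl⟩
    obtain ⟨N2, hN2⟩ := eventually_atTop.1 (h1 K')
    set N0 : ℕ := max N1 N2 with hN0
    have hN0' : 2 ≤ N0 := hN1.trans (le_max_left _ _)
    have hN01 : N1 ≤ N0 := le_max_left _ _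
    have hN02 : N2 ≤ N0 := le_max_right _ _
    have hmx : ∀ n, N0 ≤ mx N0 n := fun n => le_max_right _ _
    set f' : ℕ → ℝ := fun n => f (mx N0 n) with hf'
    have hf'pos : ∀ n, 0 < f' n := fun n => (hN2 (mx N0 n) (hN02.trans (hmx n))).1
    set M : ℕ → ℝ := fun n => Mf A (f' n) with hMdef
    have hM2 : ∀ n, 2 ≤ M n := fun n => two_le_Mf A (f' n) hA (hf'pos n)
    have hM1 : ∀ n, 1 ≤ M n := fun n => by linarith [hM2 n]
    set D : ℕ → ℝ := fun n => M n ^ K' with hDdef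
    have hMD : ∀ n, M n ≤ D n := fun n => le_self_pow₀ (hM1 n) (by omega)
    have hev : ∀ᶠ n : ℕ in atTop, f' n = f n := by
      filter_upwards [eventually_ge_atTop N0] with n hn
      simp only [hf', mx_eq N0 n hn]
    have hslow : Slow D := by
      refine ⟨fun n => (hM2 n).trans (hMD n), fun J => ?_⟩
      refine (h2 (K' * J)).congr' ?_
      filter_upwards [hev] with n hn
      simp only [hDdef, hMdef, hn, ← pow_mul]
    have hbig : ∀ n, M n ^ K' ≤ (mx N0 n : ℕ) := fun n =>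
      (hN2 (mx N0 n) (hN02.trans (hmx n))).2
    have hdat : ∀ n, Nonempty (Dat2 (M n) (1 - (M n)⁻¹) (mx N0 n) (Real.exp (-f' n))) :=
      fun n => hD (mx N0 n) (f' n) (hN01.trans (hmx n)) (hf'pos n) ((hMD n).trans (hbig n))
    obtain ⟨d⟩ : Nonempty (∀ n, Dat2 (M n) (1 - (M n)⁻¹) (mx N0 n) (Real.exp (-f' n))) :=
      ⟨fun n => (hdat n).some⟩
    have hcrit : ∀ n, ∃ V : ℤ → ℝ, CritSol (M n ^ K) (d n).G
        (GE.sr (d n).G.rho (2 * mx N0 n) (capW (mx N0 n) (Real.exp (-f' n)))) V :=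
      fun n => hK (mx N0 n) (f' n) (hf'pos n)
        (le_trans (pow_le_pow_right₀ (hM1 n) (by omega)) (hbig n)) (d n)
    choose V hV using hcrit
    obtain ⟨Q, hQ, hQm, hQn, hQb⟩ := hM M D f' N0 hN0' hM2 hMD hf'pos
      (fun j => by
        refine (h3 (K' * j)).congr' ?_
        filter_upwards [hev] with n hn
        simp only [hDdef, hMdef, hn, ← pow_mul])
      (fun i j => by
        refine (h4 i (K' * j)).congr' ?_
        filter_upwards [hev] with n hn
        simp only [hDdef, hMdef, hn, ← pow_mul])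
      (fun n => (d n).toDat) V (fun n => by
        refine final2_mono ?_ (pow_le_pow_right₀ (hM1 n) (by omega)) (hV n)
        exact one_le_pow₀ (hM1 n))
    refine ⟨fun x hx => ?_, fun r => ?_⟩
    · refine (hnew D hslow Q x hx).congr' ?_
      filter_upwards [eventually_ge_atTop N0, hev] with n hn hn'
      rw [hQ, mx_eq N0 n hn, hn', forceCdf_eq hHG hTR n (by omega)]
    · refine (hMOMK D hslow Q hQn hQb r).congr' ?_
      filter_upwards [eventually_ge_atTop N0, hev] with n hn hn'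
      rw [hQm, mx_eq N0 n hn, hn', hTRM n (f n) r (by omega)]

end Pool.Agent.EXW
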