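import Pool.Agent.EXW.StmtsA
import Pool.Agent.Lib_helper89.FL.GV

/-!
# MODULE QGV (MP_f6626d_co, explicit window): the critical solution, explicit constant

The text of `FL.gv` with explicit constants; new: an explicit cut-off `L` for the tail.
-/

set_option autoImplicit false

open Finset Filter Topology

namespace Pool.Agent.EXW

open Pool.Agent.Gap Pool.Agent.FL

namespace QGV

open Pool.Agent.FL.GV

/-- the text of `FL.gv` with all constants given -/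
theorem core {C θ C1 : ℝ} (hC : 0 < C) (hθ : 0 < θ) (hθ1 : θ < 1) (hC1 : 0 < C1) {L : ℕ}
    (hL1 : 1 ≤ L) (G : GapKernel) (hG : Cls C θ G)
    (hL : ∑ i ∈ G.S.filter (fun i => L < 2 * i.1),
      4 * (i.1 : ℝ) ^ 2 * (G.rho ^ i.1 * G.tot i) ≤ 1 / (2 * C1))
    (hRE : ∀ (N : ℕ) (e : ℤ → ℂ), ∃ v : ℤ → ℂ, G.Solves 0 (G.rho : ℂ) N v e)
    (hSUP : ∀ (N : ℕ) (v e : ℤ → ℂ), G.Solves 0 (G.rho : ℂ) N v e →
      (∀ g, ‖v g‖ ≤ C1 * lw 1 N e) ∧ En N v + Pot 0 N v ≤ C1 * (lw 1 N e) ^ 2)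
    (R' : ℕ) (s : ℤ → ℝ) (hs : CritSrc C θ R' s) :
    ∃ v : ℤ → ℝ, CritSol (2 * L * C ^ (L + 1) + C1 * (C * ∑' n : ℕ, (n : ℝ) ^ 1 * θ ^ n)
      + C1 * (C * ∑' n : ℕ, (n : ℝ) ^ 1 * θ ^ n) ^ 2 + 1) G s v := by
  have hsum : Summable fun n : ℕ => (n : ℝ) ^ 1 * θ ^ n :=
    summable_pow_mul_geometric_of_norm_lt_one (R := ℝ) 1 (by rw [Real.norm_of_nonneg hθ.le]; exact hθ1)
  set Sθ := ∑' n : ℕ, (n : ℝ) ^ 1 * θ ^ n with hSθ
  have hS0 : 0 ≤ Sθ := tsum_nonneg fun n => by positivity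
  have hrho := G.rho_pos
  have hz : ‖(G.rho : ℂ)‖ ≤ G.rho := by
    rw [Complex.norm_real, Real.norm_of_nonneg G.rho_pos.le]
  have hex : ∀ (N : ℕ) (e : ℤ → ℝ), ∃ x : ℤ → ℝ, VX.RS G N x e := by
    intro N e
    obtain ⟨V, hV⟩ := hRE N (fun g => ((e g : ℝ) : ℂ))
    exact ⟨_, VX.RS_of_solves G hV⟩
  have hlw : ∀ (N : ℕ) (e : ℤ → ℝ), (∀ g, 0 ≤ e g) →
      lw 1 N (fun g => ((e g : ℝ) : ℂ)) = ∑ g ∈ Icc (1 : ℤ) N, (g : ℝ) * e g := by
    intro N e he
    unfold lw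
    refine Finset.sum_congr rfl fun g _ => ?_
    rw [pow_one, Complex.norm_real, Real.norm_of_nonneg (he g)]
  choose X hX using fun N => hex N s
  have hXn : ∀ N g, 0 ≤ X N g := fun N => VX.RS_nonneg G (hX N) fun g _ => hs.nonneg g
  -- monotone
  have hmono : ∀ g, Monotone fun N => X N g := by
    intro g
    refine monotone_nat_of_le_succ fun N => ?_
    set y : ℤ → ℝ := fun g => if g ∈ Icc (1 : ℤ) N then X (N + 1) g else 0 with hy
    have hRS : VX.RS G N y (fun g => s g + G.Kc g ((N + 1 : ℕ) : ℤ) * X (N + 1) ((N + 1 : ℕ) : ℤ)) := by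
      refine ⟨fun g hg => ?_, fun g hg => ?_⟩
      · simp only [hy]
        rw [if_neg]
        rw [Finset.mem_Icc]
        omega
      · have h2 := (hX (N + 1)).2 g (by rw [Finset.mem_Icc] at hg ⊢; push_cast; omega)
        have h3 : Icc (1 : ℤ) ((N + 1 : ℕ) : ℤ) = insert ((N + 1 : ℕ) : ℤ) (Icc (1 : ℤ) N) := by
          ext u
          simp only [Finset.mem_insert, Finset.mem_Icc]
          push_cast
          omega
        rw [h3, Finset.sum_insert (by rw [Finset.mem_Icc]; push_cast; omega)] at h2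
        have h4 : ∑ g' ∈ Icc (1 : ℤ) N, G.Kc g g' * y g'
            = ∑ g' ∈ Icc (1 : ℤ) N, G.Kc g g' * X (N + 1) g' := by
          refine Finset.sum_congr rfl fun g' hg' => ?_
          simp only [hy]
          rw [if_pos hg']
        rw [h4]
        simp only [hy]
        rw [if_pos hg]
        linarith
    have hle := RS_le G (hX N) hRS (fun g _ => by
      have := mul_nonneg (VL.Kc_nonneg G g ((N + 1 : ℕ) : ℤ)) (hXn (N + 1) ((N + 1 : ℕ) : ℤ))
      linarith) g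
    refine hle.trans ?_
    simp only [hy]
    split_ifs
    · exact le_rfl
    · exact hXn _ _
  -- bounds
  have hls : ∀ N : ℕ, lw 1 N (fun g => ((s g : ℝ) : ℂ)) ≤ C * Sθ := by
    intro N
    rw [hlw N s hs.nonneg, sum_Icc_cast]
    have h3 : ∀ n ∈ Icc 1 N, ((n : ℤ) : ℝ) * s (n : ℤ) ≤ C * ((n : ℝ) ^ 1 * θ ^ n) := by
      intro n _
      have h4 := mul_le_mul_of_nonneg_left (hs.dec n) (Nat.cast_nonneg (α := ℝ) n)
      push_cast
      rw [pow_one]
      linarith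
    refine (Finset.sum_le_sum h3).trans ?_
    rw [← Finset.mul_sum]
    exact mul_le_mul_of_nonneg_left (hsum.sum_le_tsum _ fun n _ => by positivity) hC.le
  have hls0 : ∀ N : ℕ, 0 ≤ lw 1 N (fun g => ((s g : ℝ) : ℂ)) := by
    intro N
    rw [hlw N s hs.nonneg]
    refine Finset.sum_nonneg fun g hg => mul_nonneg ?_ (hs.nonneg g)
    rw [Finset.mem_Icc] at hg
    have : (0 : ℤ) ≤ g := by omega
    exact_mod_cast this
  have hsup : ∀ N, (∀ g, X N g ≤ C1 * (C * Sθ)) ∧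
      ∑ g ∈ Icc (0 : ℤ) N, (X N (g + 1) - X N g) ^ 2 ≤ C1 * (C * Sθ) ^ 2 := by
    intro N
    have h1 := hSUP N _ _ (VX.RS_solves G (hX N))
    refine ⟨fun g => ?_, ?_⟩
    · have := h1.1 g
      rw [Complex.norm_real, Real.norm_of_nonneg (hXn N g)] at this
      exact this.trans (mul_le_mul_of_nonneg_left (hls N) hC1.le)
    · have h2 := h1.2
      have h3 : Pot 0 N (fun g => ((X N g : ℝ) : ℂ)) = 0 := by
        unfold Pot
        simp
      rw [h3, add_zero] at h2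
      refine le_trans (le_of_eq ?_) (h2.trans
        (mul_le_mul_of_nonneg_left (pow_le_pow_left₀ (hls0 N) (hls N) 2) hC1.le))
      unfold En
      refine Finset.sum_congr rfl fun g _ => ?_
      rw [← Complex.ofReal_sub, Complex.norm_real, Real.norm_eq_abs, sq_abs]
  have hbdd : ∀ g, BddAbove (Set.range fun N => X N g) := by
    intro g
    refine ⟨C1 * (C * Sθ), ?_⟩
    rintro _ ⟨N, rfl⟩
    exact (hsup N).1 g
  set v : ℤ → ℝ := fun g => ⨆ N, X N g with hv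
  have hlim : ∀ g, Tendsto (fun N => X N g) atTop (𝓝 (v g)) := fun g =>
    tendsto_atTop_ciSup (hmono g) (hbdd g)
  have hp1 : 0 ≤ C1 * (C * Sθ) := by positivity
  have hp2 : 0 ≤ C1 * (C * Sθ) ^ 2 := by positivity
  have hp3 : 0 ≤ 2 * L * C ^ (L + 1) := by positivity
  refine ⟨v, ⟨?_, ?_, ?_, ?_, ?_⟩⟩
  · intro g hg
    refine tendsto_nhds_unique (hlim g) ?_
    have : (fun N => X N g) = fun _ => 0 := by
      funext N
      exact (hX N).1 g (by omega)
    rw [this]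
    exact tendsto_const_nhds
  · -- lower bound
    intro g hg
    have hvn : 0 ≤ v g := ge_of_tendsto' (hlim g) fun N => hXn N g
    have hmain : ∀ N : ℕ, L ≤ N → g ≤ N →
        1 ≤ 2 * (((g : ℝ) + G.R) / N) + 2 * L * C ^ (L + 1) * X N g := by
      intro N hN hgN
      obtain ⟨x1, hx1⟩ := hex N (dl 1)
      choose x hx using fun a => hex N (dl a)
      obtain ⟨t, ht⟩ := hex N (kt G L)
      have h1 := one_le hG.loc (le_trans hL1 hN) (fun a _ => hx a) ht g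
        (by rw [Finset.mem_Icc]; omega)
      -- the tail part
      have h3 : t g ≤ 1 / 2 := by
        have h4 := (hSUP N _ _ (VX.RS_solves G ht)).1 g
        rw [hlw N _ (kt_nonneg G L)] at h4
        have h5 := (sum_kt_le G L N).trans hL
        have h6 : t g ≤ ‖((t g : ℝ) : ℂ)‖ := by
          rw [Complex.norm_real]
          exact Real.le_norm_self _
        have h7 := mul_le_mul_of_nonneg_left h5 hC1.le
        have h8 : C1 * (1 / (2 * C1)) = 1 / 2 := by field_simp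
        linarith
      -- the Green's functions
      have h4 : ∀ a ∈ Icc 1 L, x a g ≤ C ^ L * x1 g := by
        intro a ha
        rw [Finset.mem_Icc] at ha
        obtain ⟨b, rfl⟩ : ∃ b, a = b + 1 := ⟨a - 1, by omega⟩
        have h5 := dl_le G (hex N) hx1 b (by omega) (x (b + 1)) (hx (b + 1)) g
        have hxn : 0 ≤ x (b + 1) g := VX.RS_nonneg G (hx (b + 1)) (fun g _ => dl_nonneg _ g) g
        have hr1 : G.rho ≤ 1 := by
          have := VX.Kc_sum_one G 0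
          have h9 : 0 ≤ ∑ g' ∈ Icc (1 : ℤ) (0 : ℕ), G.Kc 1 g' :=
            Finset.sum_nonneg fun g' _ => VL.Kc_nonneg G _ _
          linarith
        have h6 : (C⁻¹) ^ L ≤ G.rho ^ b :=
          calc (C⁻¹) ^ L ≤ G.rho ^ L := pow_le_pow_left₀ (by positivity) hG.rho_ge L
            _ ≤ G.rho ^ b := pow_le_pow_of_le_one hrho.le hr1 (by omega)
        have h7 : (C⁻¹) ^ L * x (b + 1) g ≤ x1 g :=
          (mul_le_mul_of_nonneg_right h6 hxn).trans h5
        calc x (b + 1) g = C ^ L * ((C⁻¹) ^ L * x (b + 1) g) := by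
              rw [← mul_assoc, ← mul_pow, mul_inv_cancel₀ hC.ne', one_pow, one_mul]
          _ ≤ C ^ L * x1 g := mul_le_mul_of_nonneg_left h7 (by positivity)
      have h5 : ∑ a ∈ Icc 1 L, x a g ≤ L * (C ^ L * x1 g) := by
        refine (Finset.sum_le_sum h4).trans ?_
        rw [Finset.sum_const, nsmul_eq_mul, Nat.card_Icc]
        simp
      have h6 : C⁻¹ * x1 g ≤ X N g := by
        refine RS_le G (RS_smul G C⁻¹ hx1) (hX N) (fun g' hg' => ?_) g
        unfold dl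
        split_ifs with h7
        · subst h7
          have := hs.one
          push_cast
          linarith
        · rw [mul_zero]
          exact hs.nonneg g'
      have h7 : x1 g ≤ C * X N g := by
        calc x1 g = C * (C⁻¹ * x1 g) := by
              rw [← mul_assoc, mul_inv_cancel₀ hC.ne', one_mul]
          _ ≤ C * X N g := mul_le_mul_of_nonneg_left h6 hC.le
      have h8 : (L : ℝ) * (C ^ L * x1 g) ≤ L * (C ^ L * (C * X N g)) := by gcongr
      have h9 : (L : ℝ) * (C ^ L * (C * X N g)) = L * C ^ (L + 1) * X N g := by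
        rw [pow_succ]; ring
      linarith
    have h3 : Tendsto (fun N : ℕ => 2 * (((g : ℝ) + G.R) / N) + 2 * L * C ^ (L + 1) * X N g) atTop
        (𝓝 (2 * 0 + 2 * L * C ^ (L + 1) * v g)) :=
      ((tendsto_const_div_atTop_nhds_zero_nat _).const_mul 2).add ((hlim g).const_mul _)
    have h4 : 1 ≤ 2 * 0 + 2 * L * C ^ (L + 1) * v g := by
      refine ge_of_tendsto h3 ?_
      filter_upwards [eventually_ge_atTop (max L g.toNat)] with N hN
      exact hmain N (le_trans (le_max_left _ _) hN) (by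
        have := le_trans (le_max_right L g.toNat) hN
        omega)
    rw [inv_le_iff_one_le_mul₀ (by positivity)]
    nlinarith [mul_nonneg hp1 hvn, mul_nonneg hp2 hvn]
  · intro g
    exact (le_of_tendsto' (hlim g) fun N => (hsup N).1 g).trans (by linarith)
  · intro M
    have h1 : Tendsto (fun N => ∑ g ∈ Icc (0 : ℤ) M, (X N (g + 1) - X N g) ^ 2) atTop
        (𝓝 (∑ g ∈ Icc (0 : ℤ) M, (v (g + 1) - v g) ^ 2)) :=
      tendsto_finsetSum _ fun g _ => ((hlim (g + 1)).sub (hlim g)).pow 2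
    refine le_trans (le_of_tendsto (b := C1 * (C * Sθ) ^ 2) h1 ?_) (by linarith)
    filter_upwards [eventually_ge_atTop M] with N hN
    refine le_trans ?_ (hsup N).2
    exact Finset.sum_le_sum_of_subset_of_nonneg
      (Finset.Icc_subset_Icc le_rfl (by exact_mod_cast hN)) fun g _ _ => sq_nonneg _
  · intro g hg
    have h1 : Tendsto (fun N => s g + ∑ g' ∈ Icc (g - (G.R : ℤ)) (g + G.R), G.Kc g g' * X N g') atTop
        (𝓝 (s g + ∑ g' ∈ Icc (g - (G.R : ℤ)) (g + G.R), G.Kc g g' * v g')) :=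
      tendsto_const_nhds.add (tendsto_finsetSum _ fun g' _ => (hlim g').const_mul _)
    refine tendsto_nhds_unique (hlim g) (h1.congr' ?_)
    filter_upwards [eventually_ge_atTop (g + G.R).toNat] with N hN
    have hgN : g ∈ Icc (1 : ℤ) N := by rw [Finset.mem_Icc]; omega
    rw [(hX N).2 g hgN]
    congr 1
    exact (sum_full G g (X N) (Icc (1 : ℤ) N) fun g' h1 h2 h3 => by
      rw [Finset.mem_Icc]; omega).symm

/-- an explicit cut-off for the tail -/
theorem tail_cut : ∃ K : ℕ, ∀ (K1 : ℕ) (D : ℝ), 2 ≤ D → ∀ G : GapKernel, Cls D (1 - D⁻¹) G →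
    ∀ a : ℕ, 2 * ((K1 + K + 3 : ℕ) : ℝ) * D ^ 2 ≤ a →
      ∑ i ∈ G.S.filter (fun i => 2 * a < 2 * i.1),
        4 * (i.1 : ℝ) ^ 2 * (G.rho ^ i.1 * G.tot i) ≤ 1 / (2 * D ^ K1) := by
  obtain ⟨K, hK⟩ := sum_tail 2
  refine ⟨K, fun K1 D hD G hG a ha => ?_⟩
  have hD0 : (0 : ℝ) < D := by linarith
  have h2 : 2 ≤ 2 * D := by linarith
  have hq0 : 0 < 1 - (2 * D)⁻¹ := th_pos h2
  have h1 := hK D hD G hG a
  have h3 : ∑ i ∈ G.S.filter (fun i => 2 * a < 2 * i.1),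
        4 * (i.1 : ℝ) ^ 2 * (G.rho ^ i.1 * G.tot i)
      ≤ 4 * ∑ i ∈ G.S.filter (fun i => a ≤ i.1), (i.1 : ℝ) ^ 2 * (G.rho ^ i.1 * G.tot i) := by
    rw [Finset.mul_sum]
    have h4 : ∀ i ∈ G.S.filter (fun i => 2 * a < 2 * i.1),
        4 * (i.1 : ℝ) ^ 2 * (G.rho ^ i.1 * G.tot i)
          = 4 * ((i.1 : ℝ) ^ 2 * (G.rho ^ i.1 * G.tot i)) := fun i _ => by ring
    rw [Finset.sum_congr rfl h4]
    refine Finset.sum_le_sum_of_subset_of_nonneg ?_ fun i _ _ => ?_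
    · intro i hi
      rw [Finset.mem_filter] at hi ⊢
      exact ⟨hi.1, by omega⟩
    · have := GSum.rt_nonneg G i
      positivity
  have h5 : (1 - (2 * D)⁻¹) ^ a ≤ Real.exp (-(((K1 + K + 3 : ℕ) : ℝ) * D)) := by
    have h6 : 1 - (2 * D)⁻¹ ≤ Real.exp (-(2 * D)⁻¹) := by
      have := Real.add_one_le_exp (-(2 * D)⁻¹)
      linarith
    calc (1 - (2 * D)⁻¹) ^ a ≤ Real.exp (-(2 * D)⁻¹) ^ a := pow_le_pow_left₀ hq0.le h6 a
      _ = Real.exp ((a : ℝ) * (-(2 * D)⁻¹)) := (Real.exp_nat_mul _ a).symm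
      _ ≤ _ := by
          refine Real.exp_le_exp.2 ?_
          have h7 : ((K1 + K + 3 : ℕ) : ℝ) * D = 2 * ((K1 + K + 3 : ℕ) : ℝ) * D ^ 2 * (2 * D)⁻¹ := by
            field_simp
          have h8 : 2 * ((K1 + K + 3 : ℕ) : ℝ) * D ^ 2 * (2 * D)⁻¹ ≤ a * (2 * D)⁻¹ :=
            mul_le_mul_of_nonneg_right ha (by positivity)
          linarith
  have h9 : D ^ (K1 + K + 3) ≤ Real.exp (((K1 + K + 3 : ℕ) : ℝ) * D) := by
    rw [Real.exp_nat_mul]
    refine pow_le_pow_left₀ hD0.le ?_ _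
    have := Real.add_one_le_exp D
    linarith
  have h10 : Real.exp (-(((K1 + K + 3 : ℕ) : ℝ) * D)) ≤ (D ^ (K1 + K + 3))⁻¹ := by
    rw [Real.exp_neg]
    exact inv_anti₀ (by positivity) h9
  have h11 : (8 : ℝ) ≤ D ^ 3 := by
    have := pow_le_pow_left₀ (by norm_num : (0 : ℝ) ≤ 2) hD 3
    norm_num at this
    exact this
  refine h3.trans ?_
  have h12 : (1 - (2 * D)⁻¹) ^ a ≤ (D ^ (K1 + K + 3))⁻¹ := h5.trans h10
  have hDK : 0 < D ^ K := by positivity
  have hDK1 : 0 < D ^ K1 := by positivity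
  have h13 : D ^ K * (1 - (2 * D)⁻¹) ^ a ≤ D ^ K * (D ^ (K1 + K + 3))⁻¹ :=
    mul_le_mul_of_nonneg_left h12 hDK.le
  have h14 : 4 * (D ^ K * (D ^ (K1 + K + 3))⁻¹) ≤ 1 / (2 * D ^ K1) := by
    have e : D ^ (K1 + K + 3) = D ^ K1 * D ^ K * D ^ 3 := by rw [pow_add, pow_add]
    rw [e, le_div_iff₀ (by positivity)]
    have e2 : 4 * (D ^ K * (D ^ K1 * D ^ K * D ^ 3)⁻¹) * (2 * D ^ K1) = 8 * (D ^ 3)⁻¹ := by
      field_simp
      ring
    rw [e2, ← div_eq_mul_inv, div_le_one (by positivity)]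
    exact h11
  linarith

/-- monotonicity in the constant -/
lemma sol_mono {C C' : ℝ} (hC : 0 < C) (h : C ≤ C') {G : GapKernel} {s v : ℤ → ℝ}
    (hs : CritSol C G s v) : CritSol C' G s v where
  zero := hs.zero
  low g hg := (inv_anti₀ hC h).trans (hs.low g hg)
  up g := (hs.up g).trans h
  energy N := (hs.energy N).trans h
  eq := hs.eq

end QGV

open QGV in
/-- MODULE QGV. -/
theorem t_QGV (h1 : QGRE_Stmt) (h2 : QGSUP_Stmt) : QGV_Stmt := by
  obtain ⟨K0, hRE⟩ := h1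
  obtain ⟨K1, hSUP⟩ := h2
  obtain ⟨K2, hT⟩ := tail_cut
  -- the polynomial part
  have hS : PB fun D => ∑' n : ℕ, (n : ℝ) ^ 1 * (1 - D⁻¹) ^ n :=
    PB.geo' 1 (fun D hD => (th_pos hD).le) LB.inv_self fun D _ => le_rfl
  have hA : PB fun D => 2 * (2 * (2 * ((K1 + K2 + 3 : ℕ) : ℝ) * D ^ 2 + 1))
      + D * (2 * (2 * ((K1 + K2 + 3 : ℕ) : ℝ) * D ^ 2 + 1) + 1) := by
    have hL : PB fun D => 2 * (2 * ((K1 + K2 + 3 : ℕ) : ℝ) * D ^ 2 + 1) :=
      (PB.const 2).mul (((PB.const (2 * ((K1 + K2 + 3 : ℕ) : ℝ))).mul (PB.pow_self 2)).add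
        (PB.const 1))
    exact ((PB.const 2).mul hL).add (PB.id.mul (hL.add (PB.const 1)))
  have hB : PB fun D => D ^ K1 * (D * ∑' n : ℕ, (n : ℝ) ^ 1 * (1 - D⁻¹) ^ n)
      + D ^ K1 * (D * ∑' n : ℕ, (n : ℝ) ^ 1 * (1 - D⁻¹) ^ n) ^ 2 + 1 :=
    (((PB.pow_self K1).mul (PB.id.mul hS)).add
      ((PB.pow_self K1).mul ((PB.id.mul hS).pow 2))).add (PB.const 1)
  obtain ⟨K, hK⟩ := (hA.add hB).le
  refine ⟨K, fun D hD G hG R' s hs => ?_⟩
  have hD0 : (0 : ℝ) < D := by linarith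
  have hz : ‖(G.rho : ℂ)‖ ≤ G.rho := by
    rw [Complex.norm_real, Real.norm_of_nonneg G.rho_pos.le]
  set X : ℝ := 2 * ((K1 + K2 + 3 : ℕ) : ℝ) * D ^ 2 with hX
  have hX0 : 0 < X := by
    have : (0 : ℝ) < ((K1 + K2 + 3 : ℕ) : ℝ) := by exact_mod_cast (by omega : 0 < K1 + K2 + 3)
    positivity
  set a : ℕ := ⌈X⌉₊ with ha
  have ha1 : X ≤ a := Nat.le_ceil X
  have ha2 : (a : ℝ) ≤ X + 1 := (Nat.ceil_lt_add_one hX0.le).le
  have ha0 : 0 < a := Nat.ceil_pos.2 hX0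
  obtain ⟨v, hv⟩ := core hD0 (th_pos hD) (th_lt hD) (C1 := D ^ K1) (by positivity) (L := 2 * a)
    (by omega) G hG (hT K1 D hD G hG a ha1)
    (fun N e => (hRE D hD G hG N 0 (G.rho : ℂ) le_rfl hz).1 e)
    (fun N v e hve => hSUP D hD G hG N 0 (G.rho : ℂ) v e le_rfl hz hve) R' s hs
  refine ⟨v, sol_mono ?_ ?_ hv⟩
  · have hS0 : 0 ≤ ∑' n : ℕ, (n : ℝ) ^ 1 * (1 - D⁻¹) ^ n := by
      have := th_pos hD
      exact tsum_nonneg fun n => by positivity
    positivity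
  · have hS0 : 0 ≤ ∑' n : ℕ, (n : ℝ) ^ 1 * (1 - D⁻¹) ^ n := by
      have := th_pos hD
      exact tsum_nonneg fun n => by positivity
    set S : ℝ := ∑' n : ℕ, (n : ℝ) ^ 1 * (1 - D⁻¹) ^ n with hSdef
    have hL2 : (((2 * a : ℕ) : ℝ)) ≤ 2 * (X + 1) := by
      push_cast
      linarith
    have hLn : (0 : ℝ) ≤ ((2 * a : ℕ) : ℝ) := Nat.cast_nonneg _
    set L : ℕ := 2 * a with hLdef
    have hP : 2 * (L : ℝ) * D ^ (L + 1) ≤ Real.exp (2 * (L : ℝ) + D * ((L : ℝ) + 1)) := by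
      rw [Real.exp_add]
      have e1 : 2 * (L : ℝ) ≤ Real.exp (2 * (L : ℝ)) := by
        have := Real.add_one_le_exp (2 * (L : ℝ))
        linarith
      have e2 : D ^ (L + 1) ≤ Real.exp (D * ((L : ℝ) + 1)) := by
        have e3 : D * ((L : ℝ) + 1) = ((L + 1 : ℕ) : ℝ) * D := by push_cast; ring
        rw [e3, Real.exp_nat_mul]
        refine pow_le_pow_left₀ hD0.le ?_ _
        have := Real.add_one_le_exp D
        linarith
      exact mul_le_mul e1 e2 (by positivity) (Real.exp_pos _).le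
    have hA2 : 2 * (L : ℝ) + D * ((L : ℝ) + 1) ≤ 2 * (2 * (X + 1)) + D * (2 * (X + 1) + 1) := by
      have := mul_le_mul_of_nonneg_left hL2 hD0.le
      nlinarith
    have hA0 : 0 ≤ 2 * (2 * (X + 1)) + D * (2 * (X + 1) + 1) := by positivity
    set Y : ℝ := 2 * (2 * (X + 1)) + D * (2 * (X + 1) + 1) with hY
    set B : ℝ := D ^ K1 * (D * S) + D ^ K1 * (D * S) ^ 2 + 1 with hBdef
    have hB0 : 0 ≤ B := by positivity
    have hKD : Y + B ≤ D ^ K := hK D hD
    have e1 : Real.exp (2 * (L : ℝ) + D * ((L : ℝ) + 1)) ≤ Real.exp Y := Real.exp_le_exp.2 hA2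
    have e2 : 1 ≤ Real.exp Y := Real.one_le_exp hA0
    have e3 : B + 1 ≤ Real.exp B := Real.add_one_le_exp B
    have e4 : Real.exp Y + B ≤ Real.exp Y * Real.exp B := by nlinarith
    have e5 : Real.exp Y * Real.exp B ≤ Real.exp (D ^ K) := by
      rw [← Real.exp_add]
      exact Real.exp_le_exp.2 hKD
    calc 2 * (L : ℝ) * D ^ (L + 1) + D ^ K1 * (D * S) + D ^ K1 * (D * S) ^ 2 + 1
        = 2 * (L : ℝ) * D ^ (L + 1) + B := by rw [hBdef]; ring
      _ ≤ _ := by linarith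

end Pool.Agent.EXW
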