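import Pool.Agent.EXW.Stmts2
import Pool.Agent.Lib_helper41.SapR.Planar
import Pool.Agent.Lib_helper89.FL.HG

/-!
# Project EXW, version 2: KAP

The weight of the pieces which are not allowed at the gap `a` is bounded by the weight of the
arches of gap `a`.
-/

set_option autoImplicit false

namespace Pool.Agent.EXW

open Finset Pool.Agent.Lib27 Pool.Agent.SapR Pool.Agent.Gap Pool.Agent.FL Filter Topology
  Pool.Agent.AreaLaw MeasureTheory
open scoped NNReal ENNReal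

namespace KAP

lemma par (p : ℤ × ℤ) (w : Wd) : ∃ c : ℤ, (w.length : ℤ) + lev p = lev (ep p w) + 2 * c := by
  induction w generalizing p with
  | nil => exact ⟨0, by simp⟩
  | cons d w ih =>
    obtain ⟨c, hc⟩ := ih (p + dv d)
    rw [ep_cons, List.length_cons]
    rw [HG.lev_add] at hc
    push_cast
    rcases HG.lev_dv d with h | h
    · exact ⟨c, by linarith⟩
    · exact ⟨c + 1, by linarith⟩

lemma par0 (w : Wd) : ∃ c : ℤ, (w.length : ℤ) = lev (ep 0 w) + 2 * c := by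
  obtain ⟨c, hc⟩ := par 0 w
  exact ⟨c, by rw [← hc]; simp [lev]⟩

lemma length_rv (w : Wd) : (rv w).length = w.length := by
  unfold rv
  rw [List.length_reverse, List.length_map]

/-- the weight of a word, restricted to the words of level `k` -/
noncomputable def gi (y : ℝ≥0) (k : ℕ) (w : Wd) : ℝ≥0∞ :=
  (Gn (k : ℤ)).indicator (fun w : Wd => (y : ℝ≥0∞) ^ w.length) w

lemma sum_gi (y : ℝ≥0) (k : ℕ) (S : Finset Wd) : ∑ w ∈ S, gi y k w ≤ gfw y (Gn k) := by
  have h1 : gfw y (Gn (k : ℤ)) = ∑' w : Wd, gi y k w := by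
    unfold gfw gi
    exact tsum_subtype (Gn (k : ℤ)) (fun w : Wd => (y : ℝ≥0∞) ^ w.length)
  rw [h1]
  exact ENNReal.sum_le_tsum S

/-- the total vertex count of the levels `≥ 1` of an arch -/
lemma arch_runs {a : ℤ} {T : Wd} (hT : Arch a T) {r : ℕ} (h : T.length ≤ r + 1) :
    ArchRuns r T := by
  intro b c hb _
  unfold cntI
  have h1 : vt 0 T = 0 :: (vt 0 T).tail := vt_head 0 T
  have hlen : (vt 0 T).length = T.length + 1 := vt_length 0 T
  have hlast : ep 0 T ∈ vt 0 T := ep_mem_vt 0 T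
  have h2 : (vt 0 T).countP (fun p => decide (b ≤ lev p ∧ lev p ≤ c)) + 2 ≤
      (vt 0 T).length := by
    have h3 : vt 0 T = vs 0 T ++ [ep 0 T] := rfl
    obtain ⟨hne, hep, -, -⟩ := hT
    cases T with
    | nil => exact absurd rfl hne
    | cons d s =>
      rw [h3, vs_cons, List.cons_append, List.countP_cons, List.countP_append,
        List.countP_singleton]
      have h4 : ¬ (b ≤ lev 0 ∧ lev 0 ≤ c) := by
        intro h; have := h.1; simp [lev] at this; omega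
      have h5 : ¬ (b ≤ lev (ep 0 (d :: s)) ∧ lev (ep 0 (d :: s)) ≤ c) := by
        intro h
        have := h.1
        rw [hep] at this
        simp [lev] at this
        omega
      have h6 : decide (b ≤ lev (0 : ℤ × ℤ) ∧ lev (0 : ℤ × ℤ) ≤ c) = false := decide_eq_false h4
      have h7 : decide (b ≤ lev (ep 0 (d :: s)) ∧ lev (ep 0 (d :: s)) ≤ c) = false :=
        decide_eq_false h5
      rw [h6, h7, List.length_cons, List.length_append, List.length_singleton,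
        if_neg Bool.false_ne_true]
      have := List.countP_le_length (p := fun p => decide (b ≤ lev p ∧ lev p ≤ c))
        (l := vs (0 + dv d) s)
      omega
  omega

open Classical in
/-- the weight of an arch -/
noncomputable def AA (rho s : ℝ) (T : Wd) : ℝ≥0∞ :=
  ENNReal.ofReal (rho ^ (T.length / 2) * s ^ (T.length / 2 - hgt T))

/-- the weight of the decomposition -/
noncomputable def GG (rho s : ℝ) (y : ℝ≥0) (q : Wd × ℕ × ℕ × Wd × Wd) : ℝ≥0∞ :=
  AA rho s q.1 *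
    (ENNReal.ofReal ((s⁻¹) ^ q.2.2.1) * (gi y q.2.2.1 q.2.2.2.1 * gi y q.2.2.1 q.2.2.2.2))

/-- the piece of a decomposition -/
def dec (q : Wd × ℕ × ℕ × Wd × Wd) : Wd × Wd :=
  (q.1.take q.2.1 ++ q.2.2.2.1, rv q.2.2.2.2 ++ q.1.drop q.2.1)

/-- the weight inequality -/
lemma weight {rho s : ℝ} {y : ℝ≥0} (hs0 : 0 < s) (hs1 : s ≤ 1) (hrho : 0 < rho)
    (hy : rho * s ≤ (y : ℝ) ^ 2) {hlp h g m e k : ℕ} (hhl : hlp = m + e) (hht : h ≤ hlp)
    (hgm : g ≤ m) (hk : h ≤ g + k) :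
    ENNReal.ofReal (rho ^ hlp * s ^ (hlp - h)) ≤
      ENNReal.ofReal (rho ^ m * s ^ (m - g)) *
        (ENNReal.ofReal ((s⁻¹) ^ k) * (y : ℝ≥0∞) ^ (2 * e)) := by
  have hy2 : (y : ℝ≥0∞) ^ 2 = ENNReal.ofReal ((y : ℝ) ^ 2) := by
    rw [ENNReal.ofReal_pow (NNReal.coe_nonneg y), ENNReal.ofReal_coe_nnreal]
  rw [pow_mul, hy2, ← ENNReal.ofReal_pow (by positivity), ← ENNReal.ofReal_mul (by positivity),
    ← ENNReal.ofReal_mul (by positivity)]
  apply ENNReal.ofReal_le_ofReal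
  have hsum : hlp - h + k = (m - g) + e + (g + k - h) := by omega
  have hs : s ^ (hlp - h) ≤ s ^ (m - g) * s ^ e * (s⁻¹) ^ k := by
    have h1 : s ^ (hlp - h) * s ^ k ≤ s ^ (m - g) * s ^ e := by
      rw [← pow_add, hsum, pow_add, pow_add]
      have h2 : s ^ (g + k - h) ≤ 1 := pow_le_one₀ hs0.le hs1
      exact mul_le_of_le_one_right (by positivity) h2
    rw [inv_pow, ← div_eq_mul_inv, le_div_iff₀ (by positivity)]
    exact h1
  calc rho ^ hlp * s ^ (hlp - h)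
      ≤ rho ^ hlp * (s ^ (m - g) * s ^ e * (s⁻¹) ^ k) :=
        mul_le_mul_of_nonneg_left hs (by positivity)
    _ = rho ^ m * s ^ (m - g) * ((s⁻¹) ^ k * (rho * s) ^ e) := by
        rw [hhl, pow_add, mul_pow]
        ring
    _ ≤ rho ^ m * s ^ (m - g) * ((s⁻¹) ^ k * ((y : ℝ) ^ 2) ^ e) := by
        have h3 : (rho * s) ^ e ≤ ((y : ℝ) ^ 2) ^ e :=
          pow_le_pow_left₀ (by positivity) hy e
        have h4 : 0 ≤ (s⁻¹) ^ k := by positivity
        exact mul_le_mul_of_nonneg_left (mul_le_mul_of_nonneg_left h3 h4) (by positivity)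

lemma mem_Pc' (r : ℕ) (p : Wd × Wd) (h : p ∈ Pc r) :
    StripPair p.1 p.2 ∧ p.1.length + p.2.length ≤ r + 2 := by
  classical
  unfold Pc at h
  simp only [mem_filter] at h
  exact ⟨h.2.1.1, h.2.2⟩

lemma not_allowed {r : ℕ} {a : ℤ} {p : Wd × Wd} (ha : 1 ≤ a) (h : p ∈ Pc r)
    (hna : p ∉ allowed r a) : ¬ Disj a p := by
  classical
  intro hd
  apply hna
  unfold allowed
  simp only [mem_filter]
  exact ⟨h, ha, k3 a p ha (mem_Pc' r p h).1 hd, hd⟩

lemma mem_ArchSet' (r : ℕ) (x : ℤ) (N : ℕ) (w : Wd) :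
    w ∈ ArchSet r x N ↔ w.length = N ∧ Arch x w ∧ ArchRuns r w := by
  classical
  unfold ArchSet
  simp only [mem_filter, mem_words]

lemma mem_upTo (M : ℕ) (w : Wd) (h : w.length ≤ M) : w ∈ wordsUpTo M := by
  unfold wordsUpTo
  rw [mem_biUnion]
  exact ⟨w.length, by rw [mem_range]; omega, by rw [mem_words]⟩

/-- the decomposition of a piece which is not allowed -/
lemma piece (hSPL : SPL_Stmt) {n L : ℕ} {rho s : ℝ} {y : ℝ≥0} (hn : 1 ≤ n) (hs0 : 0 < s)
    (hs1 : s ≤ 1) (hrho : 0 < rho) (hy : rho * s ≤ (y : ℝ) ^ 2) {a : ℤ} (ha : 1 ≤ a)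
    (p : Wd × Wd) (hPc : p ∈ Pc (2 * n - 1)) (hna : p ∉ allowed (2 * n - 1) a)
    (hlL : hl p ≤ L) :
    ∃ q : Wd × ℕ × ℕ × Wd × Wd,
      (∃ m, m ≤ L ∧ q.1 ∈ ArchSet (2 * n - 1) a (2 * m)) ∧ q.2.1 < 2 * L + 1 ∧
      q.2.2.1 < L + 1 ∧ q.2.2.2.1 ∈ wordsUpTo (2 * n + 1) ∧ q.2.2.2.2 ∈ wordsUpTo (2 * n + 1) ∧
      dec q = p ∧ ENNReal.ofReal (rho ^ hl p * s ^ (hl p - htn p)) ≤ GG rho s y q := by
  obtain ⟨hSP, hlen⟩ := mem_Pc' _ p hPc
  have hnd := not_allowed ha hPc hna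
  obtain ⟨T, V, E, j, k, hT, hj, hU, hD, hV, hE, hk1, hk2⟩ := hSPL a p.1 p.2 ha hSP hnd
  have hTe : lev (ep 0 T) = 0 := by rw [hT.2.1]; simp [lev]
  obtain ⟨c1, hc1⟩ := par0 T
  obtain ⟨c2, hc2⟩ := par0 V
  obtain ⟨c3, hc3⟩ := par0 E
  rw [hTe] at hc1
  have hV2 : lev (ep 0 V) = k := hV.2
  have hE2 : lev (ep 0 E) = k := hE.2
  rw [hV2] at hc2
  rw [hE2] at hc3
  have hlt : p.1.length + p.2.length = T.length + (V.length + E.length) := by
    rw [hU, hD, List.length_append, List.length_append, length_rv, List.length_take,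
      List.length_drop]
    omega
  have hTl : T.length = 2 * (T.length / 2) := by omega
  have hVE : V.length + E.length = 2 * ((V.length + E.length) / 2) := by omega
  have hhl : hl p = T.length / 2 + (V.length + E.length) / 2 := by
    unfold hl
    rw [hlt]
    omega
  have hhgt := (hg.2.1 a T ha hT).2
  have hht := (hg.2.2 (2 * n - 1) p hPc).2
  have hhm : hgt T ≤ T.length / 2 := by omega
  have hk2' : htn p ≤ hgt T + k := hk2
  have hk1' : k ≤ htn p := hk1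
  refine ⟨(T, j, k, V, E), ⟨T.length / 2, by omega, ?_⟩, ?_, ?_, ?_, ?_, ?_, ?_⟩
  · rw [mem_ArchSet']
    exact ⟨hTl, hT, arch_runs hT (by omega)⟩
  · show j < 2 * L + 1
    omega
  · show k < L + 1
    omega
  · exact mem_upTo _ _ (by show V.length ≤ _; omega)
  · exact mem_upTo _ _ (by show E.length ≤ _; omega)
  · unfold dec
    simp only
    rw [← hU, ← hD]
  · unfold GG AA
    simp only
    have g1 : gi y k V = (y : ℝ≥0∞) ^ V.length := Set.indicator_of_mem hV _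
    have g2 : gi y k E = (y : ℝ≥0∞) ^ E.length := Set.indicator_of_mem hE _
    rw [g1, g2, ← pow_add, hVE]
    exact weight hs0 hs1 hrho hy hhl hht hhm hk2'

/-- the sum over all decompositions -/
lemma sum_GG {L : ℕ} {rho s X : ℝ} {y : ℝ≥0}
    (hk : ∀ k : ℕ, k ≤ L → ENNReal.ofReal ((s⁻¹) ^ k) * (gfw y (Gn k)) ^ 2 ≤ ENNReal.ofReal X)
    (S Wf : Finset Wd) :
    ∑ q ∈ S ×ˢ range (2 * L + 1) ×ˢ range (L + 1) ×ˢ Wf ×ˢ Wf, GG rho s y q ≤
      (((2 * L + 1 : ℕ) : ℝ≥0∞) * ((L + 1 : ℕ) : ℝ≥0∞) * ENNReal.ofReal X) *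
        ∑ T ∈ S, AA rho s T := by
  have h2 : ∑ q ∈ S ×ˢ range (2 * L + 1) ×ˢ range (L + 1) ×ˢ Wf ×ˢ Wf, GG rho s y q ≤
      ∑ T ∈ S, ∑ _j ∈ range (2 * L + 1), ∑ _k ∈ range (L + 1),
        AA rho s T * ENNReal.ofReal X := by
    rw [Finset.sum_product]
    refine Finset.sum_le_sum fun T _ => ?_
    rw [Finset.sum_product]
    refine Finset.sum_le_sum fun j _ => ?_
    rw [Finset.sum_product]
    refine Finset.sum_le_sum fun k hk' => ?_
    rw [Finset.sum_product]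
    unfold GG
    simp only
    have h3 : ∑ V ∈ Wf, ∑ E ∈ Wf,
        AA rho s T * (ENNReal.ofReal ((s⁻¹) ^ k) * (gi y k V * gi y k E)) =
        AA rho s T *
          (ENNReal.ofReal ((s⁻¹) ^ k) * ((∑ V ∈ Wf, gi y k V) * ∑ E ∈ Wf, gi y k E)) := by
      rw [Finset.sum_mul_sum, Finset.mul_sum, Finset.mul_sum]
      refine Finset.sum_congr rfl fun V _ => ?_
      rw [Finset.mul_sum, Finset.mul_sum]
    rw [h3]
    refine mul_le_mul' le_rfl ?_
    refine le_trans ?_ (hk k (by rw [mem_range] at hk'; omega))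
    refine mul_le_mul' le_rfl ?_
    rw [sq]
    exact mul_le_mul' (sum_gi y k Wf) (sum_gi y k Wf)
  refine h2.trans (le_of_eq ?_)
  simp only [Finset.sum_const, card_range, nsmul_eq_mul]
  rw [← Finset.mul_sum, ← Finset.mul_sum, ← Finset.sum_mul]
  ring

/-- the sum over the arches -/
lemma sum_AA {L r : ℕ} {rho s : ℝ} (hs0 : 0 < s) (hrho : 0 < rho) (a : ℤ) :
    ∑ T ∈ (range (L + 1)).biUnion (fun m => ArchSet r a (2 * m)), AA rho s T =
      ENNReal.ofReal (∑ m ∈ range (L + 1), ∑ w ∈ ArchSet r a (2 * m),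
        rho ^ m * s ^ (m - hgt w)) := by
  rw [Finset.sum_biUnion]
  · rw [ENNReal.ofReal_sum_of_nonneg]
    · refine Finset.sum_congr rfl fun m _ => ?_
      rw [ENNReal.ofReal_sum_of_nonneg]
      · refine Finset.sum_congr rfl fun w hw => ?_
        rw [mem_ArchSet'] at hw
        unfold AA
        rw [hw.1, Nat.mul_div_cancel_left m (by norm_num : 0 < 2)]
      · intro w _
        positivity
    · intro m _
      exact Finset.sum_nonneg fun w _ => by positivity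
  · intro m _ m' _ hmm
    rw [Function.onFun, Finset.disjoint_left]
    intro w hw hw'
    rw [mem_ArchSet'] at hw hw'
    apply hmm
    have h1 := hw.1
    have h2 := hw'.1
    omega

end KAP

open KAP

theorem t_KAP (hSPL : SPL_Stmt) : KAP_Stmt := by
  classical
  intro n L s rho X y hn hs0 hs1 hrho hX hy hk a ha
  set F := (Pc (2 * n - 1)).filter (fun p => p ∉ allowed (2 * n - 1) a ∧ hl p ≤ L) with hF
  set S : Finset Wd := (range (L + 1)).biUnion (fun m => ArchSet (2 * n - 1) a (2 * m)) with hS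
  set Wf : Finset Wd := wordsUpTo (2 * n + 1) with hWf
  have H : ∀ p ∈ F, ∃ q : Wd × ℕ × ℕ × Wd × Wd,
      q ∈ S ×ˢ range (2 * L + 1) ×ˢ range (L + 1) ×ˢ Wf ×ˢ Wf ∧ dec q = p ∧
      ENNReal.ofReal (rho ^ hl p * s ^ (hl p - htn p)) ≤ GG rho s y q := by
    intro p hp
    rw [hF, mem_filter] at hp
    obtain ⟨hPc, hna, hlL⟩ := hp
    obtain ⟨q, ⟨m, hm, hq1⟩, hq2, hq3, hq4, hq5, hq6, hq7⟩ :=
      piece hSPL hn hs0 hs1 hrho hy ha p hPc hna hlL
    refine ⟨q, ?_, hq6, hq7⟩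
    rw [mem_product, mem_product, mem_product, mem_product, mem_range, mem_range]
    refine ⟨?_, hq2, hq3, hq4, hq5⟩
    rw [hS, mem_biUnion]
    exact ⟨m, by rw [mem_range]; omega, hq1⟩
  choose! c hc using H
  have hinj : Set.InjOn c (F : Set (Wd × Wd)) := by
    intro p hp p' hp' h
    rw [← (hc p hp).2.1, ← (hc p' hp').2.1, h]
  have h1 : ∑ p ∈ F, ENNReal.ofReal (rho ^ hl p * s ^ (hl p - htn p)) ≤
      ∑ q ∈ S ×ˢ range (2 * L + 1) ×ˢ range (L + 1) ×ˢ Wf ×ˢ Wf, GG rho s y q := by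
    calc ∑ p ∈ F, ENNReal.ofReal (rho ^ hl p * s ^ (hl p - htn p))
        ≤ ∑ p ∈ F, GG rho s y (c p) := Finset.sum_le_sum fun p hp => (hc p hp).2.2
      _ = ∑ q ∈ F.image c, GG rho s y q := (Finset.sum_image hinj).symm
      _ ≤ _ := by
          apply Finset.sum_le_sum_of_subset
          intro q hq
          rw [mem_image] at hq
          obtain ⟨p, hp, rfl⟩ := hq
          exact (hc p hp).1
  have h2 := h1.trans (sum_GG (rho := rho) hk S Wf)
  rw [hS, sum_AA hs0 hrho a] at h2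
  have e1 : ((2 * L + 1 : ℕ) : ℝ≥0∞) = ENNReal.ofReal (2 * (L : ℝ) + 1) := by
    rw [← ENNReal.ofReal_natCast]
    push_cast
    rfl
  have e2 : ((L + 1 : ℕ) : ℝ≥0∞) = ENNReal.ofReal ((L : ℝ) + 1) := by
    rw [← ENNReal.ofReal_natCast]
    push_cast
    rfl
  rw [e1, e2, ← ENNReal.ofReal_mul (by positivity), ← ENNReal.ofReal_mul (by positivity),
    ← ENNReal.ofReal_mul (by positivity), ← ENNReal.ofReal_sum_of_nonneg (fun p _ => by positivity),
    ENNReal.ofReal_le_ofReal_iff] at h2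
  · exact h2
  · have h7 : 0 ≤ ∑ m ∈ range (L + 1), ∑ w ∈ ArchSet (2 * n - 1) a (2 * m),
        rho ^ m * s ^ (m - hgt w) :=
      Finset.sum_nonneg fun m _ => Finset.sum_nonneg fun w _ => by positivity
    have h8 : (0 : ℝ) ≤ (2 * (L : ℝ) + 1) * ((L : ℝ) + 1) * X :=
      mul_nonneg (mul_nonneg (by linarith [L.cast_nonneg (α := ℝ)])
        (by linarith [L.cast_nonneg (α := ℝ)])) hX
    exact mul_nonneg h8 h7

end Pool.Agent.EXW
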