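import Pool.Agent.EXW.Stmts2
import Pool.Agent.Lib_helper89.FL.KW

/-!
# Project EXW, version 2 (MP_f6626d_co): module KW2

The kernel of `FL.KW`, with its killing probability and its arrays.
-/

set_option autoImplicit false

namespace Pool.Agent.EXW

open Finset Pool.Agent.Lib27 Pool.Agent.SapR Pool.Agent.Gap Pool.Agent.FL Filter Topology
  Pool.Agent.AreaLaw MeasureTheory
open scoped NNReal ENNReal

namespace KW2aux

/-- grouping of the allowed pieces by half length, height and target gap -/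
lemma group_al (h : HG_Stmt) (r : ℕ) (g : ℤ) (f : ℕ → ℕ → ℝ) :
    ∑ p ∈ allowed r g, f (hl p) (htn p) = ∑ i ∈ FL.KW.SS r,
      ∑ g' ∈ Icc (g - (r + 2 : ℕ)) (g + (r + 2 : ℕ)),
        f i.1 i.2 * ((M41.alT r i g g').card : ℝ) := by
  classical
  have hmap : ∀ p ∈ allowed r g, (((hl p, htn p), g + jump p) : (ℕ × ℕ) × ℤ) ∈
      FL.KW.SS r ×ˢ Icc (g - (r + 2 : ℕ)) (g + (r + 2 : ℕ)) := by
    intro p hp
    have hp1 := ((M41.mem_allowed _ _ _).1 hp).1
    obtain ⟨a1, a2⟩ := FL.KW.piece_mem h hp1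
    rw [mem_Icc] at a2
    rw [mem_product, mem_Icc]
    refine ⟨a1, ?_, ?_⟩
    · simp only
      omega
    · simp only
      omega
  rw [← sum_fiberwise_of_maps_to hmap, sum_product]
  apply sum_congr rfl
  intro i _
  apply sum_congr rfl
  intro g' _
  have hfib : (allowed r g).filter (fun p =>
      (((hl p, htn p), g + jump p) : (ℕ × ℕ) × ℤ) = (i, g')) = M41.alT r i g g' := by
    ext p
    rw [mem_filter, M41.mem_alT]
    constructor
    · rintro ⟨h1, h3⟩
      have hp1 := ((M41.mem_allowed _ _ _).1 h1).1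
      have := FL.KW.len_hl hp1
      have := FL.KW.ht_eq hp1
      rw [Prod.mk.injEq, Prod.ext_iff] at h3
      obtain ⟨⟨b1, b2⟩, b3⟩ := h3
      simp only at b1 b2 b3
      exact ⟨h1, by omega, by omega, by omega⟩
    · rintro ⟨h1, h3, h4, h5⟩
      refine ⟨h1, ?_⟩
      have hp1 := ((M41.mem_allowed _ _ _).1 h1).1
      have := FL.KW.len_hl hp1
      have := FL.KW.ht_eq hp1
      rw [Prod.mk.injEq, Prod.ext_iff]
      simp only
      exact ⟨⟨by omega, by omega⟩, by omega⟩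
  have e : ∀ p ∈ (allowed r g).filter (fun p =>
      (((hl p, htn p), g + jump p) : (ℕ × ℕ) × ℤ) = (i, g')), f (hl p) (htn p) = f i.1 i.2 := by
    intro p hp
    rw [mem_filter, Prod.mk.injEq, Prod.ext_iff] at hp
    simp only at hp
    rw [hp.2.1.1, hp.2.1.2]
  rw [sum_congr rfl e, sum_const, hfib, nsmul_eq_mul, mul_comm]

lemma kapEq (h : HG_Stmt) (n : ℕ) (s : ℝ) (hs : 0 < s) :
    KapEq n s (FL.KW.kern (2 * n - 1) s hs) := by
  classical
  intro a ha
  obtain ⟨r, hr⟩ : ∃ r, r = 2 * n - 1 := ⟨_, rfl⟩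
  rw [← hr]
  have h1 := FL.KW.kern_crit h r s hs
  have h2 := group_al h r a (fun b c => (FL.KW.kern r s hs).rho ^ b * s ^ (b - c))
  have h3 : ∑ g' ∈ Icc (a - ((FL.KW.kern r s hs).R : ℤ)) (a + (FL.KW.kern r s hs).R),
      (FL.KW.kern r s hs).Kc a g' = ∑ p ∈ allowed r a,
        (FL.KW.kern r s hs).rho ^ hl p * s ^ (hl p - htn p) := by
    rw [h2, sum_comm]
    apply sum_congr rfl
    intro g' _
    unfold GapKernel.Kc
    apply sum_congr rfl
    intro i _
    have h4 : (FL.KW.kern r s hs).K i a g' = s ^ (i.1 - i.2) * ((M41.alT r i a g').card : ℝ) :=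
      rfl
    rw [h4]
    ring
  unfold GapKernel.kap
  rw [h3]
  have h5 : (Pc r).filter (fun p => p ∈ allowed r a) = allowed r a := by
    ext p
    rw [mem_filter]
    exact ⟨fun hp => hp.2, fun hp => ⟨((M41.mem_allowed _ _ _).1 hp).1, hp⟩⟩
  have h6 := sum_filter_add_sum_filter_not (Pc r) (fun p => p ∈ allowed r a)
    (fun p => (FL.KW.kern r s hs).rho ^ hl p * s ^ (hl p - htn p))
  rw [h5, h1] at h6
  linarith

lemma arEq (n : ℕ) (s : ℝ) : ArEq n s (FL.KW.wB (2 * n - 1) s) := by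
  intro m a ha
  unfold FL.KW.wB
  rw [if_pos ha, Polynomial.eval_finsetSum]
  apply sum_congr rfl
  intro w _
  rw [Polynomial.eval_mul, Polynomial.eval_C, Polynomial.eval_pow, Polynomial.eval_X, one_pow,
    mul_one]

end KW2aux

/-- Module KW2. -/
theorem t_KW2 (h : HG_Stmt) : KW2_Stmt := by
  intro n s hn hs _
  refine ⟨FL.KW.kern (2 * n - 1) s hs, FL.KW.wB (2 * n - 1) s, FL.KW.kern_loc _ s hs,
    FL.KW.kern_crit h _ s hs, FL.KW.kern_level h _ s hs, FL.KW.isCap n s hn hs,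
    FL.KW.cap_one n s hn hs, FL.KW.cap_supp n s, ?_, FL.KW.count h n hn s,
    KW2aux.kapEq h n s hs, KW2aux.arEq n s⟩
  exact FL.KW.sol h (2 * n - 1) s hs

end Pool.Agent.EXW
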