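import Pool.Agent.EXW.StmtsM
import Pool.Agent.Lib_helper74.MG.Walks

/-!
# Project EXW, module MA: words from level `0` to level `h`
-/

set_option autoImplicit false

namespace Pool.Agent.EXW

open Finset Pool.Agent.Lib27 Pool.Agent.SapR Pool.Agent.FL
open scoped NNReal ENNReal

theorem ma_gfw (x : ℝ≥0) (S : Set Wd) : gfw x S = MG.gw (x : ℝ≥0∞) S := rfl

theorem ma_chi (x : ℝ≥0) : chi x = MG.chi (x : ℝ≥0∞) := rfl

theorem ma_Gn_pos {h : ℤ} (hh : 0 ≤ h) : Gn h ⊆ MG.Tp h.natAbs := by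
  rintro w ⟨h1, h2⟩
  refine ⟨h1, ?_⟩
  rw [h2]
  omega

theorem ma_Gn_neg {h : ℤ} (hh : h ≤ 0) : Gn h ⊆ MG.Dn h.natAbs := by
  rintro w ⟨h1, h2⟩
  refine ⟨h1, ?_⟩
  rw [h2]
  omega

theorem ma_two (x : ℝ≥0) (h : ℤ) :
    gfw x (Gn h) ≤ chi x ^ 2 * MG.gw (x : ℝ≥0∞) (MG.Bri h.natAbs) := by
  rw [ma_gfw, ma_chi]
  rcases le_total 0 h with hh | hh
  · exact (MG.gw_mono (ma_Gn_pos hh)).trans (MG.gw_Tp_le _ _)
  · exact (MG.gw_mono (ma_Gn_neg hh)).trans (MG.gw_Dn_le _ _)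

/-- words from level `0` to level `h` -/
theorem t_MA : MA_Stmt := by
  refine ⟨ma_chi, ma_two, ?_⟩
  intro x l hU h
  have h1 : chi x ^ 2 = ENNReal.ofReal ((chi x).toReal ^ 2) := by
    rw [ENNReal.ofReal_pow ENNReal.toReal_nonneg, ENNReal.ofReal_toReal hU.chi_fin]
  calc gfw x (Gn h) ≤ chi x ^ 2 * MG.gw (x : ℝ≥0∞) (MG.Bri h.natAbs) := ma_two x h
    _ ≤ chi x ^ 2 * ENNReal.ofReal (l ^ h.natAbs) := by
        gcongr
        exact hU.up _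
    _ = ENNReal.ofReal ((chi x).toReal ^ 2 * l ^ h.natAbs) := by
        rw [h1, ← ENNReal.ofReal_mul (by positivity)]

end Pool.Agent.EXW
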