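import Pool.Agent.EXW.StmtsM

/-!
# Project EXW, module MC: room above the critical point (helper28)

For a force `f` in `(0, 1]` let `x` be critical for the decay rate `exp (-(f / 2))`. For
`0 < c ≤ f / 4` a weight `y` that is larger than `x` by the factor `1 + c exp (-(A0 / f))` still has
bridges which decay at the rate `exp (-(f / 2) + c)`, and a susceptibility of at most
`exp (A0 / f)`.
-/

set_option autoImplicit false

namespace Pool.Agent.EXW

open Finset Pool.Agent.Lib27 Pool.Agent.SapR Pool.Agent.FL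
open scoped NNReal ENNReal

namespace MCp

theorem chi_eq (x : ℝ≥0) : chi x = MG.chi (x : ℝ≥0∞) := rfl

/-- comparison of two rates -/
theorem le_of_pow_le {a b : ℝ} {C : ℝ≥0∞} (ha : 0 < a) (hb : 0 < b) (hC : C ≠ ⊤)
    (h : ∀ H : ℕ, ENNReal.ofReal (a ^ H) ≤ C * ENNReal.ofReal (b ^ H)) : a ≤ b := by
  by_contra hcon
  push Not at hcon
  have h1 : 1 < a / b := (one_lt_div hb).2 hcon
  obtain ⟨H, hH⟩ := pow_unbounded_of_one_lt C.toReal h1
  have h2 := h H
  have h3 : a ^ H ≤ C.toReal * b ^ H := by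
    have := ENNReal.toReal_mono (ENNReal.mul_ne_top hC ENNReal.ofReal_ne_top) h2
    rwa [ENNReal.toReal_mul, ENNReal.toReal_ofReal (by positivity),
      ENNReal.toReal_ofReal (by positivity)] at this
  rw [div_pow, lt_div_iff₀ (by positivity)] at hH
  linarith

theorem pow_rpow_exp (s t : ℝ) (H : ℕ) : (Real.exp s ^ H) ^ t = Real.exp (s * t) ^ H := by
  rw [← Real.exp_nat_mul, ← Real.exp_nat_mul, ← Real.exp_mul]
  congr 1
  ring

/-- the point between `x` and `z` is `x * exp (t * log (z / x))` -/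
theorem interp_eq {x z : ℝ} (hx : 0 < x) (hz : 0 < z) (t : ℝ) :
    x ^ (1 - t) * z ^ t = x * Real.exp (t * Real.log (z / x)) := by
  have e1 : x * Real.exp (t * (Real.log z - Real.log x)) =
      Real.exp (Real.log x + t * (Real.log z - Real.log x)) := by
    rw [Real.exp_add, Real.exp_log hx]
  rw [Real.rpow_def_of_pos hx, Real.rpow_def_of_pos hz, Real.log_div hz.ne' hx.ne', e1,
    ← Real.exp_add]
  congr 1
  ring

end MCp

open MCp

theorem t_MC (h1 : MC1_Stmt) (h2 : MC2_Stmt) (h3 : MC3_Stmt) : MC_Stmt := by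
  obtain ⟨-, A, hA1, hA⟩ := h1
  obtain ⟨h21, h22⟩ := h2
  refine ⟨A + 1, by linarith, fun f hf hf1 => ?_⟩
  -- the two critical points
  obtain ⟨x, hx⟩ := MG.exists_crit (Real.exp_pos (-(f / 2)))
    (by rw [Real.exp_lt_one_iff]; linarith)
  obtain ⟨x1, hx1⟩ := MG.exists_crit (Real.exp_pos (-(f / 4)))
    (by rw [Real.exp_lt_one_iff]; linarith)
  have hX1 := hA f x1 _ hf hf1 hx1 (Real.exp_le_exp.2 (by linarith)) le_rfl
  set X1 : ℝ := Real.exp (A / f) with hX1d
  have hX1p : 0 < X1 := Real.exp_pos _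
  have hX1g : 1 ≤ X1 := by
    rw [hX1d]; exact Real.one_le_exp (by positivity)
  have hchi1 : MG.chi (ENNReal.ofReal x1) ≠ ⊤ := (hX1.trans_lt ENNReal.ofReal_lt_top).ne
  have hx0 := hx.x_pos
  have hx10 := hx1.x_pos
  -- the order of the critical points
  have hxx1 : x ≤ x1 := by
    by_contra hcon
    push Not at hcon
    have h4 : Real.exp (-(f / 4)) ≤ Real.exp (-(f / 2)) := by
      refine le_of_pow_le (Real.exp_pos _) (Real.exp_pos _) hchi1 fun H => ?_
      refine (hx1.lower H).trans ?_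
      gcongr
      exact (MG.gw_mono_x (ENNReal.ofReal_le_ofReal hcon.le) _).trans (hx.upper H)
    rw [Real.exp_le_exp] at h4
    linarith
  -- a point between `x1` and the critical point of the plain walk
  have hxc := MG.xc_pos
  have h5 := h21 x1 X1 hx10 hx1.x_lt hX1
  set x2 : ℝ := x1 * (1 + 1 / (2 * X1)) with hx2
  have hu0 : 0 < 1 / (2 * X1) := by positivity
  have hx20 : 0 < x2 := by positivity
  have hx12 : x1 < x2 := by
    rw [hx2]
    nlinarith
  have hx2c : x2 < MG.xc := by
    have h6 : x1 / MG.xc ≤ 1 - 1 / X1 := by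
      have h7 : 1 / X1 ≤ 1 - x1 / MG.xc := by
        rw [div_le_iff₀ hX1p]; linarith
      linarith
    have h8 : x1 ≤ (1 - 1 / X1) * MG.xc := by
      rwa [div_le_iff₀ hxc] at h6
    have h9 : (1 - 1 / X1) * (1 + 1 / (2 * X1)) < 1 := by
      have e1 : (1 - 1 / X1) * (1 + 1 / (2 * X1)) = 1 - 1 / (2 * X1) - 1 / (2 * X1 ^ 2) := by
        field_simp
        ring
      rw [e1]
      have e2 : 0 < 1 / (2 * X1 ^ 2) := by positivity
      linarith
    calc x2 ≤ (1 - 1 / X1) * MG.xc * (1 + 1 / (2 * X1)) := by rw [hx2]; gcongr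
      _ = (1 - 1 / X1) * (1 + 1 / (2 * X1)) * MG.xc := by ring
      _ < 1 * MG.xc := by gcongr
      _ = MG.xc := one_mul _
  -- `log (x1 / x)` is not small
  have hL1 : 0 ≤ Real.log (x1 / x) := Real.log_nonneg (by rwa [one_le_div hx0])
  have hL2 : 0 < Real.log (x2 / x) :=
    Real.log_pos (by rw [one_lt_div hx0]; exact hxx1.trans_lt hx12)
  set t : ℝ := Real.log (x1 / x) / Real.log (x2 / x) with ht
  have hL12 : Real.log (x1 / x) ≤ Real.log (x2 / x) :=
    Real.log_le_log (by positivity) (by gcongr)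
  have ht0 : 0 ≤ t := div_nonneg hL1 hL2.le
  have ht1 : t ≤ 1 := (div_le_one hL2).2 hL12
  have htL : t * Real.log (x2 / x) = Real.log (x1 / x) := by
    rw [ht]; field_simp
  have hx1e : x ^ (1 - t) * x2 ^ t = x1 := by
    rw [interp_eq hx0 hx20, htL, Real.exp_log (by positivity)]
    field_simp
  have ht2 : 1 / 2 ≤ t := by
    have h4 : Real.exp (-(f / 4)) ≤ Real.exp (-(f / 2) * (1 - t)) := by
      refine le_of_pow_le (Real.exp_pos _) (Real.exp_pos _) hchi1 fun H => ?_
      refine (hx1.lower H).trans ?_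
      gcongr
      have h6 := h3 (MG.Bri H) x x2 t (Real.exp (-(f / 2)) ^ H) 1 hx0 hx20 ht0 ht1
        (by positivity) zero_le_one (hx.upper H)
        (by rw [ENNReal.ofReal_one]; exact h22 x2 hx20 hx2c H)
      rwa [hx1e, Real.one_rpow, mul_one, pow_rpow_exp] at h6
    rw [Real.exp_le_exp] at h4
    nlinarith
  have hkap : 1 / (8 * X1) ≤ Real.log (x1 / x) := by
    have h6 : Real.log (1 + 1 / (2 * X1)) ≤ Real.log (x2 / x) := by
      apply Real.log_le_log (by positivity)
      rw [le_div_iff₀ hx0, hx2]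
      nlinarith
    have h7 : 1 / (4 * X1) ≤ Real.log (1 + 1 / (2 * X1)) := by
      have h8 := Real.one_sub_inv_le_log_of_pos (show 0 < 1 + 1 / (2 * X1) by positivity)
      refine le_trans ?_ h8
      have e1 : 1 - (1 + 1 / (2 * X1))⁻¹ = 1 / (2 * X1 + 1) := by
        field_simp
        ring
      rw [e1]
      apply one_div_le_one_div_of_le (by positivity)
      linarith
    have h9 : 1 / (8 * X1) = 1 / 2 * (1 / (4 * X1)) := by
      field_simp
      ring
    rw [h9, ← htL]
    have h10 : (0 : ℝ) ≤ 1 / (4 * X1) := by positivity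
    exact mul_le_mul ht2 (h7.trans h6) h10 ht0
  refine ⟨x, hx, fun c hc hc4 => ?_⟩
  set s : ℝ := 4 * c / f with hs
  have hs0 : 0 ≤ s := by positivity
  have hs1 : s ≤ 1 := by
    rw [hs, div_le_one hf]; linarith
  have hsf : s * f = 4 * c := by rw [hs]; field_simp
  set y : ℝ := x ^ (1 - s) * x1 ^ s with hy
  have hy0 : 0 < y := by positivity
  have hye := interp_eq hx0 hx10 s
  rw [← hy] at hye
  have hyx1 : y ≤ x1 := by
    rw [hye]
    calc x * Real.exp (s * Real.log (x1 / x)) ≤ x * Real.exp (1 * Real.log (x1 / x)) := by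
          gcongr
      _ = x1 := by
          rw [one_mul, Real.exp_log (by positivity)]
          field_simp
  have hchiy : chi y.toNNReal ≤ ENNReal.ofReal X1 := by
    rw [chi_eq]
    exact (MG.gw_mono_x (ENNReal.ofReal_le_ofReal hyx1) _).trans hX1
  refine ⟨y, ?_, ⟨?_, ?_, Real.exp_pos _, ?_, ?_⟩, ?_⟩
  · rw [hye]
    apply mul_le_mul_of_nonneg_left _ hx0.le
    have h6 := Real.add_one_le_exp (s * Real.log (x1 / x))
    have h7 : c * Real.exp (-((A + 1) / f)) ≤ s * Real.log (x1 / x) := by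
      have e1 : Real.exp (-((A + 1) / f)) = Real.exp (-(1 / f)) * (1 / X1) := by
        rw [hX1d, one_div (Real.exp (A / f)), ← Real.exp_neg, ← Real.exp_add]
        congr 1
        ring
      have e2 : Real.exp (-(1 / f)) ≤ 1 / 2 := by
        have e3 : (1 : ℝ) ≤ 1 / f := by rw [le_div_iff₀ hf]; linarith
        have e4 := Real.add_one_le_exp (1 / f)
        rw [Real.exp_neg, one_div (2 : ℝ)]
        exact inv_anti₀ (by norm_num) (by linarith)
      have e5 : 4 * c ≤ s := by
        rw [hs, le_div_iff₀ hf]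
        nlinarith
      calc c * Real.exp (-((A + 1) / f)) ≤ c * (1 / 2 * (1 / X1)) := by
            rw [e1]; gcongr
        _ = 4 * c * (1 / (8 * X1)) := by
            field_simp
            ring
        _ ≤ s * Real.log (x1 / x) := by gcongr
    linarith
  · exact Real.toNNReal_pos.2 hy0
  · exact (hchiy.trans_lt ENNReal.ofReal_lt_top).ne
  · rw [Real.exp_lt_one_iff]; linarith
  · intro H
    have h6 := h3 (MG.Bri H) x x1 s (Real.exp (-(f / 2)) ^ H) (Real.exp (-(f / 4)) ^ H) hx0 hx10
      hs0 hs1 (by positivity) (by positivity) (hx.upper H) (hx1.upper H)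
    rw [pow_rpow_exp, pow_rpow_exp, ← mul_pow, ← Real.exp_add] at h6
    have e1 : -(f / 2) * (1 - s) + -(f / 4) * s = -(f / 2) + c := by linarith
    rw [e1] at h6
    exact h6
  · refine hchiy.trans (ENNReal.ofReal_le_ofReal ?_)
    rw [hX1d]
    apply Real.exp_le_exp.2
    gcongr
    linarith

end Pool.Agent.EXW
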