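import Pool.Agent.EXW.StmtsM

/-!
# Project EXW, module MC1: the critical point is not small, and the Hammersley-Welsh bound
(helper38)
-/

set_option autoImplicit false

namespace Pool.Agent.EXW

open Finset Pool.Agent.Lib27 Pool.Agent.SapR Pool.Agent.FL
open scoped NNReal ENNReal

namespace MC1

theorem xc_ge : (1 : ℝ) / 4 ≤ MG.xc := by
  have h1 := cs_ge 1
  have h2 : ((Cs 1).card : ℝ) ≤ 4 ^ 1 := by exact_mod_cast Cs_le 1
  have h3 : Real.exp Lm ≤ 4 := by
    have h4 : Real.exp (((1 : ℕ) : ℝ) * Lm) = Real.exp Lm := by norm_num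
    rw [h4] at h1
    linarith
  unfold MG.xc
  rw [Real.exp_neg, one_div]
  exact inv_anti₀ (Real.exp_pos _) h3

theorem exp_neg_one_gt : (25 : ℝ) / 72 < Real.exp (-1) := by
  rw [Real.exp_neg]
  have h1 := Real.exp_one_lt_d9
  have h2 : (72 : ℝ) / 25 > Real.exp 1 := by
    have : (2.7182818286 : ℝ) < 72 / 25 := by norm_num
    linarith
  have h3 : (25 : ℝ) / 72 = ((72 : ℝ) / 25)⁻¹ := by norm_num
  rw [h3]
  exact inv_strictAnti₀ (Real.exp_pos _) h2

/-- the critical point is not small -/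
theorem lower (x q : ℝ) (h : MG.Crit x q) (hq : Real.exp (-1) ≤ q) : 1 / 12 ≤ x := by
  by_contra hcon
  push Not at hcon
  have hx := h.x_pos
  have hy0 : (0 : ℝ) < 6 / 25 := by norm_num
  have hy1 : (6 : ℝ) / 25 < MG.xc := lt_of_lt_of_le (by norm_num) xc_ge
  have hfx := MG.chi_finite h.x_pos h.x_lt
  have hfy := MG.chi_finite hy0 hy1
  set s : ℝ := x * (25 / 6) with hs
  have hs0 : 0 < s := by positivity
  have hs1 : s < 25 / 72 := by
    rw [hs]; linarith
  have hsq : s < q := by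
    have := exp_neg_one_gt
    linarith
  have hs1' : s ≤ 1 := by linarith
  have hxs : ENNReal.ofReal x = ENNReal.ofReal (6 / 25) * ENNReal.ofReal s := by
    rw [← ENNReal.ofReal_mul hy0.le]
    congr 1
    rw [hs]; ring
  set c : ℝ := (MG.chi (ENNReal.ofReal x)).toReal with hc
  set d : ℝ := (MG.chi (ENNReal.ofReal (6 / 25))).toReal with hd
  have hce : MG.chi (ENNReal.ofReal x) = ENNReal.ofReal c := (ENNReal.ofReal_toReal hfx.ne).symm
  have hde : MG.chi (ENNReal.ofReal (6 / 25)) = ENNReal.ofReal d :=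
    (ENNReal.ofReal_toReal hfy.ne).symm
  have hc0 : 0 ≤ c := ENNReal.toReal_nonneg
  have hd0 : 0 ≤ d := ENNReal.toReal_nonneg
  have key : ∀ H : ℕ, q ^ H ≤ c * d * s ^ H := by
    intro H
    have h1 := h.lower H
    have h2 : MG.gw (ENNReal.ofReal x) (MG.Bri H) ≤
        ENNReal.ofReal s ^ H * ENNReal.ofReal d := by
      rw [hxs]
      refine (MG.gw_scale _ _ (by
        rw [← ENNReal.ofReal_one]; exact ENNReal.ofReal_le_ofReal hs1') H).trans ?_
      rw [← hde]
      exact mul_le_mul_right (MG.gw_le_chi _ (MG.Bri_sub_SW H)) _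
    have h3 : ENNReal.ofReal (q ^ H) ≤ ENNReal.ofReal (c * d * s ^ H) := by
      refine h1.trans ?_
      rw [hce]
      calc ENNReal.ofReal c * MG.gw (ENNReal.ofReal x) (MG.Bri H)
          ≤ ENNReal.ofReal c * (ENNReal.ofReal s ^ H * ENNReal.ofReal d) :=
            mul_le_mul_right h2 _
        _ = ENNReal.ofReal (c * d * s ^ H) := by
            rw [← ENNReal.ofReal_pow hs0.le, ← ENNReal.ofReal_mul (by positivity),
              ← ENNReal.ofReal_mul hc0]
            congr 1
            ring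
    exact (ENNReal.ofReal_le_ofReal_iff (by positivity)).1 h3
  have hr : 1 < q / s := by rw [lt_div_iff₀ hs0]; linarith
  obtain ⟨N, hN⟩ := pow_unbounded_of_one_lt (c * d) hr
  have h5 := key N
  rw [div_pow, lt_div_iff₀ (by positivity)] at hN
  linarith

/-- `1 - e^(-f/4)` is at least `f/8` -/
theorem one_sub_ge {f q : ℝ} (hf : 0 < f) (hf1 : f ≤ 1) (hq : q ≤ Real.exp (-(f / 4))) :
    f / 8 ≤ 1 - q := by
  have h1 : Real.exp (-(f / 4)) ≤ 1 - f / 8 := by
    have h2 : (1 : ℝ) + f / 4 ≤ Real.exp (f / 4) := by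
      have := Real.add_one_le_exp (f / 4)
      linarith
    rw [Real.exp_neg]
    calc (Real.exp (f / 4))⁻¹ ≤ (1 + f / 4)⁻¹ := inv_anti₀ (by positivity) h2
      _ ≤ 1 - f / 8 := by
        rw [inv_le_iff_one_le_mul₀ (by positivity)]
        nlinarith
  linarith

end MC1

theorem t_MC1 : MC1_Stmt := by
  refine ⟨MC1.lower, 204, by norm_num, ?_⟩
  intro f x q hf hf1 h hq hq'
  have hx := MC1.lower x q h hq
  have hg := MC1.one_sub_ge hf hf1 hq'
  have h1 := MG.chi_le_of_bridges (x₀ := 1 / 12) (by norm_num) hx h.q_pos.le h.q_lt h.upper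
  refine h1.trans (ENNReal.ofReal_le_ofReal ?_)
  have h2 : ((1 : ℝ) / 12)⁻¹ = 12 := by norm_num
  rw [h2]
  have h3 : (12 : ℝ) / (1 - q) ≤ 96 / f := by
    rw [div_le_div_iff₀ (by linarith [h.q_lt]) hf]
    linarith
  have h4 : (12 : ℝ) ≤ Real.exp (12 / f) := by
    have h5 := Real.add_one_le_exp (12 / f)
    have h6 : (12 : ℝ) ≤ 12 / f := by
      rw [le_div_iff₀ hf]; linarith
    linarith
  calc (12 : ℝ) * (Real.exp (12 / (1 - q)) * Real.exp (12 / (1 - q)))
      ≤ Real.exp (12 / f) * (Real.exp (96 / f) * Real.exp (96 / f)) := by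
        have h7 := Real.exp_le_exp.2 h3
        gcongr
    _ = Real.exp (204 / f) := by
        rw [← Real.exp_add, ← Real.exp_add]
        congr 1
        ring

end Pool.Agent.EXW
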