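import Pool.Agent.EXW.StmtsM

/-!
# Project EXW, module MC2: lower bound of the susceptibility, bridges below the critical point
-/

set_option autoImplicit false

namespace Pool.Agent.EXW

open Finset Pool.Agent.Lib27 Pool.Agent.SapR Pool.Agent.FL
open scoped NNReal ENNReal

lemma mc2_geo {x X : ℝ} (hx : 0 < x)
    (h : MG.chi (ENNReal.ofReal x) ≤ ENNReal.ofReal X) (N : ℕ) :
    ∑ n ∈ range N, (x / MG.xc) ^ n ≤ X := by
  have hxc := MG.xc_pos
  have hX1 : 1 ≤ ENNReal.ofReal X := (MG.one_le_chi _).trans h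
  have hX : 1 ≤ X := ENNReal.one_le_ofReal.1 hX1
  have h1 : ENNReal.ofReal (∑ n ∈ range N, (x / MG.xc) ^ n) ≤
      ∑ n ∈ range N, ((Cs n).card : ℝ≥0∞) * ENNReal.ofReal x ^ n := by
    rw [ENNReal.ofReal_sum_of_nonneg (fun n _ => by positivity)]
    refine Finset.sum_le_sum fun n _ => ?_
    have h2 := cs_ge n
    rw [← ENNReal.ofReal_natCast, ← ENNReal.ofReal_pow hx.le,
      ← ENNReal.ofReal_mul (by positivity)]
    apply ENNReal.ofReal_le_ofReal
    have h4 : Real.exp (n * Lm) * MG.xc ^ n = 1 := by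
      unfold MG.xc
      rw [← Real.exp_nat_mul, ← Real.exp_add]
      simp
    rw [div_pow, div_le_iff₀ (by positivity)]
    calc x ^ n = (Real.exp (n * Lm) * MG.xc ^ n) * x ^ n := by rw [h4, one_mul]
      _ ≤ ((Cs n).card * MG.xc ^ n) * x ^ n := by gcongr
      _ = _ := by ring
  exact (ENNReal.ofReal_le_ofReal_iff (by linarith)).1
    (h1.trans ((MG.chi_lower (ENNReal.ofReal x) N).trans h))

theorem t_MC2 : MC2_Stmt := by
  constructor
  · intro x X hx hxc h
    have hc := MG.xc_pos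
    have ht0 : 0 ≤ x / MG.xc := by positivity
    have ht1 : x / MG.xc < 1 := (div_lt_one hc).2 hxc
    have h1 : ∑' n : ℕ, (x / MG.xc) ^ n ≤ X :=
      Real.tsum_le_of_sum_range_le (fun n => by positivity) (mc2_geo hx h)
    rw [tsum_geometric_of_lt_one ht0 ht1] at h1
    have h2 : 0 < 1 - x / MG.xc := by linarith
    calc (1 : ℝ) = (1 - x / MG.xc)⁻¹ * (1 - x / MG.xc) := (inv_mul_cancel₀ h2.ne').symm
      _ ≤ X * (1 - x / MG.xc) := mul_le_mul_of_nonneg_right h1 h2.le
  · intro x hx hxc H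
    by_contra hcon
    push Not at hcon
    have h1 := ENNReal.tendsto_pow_atTop_nhds_top_iff.2 hcon
    have h2 := h1.eventually (lt_mem_nhds (MG.chi_finite hx hxc))
    obtain ⟨k, hk⟩ := h2.exists
    exact absurd ((MG.pow_Bri_le _ H k).trans (MG.gw_le_chi _ (MG.Bri_sub_SW (k * H))))
      (not_le.2 hk)

end Pool.Agent.EXW
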