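import Pool.Agent.EXW.StmtsM

/-!
# Project EXW: Hölder interpolation (`MC3`)
-/

set_option autoImplicit false

namespace Pool.Agent.EXW

open Finset Pool.Agent.Lib27 Pool.Agent.SapR Pool.Agent.FL
open scoped NNReal ENNReal

namespace MC3_aux

lemma rpow_swap {x : ℝ} (hx : 0 ≤ x) (s : ℝ) (n : ℕ) : (x ^ s) ^ n = (x ^ n) ^ s := by
  rw [← Real.rpow_natCast, ← Real.rpow_mul hx, mul_comm, Real.rpow_mul hx, Real.rpow_natCast]

/-- Hölder for finite sums. -/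
lemma hoelder {ι : Type*} (s : Finset ι) (f g : ι → ℝ) {t a b : ℝ} (ht0 : 0 < t) (ht1 : t < 1)
    (hf : ∀ i, 0 ≤ f i) (hg : ∀ i, 0 ≤ g i)
    (h1 : ∑ i ∈ s, f i ≤ a) (h2 : ∑ i ∈ s, g i ≤ b) :
    ∑ i ∈ s, f i ^ (1 - t) * g i ^ t ≤ a ^ (1 - t) * b ^ t := by
  have ht2 : 0 < 1 - t := by linarith
  have hpq : Real.HolderConjugate (1 / (1 - t)) (1 / t) :=
    ⟨by rw [one_div, one_div, inv_inv, inv_inv, inv_one]; ring, by positivity, by positivity⟩
  have h := Real.inner_le_Lp_mul_Lq_of_nonneg s (f := fun i => f i ^ (1 - t))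
    (g := fun i => g i ^ t) hpq (fun i _ => Real.rpow_nonneg (hf i) _)
    (fun i _ => Real.rpow_nonneg (hg i) _)
  have e1 : ∀ i, (f i ^ (1 - t)) ^ (1 / (1 - t)) = f i := fun i => by
    rw [← Real.rpow_mul (hf i), mul_one_div_cancel ht2.ne', Real.rpow_one]
  have e2 : ∀ i, (g i ^ t) ^ (1 / t) = g i := fun i => by
    rw [← Real.rpow_mul (hg i), mul_one_div_cancel ht0.ne', Real.rpow_one]
  simp only [e1, e2, one_div_one_div] at h
  have hsf : 0 ≤ ∑ i ∈ s, f i := Finset.sum_nonneg fun i _ => hf i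
  have hsg : 0 ≤ ∑ i ∈ s, g i := Finset.sum_nonneg fun i _ => hg i
  refine h.trans ?_
  exact mul_le_mul (Real.rpow_le_rpow hsf h1 ht2.le) (Real.rpow_le_rpow hsg h2 ht0.le)
    (Real.rpow_nonneg hsg _) (Real.rpow_nonneg (hsf.trans h1) _)

lemma gw_finite {S : Set Wd} {x a : ℝ} (hx : 0 ≤ x) (ha : 0 ≤ a)
    (h : MG.gw (ENNReal.ofReal x) S ≤ ENNReal.ofReal a) (s : Finset S) :
    ∑ w ∈ s, x ^ (w : Wd).length ≤ a := by
  have h1 : ∑ w ∈ s, (ENNReal.ofReal x) ^ (w : Wd).length ≤ ENNReal.ofReal a :=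
    (ENNReal.sum_le_tsum s).trans h
  have h2 : ∑ w ∈ s, (ENNReal.ofReal x) ^ (w : Wd).length =
      ENNReal.ofReal (∑ w ∈ s, x ^ (w : Wd).length) := by
    rw [ENNReal.ofReal_sum_of_nonneg fun w _ => pow_nonneg hx _]
    exact Finset.sum_congr rfl fun w _ => (ENNReal.ofReal_pow hx _).symm
  rw [h2] at h1
  exact (ENNReal.ofReal_le_ofReal_iff ha).1 h1

lemma gw_of_finite {S : Set Wd} {x a : ℝ} (hx : 0 ≤ x)
    (h : ∀ s : Finset S, ∑ w ∈ s, x ^ (w : Wd).length ≤ a) :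
    MG.gw (ENNReal.ofReal x) S ≤ ENNReal.ofReal a := by
  unfold MG.gw
  rw [ENNReal.tsum_eq_iSup_sum]
  refine iSup_le fun s => ?_
  have h2 : ∑ w ∈ s, (ENNReal.ofReal x) ^ (w : Wd).length =
      ENNReal.ofReal (∑ w ∈ s, x ^ (w : Wd).length) := by
    rw [ENNReal.ofReal_sum_of_nonneg fun w _ => pow_nonneg hx _]
    exact Finset.sum_congr rfl fun w _ => (ENNReal.ofReal_pow hx _).symm
  rw [h2]
  exact ENNReal.ofReal_le_ofReal (h s)

end MC3_aux

theorem t_MC3 : MC3_Stmt := by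
  intro S x y t a b hx hy ht0 ht1 ha hb h1 h2
  rcases ht0.eq_or_lt with rfl | ht0'
  · rw [sub_zero, Real.rpow_one, Real.rpow_zero, Real.rpow_one, Real.rpow_zero, mul_one, mul_one]
    exact h1
  rcases ht1.eq_or_lt with rfl | ht1'
  · rw [sub_self, Real.rpow_one, Real.rpow_zero, Real.rpow_one, Real.rpow_zero, one_mul, one_mul]
    exact h2
  have hz : 0 ≤ x ^ (1 - t) * y ^ t :=
    mul_nonneg (Real.rpow_nonneg hx.le _) (Real.rpow_nonneg hy.le _)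
  refine MC3_aux.gw_of_finite hz fun s => ?_
  have e : ∀ w : S, (x ^ (1 - t) * y ^ t) ^ (w : Wd).length =
      (x ^ (w : Wd).length) ^ (1 - t) * (y ^ (w : Wd).length) ^ t := fun w => by
    rw [mul_pow, MC3_aux.rpow_swap hx.le, MC3_aux.rpow_swap hy.le]
  rw [Finset.sum_congr rfl fun w _ => e w]
  exact MC3_aux.hoelder s _ _ ht0' ht1' (fun w => pow_nonneg hx.le _)
    (fun w => pow_nonneg hy.le _) (MC3_aux.gw_finite hx.le ha h1 s)
    (MC3_aux.gw_finite hy.le hb h2 s)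

end Pool.Agent.EXW
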