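import Pool.Agent.EXW.StmtsM

/-!
# Project EXW, module MD: backtrack estimate with explicit constants (helper56)
-/

set_option autoImplicit false

namespace Pool.Agent.EXW

open Finset Pool.Agent.Lib27 Pool.Agent.SapR Pool.Agent.FL
open scoped NNReal ENNReal

namespace MDp

/-! ### weighted sums -/

theorem tsum_prod_set (A B : Set Wd) (g k : Wd → ℝ≥0∞) :
    ∑' p : (A ×ˢ B : Set (Wd × Wd)), g (p : Wd × Wd).1 * k (p : Wd × Wd).2 =
      (∑' u : A, g u) * ∑' v : B, k v := by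
  have h1 : ∑' p : (A ×ˢ B : Set (Wd × Wd)), g (p : Wd × Wd).1 * k (p : Wd × Wd).2 =
      ∑' c : A × B, (fun (a : A) (b : B) => g a * k b) c.1 c.2 :=
    ((Equiv.Set.prod A B).symm.tsum_eq
      (fun p : (A ×ˢ B : Set (Wd × Wd)) => g (p : Wd × Wd).1 * k (p : Wd × Wd).2)).symm
  rw [h1]
  refine (ENNReal.tsum_prod (f := fun (a : A) (b : B) => g a * k b)).trans ?_
  rw [← ENNReal.tsum_mul_right]
  congr 1
  funext a
  exact ENNReal.tsum_mul_left

theorem split2 {S A B : Set Wd} (f g k : Wd → ℝ≥0∞)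
    (h : ∀ w ∈ S, ∃ u v, u ∈ A ∧ v ∈ B ∧ w = u ++ v ∧ f w ≤ g u * k v) :
    ∑' w : S, f w ≤ (∑' u : A, g u) * ∑' v : B, k v := by
  choose! u v hu hv he hf using h
  rw [← tsum_prod_set]
  refine MG.tsum_le_of_inj f (fun p : Wd × Wd => g p.1 * k p.2)
    (fun w => (u w, v w)) (fun w hw => ⟨hu w hw, hv w hw⟩) ?_ hf
  intro w hw w' hw' heq
  have h1 : u w = u w' := congrArg Prod.fst heq
  have h2 : v w = v w' := congrArg Prod.snd heq
  rw [he w hw, he w' hw', h1, h2]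

theorem sum_mono {S T : Set Wd} (f : Wd → ℝ≥0∞) (h : S ⊆ T) :
    ∑' w : S, f w ≤ ∑' w : T, f w :=
  MG.tsum_le_of_inj f f (fun w => w) (fun _ hw => h hw) (Set.injOn_id S) fun _ _ => le_rfl

theorem sum_cover {ι : Type} {S S0 : Set Wd} (T : ι → Set Wd) (f : Wd → ℝ≥0∞)
    (h : S ⊆ S0 ∪ ⋃ i, T i) :
    ∑' w : S, f w ≤ ∑' w : S0, f w + ∑' i, ∑' w : T i, f w := by
  refine (sum_mono f h).trans ?_
  refine (ENNReal.tsum_union_le f S0 (⋃ i, T i)).trans ?_
  gcongr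
  exact ENNReal.tsum_iUnion_le_tsum f T

/-! ### levels and running maxima -/

theorem lv_zero (w : Wd) : lv w 0 = 0 := by simp [lv]

theorem lv_length (w : Wd) : lv w w.length = lev (ep 0 w) := by simp [lv]

theorem lv_left (u v : Wd) {j : ℕ} (h : j ≤ u.length) : lv (u ++ v) j = lv u j := by
  unfold lv
  rw [List.take_append_of_le_length h]

theorem lv_right (u v : Wd) (j : ℕ) : lv (u ++ v) (u.length + j) = lev (ep 0 u) + lv v j := by
  unfold lv
  rw [List.take_length_add_append, MG.lev_ep_append]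

theorem lv_le_rmx (w : Wd) {i j : ℕ} (h : i ≤ j) : lv w i ≤ rmx w j :=
  Finset.le_sup' (fun i => lv w i) (Finset.mem_range.2 (Nat.lt_succ_of_le h))

theorem rmx_le {w : Wd} {j : ℕ} {a : ℤ} (h : ∀ i ≤ j, lv w i ≤ a) : rmx w j ≤ a :=
  Finset.sup'_le _ _ fun i hi => h i (Nat.le_of_lt_succ (Finset.mem_range.1 hi))

theorem exists_rmx (w : Wd) (j : ℕ) : ∃ i ≤ j, lv w i = rmx w j := by
  obtain ⟨i, hi, h⟩ := Finset.exists_mem_eq_sup' (s := range (j + 1)) ⟨0, by simp⟩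
    (fun i => lv w i)
  exact ⟨i, Nat.le_of_lt_succ (Finset.mem_range.1 hi), h.symm⟩

theorem rmx_left (u v : Wd) {j : ℕ} (h : j ≤ u.length) : rmx (u ++ v) j = rmx u j := by
  apply le_antisymm
  · exact rmx_le fun i hi => by
      rw [lv_left u v (hi.trans h)]; exact lv_le_rmx u hi
  · exact rmx_le fun i hi => by
      rw [← lv_left u v (hi.trans h)]; exact lv_le_rmx _ hi

theorem lv_lt_of_Fp {H : ℕ} {u : Wd} (hu : u ∈ MG.Fp H) {j : ℕ} (hj : j < u.length) :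
    lv u j < H := hu.2.2 _ (vertex_mem u j hj)

theorem rmx_right {H : ℕ} {u : Wd} (v : Wd) (hu : u ∈ MG.Fp H) (j : ℕ) :
    rmx (u ++ v) (u.length + j) = H + rmx v j := by
  apply le_antisymm
  · refine rmx_le fun i hi => ?_
    rcases lt_or_ge i u.length with h | h
    · rw [lv_left u v h.le]
      have h1 := lv_lt_of_Fp hu h
      have h2 := lv_le_rmx v (Nat.zero_le j)
      rw [lv_zero] at h2
      omega
    · obtain ⟨k, rfl⟩ := Nat.exists_eq_add_of_le h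
      rw [lv_right, hu.2.1]
      have := lv_le_rmx v (show k ≤ j by omega)
      omega
  · obtain ⟨i, hi, h⟩ := exists_rmx v j
    rw [← h, ← hu.2.1, ← lv_right]
    exact lv_le_rmx _ (by omega)

theorem rmx_lt_of_Fp {H : ℕ} {u : Wd} (v : Wd) (hu : u ∈ MG.Fp H) {j : ℕ} (hj : j < u.length) :
    rmx (u ++ v) j < H := by
  obtain ⟨i, hi, h⟩ := exists_rmx (u ++ v) j
  rw [← h, lv_left u v (by omega)]
  exact lv_lt_of_Fp hu (by omega)

theorem le_rmx_of_Fp {H : ℕ} {u : Wd} (v : Wd) (hu : u ∈ MG.Fp H) {j : ℕ}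
    (hj : u.length ≤ j) : (H : ℤ) ≤ rmx (u ++ v) j := by
  have h1 : lv (u ++ v) u.length = H := by
    rw [lv_left u v le_rfl, lv_length, hu.2.1]
  rw [← h1]
  exact lv_le_rmx _ hj

/-! ### depths -/

theorem dep_le {w : Wd} {a d : ℕ}
    (h : ∀ j ≤ w.length, rmx w j = a → ((a : ℤ) - lv w j).toNat ≤ d) : dep w a ≤ d := by
  unfold dep
  refine Finset.sup_le fun j hj => ?_
  split_ifs with h1
  · exact h j (Nat.le_of_lt_succ (Finset.mem_range.1 hj)) h1
  · exact Nat.zero_le _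

theorem le_dep {w : Wd} {a j : ℕ} (hj : j ≤ w.length) (h : rmx w j = a) :
    ((a : ℤ) - lv w j).toNat ≤ dep w a := by
  unfold dep
  have h1 := Finset.le_sup (f := fun j => if rmx w j = a then ((a : ℤ) - lv w j).toNat else 0)
    (Finset.mem_range.2 (Nat.lt_succ_of_le hj))
  simp only [h, if_true] at h1
  exact h1

theorem exists_dep {w : Wd} {a : ℕ} (h : 0 < dep w a) :
    ∃ j ≤ w.length, rmx w j = a ∧ lv w j = (a : ℤ) - dep w a := by
  obtain ⟨j, hj, h1⟩ := Finset.exists_mem_eq_sup (range (w.length + 1)) ⟨0, by simp⟩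
    (fun j => if rmx w j = a then ((a : ℤ) - lv w j).toNat else 0)
  have h2 : dep w a = if rmx w j = a then ((a : ℤ) - lv w j).toNat else 0 := h1
  rw [h2] at h
  by_cases h3 : rmx w j = a
  · refine ⟨j, Nat.le_of_lt_succ (Finset.mem_range.1 hj), h3, ?_⟩
    rw [if_pos h3] at h h2
    rw [h2]
    omega
  · rw [if_neg h3] at h
    exact absurd h (lt_irrefl _)

theorem dep_right {H : ℕ} {u : Wd} (v : Wd) (hu : u ∈ MG.Fp H) (i : ℕ) :
    dep (u ++ v) (H + i) ≤ dep v i := by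
  refine dep_le fun j hj h => ?_
  have h1 : u.length ≤ j := by
    by_contra hc
    have := rmx_lt_of_Fp v hu (not_le.1 hc)
    rw [h] at this
    push_cast at this
    omega
  obtain ⟨k, rfl⟩ := Nat.exists_eq_add_of_le h1
  rw [rmx_right v hu] at h
  rw [lv_right, hu.2.1]
  have h2 : rmx v k = i := by push_cast at h; omega
  have h3 : ((H + i : ℕ) : ℤ) - (H + lv v k) = (i : ℤ) - lv v k := by push_cast; ring
  rw [h3]
  refine le_dep ?_ h2
  rw [List.length_append] at hj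
  omega

theorem dep_left {H : ℕ} {u : Wd} (v : Wd) (hu : u ∈ MG.Fp H) {b : ℕ} (hb : b < H) :
    dep (u ++ v) b ≤ dep u b := by
  refine dep_le fun j hj h => ?_
  have h1 : j < u.length := by
    by_contra hc
    have := le_rmx_of_Fp v hu (not_lt.1 hc)
    rw [h] at this
    omega
  rw [lv_left u v h1.le]
  rw [rmx_left u v h1.le] at h
  exact le_dep h1.le h

theorem dep_end {H : ℕ} {u : Wd} (hu : u ∈ MG.Fp H) : dep u H = 0 := by
  refine Nat.le_zero.1 (dep_le fun j hj h => ?_)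
  have h1 : u.length ≤ j := by
    by_contra hc
    have := rmx_lt_of_Fp [] hu (not_le.1 hc)
    rw [List.append_nil] at this
    rw [h] at this
    omega
  have h2 : j = u.length := le_antisymm hj h1
  rw [h2, lv_length, hu.2.1]
  simp

/-- depth with cutoff -/
def gK (K d : ℕ) : ℕ := if K ≤ d then d else 0

theorem gK_mono {K d e : ℕ} (h : d ≤ e) : gK K d ≤ gK K e := by
  unfold gK
  split_ifs <;> omega

theorem gK_zero {K d : ℕ} (h : d < K) : gK K d = 0 := if_neg (not_le.2 h)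

theorem gK_le (K d : ℕ) : gK K d ≤ d := by
  unfold gK
  split_ifs <;> omega

theorem RK_eq (K : ℕ) (w : Wd) (H : ℕ) : RK K w H = ∑ a ∈ range (H + 1), gK K (dep w a) := rfl

theorem RK_left {H : ℕ} {u : Wd} (v : Wd) (hu : u ∈ MG.Fp H) (K : ℕ) :
    RK K (u ++ v) H ≤ RK K u H + gK K (dep v 0) := by
  rw [RK_eq, RK_eq, Finset.sum_range_succ, Finset.sum_range_succ]
  have h1 : gK K (dep (u ++ v) H) ≤ gK K (dep v 0) := gK_mono (dep_right v hu 0)
  have h2 : ∑ a ∈ range H, gK K (dep (u ++ v) a) ≤ ∑ a ∈ range H, gK K (dep u a) :=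
    Finset.sum_le_sum fun a ha => gK_mono (dep_left v hu (Finset.mem_range.1 ha))
  omega

theorem RK_right {a H' K : ℕ} {u : Wd} (v : Wd) (hu : u ∈ MG.Fp (a + 1))
    (hb : ∀ b < a, dep (u ++ v) b < K) :
    RK K (u ++ v) (a + 1 + H') ≤ gK K (dep (u ++ v) a) + RK K v H' := by
  rw [RK_eq, RK_eq, show a + 1 + H' + 1 = (a + 1) + (H' + 1) by omega,
    Finset.sum_range_add, Finset.sum_range_succ]
  have h1 : ∑ b ∈ range a, gK K (dep (u ++ v) b) = 0 :=
    Finset.sum_eq_zero fun b hb' => gK_zero (hb b (Finset.mem_range.1 hb'))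
  have h2 : ∑ i ∈ range (H' + 1), gK K (dep (u ++ v) (a + 1 + i)) ≤
      ∑ i ∈ range (H' + 1), gK K (dep v i) :=
    Finset.sum_le_sum fun i _ => gK_mono (dep_right v hu i)
  omega

/-! ### the decomposition -/

/-- words from `0` over the level `a` and a backtrack of depth `r` to the level `a + 1` -/
def A3 (a r : ℕ) : Set Wd :=
  {u | ∃ w1 w2 w3, w1 ∈ Gn (a : ℤ) ∧ w2 ∈ Gn (-(r : ℤ)) ∧ w3 ∈ Gn ((r : ℤ) + 1) ∧
    u = w1 ++ w2 ++ w3}

theorem decomp {H a r : ℕ} {w : Wd} (hw : w ∈ MG.Fp H) (ha : a < H) (hr : dep w a = r)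
    (hr0 : 0 < r) :
    ∃ u v, u ∈ A3 a r ∧ u ∈ MG.Fp (a + 1) ∧ v ∈ MG.Fp (H - a - 1) ∧ w = u ++ v := by
  obtain ⟨j, hj, h1, h2⟩ := exists_dep (w := w) (a := a) (by omega)
  rw [hr] at h2
  obtain ⟨p, q, rfl, hp⟩ : ∃ p q : Wd, w = p ++ q ∧ p.length = j :=
    ⟨w.take j, w.drop j, (List.take_append_drop j w).symm, by rw [List.length_take]; omega⟩
  subst hp
  obtain ⟨hs, he, hlt⟩ := hw
  have hep : lev (ep 0 p) = (a : ℤ) - r := by
    rw [← lv_length, ← lv_left p q le_rfl, h2]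
  have hpl : ∀ i ≤ p.length, lv p i ≤ a := fun i hi => by
    rw [← lv_left p q hi, ← h1]
    exact lv_le_rmx _ hi
  obtain ⟨i, hi, hia⟩ := exists_rmx (p ++ q) p.length
  rw [h1, lv_left p q hi] at hia
  -- first visit of the level `a` in `p`
  have hmem : ep 0 (p.take i) ∈ vt 0 p := by
    rcases lt_or_eq_of_le hi with h | h
    · exact MG.mem_vt_iff.2 (Or.inl (vertex_mem p i h))
    · rw [h, List.take_length]; exact ep_mem_vt _ _
  obtain ⟨w1, w2, hw12, h3, h4⟩ := MG.first_visit (w := p) (h := a) (by positivity)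
    ⟨_, hmem, by rw [← hia]; exact le_rfl⟩
  have h5 : lev (ep 0 w2) = -(r : ℤ) := by
    rw [hw12, MG.lev_ep_append] at hep
    omega
  -- first visit of the level `r + 1` in `q`
  have hq : lev (ep 0 q) = (H : ℤ) - a + r := by
    rw [MG.lev_ep_append, hep] at he
    omega
  obtain ⟨w3, w4, hw34, h6, h7⟩ := MG.first_visit (w := q) (h := (r : ℤ) + 1) (by positivity)
    ⟨ep 0 q, ep_mem_vt _ _, by rw [hq]; omega⟩
  have hsp := MG.SAWs_left hs
  have hsq := MG.SAWs_right hs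
  have hlast : ∀ z ∈ vs 0 p, lev z ≤ a := by
    intro z hz
    obtain ⟨i, hi, rfl⟩ := List.mem_iff_getElem.1 hz
    have hi' : i < p.length := by simpa using hi
    rw [vs_getElem 0 p i hi]
    exact hpl i hi'.le
  refine ⟨p ++ w3, w4, ⟨w1, w2, w3, ⟨?_, h3⟩, ⟨?_, h5⟩, ⟨?_, h6⟩, by rw [hw12]⟩,
    ⟨?_, ?_, ?_⟩, ⟨?_, ?_, ?_⟩, by rw [hw34, List.append_assoc]⟩
  · rw [hw12] at hsp; exact MG.SAWs_left hsp
  · rw [hw12] at hsp; exact MG.SAWs_right hsp
  · rw [hw34] at hsq; exact MG.SAWs_left hsq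
  · rw [hw34, ← List.append_assoc] at hs; exact MG.SAWs_left hs
  · rw [MG.lev_ep_append, hep, h6]; push_cast; ring
  · intro z hz
    rw [vs_append, vs_eq (ep 0 p), List.mem_append, List.mem_map] at hz
    rcases hz with hz | ⟨y, hy, rfl⟩
    · have := hlast z hz
      push_cast
      omega
    · have := h7 y hy
      rw [lev_add, hep]
      push_cast
      omega
  · rw [hw34] at hsq; exact MG.SAWs_right hsq
  · rw [hw34, MG.lev_ep_append, h6] at hq
    omega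
  · intro z hz
    have h8 := hlt _ (MG.mem_vs_append_right p (v := q) (by
      rw [hw34]; exact MG.mem_vs_append_right w3 hz))
    rw [lev_add, lev_add, h6, hep] at h8
    omega

/-! ### the sums over first passage words -/

/-- weight of a word -/
noncomputable def wt (x : ℝ≥0) (l : ℝ) (n : Wd → ℕ) (w : Wd) : ℝ≥0∞ :=
  (x : ℝ≥0∞) ^ w.length * ENNReal.ofReal ((l⁻¹) ^ (n w))

/-- the sum over the first passage words -/
noncomputable def FF (x : ℝ≥0) (l : ℝ) (K H : ℕ) : ℝ≥0∞ :=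
  ∑' w : (MG.Fp H), wt x l (fun w => RK K w H) w

theorem wt_append {x : ℝ≥0} {l : ℝ} (h0 : 0 < l) (h1 : l < 1) (n n1 n2 : Wd → ℕ) (u v : Wd)
    (h : n (u ++ v) ≤ n1 u + n2 v) :
    wt x l n (u ++ v) ≤ wt x l n1 u * wt x l n2 v := by
  unfold wt
  have h2 : (1 : ℝ) ≤ l⁻¹ := (one_le_inv₀ h0).2 h1.le
  have h3 : ENNReal.ofReal ((l⁻¹) ^ (n (u ++ v))) ≤
      ENNReal.ofReal ((l⁻¹) ^ (n1 u)) * ENNReal.ofReal ((l⁻¹) ^ (n2 v)) := by
    rw [← ENNReal.ofReal_mul (by positivity), ← pow_add]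
    exact ENNReal.ofReal_le_ofReal (pow_le_pow_right₀ h2 h)
  calc (x : ℝ≥0∞) ^ (u ++ v).length * ENNReal.ofReal ((l⁻¹) ^ (n (u ++ v)))
      ≤ (x : ℝ≥0∞) ^ (u ++ v).length *
        (ENNReal.ofReal ((l⁻¹) ^ (n1 u)) * ENNReal.ofReal ((l⁻¹) ^ (n2 v))) :=
        mul_le_mul_right h3 _
    _ = _ := by rw [List.length_append, pow_add]; ring

theorem geo {l C : ℝ} (h0 : 0 < l) (h1 : l < 1) (hC : 0 ≤ C) (K : ℕ) :
    ∑' t : ℕ, ENNReal.ofReal (C * l ^ (K + t)) = ENNReal.ofReal (C * l ^ K / (1 - l)) := by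
  have hs : Summable fun t : ℕ => C * l ^ (K + t) := by
    have := (summable_geometric_of_lt_one h0.le h1).mul_left (C * l ^ K)
    refine this.congr fun t => ?_
    rw [pow_add]; ring
  rw [← ENNReal.ofReal_tsum_of_nonneg (fun t => by positivity) hs]
  congr 1
  have h2 : (fun t : ℕ => C * l ^ (K + t)) = fun t : ℕ => C * l ^ K * l ^ t := by
    funext t
    rw [pow_add]; ring
  rw [h2, tsum_mul_left, tsum_geometric_of_lt_one h0.le h1]
  ring

section main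

variable {x : ℝ≥0} {l : ℝ}

theorem gw_Gn (hU : Up x l)
    (hMA : ∀ h : ℤ, gfw x (Gn h) ≤ ENNReal.ofReal ((chi x).toReal ^ 2 * l ^ h.natAbs)) (a : ℕ) :
    MG.gw (x : ℝ≥0∞) (Gn (a : ℤ)) ≤ ENNReal.ofReal ((chi x).toReal ^ 2 * l ^ a) ∧
    MG.gw (x : ℝ≥0∞) (Gn (-(a : ℤ))) ≤ ENNReal.ofReal ((chi x).toReal ^ 2 * l ^ a) := by
  have h1 := hMA (a : ℤ)
  have h2 := hMA (-(a : ℤ))
  rw [Int.natAbs_neg] at h2
  rw [Int.natAbs_natCast] at h1 h2
  exact ⟨h1, h2⟩

theorem gw_A3 (hU : Up x l)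
    (hMA : ∀ h : ℤ, gfw x (Gn h) ≤ ENNReal.ofReal ((chi x).toReal ^ 2 * l ^ h.natAbs))
    (a r : ℕ) :
    MG.gw (x : ℝ≥0∞) (A3 a r) ≤
      ENNReal.ofReal ((chi x).toReal ^ 6 * l ^ (a + 1) * l ^ r * l ^ r) := by
  have h1 : MG.gw (x : ℝ≥0∞) (A3 a r) ≤ MG.gw (x : ℝ≥0∞) (Gn (a : ℤ)) *
      MG.gw (x : ℝ≥0∞) (Gn (-(r : ℤ))) * MG.gw (x : ℝ≥0∞) (Gn ((r : ℤ) + 1)) :=
    MG.gw_split3 _ fun w hw => hw
  have h2 := (gw_Gn hU hMA a).1
  have h3 := (gw_Gn hU hMA r).2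
  have h4 := (gw_Gn hU hMA (r + 1)).1
  rw [Nat.cast_add, Nat.cast_one] at h4
  have hl := hU.l_pos
  refine (h1.trans (mul_le_mul' (mul_le_mul' h2 h3) h4)).trans ?_
  rw [← ENNReal.ofReal_mul (by positivity), ← ENNReal.ofReal_mul (by positivity)]
  apply le_of_eq
  congr 1
  rw [pow_succ l a, pow_succ l r]
  ring

theorem T_le (hU : Up x l)
    (hMA : ∀ h : ℤ, gfw x (Gn h) ≤ ENNReal.ofReal ((chi x).toReal ^ 2 * l ^ h.natAbs))
    {K H a t : ℕ} (hK : 1 ≤ K) (ha : a < H) :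
    ∑' w : {w : Wd | w ∈ MG.Fp H ∧ (∀ b < a, dep w b < K) ∧ dep w a = K + t},
      wt x l (fun w => RK K w H) w ≤
      ENNReal.ofReal ((chi x).toReal ^ 6 * l ^ (a + 1) * l ^ (K + t)) *
        FF x l K (H - a - 1) := by
  have hl := hU.l_pos
  have h1 : ∑' w : {w : Wd | w ∈ MG.Fp H ∧ (∀ b < a, dep w b < K) ∧ dep w a = K + t},
      wt x l (fun w => RK K w H) w ≤
      (∑' u : (A3 a (K + t)), wt x l (fun _ => K + t) u) *
        ∑' v : (MG.Fp (H - a - 1)), wt x l (fun w => RK K w (H - a - 1)) v := by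
    apply split2
    rintro w ⟨hw, hb, hd⟩
    obtain ⟨u, v, hu, hu', hv, rfl⟩ := decomp hw ha hd (by omega)
    refine ⟨u, v, hu, hv, rfl, wt_append hl hU.l_lt _ _ _ u v ?_⟩
    show RK K (u ++ v) H ≤ (K + t) + RK K v (H - a - 1)
    have h2 := RK_right (H' := H - a - 1) v hu' hb
    rw [show a + 1 + (H - a - 1) = H by omega, hd] at h2
    exact h2.trans (Nat.add_le_add_right (gK_le _ _) _)
  refine h1.trans ?_
  refine mul_le_mul_left ?_ _
  have h3 : ∑' u : (A3 a (K + t)), wt x l (fun _ => K + t) u =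
      MG.gw (x : ℝ≥0∞) (A3 a (K + t)) * ENNReal.ofReal ((l⁻¹) ^ (K + t)) := by
    unfold wt MG.gw
    rw [ENNReal.tsum_mul_right]
  rw [h3]
  refine (mul_le_mul_left (gw_A3 hU hMA a (K + t)) _).trans ?_
  rw [← ENNReal.ofReal_mul (by positivity)]
  apply le_of_eq
  congr 1
  have h4 : l ^ (K + t) * (l⁻¹) ^ (K + t) = 1 := by
    rw [← mul_pow, mul_inv_cancel₀ hl.ne', one_pow]
  calc _ = (chi x).toReal ^ 6 * l ^ (a + 1) * l ^ (K + t) *
      (l ^ (K + t) * (l⁻¹) ^ (K + t)) := by ring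
    _ = _ := by rw [h4, mul_one]

theorem FF_rec (hU : Up x l)
    (hMA : ∀ h : ℤ, gfw x (Gn h) ≤ ENNReal.ofReal ((chi x).toReal ^ 2 * l ^ h.natAbs))
    {K : ℕ} (hK : 1 ≤ K) (H : ℕ) :
    FF x l K H ≤ ENNReal.ofReal ((chi x).toReal ^ 2 * l ^ H) +
      ∑ a ∈ range H, ENNReal.ofReal ((chi x).toReal ^ 6 * l ^ (a + 1) * l ^ K / (1 - l)) *
        FF x l K (H - a - 1) := by
  have hl := hU.l_pos
  have hcov : MG.Fp H ⊆ {w : Wd | w ∈ MG.Fp H ∧ RK K w H = 0} ∪
      ⋃ i : Fin H × ℕ, {w : Wd | w ∈ MG.Fp H ∧ (∀ b < (i.1 : ℕ), dep w b < K) ∧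
        dep w (i.1 : ℕ) = K + i.2} := by
    intro w hw
    by_cases hex : ∃ a, a < H ∧ K ≤ dep w a
    · right
      classical
      obtain ⟨h1, h2⟩ := Nat.find_spec hex
      refine Set.mem_iUnion.2 ⟨(⟨Nat.find hex, h1⟩, dep w (Nat.find hex) - K), hw, ?_, ?_⟩
      · intro b hb
        have h3 := Nat.find_min hex hb
        by_contra h4
        exact h3 ⟨lt_trans hb h1, not_lt.1 h4⟩
      · show dep w (Nat.find hex) = K + (dep w (Nat.find hex) - K)
        omega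
    · left
      refine ⟨hw, ?_⟩
      push Not at hex
      rw [RK_eq]
      refine Finset.sum_eq_zero fun a ha => ?_
      rcases Nat.lt_or_ge a H with h1 | h1
      · exact gK_zero (hex a h1)
      · have h2 : a = H := by have := Finset.mem_range.1 ha; omega
        rw [h2, dep_end hw]
        exact gK_zero (by omega)
  have h1 := sum_cover _ (wt x l (fun w => RK K w H)) hcov
  refine h1.trans (add_le_add ?_ ?_)
  · have h2 : ∑' w : {w : Wd | w ∈ MG.Fp H ∧ RK K w H = 0}, wt x l (fun w => RK K w H) w ≤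
        MG.gw (x : ℝ≥0∞) (Gn (H : ℤ)) := by
      refine MG.tsum_le_of_inj _ (fun w : Wd => (x : ℝ≥0∞) ^ w.length) (fun w => w)
        (fun w hw => ⟨hw.1.1, hw.1.2.1⟩) (Set.injOn_id _) fun w hw => ?_
      unfold wt
      simp [hw.2]
    exact h2.trans (gw_Gn hU hMA H).1
  · rw [ENNReal.tsum_prod (f := fun (a : Fin H) (t : ℕ) =>
      ∑' w : {w : Wd | w ∈ MG.Fp H ∧ (∀ b < (a : ℕ), dep w b < K) ∧
        dep w (a : ℕ) = K + t}, wt x l (fun w => RK K w H) w), tsum_fintype, Finset.sum_range]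
    refine Finset.sum_le_sum fun a _ => ?_
    rw [← geo hl hU.l_lt (by positivity) K, ← ENNReal.tsum_mul_right]
    exact ENNReal.tsum_le_tsum fun t => T_le hU hMA hK a.2

theorem FF_le (hU : Up x l)
    (hMA : ∀ h : ℤ, gfw x (Gn h) ≤ ENNReal.ofReal ((chi x).toReal ^ 2 * l ^ h.natAbs))
    {K : ℕ} (hK : 1 ≤ K) (H : ℕ) :
    FF x l K H ≤ ENNReal.ofReal ((chi x).toReal ^ 2 *
      (1 + (chi x).toReal ^ 6 * l ^ K / (1 - l)) ^ H * l ^ H) := by
  have hl := hU.l_pos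
  have hl1 : 0 < 1 - l := sub_pos.2 hU.l_lt
  induction H using Nat.strong_induction_on with
  | _ H ih =>
    set c := (chi x).toReal with hc
    have hc0 : 0 ≤ c := ENNReal.toReal_nonneg
    set e := c ^ 6 * l ^ K / (1 - l) with he
    have he0 : 0 ≤ e := by positivity
    refine (FF_rec hU hMA hK H).trans ?_
    rw [← hc]
    have h1 : ∑ a ∈ range H, ENNReal.ofReal (c ^ 6 * l ^ (a + 1) * l ^ K / (1 - l)) *
        FF x l K (H - a - 1) ≤
        ∑ a ∈ range H, ENNReal.ofReal (c ^ 2 * l ^ H * (e * (1 + e) ^ (H - 1 - a))) := by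
      refine Finset.sum_le_sum fun a ha => ?_
      have ha' := Finset.mem_range.1 ha
      refine (mul_le_mul_right (ih (H - a - 1) (by omega)) _).trans ?_
      rw [← ENNReal.ofReal_mul (by positivity)]
      apply le_of_eq
      congr 1
      rw [show H - 1 - a = H - a - 1 by omega]
      have h2 : l ^ H = l ^ (a + 1) * l ^ (H - a - 1) := by
        rw [← pow_add]; congr 1; omega
      rw [h2, he]
      ring
    refine (add_le_add le_rfl h1).trans ?_
    rw [← ENNReal.ofReal_sum_of_nonneg fun a _ => by positivity,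
      ← ENNReal.ofReal_add (by positivity) (Finset.sum_nonneg fun a _ => by positivity)]
    apply le_of_eq
    congr 1
    rw [← Finset.mul_sum, ← Finset.mul_sum, Finset.sum_range_reflect (fun j => (1 + e) ^ j) H]
    have h3 := mul_geom_sum (1 + e) H
    rw [add_sub_cancel_left] at h3
    rw [h3]
    ring

/-! ### loops -/

theorem loop_le (hU : Up x l)
    (hMA : ∀ h : ℤ, gfw x (Gn h) ≤ ENNReal.ofReal ((chi x).toReal ^ 2 * l ^ h.natAbs))
    {K : ℕ} (hK : 1 ≤ K) :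
    ∑' v : (Gn 0), wt x l (fun v => gK K (dep v 0)) v ≤
      ENNReal.ofReal ((chi x).toReal + (chi x).toReal ^ 4 * l ^ K / (1 - l)) := by
  have hl := hU.l_pos
  have hl1 : 0 < 1 - l := sub_pos.2 hU.l_lt
  have hcov : Gn 0 ⊆ {w : Wd | w ∈ Gn 0 ∧ dep w 0 < K} ∪
      ⋃ t : ℕ, {w : Wd | w ∈ Gn 0 ∧ dep w 0 = K + t} := by
    intro w hw
    rcases Nat.lt_or_ge (dep w 0) K with h | h
    · exact Or.inl ⟨hw, h⟩
    · exact Or.inr (Set.mem_iUnion.2 ⟨dep w 0 - K, hw, by omega⟩)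
  have h1 := sum_cover _ (wt x l (fun v => gK K (dep v 0))) hcov
  refine h1.trans ?_
  rw [ENNReal.ofReal_add ENNReal.toReal_nonneg (by positivity)]
  refine add_le_add ?_ ?_
  · have h2 : ∑' w : {w : Wd | w ∈ Gn 0 ∧ dep w 0 < K}, wt x l (fun v => gK K (dep v 0)) w ≤
        chi x := by
      refine MG.tsum_le_of_inj _ (fun w : Wd => (x : ℝ≥0∞) ^ w.length) (fun w => w)
        (fun w hw => hw.1.1) (Set.injOn_id _) fun w hw => ?_
      unfold wt
      simp [gK_zero hw.2]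
    rw [ENNReal.ofReal_toReal hU.chi_fin]
    exact h2
  · rw [← geo hl hU.l_lt (by positivity) K]
    refine ENNReal.tsum_le_tsum fun t => ?_
    have h3 : ∑' w : {w : Wd | w ∈ Gn 0 ∧ dep w 0 = K + t}, wt x l (fun v => gK K (dep v 0)) w ≤
        (∑' u : (Gn (-((K + t : ℕ) : ℤ))), wt x l (fun _ => K + t) u) *
          ∑' v : (Gn ((K + t : ℕ) : ℤ)), wt x l (fun _ => 0) v := by
      apply split2
      rintro w ⟨⟨hw, he⟩, hd⟩
      obtain ⟨j, hj, h4, h5⟩ := exists_dep (w := w) (a := 0) (by omega)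
      rw [hd] at h5
      obtain ⟨p, q, rfl, hp⟩ : ∃ p q : Wd, w = p ++ q ∧ p.length = j :=
        ⟨w.take j, w.drop j, (List.take_append_drop j w).symm, by rw [List.length_take]; omega⟩
      subst hp
      have hep : lev (ep 0 p) = -((K + t : ℕ) : ℤ) := by
        rw [← lv_length, ← lv_left p q le_rfl, h5]
        push_cast
        ring
      refine ⟨p, q, ⟨MG.SAWs_left hw, hep⟩, ⟨MG.SAWs_right hw, ?_⟩, rfl,
        wt_append hl hU.l_lt _ _ _ p q ?_⟩
      · rw [MG.lev_ep_append, hep] at he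
        omega
      · show gK K (dep (p ++ q) 0) ≤ K + t + 0
        rw [hd]
        exact gK_le _ _
    refine h3.trans ?_
    have h6 : ∑' u : (Gn (-((K + t : ℕ) : ℤ))), wt x l (fun _ => K + t) u =
        MG.gw (x : ℝ≥0∞) (Gn (-((K + t : ℕ) : ℤ))) * ENNReal.ofReal ((l⁻¹) ^ (K + t)) := by
      unfold wt MG.gw
      rw [ENNReal.tsum_mul_right]
    have h7 : ∑' v : (Gn ((K + t : ℕ) : ℤ)), wt x l (fun _ => 0) v =
        MG.gw (x : ℝ≥0∞) (Gn ((K + t : ℕ) : ℤ)) := by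
      unfold wt MG.gw
      simp
    rw [h6, h7]
    refine (mul_le_mul' (mul_le_mul' (gw_Gn hU hMA (K + t)).2 le_rfl)
      (gw_Gn hU hMA (K + t)).1).trans ?_
    rw [← ENNReal.ofReal_mul (by positivity), ← ENNReal.ofReal_mul (by positivity)]
    apply le_of_eq
    congr 1
    have h4 : l ^ (K + t) * (l⁻¹) ^ (K + t) = 1 := by
      rw [← mul_pow, mul_inv_cancel₀ hl.ne', one_pow]
    calc _ = (chi x).toReal ^ 4 * l ^ (K + t) *
        (l ^ (K + t) * (l⁻¹) ^ (K + t)) := by ring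
      _ = _ := by rw [h4, mul_one]

end main

end MDp

open MDp in
/-- MD : backtrack estimate -/
theorem t_MD (hMA : MA_Stmt) : MD_Stmt := by
  intro x l hU K H hK
  have hMA' := hMA.2.2 x l hU
  have hl := hU.l_pos
  have hl1 : 0 < 1 - l := sub_pos.2 hU.l_lt
  have hc1 : 1 ≤ (chi x).toReal := by
    have h1 : 1 ≤ chi x := by rw [hMA.1 x]; exact MG.one_le_chi _
    have h2 := ENNReal.toReal_mono hU.chi_fin h1
    simpa using h2
  set c := (chi x).toReal with hc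
  set e := c ^ 6 * l ^ K / (1 - l) with he
  have he0 : 0 ≤ e := by positivity
  have h1 : ∑' w : Cr H, wt x l (fun w => RK K w H) w ≤
      (∑' u : (MG.Fp H), wt x l (fun w => RK K w H) u) *
        ∑' v : (Gn 0), wt x l (fun v => gK K (dep v 0)) v := by
    apply split2
    rintro w ⟨hw, hep, hlev⟩
    obtain ⟨u, v, rfl, h2, h3⟩ := MG.first_visit (w := w) (h := H) (by positivity)
      ⟨ep 0 w, ep_mem_vt _ _, hep.ge⟩
    have hu : u ∈ MG.Fp H := ⟨MG.SAWs_left hw, h2, h3⟩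
    refine ⟨u, v, hu, ⟨MG.SAWs_right hw, ?_⟩, rfl,
      wt_append hl hU.l_lt _ _ _ u v (RK_left v hu K)⟩
    rw [MG.lev_ep_append, h2] at hep
    omega
  refine le_trans h1 ?_
  refine (mul_le_mul' (FF_le hU hMA' hK H) (loop_le hU hMA' hK)).trans ?_
  rw [← hc, ← he, ← ENNReal.ofReal_mul (by positivity)]
  apply ENNReal.ofReal_le_ofReal
  have h4 : c ^ 2 * (c + c ^ 4 * l ^ K / (1 - l)) ≤ 2 * c ^ 6 / (1 - l) := by
    have h5 : c ^ 2 * (c + c ^ 4 * l ^ K / (1 - l)) = (c ^ 3 * (1 - l) + c ^ 6 * l ^ K) / (1 - l) := by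
      field_simp
    rw [h5]
    have h6 : c ^ 3 ≤ c ^ 6 := pow_le_pow_right₀ hc1 (by norm_num)
    have h7 : l ^ K ≤ 1 := pow_le_one₀ hl.le hU.l_lt.le
    have h8 : 0 ≤ c ^ 3 := by positivity
    have h9 : 0 ≤ c ^ 6 := by positivity
    gcongr
    nlinarith [mul_le_mul_of_nonneg_left h7 h9, mul_nonneg h8 hl.le]
  have h10 : (1 + e) ^ H ≤ (1 + e) ^ (H + 1) := pow_le_pow_right₀ (by linarith) (Nat.le_succ H)
  have h11 : 0 ≤ c ^ 2 * (c + c ^ 4 * l ^ K / (1 - l)) := by positivity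
  calc c ^ 2 * (1 + e) ^ H * l ^ H * (c + c ^ 4 * l ^ K / (1 - l))
      = c ^ 2 * (c + c ^ 4 * l ^ K / (1 - l)) * (1 + e) ^ H * l ^ H := by ring
    _ ≤ 2 * c ^ 6 / (1 - l) * (1 + e) ^ (H + 1) * l ^ H := by gcongr

end Pool.Agent.EXW
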