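import Pool.Agent.EXW.StmtsM
import Pool.Agent.Lib_helper74.MG.Cuts

/-!
# Project EXW: cutting loops (module ME)

For a crossing word `w` and a level `k` strictly inside the strip, `w = u ++ l ++ v`, where `u` ends
at the first and `u ++ l` at the last visit of `k`. The word `u ++ v` is again a crossing word, it
visits `k` once, and if the loop `l` stays between the neighbouring grid levels then the visits of
the other grid levels and the good grid levels do not change.
-/

set_option autoImplicit false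

namespace Pool.Agent.EXW.ME

open Finset Pool.Agent.Lib27 Pool.Agent.SapR Pool.Agent.FL
open scoped NNReal ENNReal

/-! ### levels by index -/

theorem lv_left {u : Wd} (v : Wd) {s : ℕ} (h : s ≤ u.length) : lv (u ++ v) s = lv u s := by
  unfold lv
  rw [List.take_append_of_le_length h]

theorem lv_right (u v : Wd) (t : ℕ) : lv (u ++ v) (u.length + t) = lev (ep 0 u) + lv v t := by
  unfold lv
  rw [List.take_append, List.take_of_length_le (by omega), Nat.add_sub_cancel_left,
    MG.lev_ep_append]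

theorem lv_end (w : Wd) : lv w w.length = lev (ep 0 w) := by
  unfold lv
  rw [List.take_length]

theorem lv_zero (w : Wd) : lv w 0 = 0 := by
  unfold lv
  rw [List.take_zero]
  simp [lev]

theorem vs_take : ∀ (w : Wd) (p : ℤ × ℤ) (s : ℕ) (_ : s < w.length), ep p (w.take s) ∈ vs p w
  | [], _, s, h => absurd h (Nat.not_lt_zero s)
  | d :: w, p, 0, _ => by simp
  | d :: w, p, s + 1, h => by
    rw [List.take_succ_cons, ep_cons, vs_cons]
    exact List.mem_cons_of_mem _ (vs_take w (p + dv d) s (by simpa using h))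

theorem vs_take_tail (w : Wd) (p : ℤ × ℤ) (s : ℕ) (h0 : 0 < s) (h : s < w.length) :
    ep p (w.take s) ∈ (vs p w).tail := by
  obtain ⟨s, rfl⟩ : ∃ t, s = t + 1 := ⟨s - 1, by omega⟩
  cases w with
  | nil => simp at h
  | cons d w =>
    rw [List.take_succ_cons, ep_cons, vs_cons, List.tail_cons]
    exact vs_take w (p + dv d) s (by simpa using h)

theorem vt_take (w : Wd) (s : ℕ) (h : s ≤ w.length) : ep 0 (w.take s) ∈ vt 0 w := by
  rw [MG.mem_vt_iff]
  rcases h.lt_or_eq with h | h
  · exact Or.inl (vs_take w 0 s h)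
  · right
    rw [h, List.take_length]

theorem exists_take : ∀ (w : Wd) (p v : ℤ × ℤ), v ∈ vs p w → ∃ s, s < w.length ∧
    v = ep p (w.take s)
  | [], _, v, h => by simp at h
  | d :: w, p, v, h => by
    rw [vs_cons, List.mem_cons] at h
    rcases h with rfl | h
    · exact ⟨0, by simp, by simp⟩
    · obtain ⟨s, hs, rfl⟩ := exists_take w (p + dv d) v h
      exact ⟨s + 1, by simpa using hs, by rw [List.take_succ_cons, ep_cons]⟩

/-! ### cutting a loop -/

/-- `w = u ++ l ++ v` is the splitting of `w` at the first and the last visit of the level `k` -/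
structure Sp (k : ℕ) (w u l v : Wd) : Prop where
  eq : w = u ++ (l ++ v)
  hu : lev (ep 0 u) = k
  hl : lev (ep 0 l) = 0
  below : ∀ p ∈ vs 0 u, lev p < k
  above : ∀ p ∈ (vt 0 v).tail, 0 < lev p

theorem exists_sp {H k : ℕ} {w : Wd} (hw : w ∈ Cr H) (hk : k < H) : ∃ u l v, Sp k w u l v := by
  obtain ⟨h1, h2, h3⟩ := hw
  obtain ⟨u, z, rfl, h4, h5⟩ := MG.first_visit (w := w) (h := k) (by positivity)
    ⟨ep 0 w, ep_mem_vt _ _, by rw [h2]; exact_mod_cast hk.le⟩
  have h6 : lev (ep 0 z) = H - k := by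
    rw [MG.lev_ep_append, h4] at h2
    omega
  obtain ⟨l, v, rfl, h7, h8, h9⟩ := MG.last_visit (w := z) (h := 0)
    ⟨0, mem_vt_self _ _, by simp [lev]⟩ (by rw [h6]; omega)
  refine ⟨u, l, v, rfl, h4, h7, h5, fun p hp => ?_⟩
  have hv : v ≠ [] := by
    rintro rfl
    simp [lev] at h9
  rcases (MG.mem_vt_tail_iff hv).1 hp with hp | rfl
  · exact h8 p hp
  · exact h9

section

variable {k : ℕ} {w u l v : Wd} (h : Sp k w u l v)

include h

theorem Sp.nonneg {p : ℤ × ℤ} (hp : p ∈ vt 0 v) : 0 ≤ lev p := by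
  rw [vt_head, List.mem_cons] at hp
  rcases hp with rfl | hp
  · simp [lev]
  · exact (h.above p hp).le

theorem Sp.lt_k {s : ℕ} (hs : s < u.length) : lv u s < k := h.below _ (vs_take u 0 s hs)

theorem Sp.le_k {s : ℕ} (hs : s ≤ u.length) : lv u s ≤ k := by
  rcases hs.lt_or_eq with hs | rfl
  · exact (h.lt_k hs).le
  · rw [lv_end, h.hu]

theorem Sp.pos {t : ℕ} (h0 : 0 < t) (ht : t ≤ v.length) : 0 < lv v t := by
  have hv : v ≠ [] := by
    rintro rfl
    simp at ht
    omega
  refine h.above _ ((MG.mem_vt_tail_iff hv).2 ?_)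
  rcases ht.lt_or_eq with ht | rfl
  · exact Or.inl (vs_take_tail v 0 t h0 ht)
  · right
    rw [List.take_length]

theorem Sp.pos' {t : ℕ} (ht : t ≤ v.length) : 0 ≤ lv v t := by
  rcases Nat.eq_zero_or_pos t with rfl | h0
  · rw [lv_zero]
  · exact (h.pos h0 ht).le

theorem Sp.mem_cr {H : ℕ} (hw : w ∈ Cr H) : u ++ v ∈ Cr H := by
  obtain ⟨h1, h2, h3⟩ := hw
  rw [h.eq] at h1 h2 h3
  have hul : lev (ep 0 (u ++ l)) = k := by rw [MG.lev_ep_append, h.hu, h.hl, add_zero]
  refine ⟨?_, ?_, ?_⟩
  · rw [vt_append, List.nodup_append']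
    have h4 := h1
    rw [vt_append, List.nodup_append'] at h4
    refine ⟨h4.1, ?_, ?_⟩
    · rw [nodup_vt]
      have h5 := h4.2.1
      rw [nodup_vt] at h5
      exact (SAWs_append l v h5).2
    · intro p hp hq
      have h5 := h.below p hp
      rw [vt_eq (ep 0 u), List.mem_map] at hq
      obtain ⟨q, hq, rfl⟩ := hq
      have h6 := h.nonneg hq
      rw [lev_add, h.hu] at h5
      omega
  · rw [MG.lev_ep_append] at h2 ⊢
    rw [MG.lev_ep_append, h.hl, zero_add] at h2
    exact h2
  · intro p hp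
    rw [vt_append, List.mem_append] at hp
    rcases hp with hp | hp
    · refine h3 p ?_
      rw [vt_append, List.mem_append]
      exact Or.inl hp
    · rw [vt_eq (ep 0 u), List.mem_map] at hp
      obtain ⟨q, hq, rfl⟩ := hp
      have h5 := h3 (q + ep 0 (u ++ l)) (by
        rw [← List.append_assoc]
        exact MG.mem_vt_append_right (u ++ l) hq)
      rw [lev_add, hul] at h5
      rw [lev_add, h.hu]
      exact h5

theorem Sp.mem_fp {H : ℕ} (hw : w ∈ Cr H) : u ∈ MG.Fp k := by
  refine ⟨?_, h.hu, h.below⟩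
  have h1 : SAWs w := hw.1
  rw [h.eq] at h1
  exact (SAWs_append _ _ h1).1

theorem Sp.mem_sw {H : ℕ} (hw : w ∈ Cr H) : l ∈ Sw := by
  have h1 : SAWs w := hw.1
  rw [h.eq] at h1
  exact (SAWs_append _ _ (SAWs_append _ _ h1).2).1

/-- the new word visits the level `k` once -/
theorem Sp.cnt_one : cnt (vt 0 (u ++ v)) (k : ℤ) = 1 := by
  rw [MG.cnt_vt_append, h.hu, sub_self, MG.cnt_vt_head, if_pos rfl,
    (cnt_eq_zero (vs 0 u) _).2 (fun p hp => (h.below p hp).ne),
    (cnt_eq_zero _ _).2 (fun p hp => (h.above p hp).ne')]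

/-- the visits of a level which is not visited by the loop -/
theorem Sp.cnt_eq {m : ℤ} (hm : ∀ p ∈ vs 0 l, lev p ≠ m - k) :
    cnt (vt 0 (u ++ v)) m = cnt (vt 0 w) m := by
  rw [h.eq, MG.cnt_vt_append, MG.cnt_vt_append, MG.cnt_vt_append, h.hu, h.hl, sub_zero,
    (cnt_eq_zero (vs 0 l) _).2 hm, zero_add]

end

/-! ### good levels -/

/-- good levels of a concatenation, above the junction -/
theorem good_right {K i : ℕ} {a v : Wd} (ha : ∀ s, s ≤ a.length → lv a s < (i : ℤ) * K) :
    Good K (a ++ v) i ↔ ∀ t1 t t2 : ℕ, t1 ≤ t → t ≤ t2 → t2 ≤ v.length →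
      lev (ep 0 a) + lv v t1 = (i : ℤ) * K → lev (ep 0 a) + lv v t2 = (i : ℤ) * K →
      ((i : ℤ) - 1) * K < lev (ep 0 a) + lv v t ∧ lev (ep 0 a) + lv v t < ((i : ℤ) + 1) * K := by
  constructor
  · intro hG t1 t t2 h1 h2 h3 h4 h5
    have h6 := hG (a.length + t1) (a.length + t) (a.length + t2) (by omega) (by omega)
      (by rw [List.length_append]; omega) (by rw [lv_right]; exact h4)
      (by rw [lv_right]; exact h5)
    rw [lv_right] at h6
    exact h6
  · intro hG i1 i' i2 h1 h2 h3 h4 h5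
    have hi : a.length < i1 := by
      by_contra hcon
      push Not at hcon
      rw [lv_left v hcon] at h4
      have := ha i1 hcon
      omega
    obtain ⟨t1, rfl⟩ : ∃ t, i1 = a.length + t := ⟨i1 - a.length, by omega⟩
    obtain ⟨t, rfl⟩ : ∃ t, i' = a.length + t := ⟨i' - a.length, by omega⟩
    obtain ⟨t2, rfl⟩ : ∃ t, i2 = a.length + t := ⟨i2 - a.length, by omega⟩
    rw [lv_right] at h4 h5 ⊢
    rw [List.length_append] at h3
    exact hG t1 t t2 (by omega) (by omega) (by omega) h4 h5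

/-- good levels of a concatenation, below the junction -/
theorem good_left {K i : ℕ} {a v : Wd}
    (hv : ∀ t, t ≤ v.length → (i : ℤ) * K < lev (ep 0 a) + lv v t) :
    Good K (a ++ v) i ↔ Good K a i := by
  constructor
  · intro hG i1 i' i2 h1 h2 h3 h4 h5
    have h6 := hG i1 i' i2 h1 h2 (by rw [List.length_append]; omega)
      (by rw [lv_left v (by omega)]; exact h4) (by rw [lv_left v (by omega)]; exact h5)
    rw [lv_left v (by omega)] at h6
    exact h6
  · intro hG i1 i' i2 h1 h2 h3 h4 h5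
    have hi : i2 < a.length := by
      by_contra hcon
      push Not at hcon
      obtain ⟨t2, rfl⟩ : ∃ t, i2 = a.length + t := ⟨i2 - a.length, by omega⟩
      rw [lv_right] at h5
      rw [List.length_append] at h3
      have := hv t2 (by omega)
      omega
    rw [lv_left v (by omega)] at h4 h5 ⊢
    exact hG i1 i' i2 h1 h2 hi.le h4 h5

section

variable {K j : ℕ} {w u l v : Wd}

/-- the loop at a good level stays between the neighbouring grid levels -/
theorem loop_bound (h : Sp (j * K) w u l v) (hG : Good K w j) {t : ℕ} (ht : t ≤ l.length) :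
    -(K : ℤ) < lv l t ∧ lv l t < K := by
  have e1 : ∀ s, s ≤ l.length → lv w (u.length + s) = (j : ℤ) * K + lv l s := by
    intro s hs
    rw [h.eq, lv_right, lv_left v hs, h.hu]
    push_cast
    rfl
  have h1 := hG u.length (u.length + t) (u.length + l.length) (by omega) (by omega)
    (by rw [h.eq, List.length_append, List.length_append]; omega)
    (by
      have := e1 0 (Nat.zero_le _)
      rw [lv_zero, Nat.add_zero, add_zero] at this
      exact this)
    (by rw [e1 _ le_rfl, lv_end, h.hl, add_zero])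
  rw [e1 t ht] at h1
  constructor
  · linarith [h1.1]
  · linarith [h1.2]

theorem grid_lt {i j K : ℕ} (h : i < j) : (i : ℤ) * K ≤ (j : ℤ) * K - K := by
  have h1 : (i : ℤ) + 1 ≤ j := by exact_mod_cast h
  have h2 : ((i : ℤ) + 1) * K ≤ (j : ℤ) * K := mul_le_mul_of_nonneg_right h1 (by positivity)
  linarith

theorem good_iff (h : Sp (j * K) w u l v) (hK : 1 ≤ K) (hG : Good K w j) {i : ℕ} (hij : i ≠ j) :
    Good K (u ++ v) i ↔ Good K w i := by
  have hK' : (1 : ℤ) ≤ K := by exact_mod_cast hK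
  have hu' : lev (ep 0 u) = (j : ℤ) * K := by rw [h.hu]; push_cast; rfl
  rcases lt_or_gt_of_ne hij with hlt | hgt
  · have hg := grid_lt (K := K) hlt
    rw [good_left, h.eq, good_left]
    · intro t ht
      rw [hu']
      rcases le_total t l.length with htl | htl
      · rw [lv_left v htl]
        have := loop_bound h hG htl
        linarith [this.1]
      · obtain ⟨s, rfl⟩ : ∃ s, t = l.length + s := ⟨t - l.length, by omega⟩
        rw [lv_right, h.hl]
        rw [List.length_append] at ht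
        have := h.pos' (t := s) (by omega)
        linarith
    · intro t ht
      rw [hu']
      have := h.pos' ht
      linarith
  · have hg := grid_lt (K := K) hgt
    have hle : ∀ s, s ≤ u.length → lv u s < (i : ℤ) * K := by
      intro s hs
      have h1 := h.le_k hs
      push_cast at h1
      linarith
    rw [good_right hle, h.eq, ← List.append_assoc, good_right]
    · rw [MG.lev_ep_append, h.hl, add_zero]
    · intro s hs
      rcases le_total s u.length with hsu | hsu
      · rw [lv_left l hsu]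
        exact hle s hsu
      · obtain ⟨t, rfl⟩ : ∃ t, s = u.length + t := ⟨s - u.length, by omega⟩
        rw [lv_right, hu']
        rw [List.length_append] at hs
        have := loop_bound h hG (t := t) (by omega)
        linarith [this.2]

theorem good_self (h : Sp (j * K) w u l v) (hK : 1 ≤ K) : Good K (u ++ v) j := by
  have hK' : (1 : ℤ) ≤ K := by exact_mod_cast hK
  have hu' : lev (ep 0 u) = (j : ℤ) * K := by rw [h.hu]; push_cast; rfl
  have key : ∀ s, s ≤ (u ++ v).length → lv (u ++ v) s = (j : ℤ) * K → s = u.length := by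
    intro s hs he
    rcases lt_trichotomy s u.length with h1 | h1 | h1
    · rw [lv_left v h1.le] at he
      have := h.lt_k h1
      push_cast at this
      omega
    · exact h1
    · obtain ⟨t, rfl⟩ : ∃ t, s = u.length + t := ⟨s - u.length, by omega⟩
      rw [lv_right, hu'] at he
      rw [List.length_append] at hs
      have := h.pos (t := t) (by omega) (by omega)
      omega
  intro i1 i' i2 h1 h2 h3 h4 h5
  have e1 := key i1 (by omega) h4
  have e2 := key i2 h3 h5
  have e3 : i' = i1 := by omega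
  rw [e3, h4]
  constructor <;> linarith

theorem cnt_grid (h : Sp (j * K) w u l v) (hG : Good K w j) {i : ℕ} (hij : i ≠ j) :
    cnt (vt 0 (u ++ v)) ((i : ℤ) * K) = cnt (vt 0 w) ((i : ℤ) * K) := by
  refine h.cnt_eq fun p hp he => ?_
  obtain ⟨s, hs, rfl⟩ := exists_take l 0 p hp
  have h1 := loop_bound h hG hs.le
  unfold lv at h1
  rw [he] at h1
  push_cast at h1
  rcases lt_or_gt_of_ne hij with hlt | hgt
  · have := grid_lt (K := K) hlt
    linarith [h1.1]
  · have := grid_lt (K := K) hgt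
    linarith [h1.2]

end

/-! ### the pairs -/

variable {K J H : ℕ}

theorem mem_goodset {p : Wd × Wd} {i : ℕ} :
    i ∈ goodset K J p ↔ i ∈ Icc 1 J ∧ Good K p.1 i ∧ Good K p.2 i := by
  classical
  unfold goodset
  rw [mem_filter]

theorem mem_cutset {p : Wd × Wd} {i : ℕ} :
    i ∈ cutset K J p ↔ i ∈ Icc 1 J ∧ cnt (vt 0 p.1) ((i : ℤ) * K) = 1 ∧
      cnt (vt 0 p.2) ((i : ℤ) * K) = 1 := by
  classical
  unfold cutset
  rw [mem_filter]

section

variable {j : ℕ} {p : Wd × Wd} {u l v u' l' v' : Wd}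

theorem goodset_cut (hK : 1 ≤ K) (hj : j ∈ goodset K J p) (h : Sp (j * K) p.1 u l v)
    (h' : Sp (j * K) p.2 u' l' v') :
    goodset K J (u ++ v, u' ++ v') = goodset K J p := by
  have hj' := mem_goodset.1 hj
  ext i
  rcases eq_or_ne i j with rfl | hij
  · rw [mem_goodset, mem_goodset]
    constructor
    · intro _
      exact hj'
    · intro _
      exact ⟨hj'.1, good_self h hK, good_self h' hK⟩
  · rw [mem_goodset, mem_goodset]
    show _ ∧ Good K (u ++ v) i ∧ Good K (u' ++ v') i ↔ _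
    rw [good_iff h hK hj'.2.1 hij, good_iff h' hK hj'.2.2 hij]

theorem cutset_cut (hj : j ∈ goodset K J p) (h : Sp (j * K) p.1 u l v)
    (h' : Sp (j * K) p.2 u' l' v') :
    cutset K J (u ++ v, u' ++ v') = insert j (cutset K J p) := by
  have hj' := mem_goodset.1 hj
  ext i
  rw [mem_insert]
  rcases eq_or_ne i j with rfl | hij
  · rw [mem_cutset]
    constructor
    · intro _
      exact Or.inl rfl
    · intro _
      have h1 := h.cnt_one
      have h2 := h'.cnt_one
      push_cast at h1 h2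
      exact ⟨hj'.1, h1, h2⟩
  · rw [mem_cutset, mem_cutset]
    show _ ∧ cnt (vt 0 (u ++ v)) _ = 1 ∧ cnt (vt 0 (u' ++ v')) _ = 1 ↔ _
    rw [cnt_grid h hj'.2.1 hij, cnt_grid h' hj'.2.2 hij]
    constructor
    · exact fun h3 => Or.inr h3
    · rintro (h3 | h3)
      · exact absurd h3 hij
      · exact h3

end

/-- pairs of crossing words with given good levels and given cuts -/
def XX (K J H : ℕ) (g S : Finset ℕ) : Set (Wd × Wd) :=
  {p | p.1 ∈ Cr H ∧ p.2 ∈ Cr H ∧ goodset K J p = g ∧ cutset K J p = S}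

theorem prod_tsum (x : ℝ≥0∞) (A B : Set (Wd × Wd)) :
    ∑' t : (Wd × Wd) × (Wd × Wd), A.indicator (fun p => x ^ (p.1.length + p.2.length)) t.1 *
      B.indicator (fun p => x ^ (p.1.length + p.2.length)) t.2 = MG.gp x A * MG.gp x B := by
  rw [MG.gp_indicator x A, MG.gp_indicator x B, ← ENNReal.tsum_mul_right]
  refine (ENNReal.tsum_prod (f := fun (a b : Wd × Wd) =>
    A.indicator (fun p => x ^ (p.1.length + p.2.length)) a *
      B.indicator (fun p => x ^ (p.1.length + p.2.length)) b)).trans ?_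
  congr 1
  funext a
  rw [ENNReal.tsum_mul_left]

/-- one loop -/
theorem step (x : ℝ≥0) (hK : 1 ≤ K) (hH : (J + 1) * K ≤ H) {g S : Finset ℕ} (hg : g ⊆ Icc 1 J)
    {j : ℕ} (hj : j ∈ g) :
    gfp x (XX K J H g S) ≤ chi x ^ 2 * gfp x (XX K J H g (insert j S)) := by
  have hj1 := mem_Icc.1 (hg hj)
  have hk : j * K < H := by
    refine lt_of_lt_of_le ?_ hH
    exact Nat.mul_lt_mul_of_pos_right (by omega) (by omega)
  have hex : ∀ w : Wd, ∃ t : Wd × Wd × Wd, w ∈ Cr H → Sp (j * K) w t.1 t.2.1 t.2.2 := by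
    intro w
    by_cases hw : w ∈ Cr H
    · obtain ⟨u, l, v, h⟩ := exists_sp hw hk
      exact ⟨(u, l, v), fun _ => h⟩
    · exact ⟨([], [], []), fun h => absurd h hw⟩
  choose T hT using hex
  have h1 : chi x ^ 2 * gfp x (XX K J H g (insert j S)) =
      MG.gp (x : ℝ≥0∞) (XX K J H g (insert j S)) * MG.gp (x : ℝ≥0∞) (Sw ×ˢ Sw) := by
    rw [MG.gp_prod, ← sq, mul_comm]
    rfl
  rw [h1, ← prod_tsum]
  refine MG.tsum_le_of_inj' (S := XX K J H g S)
    (fun p : Wd × Wd => (x : ℝ≥0∞) ^ (p.1.length + p.2.length)) _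
    (fun p => (((T p.1).1 ++ (T p.1).2.2, (T p.2).1 ++ (T p.2).2.2),
      ((T p.1).2.1, (T p.2).2.1))) ?_ ?_
  · rintro ⟨a, b⟩ ⟨ha, hb, -, -⟩ ⟨a', b'⟩ ⟨ha', hb', -, -⟩ heq
    have e1 : (T a).1 ++ (T a).2.2 = (T a').1 ++ (T a').2.2 := congrArg (fun t => t.1.1) heq
    have e2 : (T b).1 ++ (T b).2.2 = (T b').1 ++ (T b').2.2 := congrArg (fun t => t.1.2) heq
    have e3 : (T a).2.1 = (T a').2.1 := congrArg (fun t => t.2.1) heq
    have e4 : (T b).2.1 = (T b').2.1 := congrArg (fun t => t.2.2) heq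
    have c1 := MG.Fp_cancel' ((hT a ha).mem_fp ha) ((hT a' ha').mem_fp ha') e1
    have c2 := MG.Fp_cancel' ((hT b hb).mem_fp hb) ((hT b' hb').mem_fp hb') e2
    refine Prod.ext ?_ ?_
    · show a = a'
      rw [(hT a ha).eq, (hT a' ha').eq, c1.1, c1.2, e3]
    · show b = b'
      rw [(hT b hb).eq, (hT b' hb').eq, c2.1, c2.2, e4]
  · rintro ⟨a, b⟩ ⟨ha, hb, hG, hC⟩
    have hjg : j ∈ goodset K J (a, b) := by
      rw [hG]
      exact hj
    have sa := hT a ha
    have sb := hT b hb
    simp only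
    rw [Set.indicator_of_mem (show ((T a).1 ++ (T a).2.2, (T b).1 ++ (T b).2.2) ∈
        XX K J H g (insert j S) from ⟨sa.mem_cr ha, sb.mem_cr hb,
          (goodset_cut hK hjg sa sb).trans hG, (cutset_cut hjg sa sb).trans (by rw [hC])⟩),
      Set.indicator_of_mem (show ((T a).2.1, (T b).2.1) ∈ Sw ×ˢ Sw from
        ⟨sa.mem_sw ha, sb.mem_sw hb⟩), ← pow_add]
    refine le_of_eq ?_
    congr 1
    have la : a.length = (T a).1.length + ((T a).2.1.length + (T a).2.2.length) := by
      conv_lhs => rw [sa.eq, List.length_append, List.length_append]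
    have lb : b.length = (T b).1.length + ((T b).2.1.length + (T b).2.2.length) := by
      conv_lhs => rw [sb.eq, List.length_append, List.length_append]
    simp only [List.length_append]
    omega

theorem steps (x : ℝ≥0) (hK : 1 ≤ K) (hH : (J + 1) * K ≤ H) {g : Finset ℕ} (hg : g ⊆ Icc 1 J)
    (S : Finset ℕ) (hS : S ⊆ g) :
    gfp x (XX K J H g ∅) ≤ (chi x ^ 2) ^ S.card * gfp x (XX K J H g S) := by
  classical
  induction S using Finset.induction_on with
  | empty => simp
  | insert j S hjS ih =>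
    have h1 := ih fun i hi => hS (mem_insert_of_mem hi)
    have h2 := step x hK hH (S := S) hg (hS (mem_insert_self j S))
    rw [card_insert_of_notMem hjS, pow_succ, mul_assoc]
    exact h1.trans (mul_le_mul_right h2 _)

end Pool.Agent.EXW.ME

namespace Pool.Agent.EXW

open Finset Pool.Agent.Lib27 Pool.Agent.SapR Pool.Agent.FL ME
open scoped NNReal ENNReal

theorem t_ME : Pool.Agent.FL.MGE_Stmt := by
  classical
  intro x _ hchi K J H hK hH g hg
  have h0 : chi x ≠ 0 := by
    have h1 : (1 : ℝ≥0∞) ≤ chi x := MG.one_le_chi (x : ℝ≥0∞)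
    intro h2
    rw [h2] at h1
    exact absurd h1 (by simp)
  show (1 + ((chi x)⁻¹) ^ 2) ^ g.card * gfp x (XX K J H g ∅) ≤ _
  have h1 : (1 + ((chi x)⁻¹) ^ 2) ^ g.card =
      ∑ S ∈ g.powerset, (((chi x)⁻¹) ^ 2) ^ S.card := by
    rw [add_comm, ← Finset.sum_pow_mul_eq_add_pow]
    simp
  rw [h1, Finset.sum_mul]
  have h2 : ∀ S ∈ g.powerset, (((chi x)⁻¹) ^ 2) ^ S.card * gfp x (XX K J H g ∅) ≤
      gfp x (XX K J H g S) := by
    intro S hS
    have h3 := steps x hK hH hg S (mem_powerset.1 hS)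
    have h4 : (((chi x)⁻¹) ^ 2) ^ S.card * (chi x ^ 2) ^ S.card = 1 := by
      rw [← mul_pow, ← mul_pow, ENNReal.inv_mul_cancel h0 hchi, one_pow, one_pow]
    calc (((chi x)⁻¹) ^ 2) ^ S.card * gfp x (XX K J H g ∅) ≤
        (((chi x)⁻¹) ^ 2) ^ S.card * ((chi x ^ 2) ^ S.card * gfp x (XX K J H g S)) := by gcongr
      _ = gfp x (XX K J H g S) := by rw [← mul_assoc, h4, one_mul]
  refine (Finset.sum_le_sum h2).trans ?_
  refine MG.sum_gp_le (x : ℝ≥0∞) g.powerset (fun S => XX K J H g S)
    {p | p.1 ∈ Cr H ∧ p.2 ∈ Cr H ∧ goodset K J p = g} ?_ ?_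
  · rintro S - p ⟨h3, h4, h5, -⟩
    exact ⟨h3, h4, h5⟩
  · rintro S - S' - p ⟨-, -, -, h3⟩ ⟨-, -, -, h4⟩
    rw [← h3, ← h4]

end Pool.Agent.EXW
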