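import Pool.Agent.EXW.StmtsM
import Pool.Agent.Lib_helper74.MG.Walks

/-!
# Project EXW, module MF: bad grid levels cost backtracks
-/

set_option autoImplicit false

namespace Pool.Agent.EXW

open Finset Pool.Agent.Lib27 Pool.Agent.SapR Pool.Agent.FL

namespace MF

lemma lv_bounds {H : ℕ} {w : Wd} (hw : w ∈ Cr H) (j : ℕ) : 0 ≤ lv w j ∧ lv w j ≤ H := by
  have h1 : ep 0 (w.take j) ∈ vt 0 w := by
    have h2 := MG.mem_vt_append_left (w.drop j) (ep_mem_vt 0 (w.take j))
    rwa [List.take_append_drop] at h2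
  exact hw.2.2 _ h1

lemma le_rmx (w : Wd) {i j : ℕ} (h : i ≤ j) : lv w i ≤ rmx w j :=
  Finset.le_sup' (fun i => lv w i) (mem_range.2 (Nat.lt_succ_of_le h))

lemma rmx_le {H : ℕ} {w : Wd} (hw : w ∈ Cr H) (j : ℕ) : rmx w j ≤ H :=
  Finset.sup'_le _ _ fun i _ => (lv_bounds hw i).2

/-- the running maximum as a natural number, and the backtrack below it -/
lemma exists_run {H : ℕ} {w : Wd} (hw : w ∈ Cr H) {i0 i : ℕ} (h0 : i0 ≤ i) (hi : i ≤ w.length) :
    ∃ a : ℕ, a ≤ H ∧ lv w i0 ≤ a ∧ (a : ℤ) - lv w i ≤ dep w a := by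
  have h1 : 0 ≤ rmx w i := (lv_bounds hw i0).1.trans (le_rmx w h0)
  obtain ⟨a, ha⟩ := Int.eq_ofNat_of_zero_le h1
  have h2 := rmx_le hw i
  have h3 := le_rmx w h0
  have h4 := le_rmx w (le_refl i)
  refine ⟨a, by omega, by omega, ?_⟩
  have h5 : ((a : ℤ) - lv w i).toNat ≤ dep w a := by
    have h6 := Finset.le_sup (s := range (w.length + 1))
      (f := fun j => if rmx w j = a then ((a : ℤ) - lv w j).toNat else 0)
      (mem_range.2 (Nat.lt_succ_of_le hi))
    simp only [ha, if_true] at h6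
    exact h6
  omega

/-- the grid intervals inside `[a - d, a]` -/
def ivs (K H a d : ℕ) : Finset ℕ :=
  (range (H + 1)).filter fun m => a ≤ m * K + d ∧ (m + 1) * K ≤ a

lemma card_ivs (K H a d : ℕ) : K * (ivs K H a d).card ≤ d := by
  have h1 : ((ivs K H a d) ×ˢ range K).card ≤ (Finset.Ico (a - d) a).card := by
    refine Finset.card_le_card_of_injOn (fun p => p.1 * K + p.2) ?_ ?_
    · intro p hp
      rw [Finset.mem_coe, Finset.mem_product] at hp
      obtain ⟨h2, h3⟩ := hp
      rw [ivs, Finset.mem_filter] at h2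
      rw [mem_range] at h3
      obtain ⟨-, h4, h5⟩ := h2
      rw [Finset.mem_coe, Finset.mem_Ico]
      rw [Nat.add_mul, one_mul] at h5
      show a - d ≤ p.1 * K + p.2 ∧ p.1 * K + p.2 < a
      omega
    · intro p hp q hq hpq
      rw [Finset.mem_coe, Finset.mem_product, mem_range] at hp hq
      have hpq' : p.1 * K + p.2 = q.1 * K + q.2 := hpq
      have hp2 := hp.2
      have hq2 := hq.2
      have hK : 0 < K := by omega
      have e1 : p.1 = q.1 := by
        have h2 : (p.1 * K + p.2) / K = p.1 := by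
          rw [Nat.add_comm, Nat.add_mul_div_right _ _ hK, Nat.div_eq_of_lt hp2, Nat.zero_add]
        have h3 : (q.1 * K + q.2) / K = q.1 := by
          rw [Nat.add_comm, Nat.add_mul_div_right _ _ hK, Nat.div_eq_of_lt hq2, Nat.zero_add]
        rw [← h2, ← h3, hpq']
      have e2 : p.2 = q.2 := by
        rw [e1] at hpq'
        omega
      exact Prod.ext e1 e2
  rw [Finset.card_product, card_range, Nat.card_Ico] at h1
  rw [Nat.mul_comm]
  omega

/-- the grid intervals covered by a backtrack -/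
def Cov (K : ℕ) (w : Wd) (H : ℕ) : Finset ℕ :=
  ((range (H + 1)).filter fun a => K ≤ dep w a).biUnion fun a => ivs K H a (dep w a)

lemma card_Cov (K : ℕ) (w : Wd) (H : ℕ) : K * (Cov K w H).card ≤ RK K w H := by
  unfold Cov RK
  calc K * _ ≤ K * ∑ a ∈ (range (H + 1)).filter (fun a => K ≤ dep w a),
        (ivs K H a (dep w a)).card := Nat.mul_le_mul_left _ card_biUnion_le
    _ = ∑ a ∈ (range (H + 1)).filter (fun a => K ≤ dep w a), K * (ivs K H a (dep w a)).card :=
        Finset.mul_sum _ _ _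
    _ ≤ ∑ a ∈ (range (H + 1)).filter (fun a => K ≤ dep w a), dep w a :=
        Finset.sum_le_sum fun a _ => card_ivs K H a _
    _ = _ := Finset.sum_filter _ _

lemma mem_Cov {K H m a : ℕ} {w : Wd} (ha : a ≤ H) (hK : 1 ≤ K) (h1 : a ≤ m * K + dep w a)
    (h2 : (m + 1) * K ≤ a) : m ∈ Cov K w H := by
  have h3 : (m + 1) * K = m * K + K := by ring
  have h4 : m * 1 ≤ m * K := Nat.mul_le_mul_left _ hK
  unfold Cov
  rw [mem_biUnion]
  refine ⟨a, ?_, ?_⟩
  · rw [mem_filter, mem_range]
    omega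
  · unfold ivs
    rw [mem_filter, mem_range]
    omega

/-- a bad grid level has a covered neighbouring interval -/
lemma bad_cov {K H j : ℕ} {w : Wd} (hw : w ∈ Cr H) (hK : 1 ≤ K) (hj : 1 ≤ j)
    (hb : ¬ Good K w j) : j ∈ Cov K w H ∨ ∃ m, j = m + 1 ∧ m ∈ Cov K w H := by
  unfold Good at hb
  push Not at hb
  obtain ⟨i1, i, i2, h1, h2, h3, e1, e2, h4⟩ := hb
  by_cases h5 : ((j : ℤ) - 1) * K < lv w i
  · left
    have h6 := h4 h5
    obtain ⟨a, ha, h7, h8⟩ := exists_run hw h2 h3
    rw [e2] at h8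
    refine mem_Cov ha hK ?_ ?_
    · zify
      linarith
    · zify
      linarith
  · right
    push Not at h5
    obtain ⟨m, rfl⟩ := Nat.exists_eq_add_of_le' hj
    refine ⟨m, rfl, ?_⟩
    obtain ⟨a, ha, h7, h8⟩ := exists_run hw h1 (h2.trans h3)
    rw [e1] at h7
    push_cast at h5 h7
    refine mem_Cov ha hK ?_ ?_
    · zify
      nlinarith
    · zify
      linarith

end MF

open MF

/-- Module MF. -/
theorem t_MF : Pool.Agent.FL.MGF_Stmt := by
  classical
  intro K J H hK _ w hw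
  have h1 : (Icc 1 J).filter (fun j => ¬ Good K w j) ⊆
      Cov K w H ∪ (Cov K w H).image fun m => m + 1 := by
    intro j hj
    rw [mem_filter, mem_Icc] at hj
    rw [mem_union, mem_image]
    rcases bad_cov hw hK hj.1.1 hj.2 with h | ⟨m, h, h'⟩
    · exact Or.inl h
    · exact Or.inr ⟨m, h', h.symm⟩
  have h2 : ((Icc 1 J).filter (fun j => ¬ Good K w j)).card ≤ 2 * (Cov K w H).card := by
    refine (card_le_card h1).trans ((card_union_le _ _).trans ?_)
    have h3 := card_image_le (s := Cov K w H) (f := fun m => m + 1)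
    omega
  have h4 := card_Cov K w H
  calc K * _ ≤ K * (2 * (Cov K w H).card) := Nat.mul_le_mul_left _ (by convert h2)
    _ = 2 * (K * (Cov K w H).card) := by ring
    _ ≤ _ := Nat.mul_le_mul_left _ h4

end Pool.Agent.EXW
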