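import Pool.Agent.EXW.StmtsM
import Pool.Agent.Lib_helper74.MG.Cuts

/-!
# Project EXW: the mass gap with explicit constants
-/

set_option autoImplicit false

namespace Pool.Agent.EXW

open Finset Pool.Agent.Lib27 Pool.Agent.SapR Pool.Agent.FL
open scoped NNReal ENNReal

namespace MGAPaux

/-! ### Real estimates -/

theorem exp7 : (1000 : ℝ) ≤ Real.exp 7 := by
  have h1 : (2.7 : ℝ) ≤ Real.exp 1 := by
    have := Real.exp_one_gt_d9
    linarith
  have h2 : Real.exp 7 = Real.exp 1 ^ 7 := by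
    rw [← Real.exp_nat_mul]
    norm_num
  rw [h2]
  calc (1000 : ℝ) ≤ 2.7 ^ 7 := by norm_num
    _ ≤ Real.exp 1 ^ 7 := pow_le_pow_left₀ (by norm_num) h1 7

theorem sq_le {a : ℝ} (ha : 1 ≤ a) : 1000 * a ^ 2 ≤ Real.exp (9 * a) := by
  have h1 : a ≤ Real.exp a := by
    have := Real.add_one_le_exp a
    linarith
  have h2 : a ^ 2 ≤ Real.exp a ^ 2 := pow_le_pow_left₀ (by linarith) h1 2
  have h3 : Real.exp (9 * a) = Real.exp (7 * a) * Real.exp a ^ 2 := by
    rw [← Real.exp_nat_mul, ← Real.exp_add]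
    congr 1
    push_cast
    ring
  have h4 : (1000 : ℝ) ≤ Real.exp (7 * a) := exp7.trans (Real.exp_le_exp.2 (by linarith))
  rw [h3]
  exact mul_le_mul h4 h2 (by positivity) (by positivity)

theorem one_sub {u l : ℝ} (hu : 0 ≤ u) (hu1 : u ≤ 1) (hl : l ≤ Real.exp (-u)) :
    u / 2 ≤ 1 - l := by
  have h1 : Real.exp (-u) ≤ 1 - u / 2 := by
    rw [Real.exp_neg]
    have h2 : 1 + u ≤ Real.exp u := by
      have := Real.add_one_le_exp u
      linarith
    rw [inv_le_comm₀ (Real.exp_pos u) (by linarith)]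
    refine le_trans ?_ h2
    rw [inv_le_iff_one_le_mul₀ (by linarith)]
    nlinarith
  linarith

/-- the numbers: the two parts of the bound -/
theorem final_num {a f l c t E M : ℝ} {H K J : ℕ} (ha : 1 ≤ a) (hf : 0 < f) (hf1 : f ≤ 1)
    (hfa : 1 ≤ f * a) (hl0 : 0 < l) (hl : l ≤ Real.exp (-(f / 4)))
    (hc1 : 1 ≤ c) (hc : c ≤ Real.exp a) (hK1 : 60 * a ≤ f * K) (hK2 : f * K ≤ 61 * a)
    (hK3 : (K : ℝ) ≤ 61 * a ^ 2) (hK : 0 < K) (hJ : (H : ℝ) ≤ ((J : ℝ) + 2) * K)
    (ht : t ≤ Real.exp (-(f / 4 * (K * J) / 8)))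
    (hE : E = Real.exp (J * Real.exp (-(2 * a)) / 4))
    (hM : M = 2 * c ^ 6 / (1 - l) * (1 + c ^ 6 * l ^ K / (1 - l)) ^ (H + 1) * l ^ H) :
    E⁻¹ * (c ^ 4 * l ^ (2 * H)) + 2 * (t * M * (c ^ 2 * l ^ H)) ≤
      Real.exp (100 * a) * Real.exp (-(Real.exp (-(100 * a)) * H)) * l ^ (2 * H) := by
  set ε := Real.exp (-(100 * a)) with hε
  have hε0 : 0 < ε := Real.exp_pos _
  have hH0 : (0 : ℝ) ≤ H := Nat.cast_nonneg H
  have hJ0 : (0 : ℝ) ≤ J := Nat.cast_nonneg J
  have hK0 : (0 : ℝ) < K := by exact_mod_cast hK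
  have hsq := sq_le ha
  have hexp100 : Real.exp (9 * a) ≤ Real.exp (100 * a) := Real.exp_le_exp.2 (by linarith)
  have hgap : f / 8 ≤ 1 - l := by
    have := one_sub (u := f / 4) (by linarith) (by linarith) hl
    linarith
  have hgap0 : 0 < 1 - l := by linarith [div_pos hf (by norm_num : (0 : ℝ) < 8)]
  have hc6 : c ^ 6 ≤ Real.exp (6 * a) := by
    have := pow_le_pow_left₀ (by linarith) hc 6
    rwa [← Real.exp_nat_mul] at this
  have hc8 : c ^ 8 ≤ Real.exp (8 * a) := by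
    have := pow_le_pow_left₀ (by linarith) hc 8
    rwa [← Real.exp_nat_mul] at this
  have hc4 : c ^ 4 ≤ Real.exp (4 * a) := by
    have := pow_le_pow_left₀ (by linarith) hc 4
    rwa [← Real.exp_nat_mul] at this
  -- the error of the backtrack estimate
  have hlK : l ^ K ≤ Real.exp (-(15 * a)) := by
    calc l ^ K ≤ Real.exp (-(f / 4)) ^ K := pow_le_pow_left₀ hl0.le hl K
      _ = Real.exp (K * -(f / 4)) := by rw [← Real.exp_nat_mul]
      _ ≤ Real.exp (-(15 * a)) := Real.exp_le_exp.2 (by nlinarith)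
  have heK : c ^ 6 * l ^ K / (1 - l) ≤ f / 64 := by
    rw [div_le_iff₀ hgap0]
    have h1 : c ^ 6 * l ^ K ≤ Real.exp (-(9 * a)) := by
      calc c ^ 6 * l ^ K ≤ Real.exp (6 * a) * Real.exp (-(15 * a)) :=
            mul_le_mul hc6 hlK (by positivity) (by positivity)
        _ = Real.exp (-(9 * a)) := by rw [← Real.exp_add]; congr 1; ring
    have h2 : Real.exp (-(9 * a)) ≤ f / 64 * (f / 8) := by
      rw [Real.exp_neg, inv_le_iff_one_le_mul₀ (Real.exp_pos _)]
      have h3 : 1 ≤ f ^ 2 * a ^ 2 := by nlinarith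
      calc (1 : ℝ) ≤ f ^ 2 * a ^ 2 := h3
        _ ≤ f ^ 2 / 512 * (1000 * a ^ 2) := by nlinarith [sq_nonneg (f * a)]
        _ ≤ f ^ 2 / 512 * Real.exp (9 * a) := mul_le_mul_of_nonneg_left hsq (by positivity)
        _ = f / 64 * (f / 8) * Real.exp (9 * a) := by ring
    calc c ^ 6 * l ^ K ≤ f / 64 * (f / 8) := h1.trans h2
      _ ≤ f / 64 * (1 - l) := mul_le_mul_of_nonneg_left hgap (by positivity)
  have hpow : (1 + c ^ 6 * l ^ K / (1 - l)) ^ (H + 1) ≤ Real.exp (f * (H + 1) / 64) := by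
    have h1 : 1 + c ^ 6 * l ^ K / (1 - l) ≤ Real.exp (f / 64) := by
      have := Real.add_one_le_exp (f / 64)
      linarith
    have h0 : 0 ≤ c ^ 6 * l ^ K / (1 - l) := by positivity
    calc (1 + c ^ 6 * l ^ K / (1 - l)) ^ (H + 1) ≤ Real.exp (f / 64) ^ (H + 1) :=
          pow_le_pow_left₀ (by linarith) h1 _
      _ = Real.exp (f * (H + 1) / 64) := by
          rw [← Real.exp_nat_mul]; congr 1; push_cast; ring
  -- second part
  have hsecond : 2 * (t * M * (c ^ 2 * l ^ H)) ≤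
      Real.exp (18 * a) * Real.exp (-(ε * H)) * l ^ (2 * H) := by
    have h1 : M ≤ 16 / f * c ^ 6 * Real.exp (f * (H + 1) / 64) * l ^ H := by
      rw [hM]
      have h2 : 2 * c ^ 6 / (1 - l) ≤ 16 / f * c ^ 6 := by
        rw [div_le_iff₀ hgap0]
        have h3 : 1 ≤ 8 / f * (1 - l) := by
          rw [div_mul_eq_mul_div, le_div_iff₀ hf]
          linarith
        have h4 : 0 ≤ 2 * c ^ 6 := by positivity
        calc 2 * c ^ 6 = 2 * c ^ 6 * 1 := by ring
          _ ≤ 2 * c ^ 6 * (8 / f * (1 - l)) := mul_le_mul_of_nonneg_left h3 h4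
          _ = 16 / f * c ^ 6 * (1 - l) := by ring
      have h5 : 0 ≤ (1 + c ^ 6 * l ^ K / (1 - l)) ^ (H + 1) := by positivity
      gcongr
    have hM0 : 0 ≤ M := by rw [hM]; positivity
    have ht' : t ≤ Real.exp (-(f * (H - 2 * K) / 32)) := by
      refine ht.trans (Real.exp_le_exp.2 ?_)
      have : (H : ℝ) - 2 * K ≤ K * J := by nlinarith
      nlinarith
    have h6 : t * M ≤ Real.exp (-(f * (H - 2 * K) / 32)) *
        (16 / f * c ^ 6 * Real.exp (f * (H + 1) / 64) * l ^ H) :=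
      mul_le_mul ht' h1 hM0 (Real.exp_pos _).le
    have h7 : 16 / f ≤ Real.exp (5 * a) / 2 := by
      have h8 : 16 / f ≤ 16 * a := by
        rw [div_le_iff₀ hf]; nlinarith
      have h9 : 32 * a ≤ Real.exp (5 * a) := by
        have h10 : (32 : ℝ) ≤ Real.exp (4 * a) := by
          have h11 : (2.7 : ℝ) ≤ Real.exp 1 := by
            have := Real.exp_one_gt_d9
            linarith
          calc (32 : ℝ) ≤ 2.7 ^ 4 := by norm_num
            _ ≤ Real.exp 1 ^ 4 := pow_le_pow_left₀ (by norm_num) h11 4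
            _ = Real.exp 4 := by rw [← Real.exp_nat_mul]; norm_num
            _ ≤ Real.exp (4 * a) := Real.exp_le_exp.2 (by linarith)
        have h12 : a ≤ Real.exp a := by
          have := Real.add_one_le_exp a
          linarith
        calc 32 * a ≤ Real.exp (4 * a) * Real.exp a :=
              mul_le_mul h10 h12 (by linarith) (by positivity)
          _ = Real.exp (5 * a) := by rw [← Real.exp_add]; congr 1; ring
      linarith
    calc 2 * (t * M * (c ^ 2 * l ^ H))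
        ≤ 2 * (Real.exp (-(f * (H - 2 * K) / 32)) *
          (16 / f * c ^ 6 * Real.exp (f * (H + 1) / 64) * l ^ H) * (c ^ 2 * l ^ H)) := by
          gcongr
      _ = 2 * (16 / f) * c ^ 8 * (Real.exp (-(f * (H - 2 * K) / 32)) *
          Real.exp (f * (H + 1) / 64)) * l ^ (2 * H) := by
          rw [two_mul H, pow_add]; ring
      _ ≤ 2 * (Real.exp (5 * a) / 2) * Real.exp (8 * a) * (Real.exp (-(f * (H - 2 * K) / 32)) *
          Real.exp (f * (H + 1) / 64)) * l ^ (2 * H) := by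
          gcongr
      _ = Real.exp (5 * a + 8 * a + (-(f * (H - 2 * K) / 32) + f * (H + 1) / 64)) *
          l ^ (2 * H) := by
          rw [Real.exp_add, Real.exp_add, Real.exp_add]; ring
      _ ≤ Real.exp (18 * a + -(ε * H)) * l ^ (2 * H) := by
          refine mul_le_mul_of_nonneg_right (Real.exp_le_exp.2 ?_) (by positivity)
          have h13 : ε ≤ f / 64 := by
            rw [hε, Real.exp_neg, inv_le_iff_one_le_mul₀ (Real.exp_pos _)]
            have h14 : 64 * a ≤ Real.exp (100 * a) := by nlinarith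
            calc (1 : ℝ) ≤ f * a := hfa
              _ = f / 64 * (64 * a) := by ring
              _ ≤ f / 64 * Real.exp (100 * a) := mul_le_mul_of_nonneg_left h14 (by positivity)
          have h15 : ε * H ≤ f / 64 * H := mul_le_mul_of_nonneg_right h13 hH0
          nlinarith
      _ = Real.exp (18 * a) * Real.exp (-(ε * H)) * l ^ (2 * H) := by rw [Real.exp_add]
  -- first part
  have hfirst : E⁻¹ * (c ^ 4 * l ^ (2 * H)) ≤
      Real.exp (5 * a) * Real.exp (-(ε * H)) * l ^ (2 * H) := by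
    have h1 : E⁻¹ ≤ Real.exp a * Real.exp (-(ε * H)) := by
      rw [hE, ← Real.exp_neg, ← Real.exp_add]
      apply Real.exp_le_exp.2
      set X := Real.exp (-(2 * a)) with hX
      have hX0 : 0 < X := Real.exp_pos _
      have hX1 : X ≤ 1 := Real.exp_le_one_iff.2 (by linarith)
      have h2 : 4 * (K * ε) ≤ X := by
        have h3 : ε = X * Real.exp (-(98 * a)) := by
          rw [hε, hX, ← Real.exp_add]; congr 1; ring
        have h4 : 4 * (K * Real.exp (-(98 * a))) ≤ 1 := by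
          rw [Real.exp_neg, ← mul_assoc, ← div_eq_mul_inv, div_le_one (Real.exp_pos _)]
          have h5 : Real.exp (9 * a) ≤ Real.exp (98 * a) := Real.exp_le_exp.2 (by linarith)
          nlinarith
        rw [h3]
        nlinarith
      -- H ≤ (J + 2) K
      have h6 : ε * H ≤ ε * ((J + 2) * K) := mul_le_mul_of_nonneg_left hJ hε0.le
      have h7 : ε * ((J + 2) * K) ≤ (J + 2) * (X / 4) := by
        have : 0 ≤ (J : ℝ) + 2 := by linarith
        nlinarith
      nlinarith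
    calc E⁻¹ * (c ^ 4 * l ^ (2 * H))
        ≤ Real.exp a * Real.exp (-(ε * H)) * (Real.exp (4 * a) * l ^ (2 * H)) := by
          gcongr
      _ = (Real.exp a * Real.exp (4 * a)) * Real.exp (-(ε * H)) * l ^ (2 * H) := by ring
      _ = Real.exp (5 * a) * Real.exp (-(ε * H)) * l ^ (2 * H) := by
          rw [← Real.exp_add]; congr 3; ring
  have hsum : Real.exp (5 * a) + Real.exp (18 * a) ≤ Real.exp (100 * a) := by
    have h1 : Real.exp (5 * a) ≤ Real.exp (18 * a) := Real.exp_le_exp.2 (by linarith)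
    have h2 : Real.exp (19 * a) ≤ Real.exp (100 * a) := Real.exp_le_exp.2 (by linarith)
    have h3 : Real.exp (19 * a) = Real.exp (18 * a) * Real.exp a := by
      rw [← Real.exp_add]; congr 1; ring
    have h4 : 2 ≤ Real.exp a := by
      have := Real.add_one_le_exp a
      linarith
    nlinarith [Real.exp_pos (18 * a)]
  calc E⁻¹ * (c ^ 4 * l ^ (2 * H)) + 2 * (t * M * (c ^ 2 * l ^ H))
      ≤ Real.exp (5 * a) * Real.exp (-(ε * H)) * l ^ (2 * H) +
        Real.exp (18 * a) * Real.exp (-(ε * H)) * l ^ (2 * H) := add_le_add hfirst hsecond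
    _ = (Real.exp (5 * a) + Real.exp (18 * a)) * (Real.exp (-(ε * H)) * l ^ (2 * H)) := by ring
    _ ≤ Real.exp (100 * a) * (Real.exp (-(ε * H)) * l ^ (2 * H)) :=
        mul_le_mul_of_nonneg_right hsum (by positivity)
    _ = _ := by ring

/-- the numbers: small heights -/
theorem crude_num {a c l : ℝ} {H K : ℕ} (ha : 1 ≤ a) (hl0 : 0 < l)
    (hc1 : 1 ≤ c) (hc : c ≤ Real.exp a) (hK3 : (K : ℝ) ≤ 61 * a ^ 2) (hH : H ≤ 2 * K) :
    c ^ 4 * l ^ (2 * H) ≤
      Real.exp (100 * a) * Real.exp (-(Real.exp (-(100 * a)) * H)) * l ^ (2 * H) := by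
  refine mul_le_mul_of_nonneg_right ?_ (by positivity)
  have hc4 : c ^ 4 ≤ Real.exp (4 * a) := by
    have := pow_le_pow_left₀ (by linarith) hc 4
    rwa [← Real.exp_nat_mul] at this
  rw [← Real.exp_add]
  refine hc4.trans (Real.exp_le_exp.2 ?_)
  have hsq := sq_le ha
  have h1 : Real.exp (-(100 * a)) * H ≤ 1 := by
    rw [Real.exp_neg, inv_mul_le_iff₀ (Real.exp_pos _)]
    have h2 : (H : ℝ) ≤ 2 * K := by exact_mod_cast hH
    have h3 : Real.exp (9 * a) ≤ Real.exp (100 * a) := Real.exp_le_exp.2 (by linarith)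
    nlinarith
  linarith

/-! ### Generating functions -/

theorem gfw_Cr (hMA : MA_Stmt) {x : ℝ≥0} {l : ℝ} (hU : Up x l) (H : ℕ) :
    gfw x (Cr H) ≤ ENNReal.ofReal ((chi x).toReal ^ 2 * l ^ H) := by
  have h1 : gfw x (Cr H) ≤ gfw x (Gn (H : ℤ)) :=
    MG.gw_mono fun w hw => ⟨hw.1, hw.2.1⟩
  have h2 := hMA.2.2 x l hU (H : ℤ)
  rw [Int.natAbs_natCast] at h2
  exact h1.trans h2

theorem gfp_CrCr (hMA : MA_Stmt) {x : ℝ≥0} {l : ℝ} (hU : Up x l) (H : ℕ) :
    gfp x (Cr H ×ˢ Cr H) ≤ ENNReal.ofReal ((chi x).toReal ^ 4 * l ^ (2 * H)) := by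
  have h1 : gfp x (Cr H ×ˢ Cr H) = gfw x (Cr H) * gfw x (Cr H) := MG.gp_prod _ _ _
  have h2 := gfw_Cr hMA hU H
  have hl := hU.l_pos
  rw [h1]
  calc gfw x (Cr H) * gfw x (Cr H)
      ≤ ENNReal.ofReal ((chi x).toReal ^ 2 * l ^ H) *
        ENNReal.ofReal ((chi x).toReal ^ 2 * l ^ H) := mul_le_mul' h2 h2
    _ = ENNReal.ofReal ((chi x).toReal ^ 4 * l ^ (2 * H)) := by
        rw [← ENNReal.ofReal_mul (by positivity)]
        congr 1
        rw [two_mul H, pow_add]
        ring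

/-- crossing words with large backtracks -/
def Bk (K J H : ℕ) : Set Wd := {w | w ∈ Cr H ∧ K * J ≤ 8 * RK K w H}

/-- pairs without cut at the grid levels and with many good levels -/
def Gg (K J H : ℕ) : Set (Wd × Wd) :=
  {p | p.1 ∈ Cr H ∧ p.2 ∈ Cr H ∧ cutset K J p = ∅ ∧ J ≤ 2 * (goodset K J p).card}

open Classical in
theorem NC_sub (hMF : FL.MGF_Stmt) {K J H : ℕ} (hK : 1 ≤ K) (hJ : (J + 1) * K ≤ H) :
    NC H ⊆ Gg K J H ∪ (Bk K J H ×ˢ Cr H ∪ Cr H ×ˢ Bk K J H) := by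
  rintro p ⟨h1, h2, h3⟩
  by_cases hg : J ≤ 2 * (goodset K J p).card
  · refine Or.inl ⟨h1, h2, ?_, hg⟩
    unfold cutset
    rw [Finset.filter_eq_empty_iff]
    intro j hj
    rw [Finset.mem_Icc] at hj
    refine h3 ((j : ℤ) * K) ?_ ?_
    · have : 0 < j * K := Nat.mul_pos (by omega) (by omega)
      exact_mod_cast this
    · have h4 : j * K ≤ J * K := Nat.mul_le_mul_right K hj.2
      have h5 : (J + 1) * K = J * K + K := by ring
      have h6 : j * K < H := by omega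
      exact_mod_cast h6
  · refine Or.inr ?_
    push Not at hg
    have hc : J ≤ (goodset K J p).card + (((Icc 1 J).filter (fun j => ¬ Good K p.1 j)).card +
        ((Icc 1 J).filter (fun j => ¬ Good K p.2 j)).card) := by
      have h4 : Icc 1 J ⊆ goodset K J p ∪ ((Icc 1 J).filter (fun j => ¬ Good K p.1 j) ∪
          (Icc 1 J).filter (fun j => ¬ Good K p.2 j)) := by
        intro j hj
        unfold goodset
        simp only [Finset.mem_union, Finset.mem_filter]
        by_cases h5 : Good K p.1 j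
        · by_cases h6 : Good K p.2 j
          · exact Or.inl ⟨hj, h5, h6⟩
          · exact Or.inr (Or.inr ⟨hj, h6⟩)
        · exact Or.inr (Or.inl ⟨hj, h5⟩)
      have h5 := Finset.card_le_card h4
      rw [Nat.card_Icc, Nat.add_sub_cancel] at h5
      refine h5.trans ((Finset.card_union_le _ _).trans ?_)
      exact Nat.add_le_add_left (Finset.card_union_le _ _) _
    have hb1 := hMF K J H hK hJ p.1 h1
    have hb2 := hMF K J H hK hJ p.2 h2
    set b1 := ((Icc 1 J).filter (fun j => ¬ Good K p.1 j)).card with hb1'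
    set b2 := ((Icc 1 J).filter (fun j => ¬ Good K p.2 j)).card with hb2'
    rcases Nat.lt_or_ge (4 * b1) J with h6 | h6
    · have h7 : J ≤ 4 * b2 := by omega
      refine Or.inr ⟨h1, h2, ?_⟩
      calc K * J ≤ K * (4 * b2) := Nat.mul_le_mul_left K h7
        _ = 4 * (K * b2) := by ring
        _ ≤ 4 * (2 * RK K p.2 H) := Nat.mul_le_mul_left 4 hb2
        _ = 8 * RK K p.2 H := by ring
    · refine Or.inl ⟨⟨h1, ?_⟩, h2⟩
      calc K * J ≤ K * (4 * b1) := Nat.mul_le_mul_left K h6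
        _ = 4 * (K * b1) := by ring
        _ ≤ 4 * (2 * RK K p.1 H) := Nat.mul_le_mul_left 4 hb1
        _ = 8 * RK K p.1 H := by ring

theorem gfw_Bk (hMD : MD_Stmt) {x : ℝ≥0} {l f t M : ℝ} (hU : Up x l) {K J H : ℕ} (hK : 1 ≤ K)
    (hf : 0 < f) (hl : l ≤ Real.exp (-(f / 4)))
    (ht : t = Real.exp (-(f / 4 * (K * J) / 8)))
    (hM : M = 2 * (chi x).toReal ^ 6 / (1 - l) *
      (1 + (chi x).toReal ^ 6 * l ^ K / (1 - l)) ^ (H + 1) * l ^ H) :
    gfw x (Bk K J H) ≤ ENNReal.ofReal (t * M) := by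
  have hl0 := hU.l_pos
  have ht0 : 0 < t := by rw [ht]; exact Real.exp_pos _
  have h1 : gfw x (Bk K J H) ≤ ∑' w : Cr H, ENNReal.ofReal t *
      ((x : ℝ≥0∞) ^ (w : Wd).length * ENNReal.ofReal ((l⁻¹) ^ (RK K w H))) := by
    refine MG.tsum_le_of_inj (fun w : Wd => (x : ℝ≥0∞) ^ w.length)
      (fun w : Wd => ENNReal.ofReal t *
        ((x : ℝ≥0∞) ^ w.length * ENNReal.ofReal ((l⁻¹) ^ (RK K w H)))) (fun w => w)
      (fun w hw => hw.1) (Set.injOn_id _) ?_
    intro w hw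
    have h2 : 1 ≤ (l⁻¹) ^ (RK K w H) * t := by
      have h3 : l ^ (RK K w H) ≤ t := by
        calc l ^ (RK K w H) ≤ Real.exp (-(f / 4)) ^ (RK K w H) :=
              pow_le_pow_left₀ hl0.le hl _
          _ = Real.exp ((RK K w H : ℕ) * -(f / 4)) := by rw [← Real.exp_nat_mul]
          _ ≤ t := by
              rw [ht]
              apply Real.exp_le_exp.2
              have h4 : (K : ℝ) * J ≤ 8 * (RK K w H : ℕ) := by exact_mod_cast hw.2
              nlinarith
      rw [inv_pow, ← div_eq_inv_mul, le_div_iff₀ (by positivity), one_mul]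
      exact h3
    have h5 : (1 : ℝ≥0∞) ≤ ENNReal.ofReal ((l⁻¹) ^ (RK K w H)) * ENNReal.ofReal t := by
      rw [← ENNReal.ofReal_mul (by positivity), ← ENNReal.ofReal_one]
      exact ENNReal.ofReal_le_ofReal h2
    calc (x : ℝ≥0∞) ^ w.length = (x : ℝ≥0∞) ^ w.length * 1 := (mul_one _).symm
      _ ≤ (x : ℝ≥0∞) ^ w.length *
          (ENNReal.ofReal ((l⁻¹) ^ (RK K w H)) * ENNReal.ofReal t) := mul_le_mul_right h5 _
      _ = ENNReal.ofReal t *
          ((x : ℝ≥0∞) ^ w.length * ENNReal.ofReal ((l⁻¹) ^ (RK K w H))) := by ring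
  refine h1.trans ?_
  rw [ENNReal.tsum_mul_left, ENNReal.ofReal_mul ht0.le]
  refine mul_le_mul_right ((hMD x l hU K H hK).trans ?_) _
  rw [hM]

theorem gfp_Gg (hMA : MA_Stmt) (hME : FL.MGE_Stmt) {x : ℝ≥0} {l a E : ℝ} (hU : Up x l)
    {K J H : ℕ} (hK : 1 ≤ K) (hJ : (J + 1) * K ≤ H) (ha : 0 ≤ a)
    (hc1 : 1 ≤ (chi x).toReal) (hc : (chi x).toReal ≤ Real.exp a)
    (hE : E = Real.exp (J * Real.exp (-(2 * a)) / 4)) :
    gfp x (Gg K J H) ≤ ENNReal.ofReal (E⁻¹ * ((chi x).toReal ^ 4 * l ^ (2 * H))) := by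
  classical
  have hE0 : 0 < E := by rw [hE]; exact Real.exp_pos _
  set c := (chi x).toReal with hcdef
  have hc0 : 0 < c := by linarith
  have hchi : chi x = ENNReal.ofReal c := (ENNReal.ofReal_toReal hU.chi_fin).symm
  set S := ((Icc 1 J).powerset).filter (fun g => J ≤ 2 * g.card) with hS
  -- the covering by the good sets
  have h1 : gfp x (Gg K J H) ≤ ∑ g ∈ S, gfp x {p | p.1 ∈ Cr H ∧ p.2 ∈ Cr H ∧
      goodset K J p = g ∧ cutset K J p = ∅} := by
    refine MG.gp_le_sum _ S (fun g => {p | p.1 ∈ Cr H ∧ p.2 ∈ Cr H ∧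
      goodset K J p = g ∧ cutset K J p = ∅}) _ ?_
    rintro p ⟨h2, h3, h4, h5⟩
    refine ⟨goodset K J p, ?_, h2, h3, rfl, h4⟩
    rw [hS, Finset.mem_filter, Finset.mem_powerset]
    exact ⟨Finset.filter_subset _ _, h5⟩
  -- the gain
  have h2 : ∀ g ∈ S, gfp x {p | p.1 ∈ Cr H ∧ p.2 ∈ Cr H ∧ goodset K J p = g ∧
      cutset K J p = ∅} ≤ ENNReal.ofReal E⁻¹ *
      gfp x {p | p.1 ∈ Cr H ∧ p.2 ∈ Cr H ∧ goodset K J p = g} := by
    intro g hg
    rw [hS, Finset.mem_filter, Finset.mem_powerset] at hg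
    have h3 := hME x hU.x_pos hU.chi_fin K J H hK hJ g hg.1
    have h4 : ENNReal.ofReal E ≤ (1 + ((chi x)⁻¹) ^ 2) ^ g.card := by
      rw [hchi, ← ENNReal.ofReal_inv_of_pos hc0, ← ENNReal.ofReal_pow (by positivity),
        ← ENNReal.ofReal_one, ← ENNReal.ofReal_add (by norm_num) (by positivity),
        ← ENNReal.ofReal_pow (by positivity)]
      apply ENNReal.ofReal_le_ofReal
      set u := Real.exp (-(2 * a)) with hu
      have hu0 : 0 < u := Real.exp_pos _
      have hu1 : u ≤ 1 := Real.exp_le_one_iff.2 (by linarith)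
      have h5 : u ≤ (c⁻¹) ^ 2 := by
        have h6 : Real.exp (-a) ≤ c⁻¹ := by
          rw [Real.exp_neg]
          exact inv_anti₀ hc0 hc
        calc u = Real.exp (-a) ^ 2 := by
              rw [hu, ← Real.exp_nat_mul]; congr 1; push_cast; ring
          _ ≤ (c⁻¹) ^ 2 := pow_le_pow_left₀ (Real.exp_pos _).le h6 2
      have h7 : Real.exp (u / 2) ≤ 1 + u := by
        have h8 : 1 - u / 2 ≤ Real.exp (-(u / 2)) := by
          have := Real.add_one_le_exp (-(u / 2))
          linarith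
        rw [Real.exp_neg] at h8
        have h9 : 0 < 1 - u / 2 := by linarith
        have h10 : Real.exp (u / 2) ≤ (1 - u / 2)⁻¹ := by
          rw [le_inv_comm₀ (Real.exp_pos _) h9]
          exact h8
        refine h10.trans ?_
        rw [inv_le_iff_one_le_mul₀ h9]
        nlinarith
      calc E ≤ Real.exp (u / 2) ^ g.card := by
            rw [hE, ← Real.exp_nat_mul]
            apply Real.exp_le_exp.2
            have h11 : (J : ℝ) ≤ 2 * g.card := by exact_mod_cast hg.2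
            nlinarith
        _ ≤ (1 + c⁻¹ ^ 2) ^ g.card := by
            apply pow_le_pow_left₀ (Real.exp_pos _).le
            linarith
    have h12 : ENNReal.ofReal E⁻¹ * ENNReal.ofReal E = 1 := by
      rw [← ENNReal.ofReal_mul (by positivity), inv_mul_cancel₀ hE0.ne', ENNReal.ofReal_one]
    calc gfp x {p | p.1 ∈ Cr H ∧ p.2 ∈ Cr H ∧ goodset K J p = g ∧ cutset K J p = ∅}
        = ENNReal.ofReal E⁻¹ * (ENNReal.ofReal E *
          gfp x {p | p.1 ∈ Cr H ∧ p.2 ∈ Cr H ∧ goodset K J p = g ∧ cutset K J p = ∅}) := by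
          rw [← mul_assoc, h12, one_mul]
      _ ≤ ENNReal.ofReal E⁻¹ * ((1 + ((chi x)⁻¹) ^ 2) ^ g.card *
          gfp x {p | p.1 ∈ Cr H ∧ p.2 ∈ Cr H ∧ goodset K J p = g ∧ cutset K J p = ∅}) := by
          gcongr
      _ ≤ _ := mul_le_mul_right h3 _
  have h3 : ∑ g ∈ S, gfp x {p | p.1 ∈ Cr H ∧ p.2 ∈ Cr H ∧ goodset K J p = g} ≤
      gfp x (Cr H ×ˢ Cr H) := by
    refine MG.sum_gp_le _ S (fun g => {p | p.1 ∈ Cr H ∧ p.2 ∈ Cr H ∧ goodset K J p = g}) _ ?_ ?_
    · intro g _ p hp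
      exact ⟨hp.1, hp.2.1⟩
    · intro g _ g' _ p hp hp'
      exact hp.2.2.symm.trans hp'.2.2
  calc gfp x (Gg K J H) ≤ ∑ g ∈ S, ENNReal.ofReal E⁻¹ *
        gfp x {p | p.1 ∈ Cr H ∧ p.2 ∈ Cr H ∧ goodset K J p = g} :=
        h1.trans (Finset.sum_le_sum h2)
    _ = ENNReal.ofReal E⁻¹ *
        ∑ g ∈ S, gfp x {p | p.1 ∈ Cr H ∧ p.2 ∈ Cr H ∧ goodset K J p = g} := by
        rw [Finset.mul_sum]
    _ ≤ ENNReal.ofReal E⁻¹ * ENNReal.ofReal (c ^ 4 * l ^ (2 * H)) :=
        mul_le_mul_right (h3.trans (gfp_CrCr hMA hU H)) _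
    _ = _ := by rw [← ENNReal.ofReal_mul (by positivity)]

end MGAPaux

open MGAPaux in
/-- **MGAP**: the mass gap with explicit constants. -/
theorem t_MGAP (hMA : MA_Stmt) (hMD : MD_Stmt) (hME : FL.MGE_Stmt) (hMF : FL.MGF_Stmt) :
    MGAP_Stmt := by
  intro A0 hA0
  refine ⟨100 * A0, by linarith, ?_⟩
  intro f l x hf hf1 _ hl hU hchi H
  set a := A0 / f with ha'
  have e100 : 100 * A0 / f = 100 * a := by rw [ha']; ring
  rw [e100]
  have haf : a * f = A0 := by rw [ha']; field_simp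
  have ha : 1 ≤ a := by
    rw [ha', le_div_iff₀ hf]; linarith
  have hfa : 1 ≤ f * a := by rw [mul_comm, haf]; exact hA0
  have hl0 := hU.l_pos
  have hl1 := hU.l_lt
  set c := (chi x).toReal with hcdef
  have hc : c ≤ Real.exp a :=
    ENNReal.toReal_le_of_le_ofReal (Real.exp_pos _).le hchi
  have hc1 : 1 ≤ c := by
    have h1 : (1 : ℝ≥0∞) ≤ chi x := MG.one_le_gw _ (by
      show (vt 0 ([] : Wd)).Nodup
      simp [vt])
    have h2 := ENNReal.toReal_mono hU.chi_fin h1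
    simpa using h2
  -- the width of the grid
  set K := ⌈60 * A0 / f ^ 2⌉₊ with hKdef
  have hf2 : 0 < f ^ 2 := by positivity
  have hK1 : 60 * A0 / f ^ 2 ≤ K := Nat.le_ceil _
  have hK2 : (K : ℝ) ≤ 60 * A0 / f ^ 2 + 1 :=
    (Nat.ceil_lt_add_one (by positivity)).le
  have hA2 : A0 / f ^ 2 ≤ a ^ 2 := by
    rw [div_le_iff₀ hf2]
    have : a ^ 2 * f ^ 2 = A0 ^ 2 := by rw [← mul_pow, haf]
    rw [this]
    nlinarith
  have hK3 : (K : ℝ) ≤ 61 * a ^ 2 := by
    have h1 : 60 * A0 / f ^ 2 = 60 * (A0 / f ^ 2) := by ring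
    have h2 : 1 ≤ a ^ 2 := by nlinarith
    linarith
  have hfK1 : 60 * a ≤ f * K := by
    have h1 : f * (60 * A0 / f ^ 2) = 60 * a := by rw [ha']; field_simp
    rw [← h1]
    exact mul_le_mul_of_nonneg_left hK1 hf.le
  have hfK2 : f * K ≤ 61 * a := by
    have h1 : f * (60 * A0 / f ^ 2 + 1) = 60 * a + f := by rw [ha']; field_simp
    have h2 := mul_le_mul_of_nonneg_left hK2 hf.le
    rw [h1] at h2
    linarith
  have hKpos : 0 < K := by
    rw [hKdef, Nat.ceil_pos]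
    positivity
  by_cases hH : H ≤ 2 * K
  · have h1 : gfp x (NC H) ≤ gfp x (Cr H ×ˢ Cr H) := MG.gp_mono fun p hp => ⟨hp.1, hp.2.1⟩
    refine h1.trans ((gfp_CrCr hMA hU H).trans (ENNReal.ofReal_le_ofReal ?_))
    exact crude_num ha hl0 hc1 hc hK3 hH
  · push Not at hH
    set J := H / K - 1 with hJdef
    have hdiv : 2 ≤ H / K := (Nat.le_div_iff_mul_le hKpos).2 hH.le
    have hJ1 : J + 1 = H / K := by omega
    have hJK : (J + 1) * K ≤ H := by rw [hJ1]; exact Nat.div_mul_le_self H K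
    have hJ2 : (H : ℝ) ≤ ((J : ℝ) + 2) * K := by
      have h1 : H < (H / K + 1) * K := by
        rw [mul_comm]
        exact Nat.lt_mul_div_succ H hKpos
      have h2 : H ≤ (J + 2) * K := by
        have : J + 2 = H / K + 1 := by omega
        rw [this]; exact h1.le
      exact_mod_cast h2
    set t := Real.exp (-(f / 4 * (K * J) / 8)) with ht
    set E := Real.exp (J * Real.exp (-(2 * a)) / 4) with hE
    set M := 2 * c ^ 6 / (1 - l) * (1 + c ^ 6 * l ^ K / (1 - l)) ^ (H + 1) * l ^ H with hM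
    have hM0 : 0 ≤ M := by
      have : 0 < 1 - l := by linarith
      positivity
    have hG := gfp_Gg hMA hME hU (J := J) (H := H) hKpos hJK (by linarith) hc1 hc hE
    have hB := gfw_Bk hMD hU (J := J) (H := H) hKpos hf hl ht hM
    have hCr := gfw_Cr hMA hU H
    have h1 : gfp x (NC H) ≤ gfp x (Gg K J H) +
        (gfp x (Bk K J H ×ˢ Cr H) + gfp x (Cr H ×ˢ Bk K J H)) := by
      refine (MG.gp_mono (NC_sub hMF hKpos hJK)).trans ((MG.gp_union _ _ _).trans ?_)
      exact add_le_add_right (MG.gp_union _ _ _) _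
    have h2 : gfp x (Bk K J H ×ˢ Cr H) ≤ ENNReal.ofReal (t * M * (c ^ 2 * l ^ H)) := by
      have e1 : gfp x (Bk K J H ×ˢ Cr H) = gfw x (Bk K J H) * gfw x (Cr H) := MG.gp_prod _ _ _
      rw [e1, ENNReal.ofReal_mul (by positivity)]
      exact mul_le_mul' hB hCr
    have h3 : gfp x (Cr H ×ˢ Bk K J H) ≤ ENNReal.ofReal (t * M * (c ^ 2 * l ^ H)) := by
      have e1 : gfp x (Cr H ×ˢ Bk K J H) = gfw x (Cr H) * gfw x (Bk K J H) := MG.gp_prod _ _ _
      rw [e1, ENNReal.ofReal_mul (by positivity), mul_comm]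
      exact mul_le_mul' hB hCr
    refine h1.trans ((add_le_add hG (add_le_add h2 h3)).trans ?_)
    rw [← ENNReal.ofReal_add (by positivity) (by positivity),
      ← ENNReal.ofReal_add (by positivity) (by positivity)]
    apply ENNReal.ofReal_le_ofReal
    have h4 := final_num (H := H) (K := K) (J := J) ha hf hf1 hfa hl0 hl hc1 hc hfK1 hfK2 hK3
      hKpos hJ2 le_rfl hE hM
    rw [← ht] at h4
    linarith

end Pool.Agent.EXW
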