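import Pool.Agent.EXW.Stmts2

/-!
# Project EXW, version 2: the sequence of models, the critical solutions being given
-/

set_option autoImplicit false

namespace Pool.Agent.EXW

open Finset Pool.Agent.Lib27 Pool.Agent.SapR Pool.Agent.Gap Pool.Agent.FL Filter Topology
  Pool.Agent.AreaLaw MeasureTheory
open scoped NNReal ENNReal

theorem t_MOD2 (hNEAR : QNEAR_Stmt) : MOD2_Stmt := by
  obtain ⟨Kn, hN⟩ := hNEAR
  refine ⟨Kn, fun M D f N0 hN0 hM hMD1 hf hκ d V hV' => ?_⟩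
  have hM0 : ∀ n, 0 < M n := fun n => by linarith [hM n]
  have hθ0 : ∀ n, 0 < 1 - (M n)⁻¹ := fun n => by
    have : (M n)⁻¹ ≤ 1 / 2 := by
      rw [← one_div]
      exact one_div_le_one_div_of_le (by norm_num) (hM n)
    linarith
  have hs : ∀ n, 0 < Real.exp (-f n) := fun n => Real.exp_pos _
  have hs1 : ∀ n, Real.exp (-f n) ≤ 1 := fun n => by
    rw [Real.exp_le_one_iff]
    linarith [hf n]
  refine ⟨{
    G := fun n => (d n).G
    C0 := fun n => 2 * mx N0 n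
    s := fun n => capW (mx N0 n) (Real.exp (-f n))
    t := fun n => capW (mx N0 n) (Real.exp (-f n))
    Vs := V
    Vt := V
    cls := fun n => cls_mono (hM n) (hMD1 n) (d n).cls
    cap_s := fun n => clsCap_mono (hM n) (hMD1 n) (d n).cap
    cap_t := fun n => clsCap_mono (hM n) (hMD1 n) (d n).cap
    crit_s := hV'
    crit_t := hV'
    B := fun n => (d n).B
    sol := fun n => (d n).sol
    Omega := fun n => Omg (mx N0 n)
    fin := fun n => inferInstance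
    good := fun n => goodO (mx N0 n)
    wt := fun n => wtO (mx N0 n) (Real.exp (-f n))
    T := fun n x => (TZ (mx N0 n) x : ℝ)
    A := fun n => AO (mx N0 n)
    wt_nonneg := fun n x => wtO_nonneg _ _ (hs _) x
    T_nonneg := fun n x => TZ_nonneg _ x
    c := fun _ => 1
    c_pos := fun _ => one_pos
    κ := fun n => kap0 (M n ^ Kn) (M n) (1 - (M n)⁻¹) n
    κ_lim := hκ
    n1 := N0
    count := ?_
    near := ?_
    bad := ?_ }, ?_⟩
  · intro n hn
    have h1 := (d n).count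
    rw [Polynomial.C_1, one_mul]
    have h2 : closeP (2 * mx N0 n) (capW (mx N0 n) (Real.exp (-f n))) (d n).B (mx N0 n) =
        closeP (2 * mx N0 n) (capW (mx N0 n) (Real.exp (-f n))) (d n).B n :=
      congrArg (closeP (2 * mx N0 n) (capW (mx N0 n) (Real.exp (-f n))) (d n).B) (mx_eq N0 n hn)
    rw [← h2, ← h1]
    exact sum_goodO (mx N0 n) (fun q => Polynomial.C (wtq (mx N0 n) (Real.exp (-f n)) q) *
      (Polynomial.X : Polynomial ℝ) ^ (M41.Ar (2 * mx N0 n - 1) q.2.2.2)) _ (fun q => rfl)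
  · intro n hn
    have h1 := near_bound (hM0 n) (hθ0 n) (show 0 < M n ^ Kn from pow_pos (hM0 n) _)
      (hN (M n) (hM n)) (mx N0 n) n (mx_eq N0 n hn) (hN0.trans hn) _ (hs _) (hs1 _)
      (d n)
    have e1 : ∑ x ∈ goodO (mx N0 n), wtO (mx N0 n) (Real.exp (-f n)) x *
        |(TZ (mx N0 n) x : ℝ) - AO (mx N0 n) x| =
        ∑ q ∈ M41.Om (2 * mx N0 n - 1) (mx N0 n), wtq (mx N0 n) (Real.exp (-f n)) q *
        |(|((dbl 0 q.2.2.2 + dbl 0 q.2.2.1 : ℤ) : ℝ)| -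
          (M41.Ar (2 * mx N0 n - 1) q.2.2.2 : ℝ))| := by
      refine sum_goodO (mx N0 n) (fun q => wtq (mx N0 n) (Real.exp (-f n)) q *
        |(|((dbl 0 q.2.2.2 + dbl 0 q.2.2.1 : ℤ) : ℝ)| -
          (M41.Ar (2 * mx N0 n - 1) q.2.2.2 : ℝ))|) _ (fun q => ?_)
      simp only [wtO, TZ, AO, Sum.elim_inl, Int.cast_abs]
    have e2 : ∑ x ∈ goodO (mx N0 n), wtO (mx N0 n) (Real.exp (-f n)) x =
        ∑ q ∈ M41.Om (2 * mx N0 n - 1) (mx N0 n), wtq (mx N0 n) (Real.exp (-f n)) q :=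
      sum_goodO (mx N0 n) (fun q => wtq (mx N0 n) (Real.exp (-f n)) q) _ (fun q => rfl)
    rw [e1, e2]
    exact h1
  · intro n hn
    have h1 := bad_bound (hM0 n) (hθ0 n) (show 0 < M n ^ Kn from pow_pos (hM0 n) _)
      (mx N0 n) n (mx_eq N0 n hn) (hN0.trans hn) _ (hs _) (d n)
    refine le_trans (le_of_eq ?_) h1
    have e1 : ∑ x : Omg (mx N0 n), wtO (mx N0 n) (Real.exp (-f n)) x *
          (1 + (TZ (mx N0 n) x : ℝ)) =
        ∑ q ∈ M41.Om (2 * mx N0 n - 1) (mx N0 n), wtq (mx N0 n) (Real.exp (-f n)) q *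
          (1 + |((dbl 0 q.2.2.2 + dbl 0 q.2.2.1 : ℤ) : ℝ)|) +
        ∑ w ∈ NoCut (mx N0 n), 1 / (4 * ((mx N0 n : ℕ) : ℝ)) *
          (Real.exp (-f n)) ^ (mx N0 n - spn w) * (1 + |((dbl 0 w : ℤ) : ℝ)|) := by
      refine sum_Omg (mx N0 n) _ _ _ (fun q => ?_) (fun w => ?_)
      · simp only [wtO, TZ, Sum.elim_inl, Int.cast_abs]
      · simp only [wtO, TZ, Sum.elim_inr, Int.cast_abs]
    have e2 : ∑ x ∈ goodO (mx N0 n), wtO (mx N0 n) (Real.exp (-f n)) x *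
          (1 + (TZ (mx N0 n) x : ℝ)) =
        ∑ q ∈ M41.Om (2 * mx N0 n - 1) (mx N0 n), wtq (mx N0 n) (Real.exp (-f n)) q *
          (1 + |((dbl 0 q.2.2.2 + dbl 0 q.2.2.1 : ℤ) : ℝ)|) := by
      refine sum_goodO (mx N0 n) (fun q => wtq (mx N0 n) (Real.exp (-f n)) q *
          (1 + |((dbl 0 q.2.2.2 + dbl 0 q.2.2.1 : ℤ) : ℝ)|)) _ (fun q => ?_)
      simp only [wtO, TZ, Sum.elim_inl, Int.cast_abs]
    rw [e1, e2]
    ring
  · intro n x
    rfl

end Pool.Agent.EXW
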