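import Mathlib
import Pool.Agent.EXW.StmtsA

/-!
# Module QSIDE: limits of the normalised Laplace transforms
-/

set_option autoImplicit false

open Finset Filter Topology

namespace Pool.Agent.EXW

open Pool.Agent.Gap Pool.Agent.FL

namespace QSIDE

/-! ### Lipschitz bounds -/

theorem poly_lip (P : Polynomial ℝ) (hP : ∀ k, 0 ≤ P.coeff k) {a b : ℝ} (ha : 0 ≤ a)
    (hb : 0 ≤ b) :
    |P.eval (Real.exp (-a)) - P.eval (Real.exp (-b))| ≤ |a - b| * P.derivative.eval 1 := by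
  have e0 := P.as_sum_range
  have h1 : ∀ x : ℝ, P.eval (Real.exp (-x)) =
      ∑ k ∈ range (P.natDegree + 1), P.coeff k * Real.exp (-(x * k)) := by
    intro x
    rw [Polynomial.eval_eq_sum_range]
    refine Finset.sum_congr rfl fun k _ => ?_
    rw [← Real.exp_nat_mul]
    congr 2
    ring
  have h3 : P.derivative.eval 1 = ∑ k ∈ range (P.natDegree + 1), P.coeff k * k := by
    conv_lhs => rw [e0]
    rw [Polynomial.derivative_sum, Polynomial.eval_finsetSum]
    refine Finset.sum_congr rfl fun k _ => ?_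
    rw [Polynomial.derivative_monomial, Polynomial.eval_monomial]
    simp
  rw [h1 a, h1 b, h3, ← Finset.sum_sub_distrib, Finset.mul_sum]
  refine (Finset.abs_sum_le_sum_abs _ _).trans (Finset.sum_le_sum fun k _ => ?_)
  rw [← mul_sub, abs_mul, abs_of_nonneg (hP k)]
  have h4 := exp_lip (x := a * k) (y := b * k) (by positivity) (by positivity)
  have h5 : |a * k - b * k| = |a - b| * k := by
    rw [← sub_mul, abs_mul, abs_of_nonneg (Nat.cast_nonneg k : (0 : ℝ) ≤ k)]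
  rw [h5] at h4
  calc P.coeff k * |Real.exp (-(a * k)) - Real.exp (-(b * k))|
      ≤ P.coeff k * (|a - b| * k) := mul_le_mul_of_nonneg_left h4 (hP k)
    _ = |a - b| * (P.coeff k * k) := by ring

theorem lap_lip {P : ℕ → Polynomial ℝ} {n : ℕ} (hn : 1 ≤ n) (hP : ∀ k, 0 ≤ (P n).coeff k)
    (h1 : 0 < (P n).eval 1) {x y : ℝ} (hx : 0 ≤ x) (hy : 0 ≤ y) :
    |lap P n x - lap P n y| ≤ |x - y| * mn P n := by
  have hn0 : (0 : ℝ) < n := by exact_mod_cast hn
  have hr : 0 < (n : ℝ) * Real.sqrt n := mul_pos hn0 (Real.sqrt_pos.2 hn0)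
  have h2 := poly_lip (P n) hP (epsn_nonneg35 hx n) (epsn_nonneg35 hy n)
  unfold lap mn
  rw [← sub_div, abs_div, abs_of_pos h1, div_le_iff₀ h1]
  refine h2.trans (le_of_eq ?_)
  unfold epsn
  obtain ⟨r, hr'⟩ : ∃ r, r = (n : ℝ) * Real.sqrt n := ⟨_, rfl⟩
  rw [← hr'] at hr ⊢
  rw [← sub_div, abs_div, abs_of_pos hr]
  field_simp

/-! ### the staircase polygons -/

/-- the area polynomials of the staircase polygons -/
noncomputable def P0 (n : ℕ) : Polynomial ℝ := closeP 1 cap1 B0 n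

theorem coeff0 (n k : ℕ) : 0 ≤ (P0 n).coeff k :=
  closeP_coeff_nonneg isCap_cap1_35.nonneg isCap_cap1_35.nonneg B0_isSol n k

theorem stair_mean (hM2 : M2_Stmt) (hBAL : BAL_Stmt) {L : ℝ → ℝ} {m0 C' : ℝ} (hL0 : 0 < L 0)
    (hL : ∀ lam : ℝ, 0 ≤ lam → Tendsto (fun n : ℕ => ((n : ℝ) * Real.sqrt n) * (1 / 4 : ℝ) ^ n
        * (closeP 1 cap1 B0 n).eval (Real.exp (-(epsn lam n)))) atTop (𝓝 (L lam)))
    (hexp : ∀ lam : ℝ, 0 ≤ lam → |L lam / L 0 - 1 + lam * m0| ≤ C' * lam ^ 2) :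
    (∀ᶠ n : ℕ in atTop, 0 < (P0 n).eval 1) ∧ Tendsto (mn P0) atTop (𝓝 m0) ∧
      ∀ lam : ℝ, 0 ≤ lam → Tendsto (fun n => lap P0 n lam) atTop (𝓝 (L lam / L 0)) := by
  obtain ⟨c, hc, hBAL'⟩ := hBAL B0 B0_isSol
  obtain ⟨C2, hC2⟩ := hM2 stair 1 cap1 cap1 isCap_cap1_35 isCap_cap1_35 B0 B0_isSol
  have hrho : stair.rho = 1 / 4 := rfl
  rw [hrho] at hC2
  have hL0' := hL 0 le_rfl
  simp only [epsn_zero, neg_zero, Real.exp_zero] at hL0'
  have hlow : ∀ᶠ n : ℕ in atTop, c ≤ ((n : ℝ) * Real.sqrt n) * (1 / 4 : ℝ) ^ n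
      * (P0 n).eval 1 := by
    filter_upwards [eventually_ge_atTop 3] with n hn using (hBAL' n hn).1
  have hC2' : ∀ n : ℕ, (1 / 4 : ℝ) ^ n * ((P0 n).derivative.derivative.eval 1
      + (P0 n).derivative.eval 1) ≤ |C2| * ((n : ℝ) * Real.sqrt n) := by
    intro n
    refine (hC2 n).trans (mul_le_mul_of_nonneg_right (le_abs_self _) (by positivity))
  have hsm := second_moment coeff0 (by norm_num : (0 : ℝ) < 1 / 4) hc (abs_nonneg C2) hlow hC2'
  have hlap : ∀ lam : ℝ, 0 ≤ lam →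
      Tendsto (fun n => lap P0 n lam) atTop (𝓝 (L lam / L 0)) := by
    intro lam hlam
    have h1 := (hL lam hlam).div hL0' hL0.ne'
    refine h1.congr' ?_
    filter_upwards [eventually_ge_atTop 1] with n hn
    have hn0 : (0 : ℝ) < n := by exact_mod_cast hn
    have hs : 0 < Real.sqrt n := Real.sqrt_pos.2 hn0
    unfold lap P0
    rw [Pi.div_apply, mul_div_mul_left]
    positivity
  obtain ⟨m', hm', hexp'⟩ := mean_lemma (by positivity) hsm hlap
  have hb : m' = 1 * m0 := mean_unique (phi := fun lam => L lam / L 0) one_pos hexp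
    (by simpa only [one_mul] using hexp')
  rw [one_mul] at hb
  rw [hb] at hm'
  refine ⟨?_, hm', hlap⟩
  filter_upwards [hlow] with n hn
  by_contra hcon
  have : ((n : ℝ) * Real.sqrt n) * (1 / 4 : ℝ) ^ n * (P0 n).eval 1 ≤ 0 :=
    mul_nonpos_of_nonneg_of_nonpos (by positivity) (not_lt.1 hcon)
  linarith

/-! ### slowly growing parameters -/

/-- the root `n ^ (1/m)` -/
noncomputable def U (m n : ℕ) : ℝ := (n : ℝ) ^ ((m : ℝ)⁻¹)

theorem U_pow {m : ℕ} (hm : m ≠ 0) (n : ℕ) : U m n ^ m = n :=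
  Real.rpow_inv_natCast_pow (Nat.cast_nonneg n) hm

theorem U_nonneg (m n : ℕ) : 0 ≤ U m n := Real.rpow_nonneg (Nat.cast_nonneg n) _

theorem U_tendsto {m : ℕ} (hm : m ≠ 0) : Tendsto (U m) atTop atTop := by
  have h : (0 : ℝ) < (m : ℝ)⁻¹ := by
    have : (0 : ℝ) < m := by exact_mod_cast Nat.pos_of_ne_zero hm
    positivity
  exact (tendsto_rpow_atTop h).comp tendsto_natCast_atTop_atTop

theorem slow_U {D : ℕ → ℝ} (hD : Slow D) {m : ℕ} (hm : m ≠ 0) (K : ℕ) :
    Tendsto (fun n : ℕ => D n ^ K / U m n) atTop (𝓝 0) := by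
  have hm0 : (0 : ℝ) < m := by exact_mod_cast Nat.pos_of_ne_zero hm
  have h1 := (hD.lim (K * m)).rpow_const (p := (m : ℝ)⁻¹) (Or.inr (by positivity))
  rw [Real.zero_rpow (by positivity)] at h1
  refine h1.congr fun n => ?_
  have hDn : 0 ≤ D n := by linarith [hD.two_le n]
  have h2 : D n ^ (K * m) / (n : ℝ) = (D n ^ K / U m n) ^ m := by
    rw [div_pow, U_pow hm, pow_mul]
  rw [h2]
  exact Real.pow_rpow_inv_natCast (div_nonneg (by positivity) (U_nonneg m n)) hm

theorem sqrt_U {m : ℕ} (hm : m ≠ 0) (n : ℕ) : qn n = U (4 * m) n ^ m := by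
  have h0 := U_nonneg (4 * m) n
  have h1 : (n : ℝ) = ((U (4 * m) n ^ m) ^ 2) ^ 2 := by
    rw [← pow_mul, ← pow_mul]
    have : m * (2 * 2) = 4 * m := by ring
    rw [this, U_pow (by omega)]
  unfold qn
  rw [h1, Real.sqrt_sq (by positivity), Real.sqrt_sq (by positivity)]

theorem sc0_mono {K K' : ℕ} (h : K ≤ K') {D W : ℝ} {G : GapKernel} {n n0 : ℕ}
    (hS : Sc0 K' D W G n n0) : Sc0 K D W G n n0 := by
  refine ⟨hS.D2, hS.W2, hS.cls, le_trans (pow_le_pow_right₀ ?_ h) hS.big, hS.near⟩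
  nlinarith [hS.D2, hS.W2]

end QSIDE

open QSIDE in
theorem t_QSIDE (hQ : QRAT_Stmt) (hP : QPAR_Stmt) (hBAL : BAL_Stmt) (hM2 : M2_Stmt) :
    QSIDE_Stmt := by
  intro L m0 C' hL0 hm0 hL hexp D hD M
  obtain ⟨hpos0, hmean0, hlap0⟩ := stair_mean hM2 hBAL hL0 hL hexp
  obtain ⟨K0, K1, hQ⟩ := hQ
  obtain ⟨K0', K1', hP⟩ := hP
  obtain ⟨Kp, hpar⟩ := par_bounds
  have hD1 : ∀ n, 1 ≤ D n := fun n => by linarith [hD.two_le n]
  have hDp : ∀ n, 0 < D n := fun n => by linarith [hD.two_le n]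
  -- the scales
  obtain ⟨J, hJ⟩ : ∃ J, J = K0 + K0' := ⟨_, rfl⟩
  obtain ⟨m, hm⟩ : ∃ m, m = 4 * (J + K1) + 2 := ⟨_, rfl⟩
  have hm0' : m ≠ 0 := by omega
  have h4m : 4 * m ≠ 0 := by omega
  obtain ⟨u, hu⟩ : ∃ u : ℕ → ℝ, u = U (4 * m) := ⟨_, rfl⟩
  have hu0 : ∀ n, 0 ≤ u n := fun n => by rw [hu]; exact U_nonneg _ _
  have hun : ∀ n, u n ^ (4 * m) = n := fun n => by rw [hu]; exact U_pow h4m n
  have huq : ∀ n, qn n = u n ^ m := fun n => by rw [hu]; exact sqrt_U hm0' n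
  have hut : Tendsto u atTop atTop := by rw [hu]; exact U_tendsto h4m
  have hslow : ∀ K : ℕ, Tendsto (fun n : ℕ => D n ^ K / u n) atTop (𝓝 0) := by
    rw [hu]; exact slow_U hD h4m
  obtain ⟨W, hW⟩ : ∃ W : ℕ → ℝ, W = fun n => u n ^ 4 := ⟨_, rfl⟩
  have hWt : Tendsto W atTop atTop := by
    rw [hW]; exact (tendsto_pow_atTop (by norm_num)).comp hut
  have hsW : ∀ n, Real.sqrt (W n) = u n ^ 2 := by
    intro n
    rw [hW]
    have : u n ^ 4 = (u n ^ 2) ^ 2 := by ring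
    simp only [this]
    exact Real.sqrt_sq (by positivity)
  obtain ⟨n0, hn0⟩ : ∃ n0 : ℕ → ℕ, n0 = fun n => ⌊2 * (M.G n).sig2 * n / (M.G n).mbar⌋₊ :=
    ⟨_, rfl⟩
  have hDU : ∀ K : ℕ, ∀ᶠ n : ℕ in atTop, D n ^ K ≤ u n := by
    intro K
    filter_upwards [(hslow K).eventually (ge_mem_nhds one_pos), hut.eventually_ge_atTop 1]
      with n h1 h2
    have h3 : 0 < u n := by linarith
    rwa [div_le_one h3] at h1
  have hSc : ∀ᶠ n : ℕ in atTop, Sc0 J (D n) (W n) (M.G n) n (n0 n) := by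
    filter_upwards [hWt.eventually_ge_atTop 2, hDU J, hut.eventually_ge_atTop 1]
      with n h1 h2 h3
    refine ⟨hD.two_le n, h1, M.cls n, ?_, ?_⟩
    · have e : (D n * W n) ^ J = D n ^ J * u n ^ (4 * J) := by
        rw [hW, mul_pow, ← pow_mul]
      rw [e, ← hun n]
      calc D n ^ J * u n ^ (4 * J) ≤ u n * u n ^ (4 * J) :=
            mul_le_mul_of_nonneg_right h2 (by have := hu0 n; positivity)
        _ = u n ^ (4 * J + 1) := by ring
        _ ≤ u n ^ (4 * m) := pow_le_pow_right₀ h3 (by omega)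
    · obtain ⟨p1, -, -, -, p5, -⟩ := hpar (D n) (hD.two_le n) (M.G n) (M.cls n)
      have hmb : 0 < (M.G n).mbar := by linarith
      have hsg : 0 < (M.G n).sig2 := lt_of_lt_of_le (inv_pos.2 (hDp n)) p5
      obtain ⟨x, hx⟩ : ∃ x, x = 2 * (M.G n).sig2 * n / (M.G n).mbar := ⟨_, rfl⟩
      have hx0 : 0 ≤ x := by rw [hx]; positivity
      have e : (n0 n : ℝ) * (M.G n).mbar - 2 * (M.G n).sig2 * n =
          ((n0 n : ℝ) - x) * (M.G n).mbar := by
        rw [hx]; field_simp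
      have hfl : n0 n = ⌊x⌋₊ := by rw [hn0, hx]
      rw [e, abs_mul, abs_of_pos hmb]
      refine mul_le_of_le_one_left hmb.le ?_
      rw [hfl, abs_le]
      constructor
      · have := Nat.lt_floor_add_one x
        linarith
      · have := Nat.floor_le hx0
        linarith
  -- the scales are comparable
  have hcmp : ∀ᶠ n : ℕ in atTop, 1 ≤ n ∧ 1 ≤ n0 n ∧ W n ≤ n0 n ∧
      (n : ℝ) ≤ D n ^ K1' * n0 n := by
    filter_upwards [hSc] with n hS
    have hS' := sc0_mono (K := K0') (by omega) hS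
    have h1 := (hP (D n) (W n) (M.G n) n (n0 n) 0 0 ⟨hS', le_rfl, by
      rw [zero_mul]; linarith [hS'.W2], by rw [mul_zero, mul_zero]⟩).1
    exact ⟨h1.1, h1.2.1, h1.2.2.2.1, h1.2.2.2.2.1⟩
  have hn0t : Tendsto n0 atTop atTop := by
    have h1 : Tendsto (fun n => (n0 n : ℝ)) atTop atTop := by
      refine tendsto_atTop_mono' atTop ?_ hWt
      filter_upwards [hcmp] with n hn using hn.2.2.1
    exact tendsto_natCast_atTop_iff.1 h1
  -- the errors
  have hK0W : ∀ᶠ n : ℕ in atTop, D n ^ K0 ≤ W n := by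
    filter_upwards [hDU K0, hut.eventually_ge_atTop 1] with n h1 h2
    rw [hW]
    exact h1.trans (le_self_pow₀ h2 (by norm_num))
  obtain ⟨err, herr⟩ : ∃ err : ℕ → ℝ, err = fun n =>
    (D n * W n) ^ K1 / qn n + D n ^ K1 / Real.sqrt (W n) := ⟨_, rfl⟩
  have herr0 : ∀ n, 0 ≤ err n := by
    intro n
    rw [herr]
    have h1 := hDp n
    have h2 : 0 ≤ W n := by rw [hW]; have := hu0 n; positivity
    have h3 : 0 ≤ qn n := by rw [huq]; have := hu0 n; positivity
    positivity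
  have herr1 : ∀ᶠ n : ℕ in atTop, err n ≤ 2 * (D n ^ K1 / u n ^ 2) := by
    filter_upwards [hut.eventually_ge_atTop 1] with n h3
    have hu' : 0 < u n := by linarith
    rw [herr]
    simp only [huq, hsW]
    have e : (D n * W n) ^ K1 / u n ^ m ≤ D n ^ K1 / u n ^ 2 := by
      rw [hW, mul_pow, ← pow_mul, div_le_div_iff₀ (by positivity) (by positivity)]
      have h5 : u n ^ (4 * K1) * u n ^ 2 ≤ u n ^ m := by
        rw [← pow_add]; exact pow_le_pow_right₀ h3 (by omega)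
      calc D n ^ K1 * u n ^ (4 * K1) * u n ^ 2 = D n ^ K1 * (u n ^ (4 * K1) * u n ^ 2) := by ring
        _ ≤ D n ^ K1 * u n ^ m := mul_le_mul_of_nonneg_left h5 (by have := hDp n; positivity)
    linarith
  have herr2 : Tendsto err atTop (𝓝 0) := by
    have h1 := (hslow K1).const_mul 2
    rw [mul_zero] at h1
    refine squeeze_zero' (Eventually.of_forall herr0) ?_ h1
    filter_upwards [herr1, hut.eventually_ge_atTop 1] with n h2 h3
    refine h2.trans ?_
    have hu' : 0 < u n := by linarith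
    have h4 : D n ^ K1 / u n ^ 2 ≤ D n ^ K1 / u n :=
      div_le_div_of_nonneg_left (by have := hDp n; positivity) hu'
        (le_self_pow₀ h3 (by norm_num))
    linarith
  have hrat : ∀ᶠ n : ℕ in atTop,
      (D n ^ K1)⁻¹ ≤ ((n : ℝ) * Real.sqrt n) * (M.G n).rho ^ n * (M.P n).eval 1 ∧
      (∀ eps eps' : ℝ, 0 ≤ eps' → eps' * ((n0 n : ℝ) * Real.sqrt (n0 n)) ≤ W n →
        (M.G n).hbar * eps = 2 * (M.G n).sig2 * eps' →
        |(M.P n).eval (Real.exp (-eps)) / (M.P n).eval 1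
          - (P0 (n0 n)).eval (Real.exp (-eps')) / (P0 (n0 n)).eval 1|
          ≤ (D n * W n) ^ K1 / qn n + D n ^ K1 / Real.sqrt (W n)) ∧
      ∀ l : ℝ, 0 < l → l ≤ 1 →
        |2 * (M.G n).sig2 / ((M.G n).hbar * ((n0 n : ℝ) * Real.sqrt (n0 n))) *
            ((M.P n).derivative.eval 1 / (M.P n).eval 1)
          - (P0 (n0 n)).derivative.eval 1 /
            (((n0 n : ℝ) * Real.sqrt (n0 n)) * (P0 (n0 n)).eval 1)|
          ≤ ((D n * W n) ^ K1 / qn n + D n ^ K1 / Real.sqrt (W n)) / l + D n ^ K1 * l := by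
    filter_upwards [hSc, hK0W] with n hS hKW
    exact hQ (D n) (hD.two_le n) (M.G n) (M.cls n) (M.C0 n) (M.s n) (M.t n) (M.Vs n) (M.Vt n)
      (M.B n) (M.cap_s n) (M.cap_t n) (M.crit_s n) (M.crit_t n) (M.sol n) (W n) n (n0 n)
      (sc0_mono (by omega) hS) hKW
  -- the scaled mean
  obtain ⟨T, hT⟩ : ∃ T : ℕ → ℝ, T = fun n => 2 * (M.G n).sig2 /
      ((M.G n).hbar * ((n0 n : ℝ) * Real.sqrt (n0 n))) *
        ((M.P n).derivative.eval 1 / (M.P n).eval 1) := ⟨_, rfl⟩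
  have hTm : Tendsto T atTop (𝓝 m0) := by
    have h1 : Tendsto (fun n => mn P0 (n0 n)) atTop (𝓝 m0) := hmean0.comp hn0t
    have h2 : Tendsto (fun n => T n - mn P0 (n0 n)) atTop (𝓝 0) := by
      have h3 := (hslow K1).const_mul 3
      rw [mul_zero] at h3
      refine squeeze_zero_norm' ?_ h3
      filter_upwards [hrat, herr1, hut.eventually_ge_atTop 1] with n h4 h5 h6
      have hu' : 0 < u n := by linarith
      have h7 := h4.2.2 (u n)⁻¹ (inv_pos.2 hu') (inv_le_one_of_one_le₀ h6)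
      rw [Real.norm_eq_abs, hT]
      unfold mn P0
      refine h7.trans ?_
      have h8 : ((D n * W n) ^ K1 / qn n + D n ^ K1 / Real.sqrt (W n)) ≤
          2 * (D n ^ K1 / u n ^ 2) := by
        rw [herr] at h5; exact h5
      have h9 : ((D n * W n) ^ K1 / qn n + D n ^ K1 / Real.sqrt (W n)) / (u n)⁻¹ ≤
          2 * (D n ^ K1 / u n) := by
        rw [div_inv_eq_mul]
        refine (mul_le_mul_of_nonneg_right h8 hu'.le).trans (le_of_eq ?_)
        field_simp
      have h10 : D n ^ K1 * (u n)⁻¹ = D n ^ K1 / u n := by rw [div_eq_mul_inv]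
      rw [h10]
      linarith
    have h3 := h2.add h1
    rw [zero_add] at h3
    exact h3.congr fun n => by ring
  -- the mean
  obtain ⟨tau, htau⟩ : ∃ tau : ℕ → ℝ, tau = fun n => 2 * (M.G n).sig2 * ((n : ℝ) * Real.sqrt n) /
      ((M.G n).hbar * ((n0 n : ℝ) * Real.sqrt (n0 n))) := ⟨_, rfl⟩
  have htm : ∀ᶠ n : ℕ in atTop, 0 < tau n ∧ T n = tau n * mn M.P n ∧
      tau n ≤ D n ^ (1 + Kp + 2 * K1') := by
    filter_upwards [hcmp] with n hc
    obtain ⟨c1, c2, c3, c4⟩ := hc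
    obtain ⟨p1, -, p3, -, p5, p6⟩ := hpar (D n) (hD.two_le n) (M.G n) (M.cls n)
    have hh : 0 < (M.G n).hbar := by linarith
    have hsg : 0 < (M.G n).sig2 := lt_of_lt_of_le (inv_pos.2 (hDp n)) p5
    have hn : (0 : ℝ) < n := by exact_mod_cast c1
    have hnn : (0 : ℝ) < n0 n := by exact_mod_cast c2
    have hsn : 0 < Real.sqrt n := Real.sqrt_pos.2 hn
    have hsn0 : 0 < Real.sqrt (n0 n) := Real.sqrt_pos.2 hnn
    refine ⟨by rw [htau]; positivity, ?_, ?_⟩
    · rw [hT, htau]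
      unfold mn
      simp only []
      rw [div_mul_eq_mul_div, div_mul_eq_mul_div]
      congr 1
      rcases eq_or_ne ((M.P n).eval 1) 0 with h0 | h0
      · rw [h0]; simp
      · field_simp
    · rw [htau]
      have hDn := hDp n
      have hDK : (1 : ℝ) ≤ D n ^ K1' := one_le_pow₀ (hD1 n)
      have h1 : Real.sqrt n ≤ D n ^ K1' * Real.sqrt (n0 n) := by
        calc Real.sqrt n ≤ Real.sqrt (D n ^ K1' * n0 n) := Real.sqrt_le_sqrt c4
          _ = Real.sqrt (D n ^ K1') * Real.sqrt (n0 n) := Real.sqrt_mul (by positivity) _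
          _ ≤ D n ^ K1' * Real.sqrt (n0 n) := by
            refine mul_le_mul_of_nonneg_right ?_ hsn0.le
            rw [Real.sqrt_le_left (by positivity)]
            exact le_self_pow₀ hDK (by norm_num)
      have h2 : (n : ℝ) * Real.sqrt n ≤
          D n ^ (2 * K1') * ((n0 n : ℝ) * Real.sqrt (n0 n)) := by
        calc (n : ℝ) * Real.sqrt n ≤ (D n ^ K1' * n0 n) * (D n ^ K1' * Real.sqrt (n0 n)) :=
              mul_le_mul c4 h1 hsn.le (by positivity)
          _ = _ := by ring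
      have h3 : 2 * (M.G n).sig2 ≤ D n ^ (1 + Kp) := by
        rw [pow_add, pow_one]
        exact mul_le_mul (hD.two_le n) p6 hsg.le hDn.le
      rw [div_le_iff₀ (by positivity)]
      calc 2 * (M.G n).sig2 * ((n : ℝ) * Real.sqrt n)
          ≤ D n ^ (1 + Kp) * (D n ^ (2 * K1') * ((n0 n : ℝ) * Real.sqrt (n0 n))) :=
            mul_le_mul h3 h2 (by positivity) (by positivity)
        _ = D n ^ (1 + Kp + 2 * K1') * (1 * ((n0 n : ℝ) * Real.sqrt (n0 n))) := by ring
        _ ≤ D n ^ (1 + Kp + 2 * K1') * ((M.G n).hbar * ((n0 n : ℝ) * Real.sqrt (n0 n))) := by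
            gcongr
  have hTlow : ∀ᶠ n : ℕ in atTop, m0 / 2 ≤ T n := by
    filter_upwards [hTm.eventually (lt_mem_nhds (half_lt_self hm0))] with n hn using hn.le
  obtain ⟨Kc, hKc⟩ : ∃ Kc : ℕ, 2 / m0 < 2 ^ Kc := pow_unbounded_of_one_lt _ (by norm_num)
  have hmlow : ∀ᶠ n : ℕ in atTop, (D n ^ (Kc + (1 + Kp + 2 * K1')))⁻¹ ≤ mn M.P n := by
    filter_upwards [htm, hTlow] with n h1 h2
    obtain ⟨t1, t2, t3⟩ := h1
    have h3 : mn M.P n = T n / tau n := by rw [t2]; field_simp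
    have hDn := hDp n
    have h4 : (D n ^ Kc)⁻¹ ≤ m0 / 2 := by
      have h5 : (2 : ℝ) ^ Kc ≤ D n ^ Kc := pow_le_pow_left₀ (by norm_num) (hD.two_le n) _
      have h6 : 2 / m0 ≤ D n ^ Kc := hKc.le.trans h5
      rw [inv_le_comm₀ (by positivity) (by positivity), inv_div]
      exact h6
    rw [h3, pow_add, mul_inv, div_eq_mul_inv]
    refine mul_le_mul (h4.trans h2) (inv_anti₀ t1 t3) (by positivity) ?_
    linarith
  refine ⟨K1 + (Kc + (1 + Kp + 2 * K1')), ?_, ?_, ?_⟩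
  · filter_upwards [hrat] with n h1
    refine le_trans (inv_anti₀ (pow_pos (hDp n) _) ?_) h1.1
    exact pow_le_pow_right₀ (hD1 n) (by omega)
  · filter_upwards [hmlow] with n h1
    refine le_trans (inv_anti₀ (pow_pos (hDp n) _) ?_) h1
    exact pow_le_pow_right₀ (hD1 n) (by omega)
  · intro lam hlam
    have hx : Tendsto (fun n => lam / T n) atTop (𝓝 (lam / m0)) :=
      tendsto_const_nhds.div hTm hm0.ne'
    have hlm : 0 ≤ lam / m0 := by positivity
    -- the staircase side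
    have h1 : Tendsto (fun n => lap P0 (n0 n) (lam / m0)) atTop (𝓝 (L (lam / m0) / L 0)) :=
      (hlap0 _ hlm).comp hn0t
    have h2 : Tendsto (fun n => lap P0 (n0 n) (lam / T n) - lap P0 (n0 n) (lam / m0)) atTop
        (𝓝 0) := by
      have h3 : Tendsto (fun n => |lam / T n - lam / m0| * mn P0 (n0 n)) atTop (𝓝 0) := by
        have h4 := ((hx.sub_const (lam / m0)).abs).mul (hmean0.comp hn0t)
        rw [sub_self, abs_zero, zero_mul] at h4
        exact h4
      refine squeeze_zero_norm' ?_ h3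
      filter_upwards [hTlow, hn0t.eventually hpos0, hcmp] with n a1 a2 a3
      rw [Real.norm_eq_abs]
      have a4 : 0 < T n := by linarith
      exact lap_lip a3.2.1 (fun k => coeff0 _ k) a2 (by positivity) hlm
    -- comparison
    have h3 : Tendsto (fun n => lap M.P n (lam / mn M.P n) - lap P0 (n0 n) (lam / T n)) atTop
        (𝓝 0) := by
      refine squeeze_zero_norm' ?_ herr2
      have hb : ∀ᶠ n : ℕ in atTop, lam / T n ≤ W n := by
        filter_upwards [hx.eventually (ge_mem_nhds (lt_add_one (lam / m0))),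
          hWt.eventually_ge_atTop (lam / m0 + 1)] with n b1 b2 using b1.trans b2
      filter_upwards [hrat, hTlow, htm, hb, hcmp] with n a1 a2 a3 a4 a5
      obtain ⟨t1, t2, -⟩ := a3
      obtain ⟨c1, c2, -, -⟩ := a5
      obtain ⟨-, -, p3, -, p5, -⟩ := hpar (D n) (hD.two_le n) (M.G n) (M.cls n)
      have hh : 0 < (M.G n).hbar := by linarith
      have hsg : 0 < (M.G n).sig2 := lt_of_lt_of_le (inv_pos.2 (hDp n)) p5
      have hn : (0 : ℝ) < n := by exact_mod_cast c1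
      have hnn : (0 : ℝ) < n0 n := by exact_mod_cast c2
      have hsn : 0 < Real.sqrt n := Real.sqrt_pos.2 hn
      have hsn0 : 0 < Real.sqrt (n0 n) := Real.sqrt_pos.2 hnn
      have a6 : 0 < T n := by linarith
      have a7 : 0 < mn M.P n := by
        rw [t2] at a6
        exact (pos_iff_pos_of_mul_pos a6).1 t1
      have e1 : epsn (lam / T n) (n0 n) * ((n0 n : ℝ) * Real.sqrt (n0 n)) = lam / T n := by
        unfold epsn; field_simp
      have e2 : (M.G n).hbar * epsn (lam / mn M.P n) n =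
          2 * (M.G n).sig2 * epsn (lam / T n) (n0 n) := by
        rw [t2, htau]
        unfold epsn
        field_simp
      have a8 := a1.2.1 (epsn (lam / mn M.P n) n) (epsn (lam / T n) (n0 n))
        (epsn_nonneg35 (by positivity) _) (by rw [e1]; exact a4) e2
      rw [Real.norm_eq_abs, herr]
      exact a8
    have h4 := (h3.add h2).add h1
    rw [zero_add, zero_add] at h4
    exact h4.congr fun n => by ring

end Pool.Agent.EXW
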