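import Pool.Agent.EXW.Stmts3

/-!
# Module MOMD: scaled moments with a rate
-/

set_option autoImplicit false

open Finset Filter Topology

namespace Pool.Agent.EXW

open Pool.Agent.Gap Pool.Agent.FL
open Pool.Agent.KCG (mr)
open Pool.Agent.KCS (kap)

namespace MOMD

/-- the alternating sum -/
noncomputable def alt (r : ℕ) (P : Polynomial ℝ) (x : ℝ) : ℝ :=
  ∑ j ∈ range (r + 1), (-1 : ℝ) ^ j * (r.choose j) * P.eval (Real.exp (-((j : ℝ) * x)))

theorem alt_diff (r : ℕ) (P P0 : Polynomial ℝ) (x x0 E : ℝ)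
    (h3 : ∀ j ∈ range (r + 1), |P.eval (Real.exp (-((j : ℝ) * x))) / P.eval 1 -
      P0.eval (Real.exp (-((j : ℝ) * x0))) / P0.eval 1| ≤ E) :
    |alt r P x / P.eval 1 - alt r P0 x0 / P0.eval 1| ≤ 2 ^ r * E := by
  have e : alt r P x / P.eval 1 - alt r P0 x0 / P0.eval 1 =
      ∑ j ∈ range (r + 1), (-1 : ℝ) ^ j * (r.choose j) *
        (P.eval (Real.exp (-((j : ℝ) * x))) / P.eval 1 -
          P0.eval (Real.exp (-((j : ℝ) * x0))) / P0.eval 1) := by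
    unfold alt
    rw [Finset.sum_div, Finset.sum_div, ← Finset.sum_sub_distrib]
    refine Finset.sum_congr rfl fun j _ => ?_
    ring
  rw [e]
  refine (Finset.abs_sum_le_sum_abs _ _).trans ?_
  have h2 : (2 : ℝ) ^ r = ∑ j ∈ range (r + 1), ((r.choose j : ℕ) : ℝ) := by
    rw [← Nat.cast_sum, Nat.sum_range_choose]
    push_cast
    rfl
  rw [h2, Finset.sum_mul]
  refine Finset.sum_le_sum fun j hj => ?_
  rw [abs_mul, abs_mul, abs_pow, abs_neg, abs_one, one_pow, one_mul, Nat.abs_cast]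
  exact mul_le_mul_of_nonneg_left (h3 j hj) (Nat.cast_nonneg _)

theorem core (r : ℕ) (P P0 : Polynomial ℝ) {eps eps' lam κ R0 E F F0 : ℝ} (hlam : 0 < lam)
    (hP1 : 0 < P.eval 1) (hP01 : 0 < P0.eval 1) (hR0 : 0 < R0) (heps : eps = lam * κ)
    (heps' : eps' = lam / R0) (h1 : |alt r P eps - eps ^ r * mr r P| ≤ F * P.eval 1)
    (h2 : |alt r P0 eps' - eps' ^ r * mr r P0| ≤ F0 * P0.eval 1)
    (h3 : ∀ j ∈ range (r + 1), |P.eval (Real.exp (-((j : ℝ) * eps))) / P.eval 1 -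
      P0.eval (Real.exp (-((j : ℝ) * eps'))) / P0.eval 1| ≤ E) :
    |κ ^ r * (mr r P / P.eval 1) - mr r P0 / (R0 ^ r * P0.eval 1)| ≤
      (2 ^ r * E + F + F0) / lam ^ r := by
  have hd := alt_diff r P P0 eps eps' E h3
  have k1 : |alt r P eps / P.eval 1 - lam ^ r * (κ ^ r * (mr r P / P.eval 1))| ≤ F := by
    have e : alt r P eps / P.eval 1 - lam ^ r * (κ ^ r * (mr r P / P.eval 1)) =
        (alt r P eps - eps ^ r * mr r P) / P.eval 1 := by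
      rw [heps, mul_pow]
      ring
    rw [e, abs_div, abs_of_pos hP1, div_le_iff₀ hP1]
    exact h1
  have k2 : |alt r P0 eps' / P0.eval 1 - lam ^ r * (mr r P0 / (R0 ^ r * P0.eval 1))| ≤ F0 := by
    have e : alt r P0 eps' / P0.eval 1 - lam ^ r * (mr r P0 / (R0 ^ r * P0.eval 1)) =
        (alt r P0 eps' - eps' ^ r * mr r P0) / P0.eval 1 := by
      rw [heps', div_pow]
      have := (pow_pos hR0 r).ne'
      field_simp
    rw [e, abs_div, abs_of_pos hP01, div_le_iff₀ hP01]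
    exact h2
  have hl : 0 < lam ^ r := pow_pos hlam r
  rw [le_div_iff₀ hl]
  have e : (κ ^ r * (mr r P / P.eval 1) - mr r P0 / (R0 ^ r * P0.eval 1)) * lam ^ r =
      (alt r P eps / P.eval 1 - alt r P0 eps' / P0.eval 1)
        - (alt r P eps / P.eval 1 - lam ^ r * (κ ^ r * (mr r P / P.eval 1)))
        + (alt r P0 eps' / P0.eval 1 - lam ^ r * (mr r P0 / (R0 ^ r * P0.eval 1))) := by ring
  have e2 : |κ ^ r * (mr r P / P.eval 1) - mr r P0 / (R0 ^ r * P0.eval 1)| * lam ^ r =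
      |(κ ^ r * (mr r P / P.eval 1) - mr r P0 / (R0 ^ r * P0.eval 1)) * lam ^ r| := by
    rw [abs_mul, abs_of_pos hl]
  rw [e2, e]
  refine (abs_add_le _ _).trans ?_
  have := abs_sub (alt r P eps / P.eval 1 - alt r P0 eps' / P0.eval 1)
    (alt r P eps / P.eval 1 - lam ^ r * (κ ^ r * (mr r P / P.eval 1)))
  linarith

end MOMD

open MOMD in
theorem t_MOMD (hQRAT : QRAT_Stmt) (hMOMA : MOMA_Stmt) (hFDX : FDX_Stmt) (hSMM : SMM_Stmt)
    (hQPAR : QPAR_Stmt) : MOMD_Stmt := by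
  intro r
  obtain ⟨q0, q1, hQRAT⟩ := hQRAT
  obtain ⟨a0, a1, hMOMA⟩ := hMOMA (r + 1)
  obtain ⟨j0, j1, hPAR⟩ := hQPAR
  obtain ⟨hS1, hS2⟩ := hSMM
  obtain ⟨Cb, hCb⟩ := (hS2 (r + 1)).bddAbove_range
  obtain ⟨p, hp⟩ := par_bounds
  obtain ⟨c, hc⟩ := (PB.const Cb).le
  obtain ⟨b, hb⟩ : ∃ b : ℕ, b = p + 2 * j1 + 1 := ⟨_, rfl⟩
  refine ⟨q0 + a0 + j0 + r + 1, q1 + r + (r + a1 + b * (r + 1)) + (r + c) + 1, ?_⟩
  intro D hD G hG C0 s t Vs Vt B hs ht hVs hVt hB W n n0 lam hsc hW hlam hlam1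
  have hW2 := hsc.W2
  have hD1 : 1 ≤ D := by linarith
  have hD0 : 0 < D := by linarith
  have hW0 : 0 < W := by linarith
  have hDW1 : 1 ≤ D * W := by nlinarith
  have hDpos : ∀ k : ℕ, 0 < D ^ k := fun k => pow_pos hD0 k
  have hDge1 : ∀ k : ℕ, 1 ≤ D ^ k := fun k => one_le_pow₀ hD1
  have hDmono : ∀ {i j : ℕ}, i ≤ j → D ^ i ≤ D ^ j := fun h => pow_le_pow_right₀ hD1 h
  have hDWmono : ∀ {i j : ℕ}, i ≤ j → (D * W) ^ i ≤ (D * W) ^ j := fun h =>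
    pow_le_pow_right₀ hDW1 h
  have hsc1 : ∀ {k : ℕ}, k ≤ q0 + a0 + j0 + r + 1 → Sc0 k D W G n n0 := fun {k} hk =>
    ⟨hD, hW2, hG, (hDWmono hk).trans hsc.big, hsc.near⟩
  obtain ⟨⟨hn1, hn01, -, hWn0, hnn0, -⟩, -, -⟩ := hPAR D W G n n0 0 0
    ⟨hsc1 (by omega), le_rfl, by rw [zero_mul]; exact hW0.le, by ring⟩
  have hn : (0 : ℝ) < n := by exact_mod_cast hn1
  have hn0 : (0 : ℝ) < n0 := by exact_mod_cast hn01
  obtain ⟨-, -, hhb1, -, hsg1, hsg2⟩ := hp D hD G hG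
  have hhb0 : 0 < G.hbar := by linarith
  have hsg0 : 0 < G.sig2 := G.sig2_pos
  have hsn : 0 < Real.sqrt n := Real.sqrt_pos.2 hn
  have hsn0 : 0 < Real.sqrt n0 := Real.sqrt_pos.2 hn0
  obtain ⟨hQ1, hQ2, -⟩ := hQRAT D hD G hG C0 s t Vs Vt B hs ht hVs hVt hB W n n0
    (hsc1 (by omega)) ((hDmono (by omega)).trans hW)
  have hM := hMOMA D hD G hG C0 s t Vs Vt B hs ht hVs hVt hB W n n0
    (hsc1 (by omega)) ((hDmono (by omega)).trans hW)
  -- abbreviations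
  obtain ⟨R, hR⟩ : ∃ R, R = (n : ℝ) * Real.sqrt n := ⟨_, rfl⟩
  obtain ⟨R0, hR0⟩ : ∃ R, R = (n0 : ℝ) * Real.sqrt n0 := ⟨_, rfl⟩
  obtain ⟨P, hP⟩ : ∃ P, P = closeP C0 t B n := ⟨_, rfl⟩
  obtain ⟨P0, hP0⟩ : ∃ P, P = closeP 1 cap1 B0 n0 := ⟨_, rfl⟩
  obtain ⟨ℓ, hℓ⟩ : ∃ ℓ, ℓ = Real.log n := ⟨_, rfl⟩
  have hRpos : 0 < R := by rw [hR]; positivity
  have hR0pos : 0 < R0 := by rw [hR0]; positivity
  have hn02 : 2 ≤ n0 := by
    have : (2 : ℝ) ≤ n0 := hW2.trans hWn0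
    exact_mod_cast this
  obtain ⟨hP0c, hP01⟩ := hS1 n0 hn02
  have hPc : ∀ k, 0 ≤ P.coeff k := fun k => by
    rw [hP]; exact closeP_coeff_nonneg hs.cap.nonneg ht.cap.nonneg hB n k
  rw [← hR, ← hP] at hQ1 hM
  rw [← hℓ] at hM
  have hS3 := hCb ⟨n0, rfl⟩
  simp only at hS3
  rw [← hR0, ← hP0] at hS3
  rw [← hP0] at hP0c hP01
  have hP1 : 0 < P.eval 1 := by
    by_contra hcon
    have h1 : 0 < (D ^ q1)⁻¹ := inv_pos.2 (hDpos q1)
    have h2 : R * G.rho ^ n * P.eval 1 ≤ 0 :=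
      mul_nonpos_of_nonneg_of_nonpos (mul_nonneg hRpos.le (pow_nonneg G.rho_pos.le n))
        (not_lt.1 hcon)
    linarith
  -- the logarithm
  have hℓ1 : 1 ≤ ℓ := by
    have h4 : (4 : ℝ) ≤ n := by
      have h1 : (D * W) ^ 1 ≤ n := (hDWmono (by omega)).trans hsc.big
      rw [pow_one] at h1
      nlinarith
    rw [hℓ, Real.le_log_iff_exp_le hn]
    have := Real.exp_one_lt_d9
    linarith
  -- the parameters
  obtain ⟨κ, hκ⟩ : ∃ κ, κ = 2 * G.sig2 / (G.hbar * R0) := ⟨_, rfl⟩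
  obtain ⟨eps, heps⟩ : ∃ eps, eps = lam * κ := ⟨_, rfl⟩
  obtain ⟨eps', heps'⟩ : ∃ eps', eps' = lam / R0 := ⟨_, rfl⟩
  have hκ0 : 0 < κ := by rw [hκ]; positivity
  have heps0 : 0 ≤ eps := by rw [heps]; positivity
  have heps'0 : 0 ≤ eps' := by rw [heps']; positivity
  have hee : G.hbar * eps = 2 * G.sig2 * eps' := by
    rw [heps, heps', hκ]
    field_simp
  have heR0 : eps' * R0 = lam := by
    rw [heps']
    field_simp
  obtain ⟨E, hE⟩ : ∃ E, E = (D * W) ^ q1 / qn n + D ^ q1 / Real.sqrt W := ⟨_, rfl⟩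
  have hE0 : 0 ≤ E := by
    rw [hE]
    have : 0 ≤ qn n := Real.sqrt_nonneg _
    positivity
  have hrW : (r : ℝ) ≤ W := by
    have h1 : (r : ℝ) ≤ 2 ^ r := by exact_mod_cast r.lt_two_pow_self.le
    have h2 : (2 : ℝ) ^ r ≤ D ^ r := pow_le_pow_left₀ (by norm_num) hD r
    have h3 : D ^ r ≤ W := (hDmono (by omega)).trans hW
    linarith
  -- comparison
  have h3 : ∀ j ∈ range (r + 1), |P.eval (Real.exp (-((j : ℝ) * eps))) / P.eval 1 -
      P0.eval (Real.exp (-((j : ℝ) * eps'))) / P0.eval 1| ≤ E := by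
    intro j hj
    have hjr : (j : ℝ) ≤ r := by
      have := Finset.mem_range.1 hj
      exact_mod_cast Nat.lt_succ_iff.1 this
    have h := hQ2 (j * eps) (j * eps') (by positivity) (by
      rw [← hR0, mul_assoc, heR0]
      have : (j : ℝ) * lam ≤ r * 1 := by gcongr
      linarith) (by linear_combination (j : ℝ) * hee)
    rw [← hP, ← hP0, ← hE] at h
    exact h
  -- errors
  have hRR : eps * R ≤ D ^ b * lam := by
    have h1 : R ≤ D ^ (2 * j1) * R0 := by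
      rw [hR, hR0]
      have h2 : Real.sqrt n ≤ D ^ j1 * Real.sqrt n0 := by
        rw [Real.sqrt_le_left (by positivity), mul_pow, Real.sq_sqrt hn0.le]
        have h3 : D ^ j1 ≤ (D ^ j1) ^ 2 := by
          have := hDge1 j1
          nlinarith
        calc (n : ℝ) ≤ D ^ j1 * n0 := hnn0
          _ ≤ (D ^ j1) ^ 2 * n0 := by gcongr
      calc (n : ℝ) * Real.sqrt n ≤ (D ^ j1 * n0) * (D ^ j1 * Real.sqrt n0) := by gcongr
        _ = D ^ (2 * j1) * ((n0 : ℝ) * Real.sqrt n0) := by ring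
    have h2 : κ * R0 ≤ 2 * D ^ p := by
      have e : κ * R0 = 2 * G.sig2 / G.hbar := by
        rw [hκ]
        field_simp
      rw [e, div_le_iff₀ hhb0]
      have : 0 ≤ D ^ p := (hDpos p).le
      nlinarith
    calc eps * R ≤ eps * (D ^ (2 * j1) * R0) := by gcongr
      _ = lam * D ^ (2 * j1) * (κ * R0) := by rw [heps]; ring
      _ ≤ lam * D ^ (2 * j1) * (2 * D ^ p) := by gcongr
      _ ≤ lam * D ^ (2 * j1) * (D * D ^ p) := by gcongr
      _ = D ^ b * lam := by rw [hb]; ring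
  have h1 : |alt r P eps - eps ^ r * mr r P| ≤
      (r * D ^ a1 * (D ^ b * lam) ^ (r + 1) * ℓ ^ (r + 1)) * P.eval 1 := by
    refine (hFDX r P eps hPc heps0).trans ?_
    calc (r : ℝ) * eps ^ (r + 1) * mr (r + 1) P
        ≤ r * eps ^ (r + 1) * (D ^ a1 * (R * ℓ) ^ (r + 1) * P.eval 1) := by gcongr
      _ = r * D ^ a1 * (eps * R) ^ (r + 1) * ℓ ^ (r + 1) * P.eval 1 := by ring
      _ ≤ _ := by gcongr
  have h2 : |alt r P0 eps' - eps' ^ r * mr r P0| ≤ (r * D ^ c * lam ^ (r + 1)) * P0.eval 1 := by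
    refine (hFDX r P0 eps' hP0c heps'0).trans ?_
    have h4 : mr (r + 1) P0 ≤ D ^ c * (R0 ^ (r + 1) * P0.eval 1) := by
      rw [div_le_iff₀ (by positivity)] at hS3
      refine hS3.trans ?_
      have := hc D hD
      gcongr
    calc (r : ℝ) * eps' ^ (r + 1) * mr (r + 1) P0
        ≤ r * eps' ^ (r + 1) * (D ^ c * (R0 ^ (r + 1) * P0.eval 1)) := by gcongr
      _ = (r * D ^ c * (eps' * R0) ^ (r + 1)) * P0.eval 1 := by ring
      _ = _ := by rw [heR0]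
  have key := core r P P0 hlam hP1 hP01 hR0pos heps heps' h1 h2 h3
  rw [← hP, ← hP0, ← hR0, ← hκ, ← hℓ]
  refine key.trans ?_
  have hlr : 0 < lam ^ r := pow_pos hlam r
  have e1 : (2 ^ r * E + r * D ^ a1 * (D ^ b * lam) ^ (r + 1) * ℓ ^ (r + 1) +
      r * D ^ c * lam ^ (r + 1)) / lam ^ r =
      2 ^ r * E / lam ^ r + (r * D ^ (a1 + b * (r + 1)) * ℓ ^ (r + 1) + r * D ^ c) * lam := by
    rw [div_eq_iff hlr.ne', add_mul, div_mul_cancel₀ _ hlr.ne', mul_pow, ← pow_mul,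
      pow_succ lam r, pow_add D a1]
    ring
  rw [e1]
  obtain ⟨K, hK⟩ : ∃ K, K = q1 + r + (r + a1 + b * (r + 1)) + (r + c) + 1 := ⟨_, rfl⟩
  rw [← hK]
  have h2r : (2 : ℝ) ^ r ≤ D ^ r := pow_le_pow_left₀ (by norm_num) hD r
  have hrD : (r : ℝ) ≤ D ^ r := by
    have h1 : (r : ℝ) ≤ 2 ^ r := by exact_mod_cast r.lt_two_pow_self.le
    linarith
  have t1 : 2 ^ r * E ≤ (D * W) ^ K / qn n + D ^ K / Real.sqrt W := by
    have hq : 0 ≤ qn n := Real.sqrt_nonneg _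
    have hDW : D ^ r ≤ (D * W) ^ r := pow_le_pow_left₀ hD0.le (by nlinarith) r
    calc 2 ^ r * E ≤ D ^ r * E := by gcongr
      _ = D ^ r * (D * W) ^ q1 / qn n + D ^ (r + q1) / Real.sqrt W := by
        rw [hE, pow_add, mul_add, mul_div_assoc, mul_div_assoc]
      _ ≤ (D * W) ^ r * (D * W) ^ q1 / qn n + D ^ (r + q1) / Real.sqrt W := by gcongr
      _ = (D * W) ^ (r + q1) / qn n + D ^ (r + q1) / Real.sqrt W := by
        rw [pow_add (D * W) r q1]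
      _ ≤ _ := by
        have u1 := hDWmono (show r + q1 ≤ K by omega)
        have u2 := hDmono (show r + q1 ≤ K by omega)
        gcongr
  have t2 : r * D ^ (a1 + b * (r + 1)) * ℓ ^ (r + 1) + r * D ^ c ≤ D ^ K * ℓ ^ (r + 1) := by
    have hL : 1 ≤ ℓ ^ (r + 1) := one_le_pow₀ hℓ1
    have u1 : r * D ^ (a1 + b * (r + 1)) ≤ D ^ (K - 1) := by
      calc r * D ^ (a1 + b * (r + 1)) ≤ D ^ r * D ^ (a1 + b * (r + 1)) := by gcongr
        _ = D ^ (r + (a1 + b * (r + 1))) := by rw [pow_add D r]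
        _ ≤ _ := hDmono (by omega)
    have u2 : r * D ^ c ≤ D ^ (K - 1) := by
      calc r * D ^ c ≤ D ^ r * D ^ c := by gcongr
        _ = D ^ (r + c) := by rw [pow_add]
        _ ≤ _ := hDmono (by omega)
    have u3 : D ^ K = D * D ^ (K - 1) := by
      rw [← pow_succ']
      congr 1
      omega
    have u4 := hDpos (K - 1)
    calc r * D ^ (a1 + b * (r + 1)) * ℓ ^ (r + 1) + r * D ^ c
        ≤ D ^ (K - 1) * ℓ ^ (r + 1) + D ^ (K - 1) * ℓ ^ (r + 1) := by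
          have : D ^ (K - 1) ≤ D ^ (K - 1) * ℓ ^ (r + 1) := le_mul_of_one_le_right u4.le hL
          have : r * D ^ (a1 + b * (r + 1)) * ℓ ^ (r + 1) ≤ D ^ (K - 1) * ℓ ^ (r + 1) := by
            gcongr
          linarith
      _ = 2 * (D ^ (K - 1) * ℓ ^ (r + 1)) := by ring
      _ ≤ D * (D ^ (K - 1) * ℓ ^ (r + 1)) := by gcongr
      _ = D ^ K * ℓ ^ (r + 1) := by rw [u3]; ring
  gcongr

end Pool.Agent.EXW
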