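import Pool.Agent.EXW.StmtsF

/-!
# Project EXW: the sequence of models
-/

set_option autoImplicit false

namespace Pool.Agent.EXW

open Finset Pool.Agent.Lib27 Pool.Agent.SapR Pool.Agent.Gap Pool.Agent.FL Filter Topology
  Pool.Agent.AreaLaw MeasureTheory
open scoped NNReal ENNReal

namespace QMODaux

/-- the critical source of a cap, in the class with parameter `M ^ 3` -/
lemma crit_sr {M : ℝ} (hM : 2 ≤ M) {G : GapKernel} (hG : Cls M (1 - M⁻¹) G) {C0 : ℕ}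
    {s : ℕ → ℤ → ℝ} (hs : ClsCap M (1 - M⁻¹) G C0 s) :
    CritSrc (M ^ 3) (1 - (M ^ 3)⁻¹) C0 (GE.sr G.rho C0 s) := by
  have hM0 : 0 < M := by linarith
  have hi : M⁻¹ ≤ 1 / 2 := by
    rw [← one_div]
    exact one_div_le_one_div_of_le (by norm_num) hM
  have hi0 : 0 < M⁻¹ := inv_pos.2 hM0
  have h := GE.critSrc_sr hM0 (show 0 < 1 - M⁻¹ by linarith) (show 1 - M⁻¹ < 1 by linarith) hG hs
  have e1 : M ^ 2 + M / (1 - (1 - M⁻¹)) = 2 * M ^ 2 := by
    rw [sub_sub_cancel]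
    field_simp
    ring
  rw [e1] at h
  have h23 : 2 * M ^ 2 ≤ M ^ 3 := by nlinarith [sq_nonneg M]
  have hM3 : M ≤ M ^ 3 := le_self_pow₀ (by linarith) (by norm_num)
  have h3 : (0 : ℝ) < M ^ 3 := by positivity
  refine ⟨h.nonneg, h.supp, ?_, fun g => ?_⟩
  · refine le_trans ?_ h.one
    exact inv_anti₀ (by positivity) h23
  · refine (h.dec g).trans ?_
    have h4 : (M ^ 3)⁻¹ ≤ M⁻¹ := inv_anti₀ hM0 hM3
    have h5 : (1 - M⁻¹) ^ g ≤ (1 - (M ^ 3)⁻¹) ^ g :=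
      pow_le_pow_left₀ (by linarith) (by linarith) g
    have h6 : 0 ≤ (1 - M⁻¹) ^ g := pow_nonneg (by linarith) g
    calc 2 * M ^ 2 * (1 - M⁻¹) ^ g ≤ M ^ 3 * (1 - M⁻¹) ^ g :=
          mul_le_mul_of_nonneg_right h23 h6
      _ ≤ M ^ 3 * (1 - (M ^ 3)⁻¹) ^ g := mul_le_mul_of_nonneg_left h5 h3.le

end QMODaux

open QMODaux in
theorem t_QMOD (hGV : QGV_Stmt) (hNEAR : QNEAR_Stmt) : QMOD_Stmt := by
  obtain ⟨K, hV⟩ := hGV
  obtain ⟨Kn, hN⟩ := hNEAR
  refine ⟨3 * K + 1, Kn, fun M D f N0 hN0 hM hMD hf hκ hDat => ?_⟩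
  have hM0 : ∀ n, 0 < M n := fun n => by linarith [hM n]
  have hθ0 : ∀ n, 0 < 1 - (M n)⁻¹ := fun n => by
    have : (M n)⁻¹ ≤ 1 / 2 := by
      rw [← one_div]
      exact one_div_le_one_div_of_le (by norm_num) (hM n)
    linarith
  have hMD1 : ∀ n, M n ≤ D n := fun n => by
    refine le_trans ?_ (hMD n)
    calc M n ≤ M n ^ (3 * K + 1) := le_self_pow₀ (by linarith [hM n]) (by omega)
      _ ≤ Real.exp (M n ^ (3 * K + 1)) := by
          have := Real.add_one_le_exp (M n ^ (3 * K + 1))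
          linarith
  have hMD2 : ∀ n, Real.exp ((M n ^ 3) ^ K) ≤ D n := fun n => by
    refine le_trans (Real.exp_le_exp.2 ?_) (hMD n)
    rw [← pow_mul]
    exact pow_le_pow_right₀ (by linarith [hM n]) (by omega)
  obtain ⟨d⟩ : Nonempty (∀ n, Dat (M n) (1 - (M n)⁻¹) (mx N0 n) (Real.exp (-f n))) :=
    ⟨fun n => (hDat n).some⟩
  have hcrit : ∀ n, ∃ v : ℤ → ℝ, CritSol (D n) (d n).G
      (GE.sr (d n).G.rho (2 * mx N0 n) (capW (mx N0 n) (Real.exp (-f n)))) v := by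
    intro n
    have hM3 : M n ≤ M n ^ 3 := le_self_pow₀ (by linarith [hM n]) (by norm_num)
    obtain ⟨v, hv⟩ := hV (M n ^ 3) ((hM n).trans hM3) (d n).G (cls_mono (hM n) hM3 (d n).cls) _ _
      (crit_sr (hM n) (d n).cls (d n).cap)
    refine ⟨v, critSol_mono ?_ (hMD2 n) hv⟩
    have h1 : (1 : ℝ) ≤ (M n ^ 3) ^ K := one_le_pow₀ (by linarith [hM n])
    have h2 := Real.add_one_le_exp ((M n ^ 3) ^ K)
    linarith
  choose V hV' using hcrit
  have hs : ∀ n, 0 < Real.exp (-f n) := fun n => Real.exp_pos _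
  have hs1 : ∀ n, Real.exp (-f n) ≤ 1 := fun n => by
    rw [Real.exp_le_one_iff]
    linarith [hf n]
  refine ⟨{
    G := fun n => (d n).G
    C0 := fun n => 2 * mx N0 n
    s := fun n => capW (mx N0 n) (Real.exp (-f n))
    t := fun n => capW (mx N0 n) (Real.exp (-f n))
    Vs := V
    Vt := V
    cls := fun n => cls_mono (hM n) (hMD1 n) (d n).cls
    cap_s := fun n => clsCap_mono (hM n) (hMD1 n) (d n).cap
    cap_t := fun n => clsCap_mono (hM n) (hMD1 n) (d n).cap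
    crit_s := hV'
    crit_t := hV'
    B := fun n => (d n).B
    sol := fun n => (d n).sol
    Omega := fun n => Omg (mx N0 n)
    fin := fun n => inferInstance
    good := fun n => goodO (mx N0 n)
    wt := fun n => wtO (mx N0 n) (Real.exp (-f n))
    T := fun n x => (TZ (mx N0 n) x : ℝ)
    A := fun n => AO (mx N0 n)
    wt_nonneg := fun n x => wtO_nonneg _ _ (hs _) x
    T_nonneg := fun n x => TZ_nonneg _ x
    c := fun _ => 1
    c_pos := fun _ => one_pos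
    κ := fun n => kap0 (M n ^ Kn) (M n) (1 - (M n)⁻¹) n
    κ_lim := hκ
    n1 := N0
    count := ?_
    near := ?_
    bad := ?_ }, ?_⟩
  · intro n hn
    have h1 := (d n).count
    rw [Polynomial.C_1, one_mul]
    have h2 : closeP (2 * mx N0 n) (capW (mx N0 n) (Real.exp (-f n))) (d n).B (mx N0 n) =
        closeP (2 * mx N0 n) (capW (mx N0 n) (Real.exp (-f n))) (d n).B n :=
      congrArg (closeP (2 * mx N0 n) (capW (mx N0 n) (Real.exp (-f n))) (d n).B) (mx_eq N0 n hn)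
    rw [← h2, ← h1]
    exact sum_goodO (mx N0 n) (fun q => Polynomial.C (wtq (mx N0 n) (Real.exp (-f n)) q) *
      (Polynomial.X : Polynomial ℝ) ^ (M41.Ar (2 * mx N0 n - 1) q.2.2.2)) _ (fun q => rfl)
  · intro n hn
    have h1 := near_bound (hM0 n) (hθ0 n) (show 0 < M n ^ Kn from pow_pos (hM0 n) _)
      (hN (M n) (hM n)) (mx N0 n) n (mx_eq N0 n hn) (hN0.trans hn) _ (hs _) (hs1 _)
      (d n)
    have e1 : ∑ x ∈ goodO (mx N0 n), wtO (mx N0 n) (Real.exp (-f n)) x *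
        |(TZ (mx N0 n) x : ℝ) - AO (mx N0 n) x| =
        ∑ q ∈ M41.Om (2 * mx N0 n - 1) (mx N0 n), wtq (mx N0 n) (Real.exp (-f n)) q *
        |(|((dbl 0 q.2.2.2 + dbl 0 q.2.2.1 : ℤ) : ℝ)| -
          (M41.Ar (2 * mx N0 n - 1) q.2.2.2 : ℝ))| := by
      refine sum_goodO (mx N0 n) (fun q => wtq (mx N0 n) (Real.exp (-f n)) q *
        |(|((dbl 0 q.2.2.2 + dbl 0 q.2.2.1 : ℤ) : ℝ)| -
          (M41.Ar (2 * mx N0 n - 1) q.2.2.2 : ℝ))|) _ (fun q => ?_)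
      simp only [wtO, TZ, AO, Sum.elim_inl, Int.cast_abs]
    have e2 : ∑ x ∈ goodO (mx N0 n), wtO (mx N0 n) (Real.exp (-f n)) x =
        ∑ q ∈ M41.Om (2 * mx N0 n - 1) (mx N0 n), wtq (mx N0 n) (Real.exp (-f n)) q :=
      sum_goodO (mx N0 n) (fun q => wtq (mx N0 n) (Real.exp (-f n)) q) _ (fun q => rfl)
    rw [e1, e2]
    exact h1
  · intro n hn
    have h1 := bad_bound (hM0 n) (hθ0 n) (show 0 < M n ^ Kn from pow_pos (hM0 n) _)
      (mx N0 n) n (mx_eq N0 n hn) (hN0.trans hn) _ (hs _) (d n)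
    refine le_trans (le_of_eq ?_) h1
    have e1 : ∑ x : Omg (mx N0 n), wtO (mx N0 n) (Real.exp (-f n)) x *
          (1 + (TZ (mx N0 n) x : ℝ)) =
        ∑ q ∈ M41.Om (2 * mx N0 n - 1) (mx N0 n), wtq (mx N0 n) (Real.exp (-f n)) q *
          (1 + |((dbl 0 q.2.2.2 + dbl 0 q.2.2.1 : ℤ) : ℝ)|) +
        ∑ w ∈ NoCut (mx N0 n), 1 / (4 * ((mx N0 n : ℕ) : ℝ)) *
          (Real.exp (-f n)) ^ (mx N0 n - spn w) * (1 + |((dbl 0 w : ℤ) : ℝ)|) := by
      refine sum_Omg (mx N0 n) _ _ _ (fun q => ?_) (fun w => ?_)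
      · simp only [wtO, TZ, Sum.elim_inl, Int.cast_abs]
      · simp only [wtO, TZ, Sum.elim_inr, Int.cast_abs]
    have e2 : ∑ x ∈ goodO (mx N0 n), wtO (mx N0 n) (Real.exp (-f n)) x *
          (1 + (TZ (mx N0 n) x : ℝ)) =
        ∑ q ∈ M41.Om (2 * mx N0 n - 1) (mx N0 n), wtq (mx N0 n) (Real.exp (-f n)) q *
          (1 + |((dbl 0 q.2.2.2 + dbl 0 q.2.2.1 : ℤ) : ℝ)|) := by
      refine sum_goodO (mx N0 n) (fun q => wtq (mx N0 n) (Real.exp (-f n)) q *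
          (1 + |((dbl 0 q.2.2.2 + dbl 0 q.2.2.1 : ℤ) : ℝ)|)) _ (fun q => ?_)
      simp only [wtO, TZ, Sum.elim_inl, Int.cast_abs]
    rw [e1, e2]
    ring
  · intro n x
    rfl

end Pool.Agent.EXW
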