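import Pool.Agent.EXW.StmtsF

/-!
# Project EXW, version 2 (MP_f6626d_co): the window `f n * log n → ∞`

The statements of version 1 (`StmtsA`, `StmtsM`, `StmtsF`) are used as they are. Only the lower
bound of the critical solution is new: the killing probability at the gap `a` is bounded by the
critical weight of the arches of gap `a`, and so the critical solution is at least a power of the
class parameter. Proofs in words: `PAPER2.md`.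
-/

set_option autoImplicit false

namespace Pool.Agent.EXW

open Finset Pool.Agent.Lib27 Pool.Agent.SapR Pool.Agent.Gap Pool.Agent.FL Filter Topology
  Pool.Agent.AreaLaw MeasureTheory
open scoped NNReal ENNReal

open Classical in
/-- the killing probability of the kernel is the weight of the pieces which are not allowed -/
def KapEq (n : ℕ) (s : ℝ) (G : GapKernel) : Prop := ∀ a : ℤ, 1 ≤ a →
  G.kap a = ∑ p ∈ (Pc (2 * n - 1)).filter (fun p => p ∉ allowed (2 * n - 1) a),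
    G.rho ^ hl p * s ^ (hl p - htn p)

/-- the arrays are the weighted numbers of arches -/
def ArEq (n : ℕ) (s : ℝ) (B : ℕ → ℤ → Polynomial ℝ) : Prop := ∀ (m : ℕ) (a : ℤ), 1 ≤ a →
  (B m a).eval 1 = ∑ w ∈ ArchSet (2 * n - 1) a (2 * m), s ^ (m - hgt w)

/-- KW2 : the statement KW with two more facts (from HG; the kernel of `FL.KW`). -/
def KW2_Stmt : Prop := ∀ (n : ℕ) (s : ℝ), 1 ≤ n → 0 < s → s ≤ 1 →
  ∃ (G : GapKernel) (B : ℕ → ℤ → Polynomial ℝ), Loc G ∧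
    ∑ p ∈ Pc (2 * n - 1), G.rho ^ hl p * s ^ (hl p - htn p) = 1 ∧
    (∀ m : ℕ, ∑ i ∈ G.S.filter (fun i => i.1 = m), G.tot i =
      ∑ p ∈ (Pc (2 * n - 1)).filter (fun p => hl p = m), s ^ (m - htn p)) ∧
    IsCap (2 * n) (capW n s) ∧ 1 ≤ capW n s 1 1 ∧
    (∀ (m : ℕ) (g : ℤ), (m : ℤ) < g → capW n s m g = 0) ∧
    IsSol G (capW n s) B ∧
    ∑ q ∈ M41.Om (2 * n - 1) n, Polynomial.C (wtq n s q) *
      (Polynomial.X : Polynomial ℝ) ^ (M41.Ar (2 * n - 1) q.2.2.2) =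
        closeP (2 * n) (capW n s) B n ∧
    KapEq n s G ∧ ArEq n s B

/-- the kernel, arrays and bounds for half perimeter `n` and force `s = exp (-f)` -/
structure Dat2 (C θ : ℝ) (n : ℕ) (s : ℝ) extends Dat C θ n s where
  kapEq : KapEq n s G
  arEq : ArEq n s B

/-- DAT2 : QDAT with the two more facts (from QMG, the old MG, MGI2 and KW2). -/
def DAT2_Stmt : Prop := ∃ A : ℝ, 1 ≤ A ∧ ∃ N0 : ℕ, 2 ≤ N0 ∧ ∀ (n : ℕ) (f : ℝ), N0 ≤ n →
  0 < f → Mf A f ≤ n → Nonempty (Dat2 (Mf A f) (1 - (Mf A f)⁻¹) n (Real.exp (-f)))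

/-- PSUM : a critical solution is at least the partial sums of the arrays. -/
def PSUM_Stmt : Prop := ∀ (G : GapKernel) (C0 : ℕ) (s : ℕ → ℤ → ℝ)
  (B : ℕ → ℤ → Polynomial ℝ) (v : ℤ → ℝ), IsCap C0 s → IsSol G s B → (∀ g, 0 ≤ v g) →
  (∀ g : ℤ, 1 ≤ g → v g = GE.sr G.rho C0 s g +
    ∑ g' ∈ Icc (g - G.R) (g + G.R), G.Kc g g' * v g') →
  ∀ (M : ℕ) (g : ℤ), 1 ≤ g → ∑ m ∈ range (M + 1), G.rho ^ m * (B m g).eval 1 ≤ v g

/-- GV2 : the critical solution, with a lower bound which depends on the comparison of the killing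
probability with the solution (from QGRE, QGSUP; the text of `EXW.t_QGV` with another proof of the
lower bound). -/
def GV2_Stmt : Prop := ∃ K J : ℕ, ∀ D : ℝ, 2 ≤ D → ∀ G : GapKernel, Cls D (1 - D⁻¹) G →
  ∀ (R' : ℕ) (s : ℤ → ℝ), CritSrc D (1 - D⁻¹) R' s →
    ∃ v : ℤ → ℝ, (∀ g, 0 ≤ v g) ∧
      (∀ g : ℤ, 1 ≤ g → v g = s g + ∑ g' ∈ Icc (g - G.R) (g + G.R), G.Kc g g' * v g') ∧
      ∀ P : ℝ, 1 ≤ P → (∀ a : ℤ, 1 ≤ a → G.kap a ≤ (D ^ J)⁻¹ + P * v a) →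
        CritSol (D ^ K * P) G s v

/-- SPL : if the two strands of a piece placed at the gap `a` intersect, then they contain an arch
of gap `a`; the remaining parts lead from a vertex of the arch to the top. -/
def SPL_Stmt : Prop := ∀ (a : ℤ) (U D : Wd), 1 ≤ a → StripPair U D → ¬ Disj a (U, D) →
  ∃ (T V E : Wd) (j k : ℕ), Arch a T ∧ j ≤ T.length ∧ U = T.take j ++ V ∧
    D = rv E ++ T.drop j ∧ V ∈ Gn k ∧ E ∈ Gn k ∧ k ≤ htn (U, D) ∧ htn (U, D) ≤ hgt T + k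

open Classical in
/-- KAP : the weight of the pieces of half length at most `L` which are not allowed at the gap `a`
is bounded by the weight of the arches of gap `a` (from SPL and the planarity `SapR.k3`). -/
def KAP_Stmt : Prop := ∀ (n L : ℕ) (s rho X : ℝ) (y : ℝ≥0), 1 ≤ n → 0 < s → s ≤ 1 →
  0 < rho → 0 ≤ X → rho * s ≤ (y : ℝ) ^ 2 →
  (∀ k : ℕ, k ≤ L → ENNReal.ofReal ((s⁻¹) ^ k) * (gfw y (Gn k)) ^ 2 ≤ ENNReal.ofReal X) →
  ∀ a : ℤ, 1 ≤ a →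
    ∑ p ∈ (Pc (2 * n - 1)).filter (fun p => p ∉ allowed (2 * n - 1) a ∧ hl p ≤ L),
      rho ^ hl p * s ^ (hl p - htn p) ≤
    (2 * L + 1) * (L + 1) * X *
      ∑ m ∈ range (L + 1), ∑ w ∈ ArchSet (2 * n - 1) a (2 * m), rho ^ m * s ^ (m - hgt w)

/-- ROOM : at the critical weight of the pieces of perimeter `2 n`, words between two levels
(from MC, MN, MA and the old MGI1). -/
def ROOM_Stmt : Prop := ∃ A : ℝ, 1 ≤ A ∧ ∀ f : ℝ, 0 < f → f ≤ 1 → ∀ (n L : ℕ) (rho : ℝ),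
  1 ≤ L → Real.exp (A / f) * L ≤ n → 0 < rho →
  ∑ p ∈ Pc (2 * n - 1), rho ^ hl p * Real.exp (-f) ^ (hl p - htn p) = 1 →
    ∃ y : ℝ≥0, rho * Real.exp (-f) ≤ (y : ℝ) ^ 2 ∧ ∀ k : ℕ, k ≤ L →
      ENNReal.ofReal (((Real.exp (-f))⁻¹) ^ k) * (gfw y (Gn k)) ^ 2 ≤
        ENNReal.ofReal (Real.exp (A / f))

/-- QCS : the critical solution with polynomial bounds (from QGV, GV2, PSUM, KAP, ROOM). -/
def QCS_Stmt : Prop := ∀ A : ℝ, 1 ≤ A → ∃ K : ℕ, ∀ (n : ℕ) (f : ℝ), 0 < f → Mf A f ^ K ≤ n →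
  ∀ d : Dat2 (Mf A f) (1 - (Mf A f)⁻¹) n (Real.exp (-f)), ∃ V : ℤ → ℝ,
    CritSol (Mf A f ^ K) d.G (GE.sr d.G.rho (2 * n) (capW n (Real.exp (-f)))) V

/-- MOD2 : the sequence of models, the critical solutions being given (from QNEAR; text of
`EXW.t_QMOD`). -/
def MOD2_Stmt : Prop := ∃ Kn : ℕ, ∀ (M D f : ℕ → ℝ) (N0 : ℕ), 2 ≤ N0 → (∀ n, 2 ≤ M n) →
  (∀ n, M n ≤ D n) → (∀ n, 0 < f n) →
  (∀ j : ℕ, Tendsto (fun n : ℕ => kap0 (M n ^ Kn) (M n) (1 - (M n)⁻¹) n * D n ^ j)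
    atTop (𝓝 0)) →
  ∀ (d : ∀ n, Dat (M n) (1 - (M n)⁻¹) (mx N0 n) (Real.exp (-f n))) (V : ℕ → ℤ → ℝ),
    (∀ n, CritSol (D n) (d n).G
      (GE.sr (d n).G.rho (2 * mx N0 n) (capW (mx N0 n) (Real.exp (-f n)))) (V n)) →
  ∃ Q : QModel D, ∀ n x, Q.cdf n x = cdfO (mx N0 n) (Real.exp (-f n)) x

/-- SLOW2 : sequences (pure analysis). -/
def SLOW2_Stmt : Prop := ∀ (A : ℝ) (Kn : ℕ), 1 ≤ A → ∀ f : ℕ → ℝ,
  Tendsto (fun n : ℕ => f n * Real.log n) atTop atTop →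
    (∀ K : ℕ, ∀ᶠ n : ℕ in atTop, 0 < f n ∧ Mf A (f n) ^ K ≤ n) ∧
    (∀ j : ℕ, Tendsto (fun n : ℕ => Mf A (f n) ^ j / (n : ℝ)) atTop (𝓝 0)) ∧
    ∀ j : ℕ, Tendsto (fun n : ℕ =>
      kap0 (Mf A (f n) ^ Kn) (Mf A (f n)) (1 - (Mf A (f n))⁻¹) n * Mf A (f n) ^ j)
        atTop (𝓝 0)

/-- the final theorem, version 2 -/
def FINAL2_Stmt : Prop := ∃ μ : Measure ℝ, IsProbabilityMeasure μ ∧
  (∀ x : ℝ, μ {x} = 0 →
    Tendsto (fun n : ℕ => areaCdf n (Staircase n) x) atTop (𝓝 (μ (Set.Iic x)).toReal)) ∧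
  ∀ f : ℕ → ℝ, Tendsto (fun n : ℕ => f n * Real.log n) atTop atTop → ∀ x : ℝ, μ {x} = 0 →
    Tendsto (fun n : ℕ => forceCdf (f n) n x) atTop (𝓝 (μ (Set.Iic x)).toReal)

end Pool.Agent.EXW
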