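import Mathlib
import Pool.Agent.EXW.Stmts2
import Pool.Agent.EXW.QMOD

/-!
# Project EXW, version 2: the critical solution with polynomial bounds
-/

set_option autoImplicit false

namespace Pool.Agent.EXW

open Finset Pool.Agent.Lib27 Pool.Agent.SapR Pool.Agent.Gap Pool.Agent.FL Filter Topology
  Pool.Agent.AreaLaw MeasureTheory
open scoped NNReal ENNReal

namespace QCSaux

/-- the pieces of half length larger than `L` -/
lemma tail_pieces {M : ℝ} (hM : 2 ≤ M) {n : ℕ} {s rho : ℝ} (hT : Tails M (1 - M⁻¹) n s rho)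
    (L : ℕ) :
    ∑ p ∈ (Pc (2 * n - 1)).filter (fun p => L < hl p), rho ^ hl p * s ^ (hl p - htn p) ≤
      M ^ 2 * (1 - M⁻¹) ^ (L + 1) := by
  have hM0 : 0 < M := by linarith
  have hθ := th_pos hM
  have hθ1 := th_lt hM
  set S := (Pc (2 * n - 1)).filter (fun p => L < hl p) with hS
  set N := S.sup hl + 1 with hN
  have hmap : ∀ p ∈ S, hl p ∈ Ico (L + 1) N := by
    intro p hp
    have h1 : hl p ≤ S.sup hl := Finset.le_sup (f := hl) hp
    have h2 : L < hl p := (mem_filter.1 hp).2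
    rw [mem_Ico]
    omega
  rw [← sum_fiberwise_of_maps_to hmap]
  have h1 : ∀ m ∈ Ico (L + 1) N, ∑ p ∈ S.filter (fun p => hl p = m),
      rho ^ hl p * s ^ (hl p - htn p) ≤ M * (1 - M⁻¹) ^ m := by
    intro m hm
    refine le_trans (le_of_eq ?_) (hT.1 m)
    have e : S.filter (fun p => hl p = m) = (Pc (2 * n - 1)).filter (fun p => hl p = m) := by
      rw [hS, filter_filter]
      refine filter_congr fun p _ => ?_
      rw [mem_Ico] at hm
      constructor
      · exact fun h => h.2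
      · exact fun h => ⟨by omega, h⟩
    rw [e]
    refine sum_congr rfl fun p hp => ?_
    rw [(mem_filter.1 hp).2]
  refine (sum_le_sum h1).trans ?_
  rw [← mul_sum]
  have h2 := geom_sum_Ico_le_of_lt_one (m := L + 1) (n := N) hθ.le hθ1
  calc M * ∑ i ∈ Ico (L + 1) N, (1 - M⁻¹) ^ i
      ≤ M * ((1 - M⁻¹) ^ (L + 1) / (1 - (1 - M⁻¹))) := mul_le_mul_of_nonneg_left h2 hM0.le
    _ = M ^ 2 * (1 - M⁻¹) ^ (L + 1) := by
        rw [sub_sub_cancel, div_inv_eq_mul]
        ring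

/-- the tail is small for `L` of the order `M ^ 2` -/
lemma tail_small {M : ℝ} (hM : 2 ≤ M) (J L : ℕ) (hL : ((J : ℝ) + 2) * M ^ 2 ≤ L) :
    M ^ 2 * (1 - M⁻¹) ^ (L + 1) ≤ (M ^ J)⁻¹ := by
  have hM0 : 0 < M := by linarith
  have hθ := th_pos hM
  have h1 : (1 - M⁻¹) ^ (L + 1) ≤ Real.exp (-(((J : ℝ) + 2) * M)) := by
    have h2 : 1 - M⁻¹ ≤ Real.exp (-M⁻¹) := Real.one_sub_le_exp_neg _
    calc (1 - M⁻¹) ^ (L + 1) ≤ Real.exp (-M⁻¹) ^ (L + 1) := pow_le_pow_left₀ hθ.le h2 _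
      _ = Real.exp (-(M⁻¹ * (L + 1))) := by
          rw [← Real.exp_nat_mul]
          congr 1
          push_cast
          ring
      _ ≤ Real.exp (-(((J : ℝ) + 2) * M)) := by
          refine Real.exp_le_exp.2 (neg_le_neg ?_)
          calc ((J : ℝ) + 2) * M = M⁻¹ * (((J : ℝ) + 2) * M ^ 2) := by
                field_simp
            _ ≤ M⁻¹ * (L + 1) :=
                mul_le_mul_of_nonneg_left (by linarith) (inv_pos.2 hM0).le
  have h3 : M ^ (J + 2) ≤ Real.exp (((J : ℝ) + 2) * M) := by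
    have h4 : M ≤ Real.exp M := by
      have := Real.add_one_le_exp M
      linarith
    calc M ^ (J + 2) ≤ Real.exp M ^ (J + 2) := pow_le_pow_left₀ hM0.le h4 _
      _ = Real.exp (((J : ℝ) + 2) * M) := by
          rw [← Real.exp_nat_mul]
          congr 1
          push_cast
          ring
  have h5 : M ^ (J + 2) * (1 - M⁻¹) ^ (L + 1) ≤ 1 := by
    calc M ^ (J + 2) * (1 - M⁻¹) ^ (L + 1)
        ≤ Real.exp (((J : ℝ) + 2) * M) * Real.exp (-(((J : ℝ) + 2) * M)) :=
          mul_le_mul h3 h1 (pow_nonneg hθ.le _) (Real.exp_pos _).le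
      _ = 1 := by rw [← Real.exp_add, add_neg_cancel, Real.exp_zero]
  rw [inv_eq_one_div (M ^ J), le_div_iff₀ (pow_pos hM0 J)]
  calc M ^ 2 * (1 - M⁻¹) ^ (L + 1) * M ^ J = M ^ (J + 2) * (1 - M⁻¹) ^ (L + 1) := by ring
    _ ≤ 1 := h5

/-- the two cases of the pieces which are not allowed -/
lemma split_sum {α : Type} (S : Finset α) (q : α → Prop) [DecidablePred q] (l : α → ℕ) (L : ℕ)
    (f : α → ℝ) (hf : ∀ p, 0 ≤ f p) :
    ∑ p ∈ S.filter q, f p ≤ ∑ p ∈ S.filter (fun p => q p ∧ l p ≤ L), f p +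
      ∑ p ∈ S.filter (fun p => L < l p), f p := by
  rw [← sum_filter_add_sum_filter_not (S.filter q) (fun p => l p ≤ L), filter_filter,
    filter_filter]
  refine add_le_add_right (sum_le_sum_of_subset_of_nonneg ?_ fun p _ _ => hf p) _
  intro p hp
  rw [mem_filter] at hp ⊢
  exact ⟨hp.1, not_le.1 hp.2.2⟩

lemma pow_bound {M : ℝ} (hM : 2 ≤ M) (c : ℕ) : (c : ℝ) ≤ M ^ c := by
  have h1 : (c : ℝ) ≤ 2 ^ c := by exact_mod_cast c.lt_two_pow_self.le
  exact h1.trans (pow_le_pow_left₀ (by norm_num) hM c)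

end QCSaux

open QCSaux in
theorem t_QCS (hGV : QGV_Stmt) (hGV2 : GV2_Stmt) (hPSUM : PSUM_Stmt) (hKAP : KAP_Stmt)
    (hROOM : ROOM_Stmt) : QCS_Stmt := by
  classical
  obtain ⟨Kv, hV⟩ := hGV
  obtain ⟨Kg, J, hV2⟩ := hGV2
  obtain ⟨Ar, hAr, hR⟩ := hROOM
  intro A hA
  set a := ⌈Ar⌉₊ with ha
  set j := 3 * J with hj
  set K1 := ⌈(Real.exp A) ^ (3 * Kv)⌉₊ with hK1
  set b := a + 2 * (j + 3) + 7 with hb
  refine ⟨K1 + 3 * Kg + b, ?_⟩
  intro n f hf
  suffices H : ∀ M : ℝ, M = Mf A f → M ^ (K1 + 3 * Kg + b) ≤ n →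
      ∀ d : Dat2 M (1 - M⁻¹) n (Real.exp (-f)), ∃ V : ℤ → ℝ,
        CritSol (M ^ (K1 + 3 * Kg + b)) d.G
          (GE.sr d.G.rho (2 * n) (capW n (Real.exp (-f)))) V from H _ rfl
  intro M hMdef hn d
  have hmin : 0 < min f 1 := lt_min hf one_pos
  have hM2 : 2 ≤ M := by
    have h1 : 1 ≤ A / min f 1 := by
      rw [le_div_iff₀ hmin, one_mul]
      exact (min_le_right _ _).trans hA
    have h2 := Real.add_one_le_exp (A / min f 1)
    have h3 : M = Real.exp (A / min f 1) := hMdef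
    linarith
  have hM0 : 0 < M := by linarith
  have hM1 : 1 ≤ M := by linarith
  have hM3 : M ≤ M ^ 3 := le_self_pow₀ hM1 (by norm_num)
  have hpm : ∀ {x y : ℕ}, x ≤ y → M ^ x ≤ M ^ y := fun h => pow_le_pow_right₀ hM1 h
  have hcls := cls_mono hM2 hM3 d.cls
  have hsrc := QMODaux.crit_sr hM2 d.cls d.cap
  have hs : 0 < Real.exp (-f) := Real.exp_pos _
  have hs1 : Real.exp (-f) ≤ 1 := by
    rw [Real.exp_le_one_iff]
    linarith
  rcases le_total 1 f with h1f | hf1
  · -- large force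
    obtain ⟨v, hv⟩ := hV (M ^ 3) (hM2.trans hM3) d.G hcls _ _ hsrc
    refine ⟨v, critSol_mono ?_ ?_ hv⟩
    · have h1 : (1 : ℝ) ≤ (M ^ 3) ^ Kv := one_le_pow₀ (by linarith)
      have h2 := Real.add_one_le_exp ((M ^ 3) ^ Kv)
      linarith
    · have e : M = Real.exp A := by
        have h3 : M = Real.exp (A / min f 1) := hMdef
        rw [h3, min_eq_right h1f, div_one]
      have h4 : (M ^ 3) ^ Kv ≤ (K1 : ℝ) := by
        rw [← pow_mul, e]
        exact Nat.le_ceil _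
      calc Real.exp ((M ^ 3) ^ Kv) ≤ Real.exp K1 := Real.exp_le_exp.2 h4
        _ = Real.exp 1 ^ K1 := by rw [← Real.exp_nat_mul, mul_one]
        _ ≤ M ^ K1 := by
            rw [e]
            exact pow_le_pow_left₀ (Real.exp_pos _).le (Real.exp_le_exp.2 hA) _
        _ ≤ M ^ (K1 + 3 * Kg + b) := hpm (by omega)
  · -- small force
    have eM : M = Real.exp (A / f) := by
      have h3 : M = Real.exp (A / min f 1) := hMdef
      rw [h3, min_eq_left hf1]
    obtain ⟨v, hv0, hveq, hv⟩ := hV2 (M ^ 3) (hM2.trans hM3) d.G hcls _ _ hsrc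
    set L := ⌈((j : ℝ) + 2) * M ^ 2⌉₊ with hL
    have hL1 : ((j : ℝ) + 2) * M ^ 2 ≤ L := Nat.le_ceil _
    have hM2' : 1 ≤ M ^ 2 := one_le_pow₀ hM1
    have hL2 : (L : ℝ) ≤ ((j : ℝ) + 3) * M ^ 2 := by
      have h1 := (Nat.ceil_lt_add_one (show 0 ≤ ((j : ℝ) + 2) * M ^ 2 by positivity)).le
      have h2 : ((j : ℝ) + 3) * M ^ 2 = ((j : ℝ) + 2) * M ^ 2 + M ^ 2 := by ring
      rw [h2]
      linarith
    have hL3 : 1 ≤ L := by
      have h1 : (1 : ℝ) ≤ L := by
        refine le_trans ?_ hL1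
        have h2 : (0 : ℝ) ≤ j := Nat.cast_nonneg j
        nlinarith
      exact_mod_cast h1
    have hL4 : (L : ℝ) ≤ M ^ (j + 5) := by
      have h1 := pow_bound hM2 (j + 3)
      push_cast at h1
      calc (L : ℝ) ≤ ((j : ℝ) + 3) * M ^ 2 := hL2
        _ ≤ M ^ (j + 3) * M ^ 2 := mul_le_mul_of_nonneg_right h1 (by positivity)
        _ = M ^ (j + 5) := by ring
    have hX : Real.exp (Ar / f) ≤ M ^ a := by
      rw [eM, ← Real.exp_nat_mul]
      refine Real.exp_le_exp.2 ?_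
      rw [← mul_div_assoc]
      refine div_le_div_of_nonneg_right ?_ hf.le
      have h1 : Ar ≤ (a : ℝ) := Nat.le_ceil _
      nlinarith
    have hn1 : 1 ≤ n := by
      have h1 : (1 : ℝ) ≤ n := (one_le_pow₀ hM1).trans hn
      exact_mod_cast h1
    have hroom : Real.exp (Ar / f) * L ≤ n := by
      refine le_trans ?_ hn
      calc Real.exp (Ar / f) * L ≤ M ^ a * M ^ (j + 5) :=
            mul_le_mul hX hL4 (Nat.cast_nonneg _) (by positivity)
        _ = M ^ (a + (j + 5)) := (pow_add _ _ _).symm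
        _ ≤ _ := hpm (by omega)
    obtain ⟨y, hy, hyk⟩ := hR f hf hf1 n L d.G.rho hL3 hroom d.G.rho_pos d.crit
    set X := Real.exp (Ar / f) with hXdef
    have hX0 : 0 < X := Real.exp_pos _
    -- the exponent
    have hP1 : (2 * (L : ℝ) + 1) * (L + 1) * X ≤ M ^ b := by
      have h1 : (1 : ℝ) ≤ L := by exact_mod_cast hL3
      have h2 : (2 * (L : ℝ) + 1) * (L + 1) ≤ 8 * (L : ℝ) ^ 2 := by nlinarith
      have h3 : (L : ℝ) ^ 2 ≤ (M ^ (j + 5)) ^ 2 := pow_le_pow_left₀ (by linarith) hL4 2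
      have h4 : (8 : ℝ) ≤ M ^ 3 := by
        calc (8 : ℝ) = 2 ^ 3 := by norm_num
          _ ≤ M ^ 3 := pow_le_pow_left₀ (by norm_num) hM2 3
      calc (2 * (L : ℝ) + 1) * (L + 1) * X ≤ (M ^ 3 * (M ^ (j + 5)) ^ 2) * M ^ a := by
            refine mul_le_mul (h2.trans ?_) hX hX0.le (by positivity)
            exact mul_le_mul h4 h3 (by positivity) (by positivity)
        _ = M ^ b := by
            rw [hb, ← pow_mul, ← pow_add, ← pow_add]
            congr 1
            omega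
    refine ⟨v, ?_⟩
    have hP0 : 1 ≤ M ^ b := one_le_pow₀ hM1
    have hsol := hv (M ^ b) hP0 ?_
    · refine critSol_mono ?_ ?_ hsol
      · have h1 : 1 ≤ (M ^ 3) ^ Kg := one_le_pow₀ (by linarith)
        have h2 : 2 ≤ M ^ b := by
          refine hM2.trans ?_
          exact le_self_pow₀ hM1 (by omega)
        nlinarith
      · rw [← pow_mul, ← pow_add]
        exact hpm (by omega)
    · intro g hg
      rw [d.kapEq g hg]
      have hf0 : ∀ p : Wd × Wd, 0 ≤ d.G.rho ^ hl p * Real.exp (-f) ^ (hl p - htn p) :=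
        fun p => mul_nonneg (pow_nonneg d.G.rho_pos.le _) (pow_nonneg hs.le _)
      have hsp := split_sum (Pc (2 * n - 1)) (fun p => p ∉ allowed (2 * n - 1) g) hl L
        (fun p => d.G.rho ^ hl p * Real.exp (-f) ^ (hl p - htn p)) hf0
      have ht := (tail_pieces hM2 d.tails L).trans (tail_small hM2 j L hL1)
      have hk := hKAP n L (Real.exp (-f)) d.G.rho X y hn1 hs hs1 d.G.rho_pos hX0.le hy hyk g hg
      have hps := hPSUM d.G (2 * n) (capW n (Real.exp (-f))) d.B v d.cap.cap d.sol hv0 hveq L g hg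
      have har : ∑ m ∈ range (L + 1), ∑ w ∈ ArchSet (2 * n - 1) g (2 * m),
          d.G.rho ^ m * Real.exp (-f) ^ (m - hgt w) =
          ∑ m ∈ range (L + 1), d.G.rho ^ m * (d.B m g).eval 1 := by
        refine sum_congr rfl fun m _ => ?_
        rw [d.arEq m g hg, mul_sum]
      rw [har] at hk
      have hvg := hv0 g
      have hk2 : ∑ p ∈ (Pc (2 * n - 1)).filter (fun p => p ∉ allowed (2 * n - 1) g ∧ hl p ≤ L),
          d.G.rho ^ hl p * Real.exp (-f) ^ (hl p - htn p) ≤ M ^ b * v g := by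
        refine le_trans (le_trans (le_of_eq ?_) hk) ?_
        · congr
        · exact mul_le_mul hP1 hps (sum_nonneg fun m _ => mul_nonneg
            (pow_nonneg d.G.rho_pos.le _) (by
              rw [d.arEq m g hg]
              exact sum_nonneg fun w _ => pow_nonneg hs.le _)) (by positivity)
      have ej : (M ^ 3) ^ J = M ^ j := by rw [← pow_mul]
      rw [ej]
      refine le_trans (le_of_eq ?_) (hsp.trans ?_)
      · congr
      · linarith

end Pool.Agent.EXW
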