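import Pool.Agent.EXW.Stmts2
import Pool.Agent.Lib_helper27.Surgery
import Pool.Agent.Lib_helper74.MG.Walks

/-!
# Project EXW, version 2: module SPL (splitting of the intersecting strands)
-/

set_option autoImplicit false

namespace Pool.Agent.EXW

open Finset Pool.Agent.Lib27 Pool.Agent.SapR Pool.Agent.Gap Pool.Agent.FL Filter Topology
  Pool.Agent.AreaLaw MeasureTheory
open scoped NNReal ENNReal

/-- a vertex of a word is the origin of the word, an interior vertex, or the end -/
theorem spl_mem {w : Wd} {q p : ℤ × ℤ} (hp : p ∈ vt q w) :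
    p = q ∨ p ∈ (vs q w).tail ∨ p = ep q w := by
  cases w with
  | nil =>
    left
    simpa using hp
  | cons d w =>
    unfold vt at hp
    rw [vs_cons, List.cons_append, List.mem_cons, List.mem_append, List.mem_singleton] at hp
    rcases hp with h | h | h
    · exact Or.inl h
    · exact Or.inr (Or.inl (by rw [vs_cons, List.tail_cons]; exact h))
    · exact Or.inr (Or.inr h)

theorem t_SPL : SPL_Stmt := by
  intro a U D ha hS hD
  obtain ⟨h0, h1, hU, hDn, hUi, hDi⟩ := hS
  unfold Disj at hD
  set Q : ℤ × ℤ := ep 0 U + (-(a + jump (U, D)), a + jump (U, D)) with hQ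
  have hQl : lev Q = lev (ep 0 U) := by
    rw [hQ, lev_add, lev_diag, add_zero]
  have hQD : ep Q D = (-a, a) := by
    rw [ep_eq, hQ]
    have e1 : (ep 0 D).1 + (ep 0 D).2 = -((ep 0 U).1 + (ep 0 U).2) := h1
    refine Prod.ext ?_ ?_
    · simp only [jump, Prod.fst_add]
      ring
    · simp only [jump, Prod.snd_add]
      linarith
  -- the inner vertices of D placed at Q
  have hDv : ∀ p ∈ (vs Q D).tail, 0 < lev p := by
    intro p hp
    rw [vs_eq, ← List.map_tail, List.mem_map] at hp
    obtain ⟨q, hq, rfl⟩ := hp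
    have := (hDi q hq).2
    rw [lev_add, hQl]
    omega
  have hex : ∃ v ∈ vt 0 U, v ∈ vt Q D := by
    by_contra hcon
    push Not at hcon
    exact hD fun v hv hv' => hcon v hv hv'
  obtain ⟨U1, V, hUe, hz, hmin⟩ := split_first (fun w => w ∈ vt Q D) U 0 hex
  obtain ⟨D1, D2, hDe, hz2⟩ := (Lib27.mem_vt_iff Q D _).1 hz
  have hz2' : ep Q D1 = ep 0 U1 := hz2.symm
  -- the level of the common vertex
  have hz0 : ep 0 U1 ∈ vt 0 U := by
    rw [hUe, vt_append, List.mem_append]
    exact Or.inr (mem_vt_self _ _)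
  have hzD : lev (ep 0 U1) = 0 → ep 0 U1 = (-a, a) := by
    intro hl
    rcases spl_mem hz with h | h | h
    · rw [h, hQl] at hl
      omega
    · exact absurd hl (hDv _ h).ne'
    · rw [h, hQD]
  have hz00 : ep 0 U1 ≠ 0 := by
    intro h
    have h2 := hzD (by rw [h, lev_zero])
    rw [h2] at h
    have h3 := congrArg Prod.snd h
    simp only [Prod.snd_zero] at h3
    omega
  have hzpos : 0 < lev (ep 0 U1) ∧ lev (ep 0 U1) ≤ lev (ep 0 U) := by
    rcases spl_mem hz0 with h | h | h
    · exact absurd h hz00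
    · exact ⟨(hUi _ h).1, (hUi _ h).2.le⟩
    · rw [h]
      exact ⟨h0, le_rfl⟩
  have hU1 : U1 ≠ [] := by
    rintro rfl
    exact hz00 rfl
  have hD2 : D2 ≠ [] := by
    rintro rfl
    rw [List.append_nil] at hDe
    rw [← hDe, hQD] at hz2'
    rw [← hz2', lev_diag] at hzpos
    omega
  -- the three conditions of an arch
  have hTe : ep 0 (U1 ++ D2) = (-a, a) := by
    rw [ep_append, ← hz2', ← ep_append, ← hDe, hQD]
  have hDn' : (vt Q D).Nodup := (nodup_vt Q D).2 hDn
  have hsplit : vt Q D = vs Q D1 ++ vt (ep 0 U1) D2 := by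
    rw [hDe, vt_append, hz2']
  have hTn : (vt 0 (U1 ++ D2)).Nodup := by
    rw [vt_append, List.nodup_append']
    refine ⟨?_, ?_, ?_⟩
    · rw [hUe, vt_append] at hU
      exact hU.of_append_left
    · rw [hsplit] at hDn'
      exact hDn'.of_append_right
    · intro v hv hv'
      refine hmin v hv ?_
      rw [hsplit, List.mem_append]
      exact Or.inr hv'
  have hTi : ∀ p ∈ (vs 0 (U1 ++ D2)).tail, 0 < lev p := by
    intro p hp
    have hne : vs 0 U1 ≠ [] := by
      intro h
      have := congrArg List.length h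
      rw [vs_length, List.length_nil, List.length_eq_zero_iff] at this
      exact hU1 this
    rw [vs_append, List.tail_append_of_ne_nil hne, List.mem_append] at hp
    rcases hp with hp | hp
    · refine (hUi p ?_).1
      rw [hUe, vs_append, List.tail_append_of_ne_nil hne, List.mem_append]
      exact Or.inl hp
    · have hp2 : p ∈ vs Q D := by
        rw [hDe, vs_append, hz2', List.mem_append]
        exact Or.inr hp
      cases hD' : D with
      | nil => rw [hD'] at hp2; simp at hp2
      | cons d D' =>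
        rw [hD', vs_cons, List.mem_cons] at hp2
        rcases hp2 with h | h
        · rw [h, hQl]
          exact h0
        · refine hDv p ?_
          rw [hD', vs_cons, List.tail_cons]
          exact h
  refine ⟨U1 ++ D2, V, rv D1, U1.length, (lev (ep 0 U) - lev (ep 0 U1)).toNat,
    ⟨?_, hTe, hTn, hTi⟩, ?_, ?_, ?_, ⟨?_, ?_⟩, ⟨?_, ?_⟩, ?_, ?_⟩
  · simp [hU1]
  · simp
  · rw [List.take_left]
    exact hUe
  · rw [List.drop_left, rv_rv]
    exact hDe
  · rw [hUe, vt_append, List.nodup_append'] at hU
    exact (nodup_vt _ V).1 hU.2.1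
  · rw [Int.toNat_of_nonneg (by omega)]
    have h2 : ep 0 U = ep 0 U1 + ep 0 V := by rw [hUe, ep_append0]
    rw [h2, lev_add]
    ring
  · refine MG.SAWs_rv ?_
    have h2 : (vt 0 (D1 ++ D2)).Nodup := hDe ▸ hDn
    exact (SAWs_append D1 D2 h2).1
  · rw [Int.toNat_of_nonneg (by omega), MG.lev_ep_rv]
    have h2 : lev (ep Q D1) = lev (ep 0 D1) + lev Q := by rw [ep_eq, lev_add]
    rw [hz2', hQl] at h2
    omega
  · unfold htn SapR.ht
    simp only
    omega
  · have h2 : (lev (ep 0 U1)).toNat ≤ hgt (U1 ++ D2) := by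
      unfold hgt
      refine Finset.le_sup (f := fun p => (lev p).toNat) ?_
      rw [List.mem_toFinset, vt_append, List.mem_append]
      exact Or.inr (mem_vt_self _ _)
    unfold htn SapR.ht
    simp only
    omega

end Pool.Agent.EXW
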