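import Pool.Agent.EXW.MainPre2
import Pool.Agent.EXW.QGW
import Pool.Agent.EXW.GV2
import Pool.Agent.EXW.SPL
import Pool.Agent.EXW.KAP
import Pool.Agent.EXW.ROOM
import Pool.Agent.EXW.QCS

/-!
# Project EXW: the final theorem
-/

set_option autoImplicit false

namespace Pool.Agent.EXW

open Finset Pool.Agent.Lib27 Pool.Agent.SapR Pool.Agent.Gap Pool.Agent.FL Filter Topology
  Pool.Agent.AreaLaw MeasureTheory
open scoped NNReal ENNReal

theorem m_QGW : QGW_Stmt := t_QGW t_QGC m_QGSUP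

theorem m_QCS : QCS_Stmt :=
  t_QCS m_QGV (t_GV2 m_QGRE m_QGSUP) t_PSUM (t_KAP t_SPL) (t_ROOM m_MC m_MN t_MA H27.mgi1)

/-- The area law of self-avoiding polygons under forces `f` with `f n * log n → ∞`. -/
theorem main2 : FINAL2_Stmt := m_FINAL2 m_QGW m_QCS

end Pool.Agent.EXW
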