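import Pool.Agent.EXW.StmtsA

/-!
# EXW, module QETA: near the wall the staircase solution is close to 1 (helper29)
-/

set_option autoImplicit false

open Finset Filter Topology

namespace Pool.Agent.EXW

open Pool.Agent.Gap Pool.Agent.FL

theorem t_QETA (hST : ST1_Stmt) : QETA_Stmt := by
  obtain ⟨C, hC, hS⟩ := hST 1 one_pos
  refine ⟨2 * Real.sqrt C, by positivity, ?_⟩
  intro W m N eps w v hW hWm hN hw hwW heps hem hsol g hg
  rw [Finset.mem_Icc] at hg
  have hW0 : 0 < W := by linarith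
  have hm1 : (1 : ℝ) ≤ m := hW.trans hWm
  have hm0 : (0 : ℝ) < m := by linarith
  have hq1 : 1 ≤ (m : ℝ) / W := by rw [le_div_iff₀ hW0]; linarith
  obtain ⟨k, hk⟩ : ∃ k : ℕ, k = ⌊(m : ℝ) / W⌋₊ := ⟨_, rfl⟩
  have hk1 : 1 ≤ k := by
    rw [hk]
    exact Nat.le_floor (by simpa using hq1)
  have hk1' : (1 : ℝ) ≤ k := by exact_mod_cast hk1
  have hk0' : (0 : ℝ) < k := by linarith
  have hkle : (k : ℝ) ≤ m / W := by
    rw [hk]
    exact Nat.floor_le (by positivity)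
  have hkge : (m : ℝ) / W < k + 1 := by
    rw [hk]
    exact Nat.lt_floor_add_one _
  have hkW : (k : ℝ) * W ≤ m := by
    rwa [le_div_iff₀ hW0] at hkle
  have hkm : (k : ℝ) ≤ m := by nlinarith
  have hkm' : k ≤ m := by exact_mod_cast hkm
  have hmk : (m : ℝ) ≤ 2 * W * k := by
    rw [div_lt_iff₀ hW0] at hkge
    nlinarith
  -- the distance to the critical point
  have hz : ‖(1 / 4 : ℂ) - zn (1 / 4) w m‖ ≤ 1 / k := by
    have hu : ‖-(w / m)‖ ≤ 1 := by
      rw [norm_neg, norm_div, Complex.norm_natCast, div_le_one hm0]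
      linarith
    have h1 := Complex.norm_exp_sub_one_le hu
    have e1 : (1 / 4 : ℂ) - zn (1 / 4) w m = -((1 / 4 : ℂ) * (Complex.exp (-(w / m)) - 1)) := by
      unfold zn
      push_cast
      ring
    rw [e1, norm_neg, norm_mul]
    have e2 : ‖(1 / 4 : ℂ)‖ = 1 / 4 := by
      rw [norm_div, norm_one]
      norm_num
    rw [e2]
    have h2 : ‖-(w / m)‖ ≤ W / m := by
      rw [norm_neg, norm_div, Complex.norm_natCast]
      gcongr
    have h3 : W / m ≤ 1 / k := by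
      rw [div_le_div_iff₀ hm0 hk0']
      nlinarith
    have h4 : 0 ≤ ‖-(w / m)‖ := norm_nonneg _
    nlinarith
  -- the force
  have hsq : Real.sqrt k * Real.sqrt W ≤ Real.sqrt m := by
    rw [← Real.sqrt_mul hk0'.le]
    exact Real.sqrt_le_sqrt hkW
  have hsW : 1 ≤ Real.sqrt W := by
    rw [Real.one_le_sqrt]
    exact hW
  have hek : eps * ((k : ℝ) * Real.sqrt k) ≤ 1 := by
    have h1 : ((k : ℝ) * Real.sqrt k) * W ≤ (m : ℝ) * Real.sqrt m := by
      have h2 : Real.sqrt k ≤ Real.sqrt m := Real.sqrt_le_sqrt hkm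
      have h3 : 0 ≤ Real.sqrt k := Real.sqrt_nonneg _
      have h4 : 0 ≤ Real.sqrt m := Real.sqrt_nonneg _
      calc ((k : ℝ) * Real.sqrt k) * W = (k * W) * Real.sqrt k := by ring
        _ ≤ m * Real.sqrt m := by gcongr
    have h5 : eps * (((k : ℝ) * Real.sqrt k) * W) ≤ W :=
      (mul_le_mul_of_nonneg_left h1 heps).trans hem
    have h6 : (eps * ((k : ℝ) * Real.sqrt k)) * W ≤ 1 * W := by
      calc (eps * ((k : ℝ) * Real.sqrt k)) * W = eps * (((k : ℝ) * Real.sqrt k) * W) := by ring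
        _ ≤ W := h5
        _ = 1 * W := by ring
    exact le_of_mul_le_mul_right h6 hW0
  have h1 := hS k N eps (zn (1 / 4) w m) v hk1 (by omega) heps
    (zn_norm_le (1 / 4) (by norm_num) w (by rw [hw]; exact one_pos) _) hz hek hsol g hg.1 hg.2
  have hg1 : (1 : ℝ) ≤ g := by exact_mod_cast hg.1
  have hqm : 0 < qn m := by
    unfold qn
    positivity
  have h2 : (0 : ℝ) ≤ 2 * Real.sqrt C * W * (qn m)⁻¹ * g := by positivity
  refine (sq_le_sq₀ (norm_nonneg _) h2).1 (h1.trans ?_)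
  rw [mul_pow, mul_pow, mul_pow, mul_pow, Real.sq_sqrt hC.le, inv_pow, qn_sq]
  -- `1 / sqrt k ≤ 4 W ^ 2 / sqrt m`
  have hsk : 0 < Real.sqrt k := Real.sqrt_pos.mpr hk0'
  have hsm : 0 < Real.sqrt m := Real.sqrt_pos.mpr hm0
  have h3 : Real.sqrt m ≤ 4 * W ^ 2 * Real.sqrt k := by
    have h4 : Real.sqrt m ≤ Real.sqrt (2 * W) * Real.sqrt k := by
      rw [← Real.sqrt_mul (by positivity)]
      exact Real.sqrt_le_sqrt hmk
    have h5 : Real.sqrt (2 * W) ≤ 4 * W ^ 2 := by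
      rw [Real.sqrt_le_left (by positivity)]
      have : 1 ≤ W ^ 2 := by nlinarith
      nlinarith [mul_le_mul this this (by norm_num) (by positivity)]
    exact h4.trans (by gcongr)
  have h6 : (Real.sqrt k)⁻¹ ≤ 4 * W ^ 2 * (Real.sqrt m)⁻¹ := by
    rw [← div_eq_mul_inv, inv_eq_one_div, div_le_div_iff₀ hsk hsm]
    linarith
  calc C * (g : ℝ) ^ 2 / Real.sqrt k = C * (g : ℝ) ^ 2 * (Real.sqrt k)⁻¹ := by rw [div_eq_mul_inv]
    _ ≤ C * (g : ℝ) ^ 2 * (4 * W ^ 2 * (Real.sqrt m)⁻¹) := by gcongr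
    _ = 2 ^ 2 * C * W ^ 2 * (Real.sqrt m)⁻¹ * (g : ℝ) ^ 2 := by ring

end Pool.Agent.EXW
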