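import Pool.Agent.EXW.StmtsA
import Pool.Agent.Lib_helper89.FL.GEB

/-!
# QGEB: residual of the staircase solution, with explicit constants
-/

set_option autoImplicit false

open Finset Filter Topology

namespace Pool.Agent.EXW

open Pool.Agent.Gap Pool.Agent.FL

namespace QGEBaux

open Pool.Agent.FL.GEB Pool.Agent.Gap.EBaux in
/-- the old theorem with an explicit constant -/
theorem core {C θ r θ1 K c0 c1 : ℝ} (hC : 0 < C) (hθ : 0 < θ) (r0 : 0 < r) (_r1 : r < 1) (rr : r ^ 2 = θ)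
    (t0 : 0 < θ1) (t1 : θ1 < 1) (tt : θ1 ^ 2 = r) (hK0 : 0 < K)
    (hK : ∀ M : ℕ, ∑ m ∈ range M, (m : ℝ) ^ 5 * r ^ m ≤ K)
    (hc0 : c0 = C ^ 2 + 5 * C + 24 + 342) (hc1 : c1 = 5 * C + 184) (hc00 : 0 < c0)
    (hc10 : 0 < c1) :
    ∀ G : GapKernel, Cls C θ G →
  ∀ (N : ℕ) (eps eps' η : ℝ) (z z' : ℂ) (v : ℤ → ℂ), 0 ≤ eps → eps ≤ 1 → 0 ≤ eps' → eps' ≤ 1 →
    ‖z‖ ≤ G.rho → ‖z'‖ ≤ 1 / 4 → ‖(1 / 4 : ℂ) - z'‖ ≤ 1 / 8 → 0 ≤ η →
    stair.Solves eps' z' N v (src1 z') → (∀ g ∈ Icc (1 : ℤ) N, ‖v g - 1‖ ≤ η * g) →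
    ∃ rb rl : ℤ → ℂ, (∀ g ∈ Icc (1 : ℤ) N, G.Lop eps z N v g = (G.kap g : ℂ) + rb g + rl g) ∧
      Real.sqrt (nsq N rb)
        ≤ ‖2 * (G.sig2 : ℂ) * (1 - 4 * z') - (G.mbar : ℂ) * (1 - z / (G.rho : ℂ))‖
              * Real.sqrt (nsq N v)
          + 2 * |2 * G.sig2 * eps' - G.hbar * eps| * Real.sqrt (nsq N (mulg 1 v))
          + (7 * c0 * (C * K) + c1 * (C * K)) *
            ((‖(G.rho : ℂ) - z‖ + ‖(1 / 4 : ℂ) - z'‖) * Real.sqrt (En N v)
              + (eps + eps') * (Real.sqrt (En N (mulg 1 v)) + Real.sqrt (nsq N v))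
              + (‖(G.rho : ℂ) - z‖ + ‖(1 / 4 : ℂ) - z'‖) ^ 2 * Real.sqrt (nsq N v)
              + (eps + eps') ^ 2 * Real.sqrt (nsq N (mulg 2 v)) + ‖v N‖) ∧
      ∀ g ∈ Icc (1 : ℤ) N, ‖rl g‖ ≤ (7 * c0 * (C * K) + c1 * (C * K)) * θ1 ^ g.toNat *
        (η + ‖(G.rho : ℂ) - z‖ + ‖(1 / 4 : ℂ) - z'‖ + eps + eps' + (N : ℝ)⁻¹) := by
  intro G hG N eps eps' η z z' v heps heps1 heps' heps1' hz hz4 hz' hη hsol hv
  have hL := hG.loc
  have hrp := G.rho_pos
  have hs := hsol.1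
  set D : ℝ := ‖(G.rho : ℂ) - z‖ + ‖(1 / 4 : ℂ) - z'‖ with hD
  set e : ℝ := eps + eps' with he
  have hD0 : 0 ≤ D := by positivity
  have he0 : 0 ≤ e := by positivity
  have hDa : ‖(G.rho : ℂ) - z‖ ≤ D := by rw [hD]; have := norm_nonneg ((1 / 4 : ℂ) - z'); linarith
  have hDb : ‖(1 / 4 : ℂ) - z'‖ ≤ D := by rw [hD]; have := norm_nonneg ((G.rho : ℂ) - z); linarith
  -- sums over the types
  have S1 : ∑ i ∈ G.S, G.rho ^ i.1 * G.tot i * (i.1 : ℝ) ^ 5 ≤ C * K := by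
    obtain ⟨M, hM⟩ := sum_types G hG.dec (fun m => (m : ℝ) ^ 5) (fun m => by positivity)
    refine hM.trans (mul_le_mul_of_nonneg_left ?_ hC.le)
    refine le_trans (Finset.sum_le_sum fun m _ => ?_) (hK M)
    rw [mul_comm]
    refine mul_le_mul_of_nonneg_left ?_ (by positivity)
    have : θ ≤ r := by rw [← rr]; nlinarith
    exact pow_le_pow_left₀ hθ.le this m
  have S2 : ∀ g : ℤ, ∑ i ∈ G.S.filter (fun i => g ≤ 2 * (i.1 : ℤ)),
      G.rho ^ i.1 * G.tot i * (i.1 : ℝ) ^ 5 ≤ C * K * θ1 ^ g.toNat := by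
    intro g
    have e1 : ∑ i ∈ G.S.filter (fun i => g ≤ 2 * (i.1 : ℤ)),
        G.rho ^ i.1 * G.tot i * (i.1 : ℝ) ^ 5
        = ∑ i ∈ G.S, G.rho ^ i.1 * G.tot i *
          (if g ≤ 2 * (i.1 : ℤ) then (i.1 : ℝ) ^ 5 else 0) := by
      rw [Finset.sum_filter]
      refine Finset.sum_congr rfl fun i _ => ?_
      split_ifs <;> simp
    rw [e1]
    obtain ⟨M, hM⟩ := sum_types G hG.dec
      (fun m => if g ≤ 2 * (m : ℤ) then (m : ℝ) ^ 5 else 0)
      (fun m => by split_ifs <;> positivity)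
    refine hM.trans ?_
    rw [mul_assoc]
    refine mul_le_mul_of_nonneg_left ?_ hC.le
    calc ∑ m ∈ range M, θ ^ m * (if g ≤ 2 * (m : ℤ) then (m : ℝ) ^ 5 else 0)
        ≤ ∑ m ∈ range M, ((m : ℝ) ^ 5 * r ^ m) * θ1 ^ g.toNat := by
          refine Finset.sum_le_sum fun m _ => ?_
          split_ifs with h
          · have h1 : θ ^ m = r ^ m * θ1 ^ (2 * m) := by
              rw [← rr, pow_mul θ1, tt, ← pow_mul, mul_comm 2 m, pow_mul, pow_two]
            have h2 : θ1 ^ (2 * m) ≤ θ1 ^ g.toNat :=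
              pow_le_pow_of_le_one t0.le t1.le (by omega)
            rw [h1]
            have h3 : 0 ≤ (m : ℝ) ^ 5 * r ^ m := by positivity
            calc r ^ m * θ1 ^ (2 * m) * (m : ℝ) ^ 5 = ((m : ℝ) ^ 5 * r ^ m) * θ1 ^ (2 * m) := by
                  ring
              _ ≤ _ := mul_le_mul_of_nonneg_left h2 h3
          · rw [mul_zero]
            positivity
      _ = (∑ m ∈ range M, (m : ℝ) ^ 5 * r ^ m) * θ1 ^ g.toNat := by rw [Finset.sum_mul]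
      _ ≤ K * θ1 ^ g.toNat := mul_le_mul_of_nonneg_right (hK M) (by positivity)
  -- the two parts
  set dl : ℕ × ℕ → ℤ → ℂ := fun i g => tI G eps z v i g - mI G eps eps' z z' v i g with hdl
  refine ⟨fun g => ∑ i ∈ G.S, (G.rho : ℂ) ^ i.1 * mI G eps eps' z z' v i g
      + ∑ i ∈ G.S.filter (fun i => ¬ g ≤ 2 * (i.1 : ℤ)), (G.rho : ℂ) ^ i.1 * dl i g,
    fun g => ∑ i ∈ G.S.filter (fun i => g ≤ 2 * (i.1 : ℤ)), (G.rho : ℂ) ^ i.1 * dl i g,
    ?_, ?_, ?_⟩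
  · intro g _
    rw [lop_eq G hs]
    have h1 := Finset.sum_filter_add_sum_filter_not G.S (fun i => g ≤ 2 * (i.1 : ℤ))
      (fun i => (G.rho : ℂ) ^ i.1 * dl i g)
    have h2 : ∑ i ∈ G.S, (G.rho : ℂ) ^ i.1 * dl i g
        = ∑ i ∈ G.S, (G.rho : ℂ) ^ i.1 * tI G eps z v i g
          - ∑ i ∈ G.S, (G.rho : ℂ) ^ i.1 * mI G eps eps' z z' v i g := by
      rw [← Finset.sum_sub_distrib]
      refine Finset.sum_congr rfl fun i _ => ?_
      rw [hdl]
      ring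
    rw [h2] at h1
    linear_combination -h1
  · -- the bulk part
    set s := Icc (1 : ℤ) N with hsdef
    set a : ℝ := ‖2 * (G.sig2 : ℂ) * (1 - 4 * z') - (G.mbar : ℂ) * (1 - z / (G.rho : ℂ))‖ with ha
    set b : ℝ := 2 * |2 * G.sig2 * eps' - G.hbar * eps| with hb
    set B : ℝ := D * Real.sqrt (En N v)
        + e * (Real.sqrt (En N (mulg 1 v)) + Real.sqrt (nsq N v))
        + D ^ 2 * Real.sqrt (nsq N v) + e ^ 2 * Real.sqrt (nsq N (mulg 2 v)) + ‖v N‖ with hB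
    have hB0 : 0 ≤ B := by positivity
    have pt : ∀ g ∈ s, ‖∑ i ∈ G.S, (G.rho : ℂ) ^ i.1 * mI G eps eps' z z' v i g
        + ∑ i ∈ G.S.filter (fun i => ¬ g ≤ 2 * (i.1 : ℤ)), (G.rho : ℂ) ^ i.1 * dl i g‖
        ≤ (a * ‖v g‖ + b * ‖mulg 1 v g‖) + ∑ i ∈ G.S,
          (G.rho ^ i.1 * G.tot i * (c0 * (i.1 : ℝ) ^ 4)) * FS (2 * i.1) N D e v g := by
      intro g _
      refine (norm_add_le _ _).trans (add_le_add ?_ ?_)
      · rw [main_eq]
        refine (norm_add_le _ _).trans (add_le_add ?_ ?_)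
        · rw [norm_mul, ha, norm_sub_rev]
        · rw [norm_mul, norm_mul, Complex.norm_ofNat, Complex.norm_real, hb, Real.norm_eq_abs,
            abs_sub_comm]
      · refine (norm_sum_le _ _).trans ?_
        have h1 : ∀ i ∈ G.S.filter (fun i => ¬ g ≤ 2 * (i.1 : ℤ)), ‖(G.rho : ℂ) ^ i.1 * dl i g‖
            ≤ (G.rho ^ i.1 * G.tot i * (c0 * (i.1 : ℝ) ^ 4)) * FS (2 * i.1) N D e v g := by
          intro i hi
          rw [Finset.mem_filter] at hi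
          have hi1 := (G.pos_mem i hi.1).1
          have hi2 := hL.h_le i hi.1
          have ht := G.tot_nonneg i
          have hm : (1 : ℝ) ≤ i.1 := by exact_mod_cast hi1
          rw [norm_mul, norm_pow, Complex.norm_real, Real.norm_of_nonneg hrp.le,
            mul_assoc, mul_assoc (G.rho ^ i.1)]
          refine mul_le_mul_of_nonneg_left ?_ (by positivity)
          have h2 := bulkI G hL hsol hDa hDb heps (by linarith : eps ≤ e) heps'
            (by linarith : eps' ≤ e) hz hz' i (not_le.mp hi.2)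
          refine h2.trans ?_
          rw [← mul_assoc]
          refine mul_le_mul_of_nonneg_right ?_ (FS_nonneg hD0 he0)
          have h3 : C1 (2 * i.1) G.rho i ≤ (C ^ 2 + 5 * C + 24) * (i.1 : ℝ) ^ 4 := by
            have := C1_le (h := (i.2 : ℝ)) hC hG.rho_ge hrp hm (by positivity)
              (by exact_mod_cast hi2)
            unfold C1
            push_cast
            exact this
          have h4 : G.tot i * C1 (2 * i.1) G.rho i
              ≤ G.tot i * ((C ^ 2 + 5 * C + 24) * (i.1 : ℝ) ^ 4) :=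
            mul_le_mul_of_nonneg_left h3 ht
          have h5 : 1 / 2 * s2 G i * 171 ≤ G.tot i * (342 * (i.1 : ℝ) ^ 4) := by
            have h6 := s2_le G hL i
            have h7 : (i.1 : ℝ) ^ 2 ≤ (i.1 : ℝ) ^ 4 := pow_le_pow_right₀ hm (by norm_num)
            have h8 : G.tot i * (342 * (i.1 : ℝ) ^ 2) ≤ G.tot i * (342 * (i.1 : ℝ) ^ 4) := by
              refine mul_le_mul_of_nonneg_left ?_ ht
              linarith
            linarith
          have h9 : G.tot i * (c0 * (i.1 : ℝ) ^ 4)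
              = G.tot i * ((C ^ 2 + 5 * C + 24) * (i.1 : ℝ) ^ 4)
                + G.tot i * (342 * (i.1 : ℝ) ^ 4) := by rw [hc0]; ring
          rw [h9]
          exact add_le_add h4 h5
        refine (Finset.sum_le_sum h1).trans ?_
        refine Finset.sum_le_sum_of_subset_of_nonneg (Finset.filter_subset _ _) ?_
        intro i _ _
        have ht := G.tot_nonneg i
        have := FS_nonneg (R := 2 * i.1) (N := N) (v := v) (g := g) hD0 he0
        positivity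
    have L : Real.sqrt (nsq N (fun g => ∑ i ∈ G.S, (G.rho : ℂ) ^ i.1 * mI G eps eps' z z' v i g
        + ∑ i ∈ G.S.filter (fun i => ¬ g ≤ 2 * (i.1 : ℤ)), (G.rho : ℂ) ^ i.1 * dl i g))
        = nr s (fun g => ‖∑ i ∈ G.S, (G.rho : ℂ) ^ i.1 * mI G eps eps' z z' v i g
        + ∑ i ∈ G.S.filter (fun i => ¬ g ≤ 2 * (i.1 : ℤ)), (G.rho : ℂ) ^ i.1 * dl i g‖) := rfl
    rw [L]
    refine (nr_mono s _ _ (fun g _ => norm_nonneg _) pt).trans ?_
    refine (nr_add _ _ _).trans ?_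
    have step1 : nr s (fun g => a * ‖v g‖ + b * ‖mulg 1 v g‖)
        ≤ a * Real.sqrt (nsq N v) + b * Real.sqrt (nsq N (mulg 1 v)) := by
      refine (nr_add _ _ _).trans (add_le_add ?_ ?_)
      · rw [nr_mul _ _ (norm_nonneg _)]
        exact le_rfl
      · rw [nr_mul _ _ (by positivity)]
        exact le_rfl
    have stepFS : ∀ i : ℕ × ℕ, nr s (FS (2 * i.1) N D e v) ≤ (4 * (i.1 : ℝ) + 3) * B := by
      intro i
      unfold FS
      refine (nr_sum s _ _).trans ?_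
      have h5 : ∀ j ∈ Icc (-((2 * i.1 + 1 : ℕ) : ℤ)) ((2 * i.1 + 1 : ℕ) : ℤ),
          nr s (fun g => F0 N D e v (g + j)) ≤ B := by
        intro j _
        exact (nr_shift s (Icc (0 : ℤ) N) _ j (F0_out hs)).trans (nr_F0 hD0 he0 hs)
      refine (Finset.sum_le_sum h5).trans ?_
      rw [Finset.sum_const, nsmul_eq_mul, Int.card_Icc]
      apply le_of_eq
      congr 1
      have h6 : (((2 * i.1 + 1 : ℕ) : ℤ) + 1 - -((2 * i.1 + 1 : ℕ) : ℤ)).toNat
          = 4 * i.1 + 3 := by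
        omega
      rw [h6]
      push_cast
      ring
    have step2 : nr s (fun g => ∑ i ∈ G.S,
        (G.rho ^ i.1 * G.tot i * (c0 * (i.1 : ℝ) ^ 4)) * FS (2 * i.1) N D e v g)
        ≤ 7 * c0 * (C * K) * B := by
      refine (nr_sum s _ _).trans ?_
      have h1 : ∀ i ∈ G.S, nr s (fun g =>
          (G.rho ^ i.1 * G.tot i * (c0 * (i.1 : ℝ) ^ 4)) * FS (2 * i.1) N D e v g)
          ≤ (G.rho ^ i.1 * G.tot i * (i.1 : ℝ) ^ 5) * (7 * c0 * B) := by
        intro i hi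
        have ht := G.tot_nonneg i
        have hm : (1 : ℝ) ≤ i.1 := by exact_mod_cast (G.pos_mem i hi).1
        have hp : 0 ≤ G.rho ^ i.1 * G.tot i * (c0 * (i.1 : ℝ) ^ 4) := by positivity
        rw [nr_mul _ _ hp]
        refine (mul_le_mul_of_nonneg_left (stepFS i) hp).trans ?_
        have h2 : 4 * (i.1 : ℝ) + 3 ≤ 7 * i.1 := by linarith
        calc G.rho ^ i.1 * G.tot i * (c0 * (i.1 : ℝ) ^ 4) * ((4 * (i.1 : ℝ) + 3) * B)
            ≤ G.rho ^ i.1 * G.tot i * (c0 * (i.1 : ℝ) ^ 4) * ((7 * i.1) * B) := by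
              refine mul_le_mul_of_nonneg_left ?_ hp
              exact mul_le_mul_of_nonneg_right h2 hB0
          _ = _ := by ring
      refine (Finset.sum_le_sum h1).trans ?_
      rw [← Finset.sum_mul]
      calc (∑ i ∈ G.S, G.rho ^ i.1 * G.tot i * (i.1 : ℝ) ^ 5) * (7 * c0 * B)
          ≤ (C * K) * (7 * c0 * B) := mul_le_mul_of_nonneg_right S1 (by positivity)
        _ = _ := by ring
    have step3 : 7 * c0 * (C * K) * B ≤ (7 * c0 * (C * K) + c1 * (C * K)) * B := by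
      refine mul_le_mul_of_nonneg_right ?_ hB0
      have : 0 ≤ c1 * (C * K) := by positivity
      linarith
    linarith
  · -- the wall part
    intro g hg
    set E : ℝ := η + ‖(G.rho : ℂ) - z‖ + ‖(1 / 4 : ℂ) - z'‖ + eps + eps' + (N : ℝ)⁻¹ with hE
    have hE0 : 0 ≤ E := by positivity
    refine (norm_sum_le _ _).trans ?_
    have h1 : ∀ i ∈ G.S.filter (fun i => g ≤ 2 * (i.1 : ℤ)), ‖(G.rho : ℂ) ^ i.1 * dl i g‖
        ≤ (G.rho ^ i.1 * G.tot i * (i.1 : ℝ) ^ 5) * (c1 * E) := by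
      intro i hi
      rw [Finset.mem_filter] at hi
      have ht := G.tot_nonneg i
      have hm : (1 : ℝ) ≤ i.1 := by exact_mod_cast (G.pos_mem i hi.1).1
      rw [norm_mul, norm_pow, Complex.norm_real, Real.norm_of_nonneg hrp.le]
      have h2 := wallI G hL hC hG.rho_ge heps heps1 heps' heps1' hz hz' hη hs hv
        (le_of_eq hE.symm) i hi.1 hg hi.2
      have h3 : G.tot i * ((5 * C + 184) * (i.1 : ℝ) ^ 4 * E)
          ≤ G.tot i * ((5 * C + 184) * (i.1 : ℝ) ^ 5 * E) := by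
        refine mul_le_mul_of_nonneg_left ?_ ht
        refine mul_le_mul_of_nonneg_right ?_ hE0
        refine mul_le_mul_of_nonneg_left ?_ (by positivity)
        exact pow_le_pow_right₀ hm (by norm_num)
      calc G.rho ^ i.1 * ‖dl i g‖
          ≤ G.rho ^ i.1 * (G.tot i * ((5 * C + 184) * (i.1 : ℝ) ^ 5 * E)) :=
            mul_le_mul_of_nonneg_left (h2.trans h3) (by positivity)
        _ = _ := by rw [hc1]; ring
    refine (Finset.sum_le_sum h1).trans ?_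
    rw [← Finset.sum_mul]
    calc (∑ i ∈ G.S.filter (fun i => g ≤ 2 * (i.1 : ℤ)),
          G.rho ^ i.1 * G.tot i * (i.1 : ℝ) ^ 5) * (c1 * E)
        ≤ (C * K * θ1 ^ g.toNat) * (c1 * E) :=
          mul_le_mul_of_nonneg_right (S2 g) (by positivity)
      _ = (c1 * (C * K)) * θ1 ^ g.toNat * E := by ring
      _ ≤ (7 * c0 * (C * K) + c1 * (C * K)) * θ1 ^ g.toNat * E := by
        refine mul_le_mul_of_nonneg_right ?_ hE0
        refine mul_le_mul_of_nonneg_right ?_ (by positivity)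
        have : 0 ≤ 7 * c0 * (C * K) := by positivity
        linarith


/-- the finite sums -/
theorem sum_bd {r : ℝ} (h0 : 0 < r) (h1 : r < 1) (M : ℕ) :
    ∑ m ∈ range M, (m : ℝ) ^ 5 * r ^ m ≤ ∑' m : ℕ, (m : ℝ) ^ 5 * r ^ m + 1 := by
  have hs : Summable fun m : ℕ => (m : ℝ) ^ 5 * r ^ m := by
    apply summable_pow_mul_geometric_of_norm_lt_one
    rw [Real.norm_of_nonneg h0.le]
    exact h1
  have := hs.sum_le_tsum (range M) (fun m _ => by positivity)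
  linarith

/-- the constant -/
noncomputable def C1 (D : ℝ) : ℝ :=
  7 * (D ^ 2 + 5 * D + 24 + 342) *
      (D * (∑' m : ℕ, (m : ℝ) ^ 5 * Real.sqrt (1 - D⁻¹) ^ m + 1)) +
    (5 * D + 184) * (D * (∑' m : ℕ, (m : ℝ) ^ 5 * Real.sqrt (1 - D⁻¹) ^ m + 1))

/-- the sum for the wall part -/
noncomputable def T4 (D : ℝ) : ℝ := ∑' m : ℕ, (m : ℝ) ^ 4 * Real.sqrt (Real.sqrt (1 - D⁻¹)) ^ m

theorem pb_C1 : PB C1 := by
  have h5 : PB fun D : ℝ => ∑' m : ℕ, (m : ℝ) ^ 5 * Real.sqrt (1 - D⁻¹) ^ m :=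
    PB.geo' 5 (fun D _ => Real.sqrt_nonneg _) (LB.invmul (c := 2) (by norm_num)) fun D hD => sqrt_th hD
  have hs : PB fun D : ℝ => D * (∑' m : ℕ, (m : ℝ) ^ 5 * Real.sqrt (1 - D⁻¹) ^ m + 1) :=
    PB.id.mul (h5.add (PB.const 1))
  have h1 : PB fun D : ℝ => 7 * (D ^ 2 + 5 * D + 24 + 342) :=
    (PB.const 7).mul ((((PB.id.pow 2).add ((PB.const 5).mul PB.id)).add (PB.const 24)).add
      (PB.const 342))
  have h2 : PB fun D : ℝ => 5 * D + 184 := ((PB.const 5).mul PB.id).add (PB.const 184)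
  exact (h1.mul hs).add (h2.mul hs)

theorem pb_T4 : PB T4 :=
  PB.geo' 4 (fun D _ => Real.sqrt_nonneg _) (LB.invmul (c := 4) (by norm_num))
    fun D hD => sqrt_sqrt_th hD

end QGEBaux

open QGEBaux in
theorem t_QGEB : QGEB_Stmt := by
  obtain ⟨K1, hK1⟩ := pb_C1.le
  obtain ⟨K2, hK2⟩ := (pb_C1.mul pb_T4).le
  refine ⟨max K1 K2, ?_⟩
  intro D hD G hG N eps eps' η z z' v heps heps1 heps' heps1' hz hz4 hz' hη hsol hv
  have hD0 : 0 < D := by linarith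
  have hθ := th_pos hD
  have hθ1 := th_lt hD
  have r0 : 0 < Real.sqrt (1 - D⁻¹) := Real.sqrt_pos.mpr hθ
  have r1 : Real.sqrt (1 - D⁻¹) < 1 := by rw [Real.sqrt_lt' one_pos]; linarith
  have rr : Real.sqrt (1 - D⁻¹) ^ 2 = 1 - D⁻¹ := Real.sq_sqrt hθ.le
  have t0 : 0 < Real.sqrt (Real.sqrt (1 - D⁻¹)) := Real.sqrt_pos.mpr r0
  have t1 : Real.sqrt (Real.sqrt (1 - D⁻¹)) < 1 := by rw [Real.sqrt_lt' one_pos]; linarith
  have tt : Real.sqrt (Real.sqrt (1 - D⁻¹)) ^ 2 = Real.sqrt (1 - D⁻¹) := Real.sq_sqrt r0.le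
  have hts : 0 ≤ ∑' m : ℕ, (m : ℝ) ^ 5 * Real.sqrt (1 - D⁻¹) ^ m :=
    tsum_nonneg fun m => by positivity
  obtain ⟨rb, rl, h1, h2, h3⟩ := core (C := D) hD0 hθ r0 r1 rr t0 t1 tt
    (by linarith) (sum_bd r0 r1) rfl rfl (by positivity) (by positivity) G hG N eps eps' η z z' v
    heps heps1 heps' heps1' hz hz4 hz' hη hsol hv
  have hC1 : 7 * (D ^ 2 + 5 * D + 24 + 342) *
      (D * (∑' m : ℕ, (m : ℝ) ^ 5 * Real.sqrt (1 - D⁻¹) ^ m + 1)) +
      (5 * D + 184) * (D * (∑' m : ℕ, (m : ℝ) ^ 5 * Real.sqrt (1 - D⁻¹) ^ m + 1)) = C1 D := rfl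
  rw [hC1] at h2 h3
  have hC0 : 0 ≤ C1 D := by
    unfold C1
    positivity
  refine ⟨rb, rl, h1, h2.trans ?_, ?_⟩
  · have hle : C1 D ≤ D ^ (max K1 K2) := (hK1 D hD).trans (PB.pow_mono hD (le_max_left _ _))
    gcongr
  · have hS : 0 ≤ η + ‖(G.rho : ℂ) - z‖ + ‖(1 / 4 : ℂ) - z'‖ + eps + eps' + (N : ℝ)⁻¹ := by
      positivity
    have h4 := GE.lw_exp t0 t1 N rl (C1 D) _ hC0 hS h3
    refine h4.trans ?_
    have hle : C1 D * T4 D ≤ D ^ (max K1 K2) := (hK2 D hD).trans (PB.pow_mono hD (le_max_right _ _))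
    calc C1 D * (η + ‖(G.rho : ℂ) - z‖ + ‖(1 / 4 : ℂ) - z'‖ + eps + eps' + (N : ℝ)⁻¹) *
          ∑' m : ℕ, (m : ℝ) ^ 4 * Real.sqrt (Real.sqrt (1 - D⁻¹)) ^ m
        = (C1 D * T4 D) *
          (η + ‖(G.rho : ℂ) - z‖ + ‖(1 / 4 : ℂ) - z'‖ + eps + eps' + (N : ℝ)⁻¹) := by
          unfold T4
          ring
      _ ≤ _ := mul_le_mul_of_nonneg_right hle hS

end Pool.Agent.EXW
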