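import Mathlib
import Pool.Agent.EXW.StmtsA
import Pool.Agent.Lib_helper89.FL.GJ2
import Pool.Agent.Lib_helper89.FL.GC2

/-! Project EXW, module QGJ2: bounds of the closed generating functions by powers of the class
parameter. -/

set_option autoImplicit false

open Finset Filter Topology

namespace Pool.Agent.EXW

open Pool.Agent.Gap Pool.Agent.FL Pool.Agent.Gap.H22 Pool.Agent.FL.GJ2

/-- the constant of the module -/
noncomputable def qgj2Bd (M C CW CS CR Cc : ℝ) : ℝ :=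
  (2 * (CS * M * M) + (M * (Cc * (CS * M * M)) +
      C * M * ((Real.sqrt CW * M) * (Real.sqrt CW * M)))) +
    (M * (Real.sqrt CW * M) + 2 * (M * (CR * (M + M * (Real.sqrt CW * M)))) +
      (Real.sqrt CW * M) * M + (Real.sqrt CW * M) * (M * (Real.sqrt CW * M)) +
      2 * ((Real.sqrt CW * M) * (M * (CR * (M + M * (Real.sqrt CW * M)))))) + 1

theorem qgj2_core {C θ CW CS CR Cc : ℝ} (hC0 : 0 < C) (hθ0 : 0 < θ) (hθ1 : θ < 1)
    (hCW : 0 < CW) (hCS : 0 < CS) (hCR : 0 < CR) (hCc : 0 < Cc)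
    (H2 : ∀ G : GapKernel, Loc G →
      ∀ (N : ℕ) (eps : ℝ) (i : ℕ × ℕ) (f h : ℤ → ℂ), i ∈ G.S → 0 ≤ eps → Supp N f → Supp N h →
        ‖(G.tot i : ℂ) * ∑ g ∈ Icc (1 : ℤ) N, f g * h g
          - ∑ g ∈ Icc (1 : ℤ) N, ∑ g' ∈ Icc (1 : ℤ) N,
              ((G.K i g g' * GapKernel.wt eps i g g' : ℝ) : ℂ) * f g * h g'‖
          ≤ Cc * (i.1 : ℝ) ^ 3 * G.tot i *
            (Real.sqrt (En N f + Pot eps N f) * Real.sqrt (En N h + Pot eps N h)))
    (HR : ∀ G : GapKernel, Cls C θ G →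
      ∀ (N : ℕ) (eps : ℝ) (z : ℂ), 0 ≤ eps → ‖z‖ ≤ G.rho →
        (∀ e : ℤ → ℂ, ∃ v : ℤ → ℂ, G.Solves eps z N v e) ∧
        (∀ v v' e : ℤ → ℂ, G.Solves eps z N v e → G.Solves eps z N v' e → v = v') ∧
        (∀ v e : ℤ → ℂ, G.Solves eps z N v e →
          ‖(G.rho : ℂ) - z‖ * Real.sqrt (nsq N v) ≤ CR * Real.sqrt (nsq N e) ∧
          En N v + Pot eps N v ≤ CR * (Real.sqrt (nsq N v) * Real.sqrt (nsq N e))))
    (HS : ∀ G : GapKernel, Cls C θ G →
      ∀ (N : ℕ) (eps : ℝ) (z : ℂ) (v e : ℤ → ℂ), 0 ≤ eps → ‖z‖ ≤ G.rho →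
        G.Solves eps z N v e →
        (∀ g, ‖v g‖ ≤ CS * lw 1 N e) ∧ En N v + Pot eps N v ≤ CS * (lw 1 N e) ^ 2)
    (HW : ∀ G : GapKernel, Cls C θ G →
      ∀ (N : ℕ) (eps : ℝ) (z : ℂ) (v e : ℤ → ℂ), 0 ≤ eps → ‖z‖ ≤ G.rho → z ≠ (G.rho : ℂ) →
        G.Solves eps z N v e →
        (∀ k : ℕ, k ≤ 2 → nsq N (mulg k v)
            ≤ CW * (lw 4 N e) ^ 2 / (Real.sqrt ‖(G.rho : ℂ) - z‖ * ‖(G.rho : ℂ) - z‖ ^ k)) ∧
        (∀ k : ℕ, 1 ≤ k → k ≤ 2 → En N (mulg k v) + Pot eps N (mulg k v)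
            ≤ CW * (lw 4 N e) ^ 2 * Real.sqrt ‖(G.rho : ℂ) - z‖ / ‖(G.rho : ℂ) - z‖ ^ k))
    (G : GapKernel) (hG : Cls C θ G) (C0 : ℕ) (s t : ℕ → ℤ → ℝ)
    (hs' : ClsCap C θ G C0 s) (ht' : ClsCap C θ G C0 t) (N : ℕ) (eps : ℝ) (heps : 0 ≤ eps)
    (hN : C0 ≤ N) (b b' : ℕ → ℤ → ℝ) (hb : IsArr G s eps N b) (hb' : IsArr G t eps N b')
    (z : ℂ) (hz : ‖z‖ < G.rho) :
    (∀ j, Summable fun n : ℕ => ‖((n : ℂ)) ^ j * ((close C0 t b n : ℝ) : ℂ) * z ^ n‖) ∧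
    ‖sgf 1 (close C0 t b) z - (G.mbar : ℂ) * ∑ g ∈ Icc (1 : ℤ) N, gf 0 b z g * gf 0 b' z g‖
      ≤ qgj2Bd (Sk C θ) C CW CS CR Cc ∧
    ‖sgf 2 (close C0 t b) z‖ * (‖(G.rho : ℂ) - z‖ * Real.sqrt ‖(G.rho : ℂ) - z‖) ≤
      qgj2Bd (Sk C θ) C CW CS CR Cc := by
  unfold qgj2Bd
  set M : ℝ := Sk C θ with hM
  have hM0 : 0 ≤ M := Sk_nonneg hC0 hθ0
  set A0 : ℝ := Real.sqrt CW * M with hA0
  have hA00 : 0 ≤ A0 := by positivity
  set A1 : ℝ := CR * (M + M * A0) with hA1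
  have hA10 : 0 ≤ A1 := by positivity
  set D1 : ℝ := 2 * (CS * M * M) + (M * (Cc * (CS * M * M)) + C * M * (A0 * A0)) with hD1
  have hD10 : 0 ≤ D1 := by positivity
  set D2 : ℝ := M * A0 + 2 * (M * A1) + A0 * M + A0 * (M * A0) + 2 * (A0 * (M * A1)) with hD2
  have hD20 : 0 ≤ D2 := by positivity
  have hs : IsCap C0 s := hs'.cap
  have ht : IsCap C0 t := ht'.cap
  have hρ := G.rho_pos
  have hz' : ‖z‖ ≤ G.rho := hz.le
  have hzne : z ≠ (G.rho : ℂ) := by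
    rintro rfl
    rw [Complex.norm_real, Real.norm_eq_abs, abs_of_pos hρ] at hz
    exact lt_irrefl _ hz
  set δ : ℝ := ‖(G.rho : ℂ) - z‖ with hδ
  have hδ0 : 0 < δ := norm_pos_iff.mpr (sub_ne_zero.mpr (Ne.symm hzne))
  have hδ2 : δ ≤ 1 := by
    have h5 : δ ≤ 2 * G.rho := delta_le hz'
    have h6 := rho_le G
    linarith
  set q : ℝ := Real.sqrt (Real.sqrt δ) with hq
  have hqpos : 0 < q := Real.sqrt_pos.mpr (Real.sqrt_pos.mpr hδ0)
  have hq2 : Real.sqrt δ = q ^ 2 := (Real.sq_sqrt (Real.sqrt_nonneg _)).symm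
  have hq4 : δ = q ^ 4 := by
    have : δ = Real.sqrt δ ^ 2 := (Real.sq_sqrt hδ0.le).symm
    rw [this, hq2]
    ring
  have hqq0 : q ≤ 1 := Real.sqrt_le_one.2 (Real.sqrt_le_one.2 hδ2)
  have hqk : ∀ k : ℕ, q ^ k ≤ 1 := fun k => pow_le_one₀ hqpos.le hqq0
  set V : ℕ → ℤ → ℂ := fun j => gf j b z with hV
  set U : ℤ → ℂ := gf 0 b' z with hU
  have sV : ∀ j, G.Solves eps z N (V j) (fun g => capz C0 s j z g +
      ∑ l ∈ range j, ((j.choose l : ℕ) : ℂ) * G.Kap (j - l) eps z N (V l) g) :=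
    (((J1 G C0 s hs N eps heps).2 b hb).2.2.2) z hz
  have sU : G.Solves eps z N U (capz C0 t 0 z) := by
    have := (((J1 G C0 t ht N eps heps).2 b' hb').2.2.2) z hz 0
    simpa using this
  have sV0 : G.Solves eps z N (V 0) (capz C0 s 0 z) := by
    have := sV 0
    simpa using this
  have nS : ∀ j : ℕ, j ≤ 3 → nrm N (capz C0 s j z) ≤ M := fun j hj =>
    nrm_capz_le' hC0 hθ0 hθ1 hs' N j hj hz'
  have nT : ∀ j : ℕ, j ≤ 3 → nrm N (capz C0 t j z) ≤ M := fun j hj =>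
    nrm_capz_le' hC0 hθ0 hθ1 ht' N j hj hz'
  have nK : ∀ (j : ℕ) (f : ℤ → ℂ), j ≤ 3 → nrm N (G.Kap j eps z N f) ≤ M * nrm N f :=
    fun j f hj => nrm_Kap_le' hC0 hθ0 hθ1 hG heps hz' j hj N f
  -- L2 bounds at level 0
  have lev0 : ∀ (f e : ℤ → ℂ), G.Solves eps z N f e → lw 4 N e ≤ M →
      nrm N f * q ≤ A0 := by
    intro f e hs1 hl
    have h1 := (HW G hG N eps z f e heps hz' hzne hs1).1 0 (by norm_num)
    have h3 : mulg 0 f = f := by funext g; simp [mulg]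
    rw [h3, pow_zero, mul_one, ← hδ, hq2, le_div_iff₀ (by positivity), ← nrm_sq] at h1
    have h4 : (nrm N f * q) ^ 2 ≤ (Real.sqrt CW * M) ^ 2 := by
      rw [mul_pow, mul_pow, Real.sq_sqrt hCW.le]
      exact h1.trans (mul_le_mul_of_nonneg_left (pow_le_pow_left₀ (lw_nonneg _ _ _) hl 2) hCW.le)
    exact (pow_le_pow_iff_left₀ (mul_nonneg (nrm_nonneg _ _) hqpos.le) (by positivity)
      two_ne_zero).mp h4
  set a0 : ℝ := nrm N (V 0) with ha0
  set a1 : ℝ := nrm N (V 1) with ha1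
  set w0 : ℝ := nrm N U with hw0
  have a00 : 0 ≤ a0 := nrm_nonneg _ _
  have a10 : 0 ≤ a1 := nrm_nonneg _ _
  have w00 : 0 ≤ w0 := nrm_nonneg _ _
  have b0 : a0 * q ≤ A0 := lev0 _ _ sV0 (lw_capz_le hC0 hθ0 hθ1 hs' N 4 le_rfl 0 (by norm_num) hz')
  have bw : w0 * q ≤ A0 := lev0 _ _ sU (lw_capz_le hC0 hθ0 hθ1 ht' N 4 le_rfl 0 (by norm_num) hz')
  -- level 1
  have b1 : a1 * q ^ 5 ≤ A1 := by
    have h1 := ((HR G hG N eps z heps hz').2.2 _ _ (sV 1)).1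
    have h3 : nrm N (fun g => capz C0 s 1 z g +
      ∑ l ∈ range 1, (((1 : ℕ).choose l : ℕ) : ℂ) * G.Kap (1 - l) eps z N (V l) g) ≤
        M + M * a0 := by
      refine (nrm_add N _ _).trans (add_le_add (nS 1 (by norm_num)) ?_)
      have h4 : (fun g => ∑ l ∈ range 1, (((1 : ℕ).choose l : ℕ) : ℂ) *
          G.Kap (1 - l) eps z N (V l) g) = G.Kap 1 eps z N (V 0) := by
        funext g
        simp
      rw [h4]
      exact nK 1 (V 0) (by norm_num)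
    have h4 : q ^ 4 * a1 ≤ CR * (M + M * a0) := by
      rw [← hq4]
      exact h1.trans (mul_le_mul_of_nonneg_left h3 hCR.le)
    have h5 := mul_le_mul_of_nonneg_right h4 hqpos.le
    have h6 : M * q ≤ M := mul_le_of_le_one_right hM0 hqq0
    calc a1 * q ^ 5 = q ^ 4 * a1 * q := by ring
      _ ≤ CR * (M + M * a0) * q := h5
      _ = CR * (M * q + M * (a0 * q)) := by ring
      _ ≤ A1 := by
        rw [hA1]
        exact mul_le_mul_of_nonneg_left (add_le_add h6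
          (mul_le_mul_of_nonneg_left b0 hM0)) hCR.le
  -- pairings
  have P1 : ∀ (k : ℕ) (f : ℤ → ℂ), k ≤ 3 → ‖∑ g ∈ Icc (1 : ℤ) N, capz C0 t k z g * f g‖ ≤
      M * nrm N f := fun k f hk =>
    (pair_le N _ _).trans (mul_le_mul_of_nonneg_right (nT k hk) (nrm_nonneg _ _))
  have P2 : ∀ (k : ℕ), k ≤ 3 → ‖∑ g ∈ Icc (1 : ℤ) N, U g * capz C0 s k z g‖ ≤ w0 * M :=
    fun k hk => (pair_le N _ _).trans (mul_le_mul_of_nonneg_left (nS k hk) w00)
  have P3 : ∀ (k : ℕ) (f : ℤ → ℂ), k ≤ 3 → ‖∑ g ∈ Icc (1 : ℤ) N, U g * G.Kap k eps z N f g‖ ≤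
      w0 * (M * nrm N f) := fun k f hk =>
    (pair_le N _ _).trans (mul_le_mul_of_nonneg_left (nK k f hk) w00)
  have e1 := sgf_eq hs ht heps hN hb hb' z hz 1
  have e2 := sgf_eq hs ht heps hN hb hb' z hz 2
  simp only [Finset.sum_range_succ, Finset.sum_range_zero, Nat.choose_zero_right, Nat.cast_one,
    one_mul, Nat.sub_zero, zero_add] at e1 e2
  have c21 : ((Nat.choose 2 1 : ℕ) : ℂ) = 2 := by norm_num
  have n2 : ‖(2 : ℂ)‖ = 2 := by norm_num
  rw [c21] at e2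
  refine ⟨?_, ?_, ?_⟩
  · intro j
    exact (close_hasSum hs ht heps hb z hz j).summable.norm
  · -- first derivative
    have l1S : lw 1 N (capz C0 s 0 z) ≤ M :=
      lw_capz_le hC0 hθ0 hθ1 hs' N 1 (by norm_num) 0 (by norm_num) hz'
    have l1T : lw 1 N (capz C0 t 0 z) ≤ M :=
      lw_capz_le hC0 hθ0 hθ1 ht' N 1 (by norm_num) 0 (by norm_num) hz'
    have hsup : ∀ g, ‖V 0 g‖ ≤ CS * M := fun g =>
      ((HS G hG N eps z _ _ heps hz' sV0).1 g).trans (mul_le_mul_of_nonneg_left l1S hCS.le)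
    have hsupU : ∀ g, ‖U g‖ ≤ CS * M := fun g =>
      ((HS G hG N eps z _ _ heps hz' sU).1 g).trans (mul_le_mul_of_nonneg_left l1T hCS.le)
    have hEV : En N (V 0) + Pot eps N (V 0) ≤ CS * M ^ 2 :=
      (HS G hG N eps z _ _ heps hz' sV0).2.trans
        (mul_le_mul_of_nonneg_left (pow_le_pow_left₀ (lw_nonneg _ _ _) l1S 2) hCS.le)
    have hEU : En N U + Pot eps N U ≤ CS * M ^ 2 :=
      (HS G hG N eps z _ _ heps hz' sU).2.trans
        (mul_le_mul_of_nonneg_left (pow_le_pow_left₀ (lw_nonneg _ _ _) l1T 2) hCS.le)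
    have t1 : ‖∑ g ∈ Icc (1 : ℤ) N, capz C0 t 1 z g * V 0 g‖ ≤ CS * M * M := by
      refine (norm_sum_le _ _).trans ?_
      calc ∑ g ∈ Icc (1 : ℤ) N, ‖capz C0 t 1 z g * V 0 g‖
          ≤ ∑ g ∈ Icc (1 : ℤ) N, ‖capz C0 t 1 z g‖ * (CS * M) := by
            refine Finset.sum_le_sum fun g _ => ?_
            rw [norm_mul]
            exact mul_le_mul_of_nonneg_left (hsup g) (norm_nonneg _)
        _ = (∑ g ∈ Icc (1 : ℤ) N, ‖capz C0 t 1 z g‖) * (CS * M) := by rw [Finset.sum_mul]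
        _ ≤ M * (CS * M) := mul_le_mul_of_nonneg_right
            (sum_norm_capz_le hC0 hθ0 hθ1 ht' N 1 (by norm_num) hz') (by positivity)
        _ = _ := by ring
    have t2 : ‖∑ g ∈ Icc (1 : ℤ) N, U g * capz C0 s 1 z g‖ ≤ CS * M * M := by
      refine (norm_sum_le _ _).trans ?_
      calc ∑ g ∈ Icc (1 : ℤ) N, ‖U g * capz C0 s 1 z g‖
          ≤ ∑ g ∈ Icc (1 : ℤ) N, ‖capz C0 s 1 z g‖ * (CS * M) := by
            refine Finset.sum_le_sum fun g _ => ?_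
            rw [norm_mul, mul_comm]
            exact mul_le_mul_of_nonneg_left (hsupU g) (norm_nonneg _)
        _ = (∑ g ∈ Icc (1 : ℤ) N, ‖capz C0 s 1 z g‖) * (CS * M) := by rw [Finset.sum_mul]
        _ ≤ M * (CS * M) := mul_le_mul_of_nonneg_right
            (sum_norm_capz_le hC0 hθ0 hθ1 hs' N 1 (by norm_num) hz') (by positivity)
        _ = _ := by ring
    set Q : ℂ := ∑ g ∈ Icc (1 : ℤ) N, gf 0 b z g * gf 0 b' z g with hQ
    have hQ' : ∑ g ∈ Icc (1 : ℤ) N, U g * V 0 g = Q := by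
      rw [hQ]
      exact Finset.sum_congr rfl fun g _ => mul_comm _ _
    have hQn : q ^ 2 * ‖Q‖ ≤ A0 * A0 := by
      have h5 : ‖Q‖ ≤ w0 * a0 := by
        rw [← hQ']
        exact pair_le N _ _
      calc q ^ 2 * ‖Q‖ ≤ q ^ 2 * (w0 * a0) := mul_le_mul_of_nonneg_left h5 (by positivity)
        _ = (w0 * q) * (a0 * q) := by ring
        _ ≤ A0 * A0 := mul_le_mul bw b0 (by positivity) hA00
    have suppV : Supp N (V 0) := sV0.1
    have suppU : Supp N U := sU.1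
    set Bi : ℕ × ℕ → ℂ := fun i => ∑ g ∈ Icc (1 : ℤ) N, ∑ g' ∈ Icc (1 : ℤ) N,
          ((G.K i g g' * GapKernel.wt eps i g g' : ℝ) : ℂ) * U g * V 0 g' with hBi
    have hBi2 : ∀ i ∈ G.S, ‖(G.tot i : ℂ) * Q - Bi i‖ ≤
        (i.1 : ℝ) ^ 3 * G.tot i * (Cc * (CS * M * M)) := by
      intro i hi
      have h5 := H2 G hG.loc N eps i U (V 0) hi heps suppU suppV
      rw [hQ'] at h5
      have h6 : Real.sqrt (En N U + Pot eps N U) ≤ Real.sqrt CS * M := by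
        refine (Real.sqrt_le_sqrt hEU).trans (le_of_eq ?_)
        rw [Real.sqrt_mul hCS.le, Real.sqrt_sq hM0]
      have h7 : Real.sqrt (En N (V 0) + Pot eps N (V 0)) ≤ Real.sqrt CS * M := by
        refine (Real.sqrt_le_sqrt hEV).trans (le_of_eq ?_)
        rw [Real.sqrt_mul hCS.le, Real.sqrt_sq hM0]
      have h8 : Real.sqrt CS * Real.sqrt CS = CS := Real.mul_self_sqrt hCS.le
      have h9 : Real.sqrt (En N U + Pot eps N U) * Real.sqrt (En N (V 0) + Pot eps N (V 0)) ≤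
          CS * M * M := by
        refine (mul_le_mul h6 h7 (Real.sqrt_nonneg _) (by positivity)).trans (le_of_eq ?_)
        calc Real.sqrt CS * M * (Real.sqrt CS * M) = (Real.sqrt CS * Real.sqrt CS) * M * M := by ring
          _ = _ := by rw [h8]
      have h10 := G.tot_nonneg i
      calc _ ≤ Cc * (i.1 : ℝ) ^ 3 * G.tot i *
            (Real.sqrt (En N U + Pot eps N U) * Real.sqrt (En N (V 0) + Pot eps N (V 0))) := h5
        _ ≤ Cc * (i.1 : ℝ) ^ 3 * G.tot i * (CS * M * M) :=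
            mul_le_mul_of_nonneg_left h9 (by positivity)
        _ = _ := by ring
    have t3 : ‖(∑ g ∈ Icc (1 : ℤ) N, U g * G.Kap 1 eps z N (V 0) g) - (G.mbar : ℂ) * Q‖ ≤
        M * (Cc * (CS * M * M)) + C * M * (A0 * A0) := by
      have t4 : ‖(∑ g ∈ Icc (1 : ℤ) N, U g * G.Kap 1 eps z N (V 0) g) - (G.mbar : ℂ) * Q‖ ≤
          ∑ i ∈ G.S, ((i.1 : ℝ) ^ 4 * G.rho ^ i.1 * G.tot i * (Cc * (CS * M * M)) +
            C * ((i.1 : ℝ) ^ 2 * G.rho ^ i.1 * G.tot i) * (A0 * A0)) := by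
        rw [nrm_Kap_sum, mbar_eq, Finset.sum_mul, ← Finset.sum_sub_distrib]
        refine (norm_sum_le _ _).trans (Finset.sum_le_sum fun i hi => ?_)
        have h5 : ((i.1 : ℂ)) ^ 1 * z ^ i.1 * Bi i -
            (i.1 : ℂ) * (G.rho : ℂ) ^ i.1 * (G.tot i : ℂ) * Q =
            -((i.1 : ℂ) * z ^ i.1 * ((G.tot i : ℂ) * Q - Bi i)) +
              (i.1 : ℂ) * (z ^ i.1 - (G.rho : ℂ) ^ i.1) * (G.tot i : ℂ) * Q := by ring
        rw [h5]
        have h7 := G.tot_nonneg i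
        refine (norm_add_le _ _).trans (add_le_add ?_ ?_)
        · rw [norm_neg, norm_mul, norm_mul, norm_pow, Complex.norm_natCast]
          calc (i.1 : ℝ) * ‖z‖ ^ i.1 * ‖(G.tot i : ℂ) * Q - Bi i‖
              ≤ (i.1 : ℝ) * G.rho ^ i.1 * ((i.1 : ℝ) ^ 3 * G.tot i * (Cc * (CS * M * M))) := by
                refine mul_le_mul (mul_le_mul_of_nonneg_left
                  (pow_le_pow_left₀ (norm_nonneg _) hz' _) (Nat.cast_nonneg _)) (hBi2 i hi)
                  (norm_nonneg _) (by positivity)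
            _ = _ := by ring
        · rw [norm_mul, norm_mul, norm_mul, Complex.norm_natCast, Complex.norm_real,
            Real.norm_eq_abs, abs_of_nonneg (G.tot_nonneg i)]
          have h6 := norm_pow_sub_le hρ.le hz' i.1
          rw [← hδ, hq4] at h6
          have h8 : G.rho ^ (i.1 - 1) ≤ C * G.rho ^ i.1 := by
            have h9 : 1 ≤ i.1 := (G.pos_mem i hi).1
            have h10 : 1 ≤ C * G.rho := by
              have h11 := mul_le_mul_of_nonneg_left hG.rho_ge hC0.le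
              rwa [mul_inv_cancel₀ hC0.ne'] at h11
            obtain ⟨k, hk⟩ := Nat.exists_eq_add_of_le' h9
            rw [hk, Nat.add_sub_cancel, pow_succ]
            have h12 : 0 ≤ G.rho ^ k := by positivity
            nlinarith
          calc (i.1 : ℝ) * ‖z ^ i.1 - (G.rho : ℂ) ^ i.1‖ * G.tot i * ‖Q‖
              ≤ (i.1 : ℝ) * (i.1 * G.rho ^ (i.1 - 1) * q ^ 4) * G.tot i * ‖Q‖ := by
                gcongr
            _ = (i.1 : ℝ) ^ 2 * G.tot i * (q ^ 2 * (q ^ 2 * ‖Q‖)) * G.rho ^ (i.1 - 1) := by ring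
            _ ≤ (i.1 : ℝ) ^ 2 * G.tot i * (1 * (A0 * A0)) * (C * G.rho ^ i.1) := by
                refine mul_le_mul ?_ h8 (by positivity) (by positivity)
                exact mul_le_mul_of_nonneg_left (mul_le_mul (hqk 2) hQn (by positivity)
                  (by positivity)) (by positivity)
            _ = _ := by ring
      refine t4.trans ?_
      rw [Finset.sum_add_distrib, ← Finset.sum_mul, ← Finset.sum_mul, ← Finset.mul_sum]
      refine add_le_add (mul_le_mul_of_nonneg_right (mass_le hC0 hθ0 hθ1 hG 4 (by norm_num))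
        (by positivity)) (mul_le_mul_of_nonneg_right (mul_le_mul_of_nonneg_left
          (mass_le hC0 hθ0 hθ1 hG 2 (by norm_num)) hC0.le) (by positivity))
    have hfin : ‖sgf 1 (close C0 t b) z - (G.mbar : ℂ) * Q‖ ≤ D1 := by
      rw [e1]
      have h5 : (∑ g ∈ Icc (1 : ℤ) N, capz C0 t 1 z g * gf 0 b z g +
          ∑ g ∈ Icc (1 : ℤ) N, gf 0 b' z g * capz C0 s 1 z g +
          ∑ g ∈ Icc (1 : ℤ) N, gf 0 b' z g * G.Kap 1 eps z N (gf 0 b z) g) - (G.mbar : ℂ) * Q =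
          (∑ g ∈ Icc (1 : ℤ) N, capz C0 t 1 z g * V 0 g +
          ∑ g ∈ Icc (1 : ℤ) N, U g * capz C0 s 1 z g) +
          ((∑ g ∈ Icc (1 : ℤ) N, U g * G.Kap 1 eps z N (V 0) g) - (G.mbar : ℂ) * Q) := by
        simp only [hV, hU]
        ring
      rw [h5, hD1]
      refine (norm_add_le _ _).trans (add_le_add ((norm_add_le _ _).trans ?_) t3)
      linarith
    linarith
  · -- second derivative
    have h1 : ‖sgf 2 (close C0 t b) z‖ ≤ M * a0 + 2 * (M * a1) + w0 * M +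
        (w0 * (M * a0) + 2 * (w0 * (M * a1))) := by
      rw [e2]
      refine (norm_add_le _ _).trans (add_le_add ((norm_add_le _ _).trans (add_le_add
        ((norm_add_le _ _).trans (add_le_add (P1 2 _ (by norm_num)) ?_)) (P2 2 (by norm_num))))
        ((norm_add_le _ _).trans (add_le_add (P3 2 _ (by norm_num)) ?_)))
      · rw [norm_mul, n2]
        exact mul_le_mul_of_nonneg_left (P1 1 _ (by norm_num)) (by norm_num)
      · rw [norm_mul, n2]
        exact mul_le_mul_of_nonneg_left (P3 1 _ (by norm_num)) (by norm_num)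
    have h3 : ‖sgf 2 (close C0 t b) z‖ * q ^ 6 ≤ D2 := by
      have h4 := mul_le_mul_of_nonneg_right h1 (pow_nonneg hqpos.le 6)
      have i1 : (a0 * q) * q ^ 5 ≤ A0 * 1 := mul_le_mul b0 (hqk 5) (by positivity) hA00
      have i2 : (a1 * q ^ 5) * q ≤ A1 * 1 := mul_le_mul b1 hqq0 (by positivity) hA10
      have i3 : (w0 * q) * M * q ^ 5 ≤ A0 * M * 1 :=
        mul_le_mul (mul_le_mul_of_nonneg_right bw hM0) (hqk 5) (by positivity) (by positivity)
      have i4 : (w0 * q) * (M * (a0 * q)) * q ^ 4 ≤ A0 * (M * A0) * 1 :=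
        mul_le_mul (mul_le_mul bw (mul_le_mul_of_nonneg_left b0 hM0) (by positivity) hA00)
          (hqk 4) (by positivity) (by positivity)
      have i5 : (w0 * q) * (M * (a1 * q ^ 5)) ≤ A0 * (M * A1) :=
        mul_le_mul bw (mul_le_mul_of_nonneg_left b1 hM0) (by positivity) hA00
      have i1' := mul_le_mul_of_nonneg_left i1 hM0
      have i2' := mul_le_mul_of_nonneg_left i2 hM0
      refine h4.trans ?_
      rw [hD2]
      have h5 : (M * a0 + 2 * (M * a1) + w0 * M + (w0 * (M * a0) + 2 * (w0 * (M * a1)))) * q ^ 6 =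
          M * ((a0 * q) * q ^ 5) + 2 * (M * ((a1 * q ^ 5) * q)) + (w0 * q) * M * q ^ 5 +
          (w0 * q) * (M * (a0 * q)) * q ^ 4 + 2 * ((w0 * q) * (M * (a1 * q ^ 5))) := by ring
      rw [h5]
      linarith
    rw [hq2]
    have h5 : δ * q ^ 2 = q ^ 6 := by rw [hq4]; ring
    rw [h5]
    linarith

/-- MODULE QGJ2 -/
theorem t_QGJ2 (_hC : QGC_Stmt) (hRE : QGRE_Stmt) (hSUP : QGSUP_Stmt) (hW : QGW_Stmt) :
    QGJ2_Stmt := by
  obtain ⟨KW, HW⟩ := hW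
  obtain ⟨KS, HS⟩ := hSUP
  obtain ⟨KR, HR⟩ := hRE
  obtain ⟨Cc, hCc, H2⟩ := FL.gc2
  have pM : PB fun D => Sk D (1 - D⁻¹) :=
    PB.id.mul (PB.geo 7 (fun D hD => (th_pos hD).le) LB.inv_self fun D _ => le_rfl)
  have pS : PB fun D => D ^ KS := PB.pow_self KS
  have pR : PB fun D => D ^ KR := PB.pow_self KR
  have pc : PB fun _ => Cc := PB.const Cc
  have p2 : PB fun _ => (2 : ℝ) := PB.const 2
  have pA0 : PB fun D => Real.sqrt (D ^ KW) * Sk D (1 - D⁻¹) := (PB.pow_self KW).sqrt.mul pM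
  have pA1 : PB fun D => D ^ KR * (Sk D (1 - D⁻¹) +
      Sk D (1 - D⁻¹) * (Real.sqrt (D ^ KW) * Sk D (1 - D⁻¹))) :=
    pR.mul (pM.add (pM.mul pA0))
  have pD1 := (p2.mul ((pS.mul pM).mul pM)).add
    ((pM.mul (pc.mul ((pS.mul pM).mul pM))).add ((PB.id.mul pM).mul (pA0.mul pA0)))
  have pD2 := ((((pM.mul pA0).add (p2.mul (pM.mul pA1))).add (pA0.mul pM)).add
    (pA0.mul (pM.mul pA0))).add (p2.mul (pA0.mul (pM.mul pA1)))
  have pBd : PB fun D => qgj2Bd (Sk D (1 - D⁻¹)) D (D ^ KW) (D ^ KS) (D ^ KR) Cc :=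
    (pD1.add pD2).add (PB.const 1)
  obtain ⟨K, hK⟩ := pBd.le
  refine ⟨K, ?_⟩
  intro D hD G hG C0 s t hs ht N eps heps hN b b' hb hb' z hz
  have hD0 : (0 : ℝ) < D := by linarith
  obtain ⟨h1, h2, h3⟩ := qgj2_core hD0 (th_pos hD) (th_lt hD) (pow_pos hD0 KW) (pow_pos hD0 KS)
    (pow_pos hD0 KR) hCc H2 (HR D hD) (HS D hD) (HW D hD) G hG C0 s t hs ht N eps heps hN b b'
    hb hb' z hz
  exact ⟨h1, h2.trans (hK D hD), h3.trans (hK D hD)⟩

end Pool.Agent.EXW
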