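import Pool.Agent.EXW.StmtsA
import Pool.Agent.Lib_helper89.FL.GSUP

/-! Project EXW, module QGSUP: arbitrary sources, weight `g`, with a constant `D ^ K`. -/

set_option autoImplicit false

open Finset Filter Topology

namespace Pool.Agent.EXW

open Pool.Agent.Gap Pool.Agent.FL

/-- MODULE QGSUP -/
theorem t_QGSUP (h : QGC_Stmt) (h2 : QGRE_Stmt) : QGSUP_Stmt := by
  obtain ⟨K1, hC⟩ := h
  obtain ⟨K2, hRE⟩ := h2
  refine ⟨2 * K1 + 1, ?_⟩
  intro D hD G hG N eps z v e heps hz hs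
  have hDp : 0 < D ^ K1 := by positivity
  have hc : 0 < (D ^ K1)⁻¹ := by positivity
  have hCo : H22.Coer G ((D ^ K1)⁻¹) := hC D hD G hG
  obtain ⟨hex, huniq, _⟩ := hRE D hD G hG N eps z heps hz
  have hl := GSUP.lw_nonneg 1 N e
  have hD1 : (1 : ℝ) ≤ D ^ K1 := one_le_pow₀ (by linarith)
  have hK : D ^ (2 * K1 + 1) = D ^ K1 * D ^ K1 * D := by ring
  have hb1 : 1 / (D ^ K1)⁻¹ ≤ D ^ (2 * K1 + 1) := by
    rw [one_div, inv_inv, hK]
    have h3 : D ^ K1 * 1 ≤ D ^ K1 * D ^ K1 := mul_le_mul_of_nonneg_left hD1 hDp.le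
    have h4 : 0 ≤ D ^ K1 * D ^ K1 := by positivity
    nlinarith
  have hb2 : 1 / ((D ^ K1)⁻¹) ^ 2 ≤ D ^ (2 * K1 + 1) := by
    rw [one_div, inv_pow, inv_inv, hK]
    have h4 : 0 ≤ D ^ K1 * D ^ K1 := by positivity
    nlinarith
  refine ⟨fun g => ?_, ?_⟩
  · choose V hV using fun a : ℤ => hex (fun g => if g = a then e a else 0)
    have h3 := GSUP.solves_sum (Icc (1 : ℤ) N) V _ (fun a _ => hV a)
    have h4 : G.Solves eps z N (fun g => ∑ a ∈ Icc (1 : ℤ) N, V a g) e := by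
      refine ⟨h3.1, fun g hg => ?_⟩
      rw [h3.2 g hg]
      show ∑ a ∈ Icc (1 : ℤ) N, (if g = a then e a else 0) = e g
      rw [Finset.sum_ite_eq, if_pos hg]
    have h5 := huniq _ _ _ hs h4
    rw [h5]
    calc ‖∑ a ∈ Icc (1 : ℤ) N, V a g‖ ≤ ∑ a ∈ Icc (1 : ℤ) N, ‖V a g‖ := norm_sum_le _ _
      _ ≤ ∑ a ∈ Icc (1 : ℤ) N, (a : ℝ) / (D ^ K1)⁻¹ * ‖e a‖ :=
        Finset.sum_le_sum fun a ha => GSUP.single hc hCo heps hz a (Finset.mem_Icc.1 ha).1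
          (e a) (hV a) g
      _ = 1 / (D ^ K1)⁻¹ * lw 1 N e := by
        rw [GSUP.lw1, Finset.mul_sum]
        exact Finset.sum_congr rfl fun a _ => by ring
      _ ≤ D ^ (2 * K1 + 1) * lw 1 N e := mul_le_mul_of_nonneg_right hb1 hl
  · refine (GSUP.energy hc hCo heps hz hs).trans ?_
    exact mul_le_mul_of_nonneg_right hb2 (sq_nonneg _)

end Pool.Agent.EXW
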