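import Pool.Agent.EXW.StmtsA
import Pool.Agent.Lib_helper89.FL.GVL

/-!
# Module QGVL: the limit of the critical solution with a rate
-/

set_option autoImplicit false

open Finset Filter Topology

namespace Pool.Agent.EXW

open Pool.Agent.Gap Pool.Agent.FL Pool.Agent.Gap.VL Pool.Agent.FL.GVL

namespace QGVL

/-- constant of the defect -/
noncomputable def q1 (C θ : ℝ) : ℝ := (C + C * (C / (1 - √θ))) / (1 - √(√θ)) ^ 2

/-- first constant -/
noncomputable def x1 (C θ : ℝ) : ℝ := 2 * C * q1 C θ * ∑' n : ℕ, (n : ℝ) ^ 2 * (√(√θ)) ^ n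

/-- second constant -/
noncomputable def c2 (C θ : ℝ) : ℝ := C * (x1 C θ + 3 * (2 * C) ^ 2 * P5 C θ)

/-- final constant -/
noncomputable def c3 (C θ : ℝ) : ℝ :=
  C * (x1 C θ + (P5 C θ * c2 C θ + 12 * (2 * C) ^ 2 * P5 C θ) / 2) + 1

/-- the old module with explicit constants -/
theorem core {C θ : ℝ} (hC : 0 < C) (h0 : 0 < θ) (h1 : θ < 1) (G : GapKernel) (hG : Cls C θ G)
    (R' : ℕ) (s v : ℤ → ℝ) (hs : CritSrc C θ R' s) (hv : CritSol C G s v) :
    ∃ A : ℝ, C⁻¹ ≤ A ∧ A ≤ C ∧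
      ∀ N : ℕ, ∑ g ∈ Icc (1 : ℤ) N, (g : ℝ) ^ 2 * (v g - A) ^ 2 ≤ c3 C θ := by
  obtain ⟨a1, a2, a3, a4, a5⟩ := root_bounds h0 h1
  set φ := √(√θ) with hφ
  set W0 := C / (1 - √θ) with hW0
  have hW0n : 0 ≤ W0 := div_nonneg hC.le (by linarith)
  set q0 := C + C * W0 with hq0
  have hq0n : 0 ≤ q0 := by positivity
  have h1φ : 0 < 1 - φ := by linarith
  set Q1 := q0 / (1 - φ) ^ 2 with hQ1
  have hQ1n : 0 ≤ Q1 := by positivity
  have hs2 : Summable fun n : ℕ => (n : ℝ) ^ 2 * φ ^ n :=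
    summable_pow_mul_geometric_of_norm_lt_one 2 (by rwa [Real.norm_of_nonneg a3.le])
  set Z2 := ∑' n : ℕ, (n : ℝ) ^ 2 * φ ^ n with hZ2
  have hZ2n : 0 ≤ Z2 := tsum_nonneg fun n => by positivity
  set X := 2 * C * Q1 * Z2 with hX
  have hXn : 0 ≤ X := by positivity
  set P := P5 C θ with hP
  have hPn : 0 ≤ P := by
    rw [hP]; unfold P5
    exact mul_nonneg hW0n (tsum_nonneg fun n => by positivity)
  set C2 := C * (X + 3 * (2 * C) ^ 2 * P) with hC2
  have hC2n : 0 ≤ C2 := by positivity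
  set C3 := C * (X + (P * C2 + 12 * (2 * C) ^ 2 * P) / 2) + 1 with hC3
  have hcc : c3 C θ = C3 := rfl
  rw [hcc]
  have hvabs : ∀ g, |v g| ≤ C := by
    intro g
    rw [abs_le]
    refine ⟨?_, hv.up g⟩
    rcases le_or_gt g 0 with h | h
    · rw [hv.zero g h]; linarith
    · have := hv.low g h
      have := inv_pos.2 hC
      linarith
  obtain ⟨hc1, hc2⟩ := rho_le_P5 hC h0 h1 hG
  have hc0 := c0_pos G
  have hPb : ∀ g, |Phi G v g| ≤ c0 G * C := by
    intro g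
    unfold Phi c0
    calc |∑ d ∈ Icc 1 G.R, kk G d * S d v g| ≤ ∑ d ∈ Icc 1 G.R, |kk G d * S d v g| :=
          Finset.abs_sum_le_sum_abs _ _
      _ ≤ ∑ d ∈ Icc 1 G.R, kk G d * (d : ℝ) ^ 2 * C := by
          refine Finset.sum_le_sum fun d _ => ?_
          rw [abs_mul, abs_of_nonneg (kk_nonneg G _), mul_assoc]
          exact mul_le_mul_of_nonneg_left (S_abs_le d v C hvabs g) (kk_nonneg G _)
      _ = _ := by rw [← Finset.sum_mul]
  obtain ⟨L, hL, hLn⟩ := second_small (F := fun n : ℕ => Phi G v n) (B := c0 G * C) (Q := q0)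
    (φ := φ) a3 a4 (fun n => hPb n) (by
      intro n
      have e := Phi_second G v ((n : ℤ) + 1)
      have e2 : (n : ℤ) + 1 - 1 = n := by ring
      have e3 : (n : ℤ) + 1 + 1 = ((n + 2 : ℕ) : ℤ) := by push_cast; ring
      have e4 : (n : ℤ) + 1 = ((n + 1 : ℕ) : ℤ) := by push_cast; ring
      rw [e2, e3] at e
      have h2 := defect hC h0 h1 hG hs hv (n + 1) (by omega)
      rw [e4] at e
      show |Phi G v ((n + 2 : ℕ) : ℤ) + Phi G v (n : ℤ) - 2 * Phi G v ((n + 1 : ℕ) : ℤ)| ≤ q0 * φ ^ n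
      rw [e]
      refine h2.trans ?_
      have h3 : φ ^ (n + 1) ≤ φ ^ n := pow_le_pow_of_le_one a3.le a4.le (Nat.le_succ n)
      exact mul_le_mul_of_nonneg_left h3 hq0n)
  set A : ℝ := L / c0 G with hA
  have hAabs : |A| ≤ C := by
    rw [hA, abs_div, abs_of_pos hc0, div_le_iff₀ hc0, mul_comm]
    exact hL
  set y : ℤ → ℝ := fun g => v g - A with hy
  have hyB : ∀ g, |y g| ≤ 2 * C := by
    intro g
    calc |v g - A| ≤ |v g| + |A| := abs_sub _ _
      _ ≤ 2 * C := by linarith [hvabs g]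
  have hPy : ∀ n : ℕ, |Phi G y n| ≤ Q1 * φ ^ n := by
    intro n
    have h1 : Phi G y n = Phi G v n - c0 G * A := by
      unfold Phi c0
      rw [Finset.sum_mul, ← Finset.sum_sub_distrib]
      refine Finset.sum_congr rfl fun d _ => ?_
      have := S_sub d v (fun _ => A) n
      rw [S_const] at this
      rw [hy, this]
      ring
    have h2 : c0 G * A = L := by rw [hA]; field_simp
    rw [h1, h2]
    exact hLn n
  have hXs : ∀ n : ℕ, ∑ g ∈ Icc (1 : ℤ) n, (g : ℝ) ^ 2 * |y g * Phi G y g| ≤ X := by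
    intro n
    have e : ∑ g ∈ Icc (1 : ℤ) n, (g : ℝ) ^ 2 * |y g * Phi G y g|
        = ∑ k ∈ Icc 1 n, ((k : ℤ) : ℝ) ^ 2 * |y k * Phi G y k| := by
      have : Icc (1 : ℤ) n = (Icc 1 n).map Nat.castEmbedding := by
        ext x
        simp only [Finset.mem_Icc, Finset.mem_map, Nat.castEmbedding_apply]
        constructor
        · rintro ⟨h1, h2⟩
          exact ⟨x.toNat, by omega, by omega⟩
        · rintro ⟨k, ⟨h1, h2⟩, rfl⟩
          omega
      rw [this, Finset.sum_map]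
      rfl
    rw [e]
    calc ∑ k ∈ Icc 1 n, ((k : ℤ) : ℝ) ^ 2 * |y k * Phi G y k|
        ≤ ∑ k ∈ Icc 1 n, 2 * C * Q1 * ((k : ℝ) ^ 2 * φ ^ k) := by
          refine Finset.sum_le_sum fun k _ => ?_
          rw [abs_mul, Int.cast_natCast]
          calc (k : ℝ) ^ 2 * (|y k| * |Phi G y k|) ≤ (k : ℝ) ^ 2 * ((2 * C) * (Q1 * φ ^ k)) :=
                mul_le_mul_of_nonneg_left (mul_le_mul (hyB k) (hPy k) (abs_nonneg _)
                  (by positivity)) (by positivity)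
            _ = _ := by ring
      _ = 2 * C * Q1 * ∑ k ∈ Icc 1 n, ((k : ℝ) ^ 2 * φ ^ k) := by rw [Finset.mul_sum]
      _ ≤ 2 * C * Q1 * Z2 :=
          mul_le_mul_of_nonneg_left (hs2.sum_le_tsum _ fun _ _ => by positivity) (by positivity)
  have hPm : ∀ p ≤ 5, ∑ d ∈ Icc 1 G.R, kk G d * (d : ℝ) ^ p ≤ P :=
    fun p hp => moment hC h0 h1 hG p hp
  have hdiv : ∀ {a b : ℝ}, 0 ≤ a → G.rho * a ≤ b → a ≤ C * b := by
    intro a b ha hab
    have h2 := mul_le_mul_of_nonneg_right hG.rho_ge ha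
    calc a = C * (C⁻¹ * a) := by field_simp
      _ ≤ C * b := mul_le_mul_of_nonneg_left (h2.trans hab) hC.le
  have hs1 : ∀ M : ℕ, ∑ g ∈ Icc (1 : ℤ) M, y g ^ 2 ≤ C2 := by
    intro M
    refine hdiv (Finset.sum_nonneg fun g _ => sq_nonneg _) ?_
    refine step1 G y (2 * C) X hyB (fun n => ?_) M P hPm
    refine le_trans (Finset.sum_le_sum fun g hg => ?_) (hXs n)
    rw [Finset.mem_Icc] at hg
    have h4 : (1 : ℝ) ≤ g := by exact_mod_cast hg.1
    exact le_mul_of_one_le_left (abs_nonneg _) (one_le_pow₀ h4)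
  have hs3 : ∀ M : ℕ, ∑ g ∈ Icc (1 : ℤ) M, (g : ℝ) ^ 2 * (v g - A) ^ 2 ≤ C3 := by
    intro M
    have := hdiv (Finset.sum_nonneg fun g _ => by positivity)
      (step2 G y (2 * C) X hyB hXs C2 hs1 M P hPm)
    rw [hC3]
    linarith
  refine ⟨A, ?_, (abs_le.mp hAabs).2, hs3⟩
  by_contra hc
  push Not at hc
  obtain ⟨g, hg1, hg2⟩ := close_of_sum (sub_pos.2 hc) hs3
  have h2 := hv.low g hg1
  rw [abs_lt] at hg2
  linarith [hg2.2]

/-- the constant is polynomially bounded -/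
theorem pb : PB fun D => c3 D (1 - D⁻¹) := by
  have l1 : LB fun D => 1 - √(1 - D⁻¹) :=
    (LB.invmul (c := 2) (by norm_num)).of_le fun D hD => by linarith [sqrt_th hD]
  have l2 : LB fun D => 1 - √(√(1 - D⁻¹)) :=
    (LB.invmul (c := 4) (by norm_num)).of_le fun D hD => by linarith [sqrt_sqrt_th hD]
  have g : ∀ k : ℕ, PB fun D => ∑' n : ℕ, (n : ℝ) ^ k * (√(√(1 - D⁻¹))) ^ n := fun k =>
    PB.geo' k (fun D _ => Real.sqrt_nonneg _) (LB.invmul (c := 4) (by norm_num))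
      fun D hD => sqrt_sqrt_th hD
  have pP : PB fun D => P5 D (1 - D⁻¹) := (PB.id.div l1).mul (g 5)
  have pq : PB fun D => q1 D (1 - D⁻¹) :=
    (PB.id.add (PB.id.mul (PB.id.div l1))).div (l2.pow 2)
  have px : PB fun D => x1 D (1 - D⁻¹) := (((PB.const 2).mul PB.id).mul pq).mul (g 2)
  have pc : PB fun D => (2 * D) ^ 2 := ((PB.const 2).mul PB.id).pow 2
  have p2 : PB fun D => c2 D (1 - D⁻¹) :=
    PB.id.mul (px.add (((PB.const 3).mul pc).mul pP))
  exact (PB.id.mul (px.add (((pP.mul p2).add (((PB.const 12).mul pc).mul pP)).div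
    (LB.const (c := 2) (by norm_num))))).add (PB.const 1)

end QGVL

open QGVL in
/-- MODULE QGVL. -/
theorem t_QGVL : QGVL_Stmt := by
  obtain ⟨K, hK⟩ := pb.le
  refine ⟨K + 1, fun D hD G hG R' s V hs hV => ?_⟩
  have hD0 : 0 < D := by linarith
  have hD1 : 1 ≤ D := by linarith
  obtain ⟨A, h1, h2, h3⟩ := core hD0 (th_pos hD) (th_lt hD) G hG R' s V hs hV
  have e1 : D ≤ D ^ (K + 1) := le_self_pow₀ hD1 (by omega)
  refine ⟨A, ⟨?_, h2.trans e1, fun N => ?_⟩⟩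
  · exact (inv_anti₀ hD0 e1).trans h1
  · exact ((h3 N).trans (hK D hD)).trans (pow_le_pow_right₀ hD1 (by omega))

end Pool.Agent.EXW
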