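import Pool.Agent.EXW.StmtsA
import Pool.Agent.Lib_helper79.Gap.LT

/-!
# Project EXW, module QLT: comparison of the Laplace transforms with a rate

The text of `Pool.Agent.FL.glt_of` for a single pair of scales, with explicit constants.
-/

set_option autoImplicit false

open Finset Filter Topology

namespace Pool.Agent.EXW

open Pool.Agent.Gap Pool.Agent.FL

namespace QLT

/-- the scales for a smaller exponent -/
lemma sc_mono {K K' : ℕ} (hKK : K' ≤ K) {D W : ℝ} {G : GapKernel} {n n0 : ℕ} {eps eps' : ℝ}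
    (h : Sc K D W G n n0 eps eps') : Sc K' D W G n n0 eps eps' where
  D2 := h.D2
  W2 := h.W2
  cls := h.cls
  big := by
    refine le_trans ?_ h.big
    have h1 := h.D2
    have h2 := h.W2
    exact pow_le_pow_right₀ (by nlinarith) hKK
  near := h.near
  eps_nonneg := h.eps_nonneg
  eps_le := h.eps_le
  eps_eq := h.eps_eq

/-- the radius is bounded below -/
lemma rho_low {D : ℝ} (hD : 2 ≤ D) {r : ℝ} (hr : D⁻¹ ≤ r) : (D ^ 2)⁻¹ ≤ r * Real.sqrt r := by
  have h0 : 0 < D⁻¹ := inv_pos.2 (by linarith)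
  have h1 : D⁻¹ ≤ 1 := by
    have := inv_le_half hD
    linarith
  have h2 : D⁻¹ ≤ Real.sqrt r := by
    refine Real.le_sqrt_of_sq_le ?_
    nlinarith
  calc (D ^ 2)⁻¹ = D⁻¹ * D⁻¹ := by rw [sq, mul_inv]
    _ ≤ r * Real.sqrt r := mul_le_mul hr h2 h0.le (h0.le.trans hr)

/-- the final estimate -/
lemma fin_bound {CX C2 : ℝ} (hCX : 0 < CX) (hC2 : 0 < C2) (KP KA KJ : ℕ) :
    ∃ K1 : ℕ, KP ≤ K1 ∧ ∀ D W c r q : ℝ, 2 ≤ D → 2 ≤ W → 0 < q → 0 ≤ c → c ≤ D ^ KP → 0 ≤ r →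
      r ≤ D ^ KA →
      CX * (W / 2 * ((D * W) ^ KP / q) + (D ^ (KJ + 2) + c * Real.sqrt r * (8 * C2)) /
        Real.sqrt (W / 2)) ≤ (D * W) ^ K1 / q + D ^ K1 / Real.sqrt W := by
  obtain ⟨a, ha⟩ := (PB.const CX).le
  have hPB : PB fun D => 2 * CX * (D ^ (KJ + 2) + D ^ KP * D ^ KA * (8 * C2)) :=
    (PB.const _).mul ((PB.pow_self _).add (((PB.pow_self _).mul (PB.pow_self _)).mul (PB.const _)))
  obtain ⟨b, hb⟩ := hPB.le
  refine ⟨(a + 1 + KP) + b, by omega, fun D W c r q hD hW hq hc hcP hr hrA => ?_⟩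
  have hD1 : (1 : ℝ) ≤ D := by linarith
  have hDW : 2 ≤ D * W := by nlinarith
  have hDW1 : (1 : ℝ) ≤ D * W := by linarith
  have e1 : CX * (W / 2 * ((D * W) ^ KP / q)) ≤ (D * W) ^ ((a + 1 + KP) + b) / q := by
    have h1 : CX * (W / 2 * (D * W) ^ KP) ≤ (D * W) ^ (a + 1 + KP) := by
      rw [pow_add, pow_add, pow_one]
      have h2 : CX ≤ (D * W) ^ a := ha (D * W) hDW
      have h3 : W / 2 ≤ D * W := by nlinarith
      have h4 : 0 ≤ (D * W) ^ KP := by positivity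
      calc CX * (W / 2 * (D * W) ^ KP) = CX * (W / 2) * (D * W) ^ KP := by ring
        _ ≤ (D * W) ^ a * (D * W) * (D * W) ^ KP := by gcongr
    have h5 : (D * W) ^ (a + 1 + KP) ≤ (D * W) ^ ((a + 1 + KP) + b) :=
      pow_le_pow_right₀ hDW1 (by omega)
    calc CX * (W / 2 * ((D * W) ^ KP / q)) = CX * (W / 2 * (D * W) ^ KP) / q := by ring
      _ ≤ _ := by
        gcongr
        exact h1.trans h5
  have e2 : CX * ((D ^ (KJ + 2) + c * Real.sqrt r * (8 * C2)) / Real.sqrt (W / 2)) ≤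
      D ^ ((a + 1 + KP) + b) / Real.sqrt W := by
    have hsW : 0 < Real.sqrt W := Real.sqrt_pos.2 (by linarith)
    have hsr : Real.sqrt r ≤ D ^ KA := by
      have h1 : (1 : ℝ) ≤ D ^ KA := one_le_pow₀ hD1
      rw [Real.sqrt_le_left (by linarith)]
      nlinarith
    have hs2 : Real.sqrt W / 2 ≤ Real.sqrt (W / 2) := by
      refine Real.le_sqrt_of_sq_le ?_
      rw [div_pow, Real.sq_sqrt (by linarith)]
      linarith
    have hs0 : 0 < Real.sqrt W / 2 := by positivity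
    have h1 : 2 * CX * (D ^ (KJ + 2) + D ^ KP * D ^ KA * (8 * C2)) ≤ D ^ b := hb D hD
    have h2 : D ^ b ≤ D ^ ((a + 1 + KP) + b) := pow_le_pow_right₀ hD1 (by omega)
    have hsr0 := Real.sqrt_nonneg r
    calc CX * ((D ^ (KJ + 2) + c * Real.sqrt r * (8 * C2)) / Real.sqrt (W / 2))
        ≤ CX * ((D ^ (KJ + 2) + D ^ KP * D ^ KA * (8 * C2)) / (Real.sqrt W / 2)) := by
          gcongr
      _ = 2 * CX * (D ^ (KJ + 2) + D ^ KP * D ^ KA * (8 * C2)) / Real.sqrt W := by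
          field_simp
      _ ≤ _ := by
          gcongr
          exact h1.trans h2
  rw [mul_add]
  exact add_le_add e1 e2

end QLT

open QLT in
/-- **Module QLT.** -/
theorem t_QLT (hP : QP_Stmt) (hX : QX_Stmt) (hJ : QGJ2_Stmt) (hpar : QPAR_Stmt)
    (hJ1 : J1_Stmt) (hJ2s : J2_Stmt) (hB1 : B1_Stmt) : QLT_Stmt := by
  obtain ⟨KP0, KP, hP'⟩ := hP
  obtain ⟨CX, hCX, hX'⟩ := hX
  obtain ⟨KJ, hJ'⟩ := hJ
  obtain ⟨KA0, KA, hpar'⟩ := hpar
  obtain ⟨C2, hC2, hJ0⟩ := hJ2s stair 1 cap1 cap1 isCap_cap1 isCap_cap1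
  obtain ⟨K1, hK1P, hK1⟩ := fin_bound hCX hC2 KP KA KJ
  refine ⟨max KP0 KA0, K1, ?_⟩
  intro D hD G hG C0 s t Vs Vt B B0 hs ht hVs hVt hB hB0
  obtain ⟨c, hc1, hc2, hP2⟩ := hP' D hD G hG C0 s t Vs Vt hs ht hVs hVt
  have hD1 : (1 : ℝ) ≤ D := by linarith
  have hDK : D ^ KP ≤ D ^ K1 := pow_le_pow_right₀ hD1 hK1P
  have hDKP : 0 < D ^ KP := by positivity
  refine ⟨c, (inv_anti₀ hDKP hDK).trans hc1, hc2.trans hDK, ?_⟩
  have hc0 : 0 ≤ c := (inv_pos.2 hDKP).le.trans hc1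
  intro W n n0 eps eps' hSc
  have hScP : Sc KP0 D W G n n0 eps eps' := sc_mono (le_max_left _ _) hSc
  have hScA : Sc KA0 D W G n n0 eps eps' := sc_mono (le_max_right _ _) hSc
  obtain ⟨⟨hn1, hn01, hWn, hWn0, hnn0, hn0n⟩, ⟨heps0, heps1, heps'1, -, -⟩, -⟩ :=
    hpar' D W G n n0 eps eps' hScA
  have hW2 := hSc.W2
  have heps'0 := hSc.eps_nonneg
  set N : ℕ := 4 * n ^ 2 + 4 * n0 ^ 2 + C0 + (G.R + 1) * (n + 1) + 2 * (n0 + 1) + 1 with hN
  have hNbig : 4 * n ^ 2 + 4 * n0 ^ 2 ≤ N := by simp only [hN]; omega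
  have hC0N : C0 ≤ N := by simp only [hN]; omega
  have h1N : 1 ≤ N := by simp only [hN]; omega
  -- arrays
  obtain ⟨b, hbA⟩ := (hJ1 G C0 s hs.cap N eps heps0).1
  obtain ⟨b', hbA'⟩ := (hJ1 G C0 t ht.cap N eps heps0).1
  obtain ⟨b0, hbA0⟩ := (hJ1 stair 1 cap1 isCap_cap1 N eps' heps'0).1
  have hq := qn_pos n hn1
  have hqs : qn n * qn n = Real.sqrt n := by rw [← qn_sq n]; ring
  have key := hX' G.rho (1 / 4) c (D ^ (KJ + 2)) (8 * C2) ((D * W) ^ KP / qn n) (W / 2) n n0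
    (close C0 t b) (close 1 cap1 b0) G.rho_pos (by norm_num) hc0 (by positivity) (by positivity)
    (by
      have : 0 < D * W := by nlinarith
      positivity) (by linarith) (by linarith) (by linarith)
    (by
      intro z hz
      obtain ⟨a1, -, a3⟩ := hJ' D hD G hG C0 s t hs ht N eps heps0 hC0N b b' hbA hbA' z hz
      refine ⟨a1, a3.trans ?_⟩
      have h1 := rho_low hD hG.rho_ge
      calc D ^ KJ = D ^ (KJ + 2) * (D ^ 2)⁻¹ := by
            rw [pow_add]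
            field_simp
        _ ≤ _ := by gcongr)
    (by
      intro z hz
      obtain ⟨a1, -, a3, -⟩ := hJ0 N eps' heps'0 h1N b0 b0 hbA0 hbA0 z hz
      have e4 : ((stair.rho : ℝ) : ℂ) = (((1 / 4 : ℝ) : ℝ) : ℂ) := rfl
      rw [e4] at a3
      refine ⟨a1, a3.trans (le_of_eq ?_)⟩
      have h1 : Real.sqrt (1 / 4) = 1 / 2 := by
        rw [show (1 / 4 : ℝ) = (1 / 2) ^ 2 by norm_num]
        exact Real.sqrt_sq (by norm_num)
      rw [h1]
      ring)
    (by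
      intro w hw hwY
      have hwW : ‖w‖ ≤ W := by
        refine (Complex.norm_le_abs_re_add_abs_im w).trans ?_
        rw [hw, abs_one]
        linarith
      refine (hP2 W n n0 eps eps' hScP N hNbig hC0N b b0 hbA hbA0 w hw hwW).trans (le_of_eq ?_)
      rw [← hqs]
      field_simp)
  have ev1 : close C0 t b n = (closeP C0 t B n).eval (Real.exp (-eps)) := by
    refine eval_closeP C0 t B b _ n fun m hmn g => ?_
    refine hB1 G C0 s hs.cap B hB N eps b heps0 hbA m ?_ g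
    have : (G.R + 1) * (m + 1) ≤ (G.R + 1) * (n + 1) := Nat.mul_le_mul_left _ (by omega)
    simp only [hN]
    omega
  have ev0 : close 1 cap1 b0 n0 = (closeP 1 cap1 B0 n0).eval (Real.exp (-eps')) := by
    refine eval_closeP 1 cap1 B0 b0 _ n0 fun m hmn g => ?_
    refine hB1 stair 1 cap1 isCap_cap1 B0 hB0 N eps' b0 heps'0 hbA0 m ?_ g
    have hR : stair.R = 1 := rfl
    rw [hR]
    simp only [hN]
    have h1 : n0 ≤ n0 ^ 2 := by nlinarith [Nat.zero_le n0]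
    omega
  rw [ev1, ev0] at key
  refine key.trans ?_
  have hn' : (0 : ℝ) < n := by exact_mod_cast hn1
  exact hK1 D W c ((n0 : ℝ) / n) (qn n) hD hW2 hq hc0 hc2 (by positivity)
    ((div_le_iff₀ hn').2 hn0n)

end Pool.Agent.EXW
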