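import Pool.Agent.EXW.StmtsM
import Pool.Agent.Lib_helper12.FL.MGT

/-!
# Project EXW, module QMG: exponential tails at the critical weight with explicit constants
-/

set_option autoImplicit false

namespace Pool.Agent.EXW

open Finset Pool.Agent.Lib27 Pool.Agent.SapR Pool.Agent.FL
open scoped NNReal ENNReal

namespace QMG

lemma theta_le {M e : ℝ} (hM : 2 ≤ M) (he : M⁻¹ ≤ e) :
    ((1 + e) ^ 2)⁻¹ ≤ 1 - 2 / (3 * M) := by
  have hM0 : 0 < M := by linarith
  have he0 : 0 < e := (inv_pos.2 hM0).trans_le he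
  have h1 : 1 + 2 / M ≤ (1 + e) ^ 2 := by
    have : 2 / M = 2 * M⁻¹ := div_eq_mul_inv _ _
    rw [this]
    nlinarith
  have h2 : 0 < 1 + 2 / M := by positivity
  refine (inv_anti₀ h2 h1).trans ?_
  have h3 : (1 + 2 / M)⁻¹ = M / (M + 2) := by field_simp
  have h4 : 1 - 2 / (3 * M) = (3 * M - 2) / (3 * M) := by field_simp
  rw [h3, h4, div_le_div_iff₀ (by positivity) (by positivity)]
  nlinarith

lemma small {M C0 θ n : ℝ} (hM : 2 ≤ M) (hC : C0 ≤ M) (k : ℕ) (hk : n = k)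
    (hθ0 : 0 ≤ θ) (hθ : θ ≤ 1 - 2 / (3 * M)) (hn : M ^ 5 ≤ n) :
    n * (C0 * θ ^ (k + 1)) ≤ 1 / 2 := by
  have hM0 : 0 < M := by linarith
  have hM5 : (0 : ℝ) < M ^ 5 := by positivity
  have hn0 : 0 < n := hM5.trans_le hn
  have h1 : θ ≤ Real.exp (-(2 / (3 * M))) := by
    have := Real.add_one_le_exp (-(2 / (3 * M)))
    linarith
  have hθ1 : θ ≤ 1 := by
    have : 0 < 2 / (3 * M) := by positivity
    linarith
  have h2 : θ ^ (k + 1) ≤ Real.exp (-(2 * n / (3 * M))) := by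
    calc θ ^ (k + 1) ≤ θ ^ k := pow_le_pow_of_le_one hθ0 hθ1 (Nat.le_succ k)
      _ ≤ (Real.exp (-(2 / (3 * M)))) ^ k := pow_le_pow_left₀ hθ0 h1 k
      _ = Real.exp (-(2 * n / (3 * M))) := by
          rw [← Real.exp_nat_mul, hk]
          congr 1
          ring
  set u := 2 * n / (3 * M) with hu
  have hu0 : 0 < u := by positivity
  have h3 : u ^ 3 / 6 ≤ Real.exp u := by
    have := Real.pow_div_factorial_le_exp u hu0.le 3
    norm_num [Nat.factorial] at this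
    exact this
  have h4 : Real.exp (-u) ≤ 6 / u ^ 3 := by
    rw [Real.exp_neg, inv_le_comm₀ (Real.exp_pos _) (by positivity), inv_div]
    exact h3
  have h5 : 32 * M ^ 2 ≤ 4 * M ^ 5 := by
    have h8 : (8 : ℝ) ≤ M ^ 3 := by
      calc (8 : ℝ) = 2 ^ 3 := by norm_num
        _ ≤ M ^ 3 := pow_le_pow_left₀ (by norm_num) hM 3
    have : M ^ 5 = M ^ 2 * M ^ 3 := by ring
    rw [this]
    nlinarith [sq_nonneg M]
  have h6 : 8 * M ^ 2 ≤ n := by linarith
  have h7 : 64 * M ^ 4 ≤ n ^ 2 := by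
    calc 64 * M ^ 4 = (8 * M ^ 2) ^ 2 := by ring
      _ ≤ n ^ 2 := pow_le_pow_left₀ (by positivity) h6 2
  calc n * (C0 * θ ^ (k + 1)) ≤ n * (M * (6 / u ^ 3)) := by
        refine mul_le_mul_of_nonneg_left ?_ hn0.le
        exact mul_le_mul hC (h2.trans h4) (by positivity) hM0.le
    _ = (81 / 4) * M ^ 4 / n ^ 2 := by
        rw [hu]
        field_simp
        ring
    _ ≤ 1 / 2 := by
        rw [div_le_div_iff₀ (by positivity) (by norm_num)]
        nlinarith [sq_nonneg (M ^ 2)]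

end QMG

theorem t_QMG (h : MN_Stmt) (h2 : FL.MGI1_Stmt) : QMG_Stmt := by
  obtain ⟨A, hA, h⟩ := h
  refine ⟨5 * A, by linarith, ?_⟩
  intro f hf hf1 n rho hn hr hF
  obtain ⟨x, e, C0, hx, he, he1, hC, hone, hB⟩ := h f hf hf1
  have hMi : Real.exp (-(A / f)) = (Real.exp (A / f))⁻¹ := Real.exp_neg _
  rw [hMi] at he
  have hM5 : Real.exp (5 * A / f) = Real.exp (A / f) ^ 5 := by
    rw [← Real.exp_nat_mul]
    congr 1
    push_cast
    ring
  rw [hM5] at hn ⊢
  have hM2 : 2 ≤ Real.exp (A / f) := by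
    have h3 := Real.add_one_le_exp (A / f)
    have h4 : 1 ≤ A / f := by
      rw [le_div_iff₀ hf]
      linarith
    linarith
  set M := Real.exp (A / f) with hM
  have hM0 : 0 < M := by linarith
  have he0 : (0 : ℝ) < e := (inv_pos.2 hM0).trans_le he
  have hn1 : 1 ≤ n := by
    have : (0 : ℝ) < n := (by positivity : (0 : ℝ) < M ^ 5).trans_le hn
    exact_mod_cast this
  have hθ := QMG.theta_le hM2 he
  have hθ0 : (0 : ℝ) < ((1 + (e : ℝ)) ^ 2)⁻¹ := by positivity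
  have hs : (0 : ℝ) < Real.exp (-f) := Real.exp_pos _
  have hcs : ((Real.exp (-f)).toNNReal : ℝ) = Real.exp (-f) := Real.coe_toNNReal _ hs.le
  have hC0 : (0 : ℝ) ≤ C0 := C0.2
  have h6 := MGT.core h2 (Real.exp (-f)).toNNReal x e C0 (Real.toNNReal_pos.2 hs) hx
    (by exact_mod_cast he0) hone hB n hn1
    (QMG.small hM2 hC n rfl hθ0.le hθ hn) rho hr (by rw [hcs]; exact hF)
  rw [hcs] at h6
  have h16 : (16 : ℝ) ≤ M ^ 4 := by
    calc (16 : ℝ) = 2 ^ 4 := by norm_num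
      _ ≤ M ^ 4 := pow_le_pow_left₀ (by norm_num) hM2 4
  have hM55 : M ^ 5 = M * M ^ 4 := by ring
  refine MGT.Tails.mono h6 ?_ (by positivity) hθ0.le (hθ.trans ?_)
  · rw [hM55]
    nlinarith
  · have h7 : (M ^ 5)⁻¹ ≤ 2 / (3 * M) := by
      rw [← one_div, div_le_div_iff₀ (by positivity) (by positivity), hM55]
      nlinarith
    linarith

end Pool.Agent.EXW
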