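import Pool.Agent.EXW.StmtsF
import Pool.Agent.Lib_helper89.FL.NEAR

/-!
# Project EXW: mean error of the area functional, explicit constant (module QNEAR)

The proof of `FL.NEAR.near` (`Lib_helper89/FL/NEAR.lean`, helper89) with the constants
`C = D`, `θ = 1 - 1/D`, `q = θ ^ (1/3)`, `B = 216 D ^ 3`.
-/

set_option autoImplicit false

namespace Pool.Agent.EXW

open Finset Pool.Agent.Lib27 Pool.Agent.SapR Pool.Agent.FL Filter Topology Pool.Agent.FL.NEAR

namespace QNEAR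

/-- the estimate with explicit constants -/
theorem core (h : HG_Stmt) {C θ q B : ℝ} (hC : 0 < C) (hθ0 : 0 < θ) (hθ1 : θ < 1)
    (hq3 : q ^ 3 = θ) (hq0 : 0 < q) (hq1 : q < 1) (hB0 : 0 < B)
    (hB : ∀ k : ℕ, 4 * (k : ℝ) ^ 2 * q ^ k ≤ B) :
  ∀ (n : ℕ) (s rho : ℝ), 2 ≤ n → 0 < s → s ≤ 1 → 0 < rho →
    ∑ p ∈ Pc (2 * n - 1), rho ^ hl p * s ^ (hl p - htn p) = 1 → Tails C θ n s rho →
    ∑ q ∈ M41.Om (2 * n - 1) n, wtq n s q *
      |(|((dbl 0 q.2.2.2 + dbl 0 q.2.2.1 : ℤ) : ℝ)| - (M41.Ar (2 * n - 1) q.2.2.2 : ℝ))| ≤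
    (4 * (6 / (-Real.log q) + 2) + (C * (B * (1 / (1 - q)))) * (C * (1 / (1 - θ))) *
        (2 + C * (1 / (1 - θ)))) * n * Real.log n * ∑ q ∈ M41.Om (2 * n - 1) n, wtq n s q +
      (4 * (6 / (-Real.log q) + 2) + (C * (B * (1 / (1 - q)))) * (C * (1 / (1 - θ))) *
        (2 + C * (1 / (1 - θ)))) / ((n : ℝ) ^ 5 * rho ^ n) := by
  classical
  have hlq : 0 < -Real.log q := by
    have := Real.log_neg hq0 hq1
    linarith
  set K : ℝ := 6 / (-Real.log q) with hK
  have hK0 : 0 < K := by positivity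
  have h1θ : 0 < 1 - θ := by linarith
  have h1q : 0 < 1 - q := by linarith
  set Zb : ℝ := C * (1 / (1 - θ)) with hZb
  have hZb0 : 0 < Zb := by positivity
  set a0 : ℝ := C * (B * (1 / (1 - q))) with ha0
  have ha00 : 0 < a0 := by positivity
  intro n s rho hn hs hs1 hrho hmass ht
  obtain ⟨ht1, ht2, -⟩ := ht
  set r := 2 * n - 1 with hr
  set L : ℕ := ⌈K * Real.log n⌉₊ with hL
  set a : ℝ := a0 * q ^ L with ha
  have ha1 : 0 < a := by positivity
  have hn0 : (0 : ℝ) < n := by positivity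
  have hn2 : (2 : ℝ) ≤ n := by exact_mod_cast hn
  have hlog : 1 ≤ 2 * Real.log n := by
    have h1 : Real.log 2 ≤ Real.log n := Real.log_le_log (by norm_num) hn2
    have h2 := Real.log_two_gt_d9
    norm_num at h2 ⊢
    linarith
  -- caps
  have hcap : ∀ N x, 1 ≤ x → NEAR.Cs r s rho N x ≤ C * θ ^ N := by
    intro N x hx
    rcases lt_or_ge (N : ℤ) x with hN | hN
    · unfold NEAR.Cs
      rw [CapSet_far hN hx, sum_empty]
      positivity
    · refine le_trans ?_ (ht2 N)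
      exact single_le_sum (f := fun x => ∑ T ∈ CapSet r x (2 * N), rho ^ N * s ^ (N - hgt T))
        (fun x _ => sum_nonneg fun T _ => by positivity) (mem_Icc.2 ⟨hx, hN⟩)
  -- long pieces
  have hvv : ∀ m, C * θ ^ m * vv L m ≤ C * (B * q ^ L) * q ^ m := by
    intro m
    unfold vv
    split_ifs with hm
    · have e1 : θ ^ m = q ^ m * q ^ m * q ^ m := by
        rw [← hq3, ← pow_mul, ← pow_add, ← pow_add]; congr 1; ring
      have e2 : q ^ m ≤ q ^ L := pow_le_pow_of_le_one hq0.le hq1.le hm.le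
      have e3 : 4 * (m : ℝ) ^ 2 * q ^ m * q ^ m ≤ B * q ^ L :=
        mul_le_mul (hB m) e2 (by positivity) hB0.le
      have e4 : C * θ ^ m * (4 * (m : ℝ) ^ 2) =
          C * (4 * (m : ℝ) ^ 2 * q ^ m * q ^ m) * q ^ m := by rw [e1]; ring
      rw [e4]
      apply mul_le_mul_of_nonneg_right _ (by positivity)
      exact mul_le_mul_of_nonneg_left e3 hC.le
    · rw [mul_zero]; positivity
  have hvsum : ∀ N : ℕ, ∑ m ∈ range N, C * θ ^ m * vv L m ≤ a := by
    intro N
    refine (sum_le_sum fun m _ => hvv m).trans ?_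
    rw [← mul_sum]
    have e1 := mul_le_mul_of_nonneg_left (geo hq0.le hq1 N)
      (show 0 ≤ C * (B * q ^ L) by positivity)
    refine e1.trans (le_of_eq ?_)
    rw [ha, ha0]; ring
  have hA : ∑ p ∈ Pc r, mu s rho p * vv L (hl p) ≤ a := by
    have hmaps : ∀ p ∈ Pc r, hl p ∈ range (n + 1) := by
      intro p hp
      have := len_hl hp
      rw [mem_range]; omega
    rw [← sum_fiberwise_of_maps_to hmaps]
    refine le_trans (sum_le_sum fun m _ => ?_) (hvsum (n + 1))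
    have e1 : ∑ p ∈ (Pc r).filter (fun p => hl p = m), mu s rho p * vv L (hl p) =
        (∑ p ∈ (Pc r).filter (fun p => hl p = m), rho ^ m * s ^ (m - htn p)) * vv L m := by
      rw [sum_mul]
      apply sum_congr rfl
      intro p hp
      rw [mem_filter] at hp
      unfold mu
      rw [hp.2]
    rw [e1]
    exact mul_le_mul_of_nonneg_right (ht1 m) (vv_nonneg _ _)
  have hmass' : ∑ p ∈ Pc r, mu s rho p = 1 := hmass
  -- total weight of the arches
  have hZ : ∀ k x, 1 ≤ x → Gs r s rho (fun _ _ => 1) k x ≤ Zb := by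
    intro k x hx
    have := solve h hs hrho (f := fun _ _ => 1) (u := fun _ => 1) (v := fun _ => 0)
      (cN := fun N => C * θ ^ N) (Zb := 0) (A := 0) (fun _ => le_rfl) (fun _ => zero_le_one)
      hcap (fun N => by positivity) hmass' (by simp) (fun _ _ _ _ _ => le_rfl)
      (fun _ _ _ _ _ _ _ _ => by simp) le_rfl (fun _ _ _ _ => by simp) k k x le_rfl hx
    refine this.trans ?_
    simp only [mul_one, mul_zero, add_zero]
    rw [← mul_sum]
    exact mul_le_mul_of_nonneg_left (geo hθ0.le hθ1 _) hC.le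
  -- error of the arches
  have hE : ∀ k x, k ≤ n → 1 ≤ x → Gs r s rho (fE r L) k x ≤ a + n * (a * Zb) := by
    intro k x hk hx
    have := solve h hs hrho (f := fE r L) (u := vv L) (v := vv L)
      (cN := fun N => C * θ ^ N) (Zb := Zb) (A := a) (vv_nonneg L) (vv_nonneg L)
      hcap (fun N => by positivity) hmass' hA (fun N x T hx hT => fE_cap hx hT)
      (fun N x p w hx hp hN hw => fE_step hx hp hN hw) hZb0.le
      (fun k x m hx => mul_le_mul_of_nonneg_left (hZ k x hx) (vv_nonneg _ _)) n k x hk hx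
    refine this.trans ?_
    exact add_le_add (hvsum _) le_rfl
  set e : ℝ := a + n * (a * Zb) with he
  have he0 : 0 ≤ e := by positivity
  -- the polygons
  have hsumOm : ∀ F : (_ : ℤ) × (_ : ℕ) × (Wd × Wd) → ℝ, ∑ q ∈ M41.Om r n, F q =
      ∑ x ∈ Icc (1 : ℤ) r, ∑ M ∈ range (r + 2), ∑ T ∈ CapSet r x M,
        ∑ w ∈ ArchSet r x (2 * n - M), F ⟨x, M, T, w⟩ := by
    intro F
    unfold M41.Om
    rw [sum_sigma]
    apply sum_congr rfl
    intro x _
    rw [sum_sigma]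
    apply sum_congr rfl
    intro M _
    rw [sum_product]
  have hmain : ∑ q ∈ M41.Om r n, wtq n s q *
      |(|((dbl 0 q.2.2.2 + dbl 0 q.2.2.1 : ℤ) : ℝ)| - (M41.Ar r q.2.2.2 : ℝ))| ≤
      4 * L * n * ∑ q ∈ M41.Om r n, wtq n s q + (rho ^ n)⁻¹ *
        ∑ k ∈ range (n + 1), C * θ ^ k * (e + vv L k * Zb) := by
    have hc := caps (L := L) (C := C) (θ := θ) (s := s) (rho := rho) (e := e) (Zb := Zb)
      (by omega : 1 ≤ n) he0 hZb0.le ht2
    rw [← hr] at hc
    refine le_trans ?_ (add_le_add le_rfl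
      (mul_le_mul_of_nonneg_left hc (by positivity : (0 : ℝ) ≤ (rho ^ n)⁻¹)))
    rw [hsumOm, hsumOm]
    simp only [mul_sum, ← sum_add_distrib]
    apply sum_le_sum
    intro x hx
    apply sum_le_sum
    intro M hM
    apply sum_le_sum
    intro T hT
    rw [mem_Icc] at hx
    rw [mem_range] at hM
    obtain ⟨⟨k, hk⟩, h2, h3, -⟩ := H66.k5cap.1 r x M T hx.1 hT
    have hM2 : M = 2 * k := by omega
    subst hM2
    have := inner h (n := n) (k := k) (L := L) (e := e) (Zb := Zb) hs hrho hx.1 (by omega) hT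
      (hE _ _ (by omega) hx.1) (hZ _ _ hx.1)
    rw [show 2 * k / 2 = k by omega]
    simp only [wtq, mul_sum] at this ⊢
    exact this
  refine hmain.trans ?_
  have hW : 0 ≤ ∑ q ∈ M41.Om r n, wtq n s q := by
    apply sum_nonneg
    intro q _
    unfold wtq
    positivity
  have hsum : ∑ k ∈ range (n + 1), C * θ ^ k * (e + vv L k * Zb) ≤ Zb * e + a * Zb := by
    have e1 : ∑ k ∈ range (n + 1), C * θ ^ k * (e + vv L k * Zb) =
        (C * ∑ k ∈ range (n + 1), θ ^ k) * e + (∑ k ∈ range (n + 1), C * θ ^ k * vv L k) * Zb := by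
      rw [mul_sum, sum_mul, sum_mul, ← sum_add_distrib]
      apply sum_congr rfl
      intro k _
      ring
    rw [e1]
    apply add_le_add
    · apply mul_le_mul_of_nonneg_right _ he0
      exact mul_le_mul_of_nonneg_left (geo hθ0.le hθ1 _) hC.le
    · exact mul_le_mul_of_nonneg_right (hvsum _) hZb0.le
  have hqL : q ^ L ≤ ((n : ℝ) ^ 6)⁻¹ := by
    have e1 : q ^ L = Real.exp (L * Real.log q) := by
      rw [Real.exp_nat_mul, Real.exp_log hq0]
    have e2 : ((n : ℝ) ^ 6)⁻¹ = Real.exp (-(6 * Real.log n)) := by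
      rw [Real.exp_neg, show (6 : ℝ) * Real.log n = ((6 : ℕ) : ℝ) * Real.log n by norm_num,
        Real.exp_nat_mul, Real.exp_log hn0]
    rw [e1, e2]
    apply Real.exp_le_exp.2
    have e3 : K * Real.log n ≤ L := Nat.le_ceil _
    have e4 := mul_le_mul_of_nonneg_right e3 hlq.le
    have hKq : K * (-Real.log q) = 6 := div_mul_cancel₀ _ hlq.ne'
    have e5 : K * Real.log n * (-Real.log q) = 6 * Real.log n := by
      rw [← hKq]; ring
    rw [e5] at e4
    linarith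
  have hL2 : 4 * (L : ℝ) ≤ 4 * (K + 2) * Real.log n := by
    have e1 : (L : ℝ) < K * Real.log n + 1 := Nat.ceil_lt_add_one (by positivity)
    linarith
  have hrn : 0 < rho ^ n := by positivity
  have hC1 : 0 < a0 * Zb * (2 + Zb) := by positivity
  have hfirst : 4 * (L : ℝ) * n * ∑ q ∈ M41.Om r n, wtq n s q ≤
      (4 * (K + 2) + a0 * Zb * (2 + Zb)) * n * Real.log n * ∑ q ∈ M41.Om r n, wtq n s q := by
    apply mul_le_mul_of_nonneg_right _ hW
    have e1 := mul_le_mul_of_nonneg_right hL2 hn0.le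
    have e2 : 0 ≤ a0 * Zb * (2 + Zb) * n * Real.log n := by
      have : 0 ≤ Real.log n := by linarith
      positivity
    linarith
  have hsecond : (rho ^ n)⁻¹ * ∑ k ∈ range (n + 1), C * θ ^ k * (e + vv L k * Zb) ≤
      (4 * (K + 2) + a0 * Zb * (2 + Zb)) / ((n : ℝ) ^ 5 * rho ^ n) := by
    have e1 : Zb * e + a * Zb ≤ a0 * Zb * (2 + Zb) / (n : ℝ) ^ 5 := by
      have e2 : Zb * e + a * Zb = a0 * Zb * (2 + n * Zb) * q ^ L := by
        rw [he, ha]; ring
      rw [e2]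
      have e3 : a0 * Zb * (2 + n * Zb) ≤ a0 * Zb * (2 + Zb) * n := by
        have : 2 + n * Zb ≤ (2 + Zb) * n := by nlinarith
        have h2 := mul_le_mul_of_nonneg_left this (show 0 ≤ a0 * Zb by positivity)
        linarith
      have e4 : a0 * Zb * (2 + n * Zb) * q ^ L ≤ a0 * Zb * (2 + Zb) * n * ((n : ℝ) ^ 6)⁻¹ :=
        mul_le_mul e3 hqL (by positivity) (by positivity)
      refine e4.trans (le_of_eq ?_)
      field_simp
    have e5 := hsum.trans e1
    have e6 := mul_le_mul_of_nonneg_left e5 (inv_nonneg.2 hrn.le)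
    refine e6.trans ?_
    have e7 : (rho ^ n)⁻¹ * (a0 * Zb * (2 + Zb) / (n : ℝ) ^ 5) =
        a0 * Zb * (2 + Zb) / ((n : ℝ) ^ 5 * rho ^ n) := by field_simp
    rw [e7]
    apply div_le_div_of_nonneg_right _ (by positivity)
    linarith
  exact add_le_add hfirst hsecond

/-- the constant -/
lemma const_le {D q : ℝ} (hD : 2 ≤ D) (hq0 : 0 < q) (hq : q ≤ 1 - (3 * D)⁻¹) :
    4 * (6 / (-Real.log q) + 2) + (D * (216 * D ^ 3 * (1 / (1 - q)))) *
      (D * (1 / (1 - (1 - D⁻¹)))) * (2 + D * (1 / (1 - (1 - D⁻¹)))) ≤ D ^ 24 := by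
  have hD0 : 0 < D := by linarith
  have hi : 0 < (3 * D)⁻¹ := by positivity
  have h1 : (3 * D)⁻¹ ≤ 1 - q := by linarith
  have h2 : 1 / (1 - q) ≤ 3 * D := by
    rw [one_div]
    have := inv_anti₀ hi h1
    rwa [inv_inv] at this
  have h3 : (3 * D)⁻¹ ≤ -Real.log q := by
    have := Real.log_le_sub_one_of_pos hq0
    linarith
  have h4 : 6 / (-Real.log q) ≤ 18 * D := by
    rw [div_le_iff₀ (hi.trans_le h3)]
    have := mul_le_mul_of_nonneg_left h3 (show 0 ≤ 18 * D by positivity)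
    have e : 18 * D * (3 * D)⁻¹ = 6 := by field_simp; norm_num
    linarith
  have h5 : 1 / (1 - (1 - D⁻¹)) = D := by
    rw [sub_sub_cancel, one_div, inv_inv]
  rw [h5]
  have h6 : 0 ≤ 1 / (1 - q) := by
    have : 0 < 1 - q := by linarith
    positivity
  have h7 : (D * (216 * D ^ 3 * (1 / (1 - q)))) * (D * D) * (2 + D * D) ≤
      (D * (216 * D ^ 3 * (3 * D))) * (D * D) * (2 + D * D) := by gcongr
  have p : ∀ k : ℕ, (2 : ℝ) ^ k ≤ D ^ k := fun k => pow_le_pow_left₀ (by norm_num) hD k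
  have h8 : (D * (216 * D ^ 3 * (3 * D))) * (D * D) * (2 + D * D) =
      1296 * D ^ 7 + 648 * D ^ 9 := by ring
  have h9 : (1296 : ℝ) * D ^ 7 ≤ D ^ 11 * D ^ 7 :=
    mul_le_mul_of_nonneg_right (le_trans (by norm_num) (p 11)) (by positivity)
  have h10 : (648 : ℝ) * D ^ 9 ≤ D ^ 10 * D ^ 9 :=
    mul_le_mul_of_nonneg_right (le_trans (by norm_num) (p 10)) (by positivity)
  have h11 : 72 * D ≤ D ^ 7 * D :=
    mul_le_mul_of_nonneg_right (le_trans (by norm_num) (p 7)) (by positivity)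
  have h12 : (8 : ℝ) ≤ D ^ 3 := le_trans (by norm_num) (p 3)
  have hD1 : (1 : ℝ) ≤ D := by linarith
  have q1 : D ^ 11 * D ^ 7 ≤ D ^ 22 := by
    rw [← pow_add]; exact pow_le_pow_right₀ hD1 (by norm_num)
  have q2 : D ^ 10 * D ^ 9 ≤ D ^ 22 := by
    rw [← pow_add]; exact pow_le_pow_right₀ hD1 (by norm_num)
  have q3 : D ^ 7 * D ≤ D ^ 22 := by
    rw [← pow_succ]; exact pow_le_pow_right₀ hD1 (by norm_num)
  have q4 : D ^ 3 ≤ D ^ 22 := pow_le_pow_right₀ hD1 (by norm_num)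
  have q5 : 4 * D ^ 22 ≤ D ^ 24 := by
    have : D ^ 24 = D ^ 2 * D ^ 22 := by rw [← pow_add]
    rw [this]
    exact mul_le_mul_of_nonneg_right (le_trans (by norm_num) (p 2)) (by positivity)
  linarith

end QNEAR

open QNEAR in
/-- QNEAR : mean error of the area functional, the constant is a power of the class parameter. -/
theorem t_QNEAR (h : HG_Stmt) : QNEAR_Stmt := by
  refine ⟨24, fun D hD n s rho hn hs hs1 hrho hmass ht => ?_⟩
  have hD0 : 0 < D := by linarith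
  have hθ0 := th_pos hD
  have hθ1 := th_lt hD
  obtain ⟨q, hq0, hq3⟩ : ∃ q : ℝ, 0 < q ∧ q ^ 3 = 1 - D⁻¹ :=
    ⟨(1 - D⁻¹) ^ (((3 : ℕ) : ℝ)⁻¹), Real.rpow_pos_of_pos hθ0 _,
      Real.rpow_inv_natCast_pow hθ0.le (by norm_num)⟩
  have hq := cbrt_th hD hq0.le hq3
  have hi : 0 < (3 * D)⁻¹ := by positivity
  have hq1 : q < 1 := by linarith
  have hB : ∀ k : ℕ, 4 * (k : ℝ) ^ 2 * q ^ k ≤ 216 * D ^ 3 := by
    intro k
    have h1 := geo_le 2 hq0.le hi hq
    have h2 : ((k : ℝ) + 1) ^ 2 * q ^ k ≤ ∑' m : ℕ, ((m : ℝ) + 1) ^ 2 * q ^ m :=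
      (summable_geo 2 hq0.le hq1).le_tsum k fun m _ => by positivity
    have h3 : (k : ℝ) ^ 2 * q ^ k ≤ ((k : ℝ) + 1) ^ 2 * q ^ k := by gcongr; linarith
    have h4 : ((2 : ℕ).factorial : ℝ) / (3 * D)⁻¹ ^ (2 + 1) = 54 * D ^ 3 := by
      rw [inv_pow, div_inv_eq_mul]
      norm_num [Nat.factorial]
      ring
    rw [h4] at h1
    linarith
  refine (core h hD0 hθ0 hθ1 hq3 hq0 hq1 (by positivity) hB n s rho hn hs hs1 hrho hmass ht).trans ?_
  have hc := const_le hD hq0 hq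
  have hn1 : (1 : ℝ) ≤ n := by exact_mod_cast (by omega : 1 ≤ n)
  have hlog : 0 ≤ Real.log n := Real.log_nonneg hn1
  have hW : 0 ≤ ∑ q ∈ M41.Om (2 * n - 1) n, wtq n s q := by
    apply sum_nonneg
    intro q _
    unfold wtq
    positivity
  have hn0 : (0 : ℝ) < n := by linarith
  gcongr

end Pool.Agent.EXW
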