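import Pool.Agent.EXW.StmtsF

/-!
# EXW, module QSLOW: sequences
-/

set_option autoImplicit false

namespace Pool.Agent.EXW

open Finset Pool.Agent.Lib27 Pool.Agent.SapR Pool.Agent.Gap Pool.Agent.FL Filter Topology
  Pool.Agent.AreaLaw MeasureTheory
open scoped NNReal ENNReal

namespace QSLOWaux

lemma tend_log : Tendsto (fun n : ℕ => Real.log (n : ℝ)) atTop atTop :=
  Real.tendsto_log_atTop.comp tendsto_natCast_atTop_atTop

lemma ev_root (j : ℕ) : ∀ᶠ L : ℝ in atTop, (j : ℝ) * L ^ (1 / 4 : ℝ) ≤ L / 4 := by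
  filter_upwards [(tendsto_rpow_atTop (show (0 : ℝ) < 3 / 4 by norm_num)).eventually_ge_atTop
    (4 * (j : ℝ)), eventually_gt_atTop (0 : ℝ)] with L h1 h2
  have h3 : L = L ^ (1 / 4 : ℝ) * L ^ (3 / 4 : ℝ) := by
    rw [← Real.rpow_add h2]; norm_num
  have h4 : 0 < L ^ (1 / 4 : ℝ) := Real.rpow_pos_of_pos h2 _
  have h5 : 4 * (j : ℝ) * L ^ (1 / 4 : ℝ) ≤ L := by
    calc 4 * (j : ℝ) * L ^ (1 / 4 : ℝ) ≤ L ^ (3 / 4 : ℝ) * L ^ (1 / 4 : ℝ) :=
          mul_le_mul_of_nonneg_right h1 h4.le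
      _ = L := by rw [mul_comm]; exact h3.symm
  linarith

/-- the comparison function -/
lemma tend_real (j : ℕ) : Tendsto (fun L : ℝ => L ^ 2 *
    Real.exp ((j : ℝ) * L ^ (1 / 4 : ℝ) - L / 2)) atTop (𝓝 0) := by
  have h1 : Tendsto (fun L : ℝ => 16 * ((L / 4) ^ 2 * Real.exp (-(L / 4)))) atTop (𝓝 0) := by
    have h2 := (Real.tendsto_pow_mul_exp_neg_atTop_nhds_zero 2).comp
      (tendsto_id.atTop_div_const (show (0 : ℝ) < 4 by norm_num))
    have h3 := h2.const_mul (16 : ℝ)
    rw [mul_zero] at h3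
    exact h3
  refine squeeze_zero' (Eventually.of_forall fun L => by positivity) ?_ h1
  filter_upwards [ev_root j] with L hL
  have h2 : Real.exp ((j : ℝ) * L ^ (1 / 4 : ℝ) - L / 2) ≤ Real.exp (-(L / 4)) :=
    Real.exp_le_exp.2 (by linarith)
  calc L ^ 2 * Real.exp ((j : ℝ) * L ^ (1 / 4 : ℝ) - L / 2)
      ≤ L ^ 2 * Real.exp (-(L / 4)) := mul_le_mul_of_nonneg_left h2 (by positivity)
    _ = _ := by ring

lemma tend_g (j : ℕ) : Tendsto (fun n : ℕ => Real.log n ^ 2 *
    Real.exp ((j : ℝ) * Real.log n ^ (1 / 4 : ℝ) - Real.log n / 2)) atTop (𝓝 0) :=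
  (tend_real j).comp tend_log

/-- the class parameter is a small power of the logarithm -/
lemma ev_M {A : ℝ} (hA : 1 ≤ A) (T : ℕ) (hT : 1 ≤ T) (f : ℕ → ℝ)
    (hf : ∀ᶠ n : ℕ in atTop, 4 * A * T / Real.log (Real.log n) ≤ f n) :
    ∀ᶠ n : ℕ in atTop, 0 < f n ∧ 1 ≤ Mf A (f n) ∧ Mf A (f n) ^ T ≤ Real.log n ^ (1 / 4 : ℝ) := by
  have hT0 : (0 : ℝ) < T := by exact_mod_cast hT
  have hC : 0 < 4 * A * T := by positivity
  filter_upwards [hf, (Real.tendsto_log_atTop.comp tend_log).eventually_ge_atTop (4 * A * T),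
    tend_log.eventually_ge_atTop 1] with n h1 h2 h3
  simp only [Function.comp_apply] at h2
  set l : ℝ := Real.log (Real.log n) with hl
  have hl0 : 0 < l := hC.trans_le h2
  have h4 : 0 < 4 * A * T / l := by positivity
  have hfn : 0 < f n := h4.trans_le h1
  have h5 : 4 * A * T / l ≤ 1 := (div_le_one hl0).2 h2
  have h6 : 4 * A * T / l ≤ min (f n) 1 := le_min h1 h5
  have hmin : 0 < min (f n) 1 := h4.trans_le h6
  refine ⟨hfn, ?_, ?_⟩
  · unfold Mf
    rw [← Real.exp_zero]
    exact Real.exp_le_exp.2 (by positivity)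
  · unfold Mf
    rw [← Real.exp_nat_mul, Real.rpow_def_of_pos (by linarith)]
    refine Real.exp_le_exp.2 ?_
    rw [← hl]
    have h7 : A / min (f n) 1 ≤ A / (4 * A * T / l) :=
      div_le_div_of_nonneg_left (by linarith) h4 h6
    calc (T : ℝ) * (A / min (f n) 1) ≤ T * (A / (4 * A * T / l)) :=
          mul_le_mul_of_nonneg_left h7 hT0.le
      _ = l * (1 / 4) := by
        have : A ≠ 0 := by linarith
        field_simp

end QSLOWaux

open QSLOWaux in
theorem t_QSLOW : QSLOW_Stmt := by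
  intro A K K1 hA
  set T : ℕ := K + K1 + 1 with hT
  have hT1 : 1 ≤ T := by omega
  have hT0 : (0 : ℝ) < T := by exact_mod_cast hT1
  refine ⟨4 * A * T, by positivity, fun f hf => ?_⟩
  have hM := ev_M hA T hT1 f hf
  -- the basic estimates
  have key : ∀ᶠ n : ℕ in atTop, 1 ≤ Real.log n ∧ 0 < f n ∧ 1 ≤ Mf A (f n) ∧
      Mf A (f n) ≤ Real.log n ^ (1 / 4 : ℝ) ∧ Mf A (f n) ^ K ≤ Real.log n ^ (1 / 4 : ℝ) ∧
      Mf A (f n) ^ K1 ≤ Real.log n ^ (1 / 4 : ℝ) ∧ Real.log n ^ (1 / 4 : ℝ) ≤ Real.log n := by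
    filter_upwards [hM, tend_log.eventually_ge_atTop 1] with n h1 h2
    obtain ⟨h3, h4, h5⟩ := h1
    refine ⟨h2, h3, h4, ?_, ?_, ?_, ?_⟩
    · exact (le_self_pow₀ h4 (by omega)).trans h5
    · exact (pow_le_pow_right₀ h4 (by omega)).trans h5
    · exact (pow_le_pow_right₀ h4 (by omega)).trans h5
    · calc Real.log n ^ (1 / 4 : ℝ) ≤ Real.log n ^ (1 : ℝ) :=
            Real.rpow_le_rpow_of_exponent_le h2 (by norm_num)
        _ = _ := Real.rpow_one _
  have hn_exp : ∀ n : ℕ, 1 ≤ Real.log n → (n : ℝ) = Real.exp (Real.log n) ∧ (0 : ℝ) < n := by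
    intro n hn
    have h0 : (0 : ℝ) < n := by
      rcases Nat.eq_zero_or_pos n with h | h
      · subst h
        rw [Nat.cast_zero, Real.log_zero] at hn
        linarith
      · exact_mod_cast h
    exact ⟨(Real.exp_log h0).symm, h0⟩
  refine ⟨?_, ?_, ?_⟩
  · filter_upwards [key] with n h
    obtain ⟨h1, h2, h3, h4, -, -, h7⟩ := h
    refine ⟨h2, h4.trans (h7.trans ?_)⟩
    obtain ⟨h8, h9⟩ := hn_exp n h1
    have h10 := Real.log_le_sub_one_of_pos h9
    linarith
  · intro j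
    refine squeeze_zero' (Eventually.of_forall fun n => by positivity) ?_ (tend_g j)
    filter_upwards [key] with n h
    obtain ⟨h1, h2, h3, h4, h5, -, h7⟩ := h
    obtain ⟨h8, h9⟩ := hn_exp n h1
    rw [← Real.exp_nat_mul]
    calc Real.exp ((j : ℝ) * Mf A (f n) ^ K) / (n : ℝ)
        = Real.exp ((j : ℝ) * Mf A (f n) ^ K - Real.log n) := by
          rw [Real.exp_sub, ← h8]
      _ ≤ Real.exp ((j : ℝ) * Real.log n ^ (1 / 4 : ℝ) - Real.log n / 2) := by
          refine Real.exp_le_exp.2 ?_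
          have := mul_le_mul_of_nonneg_left h5 (Nat.cast_nonneg j : (0 : ℝ) ≤ j)
          linarith
      _ ≤ _ := le_mul_of_one_le_left (Real.exp_pos _).le (one_le_pow₀ h1)
  · intro j
    have hg := (tend_g j).const_mul (4 : ℝ)
    rw [mul_zero] at hg
    have hexp : ∀ᶠ n : ℕ in atTop, Real.log n ^ 2 * Real.exp (-Real.log n) ≤ 2 / 9 := by
      have := ((Real.tendsto_pow_mul_exp_neg_atTop_nhds_zero 2).comp tend_log).eventually
        (gt_mem_nhds (show (0 : ℝ) < 2 / 9 by norm_num))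
      filter_upwards [this] with n hn
      exact le_of_lt hn
    refine squeeze_zero' ?_ ?_ hg
    · filter_upwards [key] with n h
      obtain ⟨h1, h2, h3, -⟩ := h
      obtain ⟨h8, h9⟩ := hn_exp n h1
      have h10 : 0 ≤ 1 - (Mf A (f n))⁻¹ := by
        have := inv_le_one_of_one_le₀ h3
        linarith
      have h11 : 0 < Mf A (f n) := by linarith
      unfold kap0
      positivity
    · filter_upwards [key, hexp] with n h he
      obtain ⟨h1, h2, h3, h4, h5, h6, h7⟩ := h
      obtain ⟨h8, h9⟩ := hn_exp n h1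
      set u : ℝ := Mf A (f n) with hu
      set L : ℝ := Real.log n with hL
      set r : ℝ := L ^ (1 / 4 : ℝ) with hr
      have hu0 : 0 < u := by linarith
      have hr1 : 1 ≤ r := h3.trans h4
      have hr0 : 0 < r := by linarith
      have hLL : L ≤ L ^ 2 := by nlinarith
      have hn1 : (1 : ℝ) ≤ n := by
        rw [h8]; exact Real.one_le_exp (by linarith)
      have hE : Real.exp (u ^ K) ^ j ≤ Real.exp ((j : ℝ) * r) := by
        rw [← Real.exp_nat_mul]
        exact Real.exp_le_exp.2 (mul_le_mul_of_nonneg_left h5 (Nat.cast_nonneg j))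
      have hsq : Real.sqrt n = Real.exp (L / 2) := by
        rw [h8, Real.exp_half]
      have hinv : ∀ x : ℝ, x / Real.exp (L / 2) = x * Real.exp (-(L / 2)) := by
        intro x
        rw [Real.exp_neg, div_eq_mul_inv]
      have t1 : u ^ K1 * (L / Real.sqrt n) ≤ L ^ 2 * Real.exp (-(L / 2)) := by
        rw [hsq, hinv, ← mul_assoc]
        refine mul_le_mul_of_nonneg_right ?_ (Real.exp_pos _).le
        have h10 : u ^ K1 ≤ L := h6.trans h7
        calc u ^ K1 * L ≤ L * L := mul_le_mul_of_nonneg_right h10 (by linarith)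
          _ = L ^ 2 := by ring
      have t2 : u ^ K1 / (n : ℝ) ^ 5 ≤ L ^ 2 * Real.exp (-(L / 2)) := by
        have h10 : u ^ K1 ≤ L ^ 2 := (h6.trans h7).trans hLL
        have h11 : Real.exp (L / 2) ≤ (n : ℝ) ^ 5 := by
          calc Real.exp (L / 2) ≤ Real.exp L := Real.exp_le_exp.2 (by linarith)
            _ = n := h8.symm
            _ ≤ (n : ℝ) ^ 5 := le_self_pow₀ hn1 (by norm_num)
        rw [← hinv]
        exact div_le_div₀ (by positivity) h10 (Real.exp_pos _) h11
      have t3 : 2 * u * ((n : ℝ) ^ 4 * (1 - u⁻¹) ^ n) ≤ 2 * (L ^ 2 * Real.exp (-(L / 2))) := by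
        have h10 : 0 ≤ 1 - u⁻¹ := by
          have := inv_le_one_of_one_le₀ h3
          linarith
        have h11 : (1 - u⁻¹) ^ n ≤ Real.exp (-(n / r)) := by
          calc (1 - u⁻¹) ^ n ≤ Real.exp (-u⁻¹) ^ n :=
                pow_le_pow_left₀ h10 (Real.one_sub_le_exp_neg _) n
            _ = Real.exp ((n : ℝ) * (-u⁻¹)) := (Real.exp_nat_mul _ _).symm
            _ ≤ Real.exp (-(n / r)) := by
                refine Real.exp_le_exp.2 ?_
                have h12 : r⁻¹ ≤ u⁻¹ := inv_anti₀ hu0 h4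
                have h13 := mul_le_mul_of_nonneg_left h12 h9.le
                rw [div_eq_mul_inv]
                linarith
        have h12 : 9 / 2 * L ≤ n / r := by
          rw [le_div_iff₀ hr0]
          have h13 : L ^ 2 ≤ 2 / 9 * n := by
            have h14 : L ^ 2 * Real.exp (-L) * Real.exp L ≤ 2 / 9 * Real.exp L :=
              mul_le_mul_of_nonneg_right he (Real.exp_pos _).le
            rw [mul_assoc, ← Real.exp_add, neg_add_cancel, Real.exp_zero, mul_one, ← h8] at h14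
            exact h14
          have h15 : L * r ≤ L * L := mul_le_mul_of_nonneg_left h7 (by linarith)
          nlinarith
        have h13 : (n : ℝ) ^ 4 * (1 - u⁻¹) ^ n ≤ Real.exp (-(L / 2)) := by
          calc (n : ℝ) ^ 4 * (1 - u⁻¹) ^ n ≤ (n : ℝ) ^ 4 * Real.exp (-(n / r)) :=
                mul_le_mul_of_nonneg_left h11 (by positivity)
            _ = Real.exp (4 * L - n / r) := by
                rw [h8, ← Real.exp_nat_mul, ← Real.exp_add]
                push_cast
                ring_nf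
            _ ≤ _ := Real.exp_le_exp.2 (by linarith)
        have h14 : u ≤ L ^ 2 := (h4.trans h7).trans hLL
        calc 2 * u * ((n : ℝ) ^ 4 * (1 - u⁻¹) ^ n) ≤ 2 * u * Real.exp (-(L / 2)) :=
              mul_le_mul_of_nonneg_left h13 (by positivity)
          _ ≤ 2 * L ^ 2 * Real.exp (-(L / 2)) := by gcongr
          _ = _ := by ring
      have hk : kap0 (u ^ K1) u (1 - u⁻¹) n ≤ 4 * (L ^ 2 * Real.exp (-(L / 2))) := by
        unfold kap0
        linarith
      calc kap0 (u ^ K1) u (1 - u⁻¹) n * Real.exp (u ^ K) ^ j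
          ≤ 4 * (L ^ 2 * Real.exp (-(L / 2))) * Real.exp ((j : ℝ) * r) :=
            mul_le_mul hk hE (by positivity) (by positivity)
        _ = 4 * (L ^ 2 * (Real.exp (-(L / 2)) * Real.exp ((j : ℝ) * r))) := by ring
        _ = 4 * (L ^ 2 * Real.exp ((j : ℝ) * r - L / 2)) := by
            rw [← Real.exp_add]
            ring_nf

end Pool.Agent.EXW
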