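import Pool.Agent.EXW.StmtsA
import Pool.Agent.Lib_helper84.Gap.XLim

/-!
# EXW, module QX: coefficient extraction with a rate
-/

set_option autoImplicit false

open Finset Filter Topology MeasureTheory

namespace Pool.Agent.EXW

open Pool.Agent.Gap Pool.Agent.FL

namespace QXaux

/-- the hypotheses on one sequence -/
def QHyp (rho M : ℝ) (a : ℕ → ℝ) : Prop := ∀ z : ℂ, ‖z‖ < rho →
  (∀ j, Summable fun m : ℕ => ‖((m : ℂ)) ^ j * ((a m : ℝ) : ℂ) * z ^ m‖) ∧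
  ‖sgf 2 a z‖ * (‖(rho : ℂ) - z‖ * Real.sqrt ‖(rho : ℂ) - z‖) ≤ M * (rho * Real.sqrt rho)

lemma QHyp.sumHyp {rho M : ℝ} {a : ℕ → ℝ} (h : QHyp rho M a) : SumHyp rho a :=
  fun z hz j => (h z hz).1 j

lemma norm_line_pos (τ : ℝ) : 0 < ‖(1 + τ * Complex.I : ℂ)‖ := by
  rw [norm_pos_iff]
  intro h0
  have := congrArg Complex.re h0
  simp at this

/-- bound of the integrand -/
lemma gN_le {rho M : ℝ} (hrho : 0 < rho) (hM : 0 ≤ M) {a : ℕ → ℝ} (h : QHyp rho M a) {n : ℕ}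
    (hn : 1 ≤ n) (τ : ℝ) :
    ‖gN rho a n τ‖ ≤ tq 3 * M * (tq ‖(1 + τ * Complex.I : ℂ)‖)⁻¹ := by
  have hn' : (0 : ℝ) < n := by exact_mod_cast hn
  have hs : 0 < ‖(1 + τ * Complex.I : ℂ)‖ := norm_line_pos τ
  have h3 : 0 < tq 3 := tq_pos (by norm_num)
  have hts := tq_pos hs
  unfold gN
  rw [Set.indicator_apply]
  split_ifs with hτ
  · have hτ' : |τ| ≤ Real.pi * n := abs_le.2 ⟨hτ.1.le, hτ.2⟩
    rw [norm_mul, Complex.norm_exp_ofReal_mul_I, mul_one, norm_mul, Complex.norm_real,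
      Real.norm_eq_abs, abs_of_pos (inv_pos.2 (tq_pos hn'))]
    set s : ℝ := ‖(1 + τ * Complex.I : ℂ)‖ with hsdef
    have hd := norm_rho_sub_ge' hrho hn hτ'
    have h1 := (h _ (norm_zn_lt hrho (w := 1 + τ * Complex.I) (by simp) hn)).2
    have hd0 : 0 < rho / 3 / n * s := by positivity
    have h2 : tq (rho / 3 / n * s) ≤ ‖(rho : ℂ) - zn rho (1 + τ * Complex.I) n‖ *
        √‖(rho : ℂ) - zn rho (1 + τ * Complex.I) n‖ := tq_mono hd0.le hd
    have h4 : ‖sgf 2 a (zn rho (1 + τ * Complex.I) n)‖ * tq (rho / 3 / n * s) ≤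
        M * tq rho :=
      (mul_le_mul_of_nonneg_left h2 (norm_nonneg _)).trans h1
    have hr3 : tq rho = tq (rho / 3) * tq 3 := by
      rw [← tq_mul (by positivity) (by norm_num)]
      congr 1
      ring
    rw [tq_mul (by positivity) hs.le, tq_div (by positivity) hn', hr3] at h4
    have ha : 0 < tq (rho / 3) := tq_pos (by positivity)
    have hb : 0 < tq (n : ℝ) := tq_pos hn'
    rw [← div_eq_mul_inv, le_div_iff₀ hts]
    have h5 : ‖sgf 2 a (zn rho (1 + τ * Complex.I) n)‖ * (tq (rho / 3) / tq n * tq s) =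
        tq (rho / 3) * ((tq n)⁻¹ * ‖sgf 2 a (zn rho (1 + τ * Complex.I) n)‖ * tq s) := by
      rw [div_eq_mul_inv]; ring
    have h6 : M * (tq (rho / 3) * tq 3) = tq (rho / 3) * (tq 3 * M) := by ring
    rw [h5, h6] at h4
    exact le_of_mul_le_mul_left h4 ha
  · rw [norm_zero]
    positivity

/-- integrability of the integrand -/
lemma gN_int {rho M : ℝ} (hrho : 0 < rho) (hM : 0 ≤ M) {a : ℕ → ℝ} (h : QHyp rho M a) {n : ℕ}
    (hn : 1 ≤ n) : Integrable (fun τ => gN rho a n τ) := by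
  refine (integrable_bound (tq 3 * M)).mono' (aesm_gN hrho h.sumHyp hn)
    (Eventually.of_forall fun τ => ?_)
  rw [← tq_norm_eq]
  exact gN_le hrho hM h hn τ

lemma abs_le_norm_line (τ : ℝ) : |τ| ≤ ‖(1 + τ * Complex.I : ℂ)‖ := by
  have h := Complex.abs_im_le_norm (1 + τ * Complex.I : ℂ)
  simpa using h

/-- bound of the integrand far out -/
lemma gN_far {rho M : ℝ} (hrho : 0 < rho) (hM : 0 ≤ M) {a : ℕ → ℝ} (h : QHyp rho M a) {n : ℕ}
    (hn : 1 ≤ n) {τ : ℝ} (hτ : 0 < |τ|) :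
    ‖gN rho a n τ‖ ≤ tq 3 * M * |τ| ^ (-(3 / 2) : ℝ) := by
  refine (gN_le hrho hM h hn τ).trans ?_
  have h3 : 0 ≤ tq 3 := tq_nonneg (by norm_num)
  refine mul_le_mul_of_nonneg_left ?_ (by positivity)
  have h1 : tq |τ| ≤ tq ‖(1 + τ * Complex.I : ℂ)‖ := tq_mono hτ.le (abs_le_norm_line τ)
  have h2 : (tq |τ|)⁻¹ = |τ| ^ (-(3 / 2) : ℝ) := by
    rw [Real.rpow_neg hτ.le]
    congr 1
    unfold tq
    rw [Real.sqrt_eq_rpow, ← Real.rpow_one_add' hτ.le (by norm_num)]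
    norm_num
  rw [← h2]
  exact inv_anti₀ (tq_pos hτ) h1

/-- the tail integral -/
lemma tail {f : ℝ → ℂ} {B Y : ℝ} (hY : 0 < Y)
    (hf : ∀ τ : ℝ, Y < τ → ‖f τ‖ ≤ B * τ ^ (-(3 / 2) : ℝ)) :
    ‖∫ τ in Set.Ioi Y, f τ‖ ≤ 2 * B / √Y := by
  have hint : IntegrableOn (fun τ : ℝ => B * τ ^ (-(3 / 2) : ℝ)) (Set.Ioi Y) :=
    (integrableOn_Ioi_rpow_of_lt (by norm_num) hY).const_mul B
  have h1 : ‖∫ τ in Set.Ioi Y, f τ‖ ≤ ∫ τ in Set.Ioi Y, B * τ ^ (-(3 / 2) : ℝ) := by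
    refine norm_integral_le_of_norm_le hint ?_
    filter_upwards [self_mem_ae_restrict measurableSet_Ioi] with τ hτ
    exact hf τ hτ
  refine h1.trans (le_of_eq ?_)
  rw [integral_const_mul, integral_Ioi_rpow_of_lt (by norm_num) hY]
  have h2 : Y ^ (-(3 / 2) + 1 : ℝ) = (√Y)⁻¹ := by
    rw [Real.sqrt_eq_rpow, ← Real.rpow_neg hY.le]
    norm_num
  rw [h2]
  have : (0 : ℝ) < √Y := Real.sqrt_pos.2 hY
  field_simp
  norm_num

lemma gN_eq {rho : ℝ} {a : ℕ → ℝ} {n : ℕ} {τ : ℝ} (hτ : |τ| < Real.pi * n) :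
    gN rho a n τ = -(D2 rho a n (1 + τ * Complex.I)) * Complex.exp (τ * Complex.I) := by
  unfold gN D2
  rw [Set.indicator_of_mem]
  · ring
  · exact ⟨(abs_lt.1 hτ).1, (abs_lt.1 hτ).2.le⟩

/-- the main part -/
lemma main_part {F F' f : ℝ → ℂ} {E Y : ℝ} (hY : 1 ≤ Y) (hE : 0 ≤ E)
    (hF : ∀ τ : ℝ, HasDerivAt F (F' τ) τ) (hF'c : Continuous F')
    (hf : ∀ τ : ℝ, |τ| ≤ Y → f τ = Complex.I * F' τ * Complex.exp (τ * Complex.I))
    (hb : ∀ τ : ℝ, |τ| ≤ Y → ‖F τ‖ ≤ E) :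
    ‖∫ τ in (-Y)..Y, f τ‖ ≤ 4 * (Y * E) := by
  have hYY : -Y ≤ Y := by linarith
  have hFc : Continuous F := continuous_iff_continuousAt.2 fun τ => (hF τ).continuousAt
  have hexp : ∀ τ : ℝ, HasDerivAt (fun τ : ℝ => Complex.exp (τ * Complex.I))
      (Complex.exp (τ * Complex.I) * Complex.I) τ := by
    intro τ
    have h1 : HasDerivAt (fun τ : ℝ => (τ : ℂ) * Complex.I) Complex.I τ := by
      have := (Complex.ofRealCLM.hasDerivAt (x := τ)).mul_const Complex.I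
      simpa using this
    exact h1.cexp
  set Φ : ℝ → ℂ := fun τ => Complex.I * F τ * Complex.exp (τ * Complex.I) with hΦ
  set Φ' : ℝ → ℂ := fun τ => Complex.I * F' τ * Complex.exp (τ * Complex.I) -
    F τ * Complex.exp (τ * Complex.I) with hΦ'
  have hd : ∀ τ, HasDerivAt Φ (Φ' τ) τ := by
    intro τ
    have h1 := ((hF τ).const_mul Complex.I).mul (hexp τ)
    have h2 : Complex.I * F' τ * Complex.exp (τ * Complex.I) +
        Complex.I * F τ * (Complex.exp (τ * Complex.I) * Complex.I) = Φ' τ := by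
      simp only [hΦ']
      linear_combination (F τ * Complex.exp (τ * Complex.I)) * Complex.I_mul_I
    rw [← h2]
    exact h1
  have hΦ'c : Continuous Φ' := by
    simp only [hΦ']
    fun_prop
  have hFe : Continuous fun τ : ℝ => F τ * Complex.exp (τ * Complex.I) := by fun_prop
  have hI : ∫ τ in (-Y)..Y, f τ = (Φ Y - Φ (-Y)) +
      ∫ τ in (-Y)..Y, F τ * Complex.exp (τ * Complex.I) := by
    rw [← intervalIntegral.integral_eq_sub_of_hasDerivAt (fun τ _ => hd τ)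
      (hΦ'c.intervalIntegrable _ _), ← intervalIntegral.integral_add
      (hΦ'c.intervalIntegrable _ _) (hFe.intervalIntegrable _ _)]
    refine intervalIntegral.integral_congr fun τ hτ => ?_
    rw [Set.uIcc_of_le hYY] at hτ
    show f τ = Φ' τ + F τ * Complex.exp (τ * Complex.I)
    rw [hf τ (abs_le.2 hτ)]
    simp only [hΦ']
    ring
  have hn : ∀ τ : ℝ, |τ| ≤ Y → ‖Φ τ‖ ≤ E := by
    intro τ hτ
    simp only [hΦ]
    rw [norm_mul, norm_mul, Complex.norm_I, one_mul, Complex.norm_exp_ofReal_mul_I, mul_one]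
    exact hb τ hτ
  have h1 : ‖Φ Y‖ ≤ E := hn Y (by rw [abs_of_nonneg (by linarith)])
  have h2 : ‖Φ (-Y)‖ ≤ E := hn (-Y) (by rw [abs_neg, abs_of_nonneg (by linarith)])
  have h3 : ‖∫ τ in (-Y)..Y, F τ * Complex.exp (τ * Complex.I)‖ ≤ E * |Y - (-Y)| := by
    refine intervalIntegral.norm_integral_le_of_norm_le_const fun τ hτ => ?_
    rw [Set.uIoc_of_le hYY] at hτ
    rw [norm_mul, Complex.norm_exp_ofReal_mul_I, mul_one]
    exact hb τ (abs_le.2 ⟨hτ.1.le, hτ.2⟩)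
  have h4 : |Y - (-Y)| = 2 * Y := by
    rw [abs_of_nonneg (by linarith)]
    ring
  rw [h4] at h3
  rw [hI]
  calc ‖(Φ Y - Φ (-Y)) + ∫ τ in (-Y)..Y, F τ * Complex.exp (τ * Complex.I)‖
      ≤ ‖Φ Y - Φ (-Y)‖ + ‖∫ τ in (-Y)..Y, F τ * Complex.exp (τ * Complex.I)‖ := norm_add_le _ _
    _ ≤ (‖Φ Y‖ + ‖Φ (-Y)‖) + E * (2 * Y) := add_le_add (norm_sub_le _ _) h3
    _ ≤ (E + E) + E * (2 * Y) := by gcongr
    _ ≤ 4 * (Y * E) := by nlinarith

end QXaux

open QXaux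

/-- QX: coefficient extraction with a rate. -/
theorem t_QX : QX_Stmt := by
  refine ⟨21, by norm_num, ?_⟩
  intro rho rho' c M M' E Y n n0 a a' hrho hrho' hc hM hM' hE hY hYn hYn0 ha ha' hw
  have hA : QHyp rho M a := ha
  have hA' : QHyp rho' M' a' := ha'
  have hY0 : 0 < Y := by linarith
  have hnr : (1 : ℝ) ≤ n := hY.trans hYn
  have hn0r : (1 : ℝ) ≤ n0 := hY.trans hYn0
  have hn : 1 ≤ n := by exact_mod_cast hnr
  have hn0 : 1 ≤ n0 := by exact_mod_cast hn0r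
  have hnpos : (0 : ℝ) < n := by linarith
  have hn0pos : (0 : ℝ) < n0 := by linarith
  set r : ℝ := Real.sqrt ((n0 : ℝ) / n) with hr
  have hr0 : 0 ≤ r := Real.sqrt_nonneg _
  have hrr : r = √(n0 : ℝ) / √(n : ℝ) := by rw [hr, Real.sqrt_div' _ hnpos.le]
  -- the integrand
  set f : ℝ → ℂ := fun τ => gN rho a n τ - ((c * r : ℝ) : ℂ) * gN rho' a' n0 τ with hf
  have i1 := gN_int hrho hM hA hn
  have i2 := gN_int hrho' hM' hA' hn0
  have hfi : Integrable f := i1.sub (i2.const_mul _)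
  have hval : ∫ τ : ℝ, f τ =
      (((tq n * rho ^ n * a n - c * r * (tq n0 * rho' ^ n0 * a' n0)) : ℝ) : ℂ) *
        (2 * Real.pi * Complex.exp (-1)) := by
    simp only [hf]
    rw [integral_sub i1 (i2.const_mul _), integral_const_mul, extract hrho hA.sumHyp hn,
      extract hrho' hA'.sumHyp hn0]
    push_cast
    ring
  -- the splitting
  have hsplit : ∫ τ : ℝ, f τ = (∫ τ in Set.Iic (-Y), f τ) + (∫ τ in (-Y)..Y, f τ) +
      ∫ τ in Set.Ioi Y, f τ := by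
    have e1 := intervalIntegral.integral_Iic_add_Ioi (b := Y) hfi.integrableOn hfi.integrableOn
    have e2 := intervalIntegral.integral_Iic_sub_Iic (a := -Y) (b := Y) hfi.integrableOn
      hfi.integrableOn
    rw [← e1, ← e2]
    ring
  -- the tails
  set T : ℝ := tq 3 * M + c * r * (tq 3 * M') with hT
  have hfar : ∀ τ : ℝ, Y < |τ| → ‖f τ‖ ≤ T * |τ| ^ (-(3 / 2) : ℝ) := by
    intro τ hτ
    have hτ0 : 0 < |τ| := hY0.trans hτ
    simp only [hf]
    refine (norm_sub_le _ _).trans ?_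
    rw [norm_mul, Complex.norm_real, Real.norm_eq_abs, abs_of_nonneg (by positivity), hT, add_mul,
      mul_assoc (c * r)]
    exact add_le_add (gN_far hrho hM hA hn hτ0)
      (mul_le_mul_of_nonneg_left (gN_far hrho' hM' hA' hn0 hτ0) (by positivity))
  have t1 : ‖∫ τ in Set.Ioi Y, f τ‖ ≤ 2 * T / √Y := by
    refine tail hY0 fun τ hτ => ?_
    have h0 : 0 < τ := hY0.trans hτ
    have := hfar τ (by rwa [abs_of_pos h0])
    rwa [abs_of_pos h0] at this
  have t2 : ‖∫ τ in Set.Iic (-Y), f τ‖ ≤ 2 * T / √Y := by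
    rw [← integral_comp_neg_Ioi]
    refine tail hY0 fun τ hτ => ?_
    have h0 : 0 < τ := hY0.trans hτ
    have := hfar (-τ) (by rwa [abs_neg, abs_of_pos h0])
    rwa [abs_neg, abs_of_pos h0] at this
  -- the main part
  set F : ℝ → ℂ := fun τ => D1 rho a n (1 + τ * Complex.I) -
    ((c * r : ℝ) : ℂ) * D1 rho' a' n0 (1 + τ * Complex.I) with hF
  set F' : ℝ → ℂ := fun τ => Complex.I * (D2 rho a n (1 + τ * Complex.I) -
    ((c * r : ℝ) : ℂ) * D2 rho' a' n0 (1 + τ * Complex.I)) with hF'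
  have hline : ∀ τ : ℝ, HasDerivAt (fun τ : ℝ => (1 + τ * Complex.I : ℂ)) Complex.I τ := by
    intro τ
    have := ((Complex.ofRealCLM.hasDerivAt (x := τ)).mul_const Complex.I).const_add (1 : ℂ)
    simpa using this
  have hFd : ∀ τ : ℝ, HasDerivAt F (F' τ) τ := by
    intro τ
    have h1 : HasDerivAt (fun u => D1 rho a n u - ((c * r : ℝ) : ℂ) * D1 rho' a' n0 u)
        (D2 rho a n (1 + τ * Complex.I) - ((c * r : ℝ) : ℂ) * D2 rho' a' n0 (1 + τ * Complex.I))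
        (1 + τ * Complex.I) :=
      (hasDerivAt_D1 hrho hA.sumHyp hn (by simp)).sub
        ((hasDerivAt_D1 hrho' hA'.sumHyp hn0 (by simp)).const_mul _)
    have h2 := HasDerivAt.comp_of_eq τ h1 (hline τ) rfl
    simp only [hF']
    rw [mul_comm]
    exact h2
  have hF'c : Continuous F' := by
    have c1 := continuous_sgf_line hrho hA.sumHyp 2 hn
    have c2 := continuous_sgf_line hrho' hA'.sumHyp 2 hn0
    simp only [hF', D2]
    fun_prop
  have hfF : ∀ τ : ℝ, |τ| ≤ Y → f τ = Complex.I * F' τ * Complex.exp (τ * Complex.I) := by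
    intro τ hτ
    have hpi : (1 : ℝ) < Real.pi := by
      have := Real.pi_gt_three
      linarith
    have h1 : |τ| < Real.pi * n := by nlinarith
    have h2 : |τ| < Real.pi * n0 := by nlinarith
    simp only [hf, hF']
    rw [gN_eq h1, gN_eq h2]
    linear_combination (-(D2 rho a n (1 + τ * Complex.I) -
      ((c * r : ℝ) : ℂ) * D2 rho' a' n0 (1 + τ * Complex.I)) * Complex.exp (τ * Complex.I)) *
      Complex.I_mul_I
  have hFb : ∀ τ : ℝ, |τ| ≤ Y → ‖F τ‖ ≤ E := by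
    intro τ hτ
    have h1 := hw (1 + τ * Complex.I) (by simp) (by simpa using hτ)
    have sn : (0 : ℝ) < √(n : ℝ) := Real.sqrt_pos.2 hnpos
    have sn0 : (0 : ℝ) < √(n0 : ℝ) := Real.sqrt_pos.2 hn0pos
    have e1 : ((√(n : ℝ) : ℝ) : ℂ) ≠ 0 := by
      rw [Complex.ofReal_ne_zero]; exact sn.ne'
    have e2 : ((√(n0 : ℝ) : ℝ) : ℂ) ≠ 0 := by
      rw [Complex.ofReal_ne_zero]; exact sn0.ne'
    have h2 : F τ = (sgf 1 a (zn rho (1 + τ * Complex.I) n) -
        (c : ℂ) * sgf 1 a' (zn rho' (1 + τ * Complex.I) n0)) / ((√(n : ℝ) : ℝ) : ℂ) := by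
      simp only [hF, D1, hrr]
      push_cast
      field_simp
    rw [h2, norm_div, Complex.norm_real, Real.norm_eq_abs, abs_of_pos sn, div_le_iff₀ sn]
    exact h1
  have t3 := main_part hY hE hFd hF'c hfF hFb
  -- conclusion
  have hnorm : ‖∫ τ : ℝ, f τ‖ ≤ 4 * (Y * E) + 4 * T / √Y := by
    rw [hsplit]
    calc ‖(∫ τ in Set.Iic (-Y), f τ) + (∫ τ in (-Y)..Y, f τ) + ∫ τ in Set.Ioi Y, f τ‖
        ≤ ‖∫ τ in Set.Iic (-Y), f τ‖ + ‖∫ τ in (-Y)..Y, f τ‖ + ‖∫ τ in Set.Ioi Y, f τ‖ :=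
          norm_add₃_le
      _ ≤ 2 * T / √Y + 4 * (Y * E) + 2 * T / √Y := by gcongr
      _ = 4 * (Y * E) + 4 * T / √Y := by ring
  set A : ℝ := tq n * rho ^ n * a n - c * r * (tq n0 * rho' ^ n0 * a' n0) with hAdef
  have hA1 : ‖∫ τ : ℝ, f τ‖ = |A| * (2 * Real.pi * Real.exp (-1)) := by
    rw [hval, norm_mul, Complex.norm_real, Real.norm_eq_abs]
    congr 1
    have : (2 * Real.pi * Complex.exp (-1) : ℂ) = ((2 * Real.pi * Real.exp (-1) : ℝ) : ℂ) := by
      push_cast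
      rfl
    rw [this, Complex.norm_real, Real.norm_eq_abs, abs_of_nonneg (by positivity)]
  have hone : (1 : ℝ) ≤ 2 * Real.pi * Real.exp (-1) := by
    have h1 : (1 / 3 : ℝ) ≤ Real.exp (-1) := by
      rw [Real.exp_neg, ← one_div]
      apply one_div_le_one_div_of_le (Real.exp_pos 1)
      have := Real.exp_one_lt_d9
      linarith
    have h2 := Real.pi_gt_three
    nlinarith
  have hA2 : |A| ≤ 4 * (Y * E) + 4 * T / √Y := by
    calc |A| ≤ |A| * (2 * Real.pi * Real.exp (-1)) := le_mul_of_one_le_right (abs_nonneg _) hone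
      _ ≤ _ := by rw [← hA1]; exact hnorm
  have htq3 : tq 3 ≤ 21 / 4 := by
    unfold tq
    have : √3 ≤ 7 / 4 := by
      rw [Real.sqrt_le_left (by norm_num)]
      norm_num
    linarith
  have hs : 0 < √Y := Real.sqrt_pos.2 hY0
  have hT2 : 4 * T / √Y ≤ 21 * ((M + c * r * M') / √Y) := by
    rw [← mul_div_assoc]
    apply div_le_div_of_nonneg_right _ hs.le
    have e : T = tq 3 * (M + c * r * M') := by rw [hT]; ring
    have h0 : 0 ≤ M + c * r * M' := by positivity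
    rw [e]
    nlinarith
  have hYE : 0 ≤ Y * E := by positivity
  show |tq n * rho ^ n * a n - c * r * (tq n0 * rho' ^ n0 * a' n0)| ≤
    21 * (Y * E + (M + c * r * M') / √Y)
  rw [← hAdef]
  linarith

end Pool.Agent.EXW
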