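import Pool.Agent.EXW.MA
import Pool.Agent.EXW.MC
import Pool.Agent.EXW.MC1
import Pool.Agent.EXW.MC2
import Pool.Agent.EXW.MC3
import Pool.Agent.EXW.MD
import Pool.Agent.EXW.ME
import Pool.Agent.EXW.MF
import Pool.Agent.EXW.MGAP
import Pool.Agent.EXW.MN
import Pool.Agent.EXW.QCA
import Pool.Agent.EXW.QDAT
import Pool.Agent.EXW.QE
import Pool.Agent.EXW.QETA
import Pool.Agent.EXW.QFIN
import Pool.Agent.EXW.QFINAL
import Pool.Agent.EXW.QGC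
import Pool.Agent.EXW.QGEB
import Pool.Agent.EXW.QGJ2
import Pool.Agent.EXW.QGM2
import Pool.Agent.EXW.QGRE
import Pool.Agent.EXW.QGSUP
import Pool.Agent.EXW.QGV
import Pool.Agent.EXW.QGVL
import Pool.Agent.EXW.QKEY
import Pool.Agent.EXW.QLT
import Pool.Agent.EXW.QMG
import Pool.Agent.EXW.QMOD
import Pool.Agent.EXW.QNEAR
import Pool.Agent.EXW.QP
import Pool.Agent.EXW.QPAR
import Pool.Agent.EXW.QRAT
import Pool.Agent.EXW.QRB
import Pool.Agent.EXW.QS0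
import Pool.Agent.EXW.QSIDE
import Pool.Agent.EXW.QSLOW
import Pool.Agent.EXW.QX
import Pool.Agent.Lib_helper89.FL.Main

/-!
# Project EXW: assembly
-/

set_option autoImplicit false

namespace Pool.Agent.EXW

open Finset Pool.Agent.Lib27 Pool.Agent.SapR Pool.Agent.Gap Pool.Agent.FL Filter Topology
  Pool.Agent.AreaLaw MeasureTheory
open scoped NNReal ENNReal

theorem m_MC : MC_Stmt := t_MC t_MC1 t_MC2 t_MC3

theorem m_MGAP : MGAP_Stmt := t_MGAP t_MA (t_MD t_MA) t_ME t_MF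

theorem m_MN : MN_Stmt := t_MN m_MC m_MGAP

theorem m_QMG : QMG_Stmt := t_QMG m_MN H27.mgi1

theorem m_QGRE : QGRE_Stmt := t_QGRE t_QGC

theorem m_QGSUP : QGSUP_Stmt := t_QGSUP t_QGC m_QGRE

theorem m_QGV : QGV_Stmt := t_QGV m_QGRE m_QGSUP

/-- the universal law from the weighted bounds -/
theorem m_QFIN (hW : QGW_Stmt) : QFIN_Stmt := by
  obtain ⟨oLT, oLT1, oM2, oBAL, oST, oSUP, oW⟩ := old_gap
  have hJ1 : J1_Stmt := J1
  have hC2 : C2_Stmt := Gap.C2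
  have hC : C_Stmt := Gap.C hC2
  have hRE : RE_Stmt := Gap.RE hC
  have hJ2s : J2_Stmt := J2 hC2 hC hRE
  have hB1 : B1_Stmt := B1
  have hS0 : QS0_Stmt := t_QS0 oSUP oW
  have hETA : QETA_Stmt := t_QETA oST
  have hRB : QRB_Stmt := t_QRB t_QPAR hS0
  have hE : QE_Stmt := t_QE m_QGRE hW t_QGEB t_QPAR hS0 hETA hRB
  have hJ : QGJ2_Stmt := t_QGJ2 t_QGC m_QGRE m_QGSUP hW
  have hP : QP_Stmt := t_QP hE (t_QCA t_QGVL) hJ t_QPAR hS0 hJ1 hJ2s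
  have hLT : QLT_Stmt := t_QLT hP t_QX hJ t_QPAR hJ1 hJ2s hB1
  have hM2 : QGM2_Stmt := t_QGM2 t_QGC m_QGRE m_QGSUP hW
  have hRAT : QRAT_Stmt := t_QRAT hLT hM2 t_QPAR oM2 oBAL
  have hSIDE : QSIDE_Stmt := t_QSIDE hRAT t_QPAR oBAL oM2
  exact t_QFIN hSIDE t_QKEY oLT oLT1 oM2 oBAL

/-- version 1 -/
theorem m_QFINAL (hW : QGW_Stmt) : QFINAL_Stmt :=
  t_QFINAL (m_QFIN hW) (t_QDAT m_QMG mg_main mgi2 (kw hg)) t_QSLOW (t_QMOD m_QGV (t_QNEAR hg))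
    hg (tr K1H.k1h)

end Pool.Agent.EXW
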