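import Pool.Agent.EXW.Stmts2

/-!
# EXW version 2, module SLOW2: sequences
-/

set_option autoImplicit false

namespace Pool.Agent.EXW

open Finset Pool.Agent.Lib27 Pool.Agent.SapR Pool.Agent.Gap Pool.Agent.FL Filter Topology
  Pool.Agent.AreaLaw MeasureTheory
open scoped NNReal ENNReal

namespace SLOW2aux

lemma tend_log : Tendsto (fun n : ℕ => Real.log (n : ℝ)) atTop atTop :=
  Real.tendsto_log_atTop.comp tendsto_natCast_atTop_atTop

/-- the comparison function -/
lemma tend_real : Tendsto (fun L : ℝ => L ^ 2 * Real.exp (-(L / 4))) atTop (𝓝 0) := by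
  have h2 := (Real.tendsto_pow_mul_exp_neg_atTop_nhds_zero 2).comp
    (tendsto_id.atTop_div_const (show (0 : ℝ) < 4 by norm_num))
  have h3 := h2.const_mul (16 : ℝ)
  rw [mul_zero] at h3
  refine h3.congr fun L => ?_
  simp only [Function.comp_apply, id]
  ring

lemma tend_g : Tendsto (fun n : ℕ => Real.log n ^ 2 * Real.exp (-(Real.log n / 4)))
    atTop (𝓝 0) :=
  tend_real.comp tend_log

/-- the class parameter is a small power of `n` -/
lemma ev_M {A : ℝ} (hA : 1 ≤ A) (T : ℕ) (hT : 1 ≤ T) (f : ℕ → ℝ)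
    (hf : Tendsto (fun n : ℕ => f n * Real.log n) atTop atTop) :
    ∀ᶠ n : ℕ in atTop, 0 < f n ∧ 1 ≤ Mf A (f n) ∧
      Mf A (f n) ^ T ≤ Real.exp (Real.log n / 8) := by
  have hT0 : (0 : ℝ) < T := by exact_mod_cast hT
  have hC : 0 < 8 * A * T := by positivity
  filter_upwards [hf.eventually_ge_atTop (8 * A * T), tend_log.eventually_ge_atTop (8 * A * T)]
    with n h1 h2
  set l : ℝ := Real.log n with hl
  have hl0 : 0 < l := hC.trans_le h2
  have h4 : 0 < 8 * A * T / l := by positivity
  have h1' : 8 * A * T / l ≤ f n := (div_le_iff₀ hl0).2 h1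
  have hfn : 0 < f n := h4.trans_le h1'
  have h5 : 8 * A * T / l ≤ 1 := (div_le_one hl0).2 h2
  have h6 : 8 * A * T / l ≤ min (f n) 1 := le_min h1' h5
  have hmin : 0 < min (f n) 1 := h4.trans_le h6
  refine ⟨hfn, ?_, ?_⟩
  · unfold Mf
    rw [← Real.exp_zero]
    exact Real.exp_le_exp.2 (by positivity)
  · unfold Mf
    rw [← Real.exp_nat_mul]
    refine Real.exp_le_exp.2 ?_
    have h7 : A / min (f n) 1 ≤ A / (8 * A * T / l) :=
      div_le_div_of_nonneg_left (by linarith) h4 h6
    calc (T : ℝ) * (A / min (f n) 1) ≤ T * (A / (8 * A * T / l)) :=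
          mul_le_mul_of_nonneg_left h7 hT0.le
      _ = l / 8 := by
        have : A ≠ 0 := by linarith
        field_simp

lemma nat_exp {n : ℕ} (hn : 1 ≤ Real.log n) : (n : ℝ) = Real.exp (Real.log n) ∧ (0 : ℝ) < n := by
  have h0 : (0 : ℝ) < n := by
    rcases Nat.eq_zero_or_pos n with h | h
    · subst h
      rw [Nat.cast_zero, Real.log_zero] at hn
      linarith
    · exact_mod_cast h
  exact ⟨(Real.exp_log h0).symm, h0⟩

end SLOW2aux

open SLOW2aux in
theorem t_SLOW2 : SLOW2_Stmt := by
  intro A Kn hA f hf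
  refine ⟨?_, ?_, ?_⟩
  · intro K
    filter_upwards [ev_M hA (K + 1) (by omega) f hf, tend_log.eventually_ge_atTop 1] with n h1 h2
    obtain ⟨h3, h4, h5⟩ := h1
    obtain ⟨h6, h7⟩ := nat_exp h2
    refine ⟨h3, (pow_le_pow_right₀ h4 (Nat.le_succ K)).trans (h5.trans ?_)⟩
    calc Real.exp (Real.log n / 8) ≤ Real.exp (Real.log n) := Real.exp_le_exp.2 (by linarith)
      _ = n := h6.symm
  · intro j
    refine squeeze_zero' ?_ ?_ tend_g
    · refine Eventually.of_forall fun n => ?_
      have : 0 < Mf A (f n) := Real.exp_pos _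
      positivity
    · filter_upwards [ev_M hA (j + 1) (by omega) f hf, tend_log.eventually_ge_atTop 1]
        with n h1 h2
      obtain ⟨h3, h4, h5⟩ := h1
      obtain ⟨h6, h7⟩ := nat_exp h2
      have h8 : Mf A (f n) ^ j ≤ Real.exp (Real.log n / 8) :=
        (pow_le_pow_right₀ h4 (Nat.le_succ j)).trans h5
      calc Mf A (f n) ^ j / (n : ℝ) ≤ Real.exp (Real.log n / 8) / n :=
            div_le_div_of_nonneg_right h8 h7.le
        _ = Real.exp (Real.log n / 8 - Real.log n) := by
            rw [Real.exp_sub, ← h6]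
        _ ≤ Real.exp (-(Real.log n / 4)) := Real.exp_le_exp.2 (by linarith)
        _ ≤ _ := le_mul_of_one_le_left (Real.exp_pos _).le (one_le_pow₀ h2)
  · intro j
    have hg := tend_g.const_mul (4 : ℝ)
    rw [mul_zero] at hg
    have hexp : ∀ᶠ n : ℕ in atTop, Real.log n ≤ 1 / 5 * Real.exp (Real.log n / 2) := by
      have h1 : Tendsto (fun L : ℝ => L * Real.exp (-(L / 2))) atTop (𝓝 0) := by
        have h2 := (Real.tendsto_pow_mul_exp_neg_atTop_nhds_zero 1).comp
          (tendsto_id.atTop_div_const (show (0 : ℝ) < 2 by norm_num))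
        have h3 := h2.const_mul (2 : ℝ)
        rw [mul_zero] at h3
        refine h3.congr fun L => ?_
        simp only [Function.comp_apply, id, pow_one]
        ring
      have := (h1.comp tend_log).eventually (gt_mem_nhds (show (0 : ℝ) < 1 / 5 by norm_num))
      filter_upwards [this] with n hn
      simp only [Function.comp_apply] at hn
      have h3 := mul_le_mul_of_nonneg_right (le_of_lt hn) (Real.exp_pos (Real.log n / 2)).le
      rwa [mul_assoc, ← Real.exp_add, neg_add_cancel, Real.exp_zero, mul_one] at h3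
    refine squeeze_zero' ?_ ?_ hg
    · filter_upwards [ev_M hA 1 le_rfl f hf, tend_log.eventually_ge_atTop 1] with n h1 h2
      obtain ⟨h3, h4, -⟩ := h1
      have h10 : 0 ≤ 1 - (Mf A (f n))⁻¹ := by
        have := inv_le_one_of_one_le₀ h4
        linarith
      have h11 : 0 < Mf A (f n) := by linarith
      have h12 : 0 ≤ Real.log n := by linarith
      unfold kap0
      positivity
    · filter_upwards [ev_M hA (Kn + j + 1) (by omega) f hf, tend_log.eventually_ge_atTop 1, hexp]
        with n h1 h2 he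
      obtain ⟨h3, h4, h5⟩ := h1
      obtain ⟨h6, h7⟩ := nat_exp h2
      set u : ℝ := Mf A (f n) with hu
      set L : ℝ := Real.log n with hL
      have hu0 : 0 < u := by linarith
      have hn1 : (1 : ℝ) ≤ n := by
        rw [h6]; exact Real.one_le_exp (by linarith)
      have hpow : ∀ i : ℕ, i ≤ Kn + j + 1 → u ^ i ≤ Real.exp (L / 8) := fun i hi =>
        (pow_le_pow_right₀ h4 hi).trans h5
      have hsq : Real.sqrt n = Real.exp (L / 2) := by
        rw [h6, Real.exp_half]
      have hL2 : (1 : ℝ) ≤ L ^ 2 := one_le_pow₀ h2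
      have hLL : L ≤ L ^ 2 := by nlinarith
      have hE4 : 0 < Real.exp (-(L / 4)) := Real.exp_pos _
      have hone : Real.exp (-(L / 4)) ≤ L ^ 2 * Real.exp (-(L / 4)) :=
        le_mul_of_one_le_left hE4.le hL2
      have t1 : u ^ Kn * (L / Real.sqrt n) * u ^ j ≤ L ^ 2 * Real.exp (-(L / 4)) := by
        have e1 : u ^ Kn * (L / Real.sqrt n) * u ^ j = u ^ (Kn + j) * (L * Real.exp (-(L / 2))) := by
          rw [hsq, pow_add, Real.exp_neg, div_eq_mul_inv]
          ring
        rw [e1]
        calc u ^ (Kn + j) * (L * Real.exp (-(L / 2)))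
            ≤ Real.exp (L / 8) * (L * Real.exp (-(L / 2))) :=
              mul_le_mul_of_nonneg_right (hpow _ (by omega)) (by positivity)
          _ = L * Real.exp (L / 8 - L / 2) := by
              rw [sub_eq_add_neg, Real.exp_add]; ring
          _ ≤ L ^ 2 * Real.exp (-(L / 4)) :=
              mul_le_mul hLL (Real.exp_le_exp.2 (by linarith)) (Real.exp_pos _).le (by positivity)
      have t2 : u ^ Kn / (n : ℝ) ^ 5 * u ^ j ≤ L ^ 2 * Real.exp (-(L / 4)) := by
        have h11 : Real.exp L ≤ (n : ℝ) ^ 5 := by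
          calc Real.exp L = n := h6.symm
            _ ≤ (n : ℝ) ^ 5 := le_self_pow₀ hn1 (by norm_num)
        have e1 : u ^ Kn / (n : ℝ) ^ 5 * u ^ j = u ^ (Kn + j) / (n : ℝ) ^ 5 := by
          rw [pow_add]; ring
        rw [e1]
        calc u ^ (Kn + j) / (n : ℝ) ^ 5 ≤ Real.exp (L / 8) / Real.exp L :=
              div_le_div₀ (Real.exp_pos _).le (hpow _ (by omega)) (Real.exp_pos _) h11
          _ = Real.exp (L / 8 - L) := (Real.exp_sub _ _).symm
          _ ≤ Real.exp (-(L / 4)) := Real.exp_le_exp.2 (by linarith)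
          _ ≤ _ := hone
      have t3 : 2 * u * ((n : ℝ) ^ 4 * (1 - u⁻¹) ^ n) * u ^ j ≤
          2 * (L ^ 2 * Real.exp (-(L / 4))) := by
        have h10 : 0 ≤ 1 - u⁻¹ := by
          have := inv_le_one_of_one_le₀ h4
          linarith
        have hu8 : u ≤ Real.exp (L / 8) := by
          have := hpow 1 (by omega)
          rwa [pow_one] at this
        have h12 : 5 * L ≤ (n : ℝ) * u⁻¹ := by
          have h13 : (Real.exp (L / 8))⁻¹ ≤ u⁻¹ := inv_anti₀ hu0 hu8
          calc 5 * L ≤ Real.exp (L / 2) := by linarith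
            _ ≤ Real.exp (L - L / 8) := Real.exp_le_exp.2 (by linarith)
            _ = (n : ℝ) * (Real.exp (L / 8))⁻¹ := by
                rw [Real.exp_sub, ← h6, div_eq_mul_inv]
            _ ≤ (n : ℝ) * u⁻¹ := mul_le_mul_of_nonneg_left h13 h7.le
        have h11 : (1 - u⁻¹) ^ n ≤ Real.exp (-(5 * L)) := by
          calc (1 - u⁻¹) ^ n ≤ Real.exp (-u⁻¹) ^ n :=
                pow_le_pow_left₀ h10 (Real.one_sub_le_exp_neg _) n
            _ = Real.exp ((n : ℝ) * (-u⁻¹)) := (Real.exp_nat_mul _ _).symm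
            _ ≤ Real.exp (-(5 * L)) := Real.exp_le_exp.2 (by linarith)
        have e1 : 2 * u * ((n : ℝ) ^ 4 * (1 - u⁻¹) ^ n) * u ^ j =
            2 * (u ^ (j + 1) * ((n : ℝ) ^ 4 * (1 - u⁻¹) ^ n)) := by
          rw [pow_succ]; ring
        rw [e1]
        have hn4 : (n : ℝ) ^ 4 = Real.exp (4 * L) := by
          rw [h6, ← Real.exp_nat_mul]
          push_cast
          rfl
        calc 2 * (u ^ (j + 1) * ((n : ℝ) ^ 4 * (1 - u⁻¹) ^ n))
            ≤ 2 * (Real.exp (L / 8) * (Real.exp (4 * L) * Real.exp (-(5 * L)))) := by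
              refine mul_le_mul_of_nonneg_left ?_ (by norm_num)
              refine mul_le_mul (hpow _ (by omega)) ?_ (by positivity) (Real.exp_pos _).le
              rw [hn4]
              exact mul_le_mul_of_nonneg_left h11 (Real.exp_pos _).le
          _ = 2 * Real.exp (L / 8 + (4 * L + -(5 * L))) := by
              rw [Real.exp_add, Real.exp_add]
          _ ≤ 2 * Real.exp (-(L / 4)) :=
              mul_le_mul_of_nonneg_left (Real.exp_le_exp.2 (by linarith)) (by norm_num)
          _ ≤ _ := by linarith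
      have hk : kap0 (u ^ Kn) u (1 - u⁻¹) n * u ^ j =
          u ^ Kn * (L / Real.sqrt n) * u ^ j + u ^ Kn / (n : ℝ) ^ 5 * u ^ j +
            2 * u * ((n : ℝ) ^ 4 * (1 - u⁻¹) ^ n) * u ^ j := by
        unfold kap0
        ring
      rw [hk]
      linarith

end Pool.Agent.EXW
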