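import Pool.Agent.EXW.MainPre
import Pool.Agent.EXW.KW2
import Pool.Agent.EXW.DAT2
import Pool.Agent.EXW.PSUM
import Pool.Agent.EXW.MOD2
import Pool.Agent.EXW.SLOW2
import Pool.Agent.EXW.FINAL2

/-!
# Project EXW, version 2: assembly
-/

set_option autoImplicit false

namespace Pool.Agent.EXW

open Finset Pool.Agent.Lib27 Pool.Agent.SapR Pool.Agent.Gap Pool.Agent.FL Filter Topology
  Pool.Agent.AreaLaw MeasureTheory
open scoped NNReal ENNReal

/-- version 2 from the weighted bounds and the polynomial bounds of the critical solution -/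
theorem m_FINAL2 (hW : QGW_Stmt) (hCS : QCS_Stmt) : FINAL2_Stmt :=
  t_FINAL2 (m_QFIN hW) (t_DAT2 m_QMG mg_main mgi2 (t_KW2 hg)) hCS t_SLOW2 (t_MOD2 (t_QNEAR hg))
    hg (tr K1H.k1h)

end Pool.Agent.EXW
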