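import Pool.Agent.EXW.Stmts3
import Pool.Agent.EXW.QNEAR
import Pool.Agent.Lib_helper89.FL.NEAR

/-!
# Project EXW, version 3: tail of the error of the area functional (module NEARP)

The proof of `EXW.QNEAR.core` and of `FL.NEAR.inner` with the positive part of the error.
-/

set_option autoImplicit false

namespace Pool.Agent.EXW

open Finset Pool.Agent.Lib27 Pool.Agent.SapR Pool.Agent.FL Filter Topology Pool.Agent.FL.NEAR

namespace NEARP

/-- the estimate for one cap and all arches on top of it -/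
lemma innerP (h : HG_Stmt) {n k L : ℕ} {s rho e Zb : ℝ} {x : ℤ} {T : Wd} (hs : 0 < s)
    (hrho : 0 < rho) (hx : 1 ≤ x) (hk : k ≤ n)
    (hT : T ∈ CapSet (2 * n - 1) x (2 * k))
    (hE : Gs (2 * n - 1) s rho (fE (2 * n - 1) L) (n - k) x ≤ e)
    (hZ : Gs (2 * n - 1) s rho (fun _ _ => 1) (n - k) x ≤ Zb) :
    ∑ w ∈ ArchSet (2 * n - 1) x (2 * n - 2 * k), s ^ (n - (hgt w + hgt T)) *
      max 0 (|(|((dbl 0 w + dbl 0 T : ℤ) : ℝ)| - (M41.Ar (2 * n - 1) w : ℝ))| - 4 * L * n) ≤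
      (rho ^ n)⁻¹ * (rho ^ k * s ^ (k - hgt T) * (e + vv L k * Zb)) := by
  set r := 2 * n - 1 with hr
  have hT' := (M41.mem_CapSet _ _ _ _).1 hT
  have hhT := (h.2.1 x T hx hT'.2.1).2
  rw [hT'.1] at hhT
  rw [show 2 * n - 2 * k = 2 * (n - k) by omega]
  have hcast : ((n - k : ℕ) : ℝ) = n - k := by rw [Nat.cast_sub hk]
  have hwt : ∀ w ∈ ArchSet r x (2 * (n - k)), s ^ (n - (hgt w + hgt T)) =
      s ^ (k - hgt T) * s ^ (n - k - hgt w) := by
    intro w hw
    have hw' := (M41.mem_ArchSet _ _ _ _).1 hw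
    have hhw := (h.2.1 x w hx hw'.2.1).2
    rw [hw'.1] at hhw
    rw [← pow_add]
    congr 1
    omega
  have hpt : ∀ w ∈ ArchSet r x (2 * (n - k)),
      s ^ (n - (hgt w + hgt T)) *
        max 0 (|(|((dbl 0 w + dbl 0 T : ℤ) : ℝ)| - (M41.Ar r w : ℝ))| - 4 * L * n) ≤
        s ^ (k - hgt T) * (s ^ (n - k - hgt w) * fE r L (n - k) w +
          vv L k * (s ^ (n - k - hgt w) * 1)) := by
    intro w hw
    have hA : max 0 (|(|((dbl 0 w + dbl 0 T : ℤ) : ℝ)| - (M41.Ar r w : ℝ))| - 4 * L * n) ≤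
        fE r L (n - k) w + vv L k := by
      apply max_le (add_nonneg (fE_nonneg _ _ _ _) (vv_nonneg _ _))
      have h1 : |(M41.Ar r w : ℝ)| = (M41.Ar r w : ℝ) := abs_of_nonneg (by positivity)
      have h2 := abs_abs_sub_abs_le ((dbl 0 w + dbl 0 T : ℤ) : ℝ) (M41.Ar r w : ℝ)
      rw [h1] at h2
      have h3 : |((dbl 0 w + dbl 0 T : ℤ) : ℝ) - (M41.Ar r w : ℝ)| ≤
          Dd r w + |(dbl 0 T : ℝ)| := by
        have : ((dbl 0 w + dbl 0 T : ℤ) : ℝ) - (M41.Ar r w : ℝ) =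
            ((dbl 0 w : ℝ) - (M41.Ar r w : ℝ)) + (dbl 0 T : ℝ) := by push_cast; ring
        rw [this]
        exact abs_add_le _ _
      have h4 := Dd_le r L (n - k) w
      rw [hcast] at h4
      have h5 := cap_le' hx hT
      have h6 := sq_le_vv L k
      linarith
    have h7 := mul_le_mul_of_nonneg_left hA (pow_nonneg hs.le (n - (hgt w + hgt T)))
    refine h7.trans (le_of_eq ?_)
    rw [mul_add, hwt w hw]
    ring
  refine (sum_le_sum hpt).trans ?_
  rw [← mul_sum, sum_add_distrib, ← mul_sum]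
  have hE' : ∑ w ∈ ArchSet r x (2 * (n - k)), s ^ (n - k - hgt w) * fE r L (n - k) w ≤
      (rho ^ (n - k))⁻¹ * e := by
    unfold Gs at hE
    rw [inv_mul_eq_div, le_div_iff₀ (by positivity), mul_comm]
    exact hE
  have hZ' : ∑ w ∈ ArchSet r x (2 * (n - k)), s ^ (n - k - hgt w) * (1 : ℝ) ≤
      (rho ^ (n - k))⁻¹ * Zb := by
    unfold Gs at hZ
    rw [inv_mul_eq_div, le_div_iff₀ (by positivity), mul_comm]
    exact hZ
  have hinv : (rho ^ (n - k))⁻¹ = (rho ^ n)⁻¹ * rho ^ k := by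
    have : rho ^ n = rho ^ (n - k) * rho ^ k := by rw [← pow_add]; congr 1; omega
    rw [this]
    field_simp
  have hfin : (rho ^ n)⁻¹ * (rho ^ k * s ^ (k - hgt T) * (e + vv L k * Zb)) =
      s ^ (k - hgt T) * ((rho ^ (n - k))⁻¹ * e + vv L k * ((rho ^ (n - k))⁻¹ * Zb)) := by
    rw [hinv]; ring
  rw [hfin]
  apply mul_le_mul_of_nonneg_left _ (by positivity)
  exact add_le_add hE' (mul_le_mul_of_nonneg_left hZ' (vv_nonneg _ _))

/-- the estimate with explicit constants -/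
theorem coreP (h : HG_Stmt) (J : ℕ) {C θ q B : ℝ} (hC : 0 < C) (hθ0 : 0 < θ) (hθ1 : θ < 1)
    (hq3 : q ^ 3 = θ) (hq0 : 0 < q) (hq1 : q < 1) (hB0 : 0 < B)
    (hB : ∀ k : ℕ, 4 * (k : ℝ) ^ 2 * q ^ k ≤ B) :
  ∀ (n : ℕ) (s rho : ℝ), 2 ≤ n → 0 < s → s ≤ 1 → 0 < rho →
    ∑ p ∈ Pc (2 * n - 1), rho ^ hl p * s ^ (hl p - htn p) = 1 → Tails C θ n s rho →
    ∑ y ∈ M41.Om (2 * n - 1) n, wtq n s y *
      max 0 (|(|((dbl 0 y.2.2.2 + dbl 0 y.2.2.1 : ℤ) : ℝ)| - (M41.Ar (2 * n - 1) y.2.2.2 : ℝ))| -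
        4 * (((J : ℝ) + 1) / (-Real.log q) + 2) * Real.log n * n) ≤
      ((C * (B * (1 / (1 - q)))) * (C * (1 / (1 - θ))) *
        (2 + C * (1 / (1 - θ)))) / ((n : ℝ) ^ J * rho ^ n) := by
  classical
  have hlq : 0 < -Real.log q := by
    have := Real.log_neg hq0 hq1
    linarith
  set K : ℝ := ((J : ℝ) + 1) / (-Real.log q) with hK
  have hK0 : 0 < K := by positivity
  have h1θ : 0 < 1 - θ := by linarith
  have h1q : 0 < 1 - q := by linarith
  set Zb : ℝ := C * (1 / (1 - θ)) with hZb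
  have hZb0 : 0 < Zb := by positivity
  set a0 : ℝ := C * (B * (1 / (1 - q))) with ha0
  have ha00 : 0 < a0 := by positivity
  intro n s rho hn hs hs1 hrho hmass ht
  obtain ⟨ht1, ht2, -⟩ := ht
  set r := 2 * n - 1 with hr
  set L : ℕ := ⌈K * Real.log n⌉₊ with hL
  set a : ℝ := a0 * q ^ L with ha
  have ha1 : 0 < a := by positivity
  have hn0 : (0 : ℝ) < n := by positivity
  have hn2 : (2 : ℝ) ≤ n := by exact_mod_cast hn
  have hlog : 1 ≤ 2 * Real.log n := by
    have h1 : Real.log 2 ≤ Real.log n := Real.log_le_log (by norm_num) hn2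
    have h2 := Real.log_two_gt_d9
    norm_num at h2 ⊢
    linarith
  -- caps
  have hcap : ∀ N x, 1 ≤ x → NEAR.Cs r s rho N x ≤ C * θ ^ N := by
    intro N x hx
    rcases lt_or_ge (N : ℤ) x with hN | hN
    · unfold NEAR.Cs
      rw [CapSet_far hN hx, sum_empty]
      positivity
    · refine le_trans ?_ (ht2 N)
      exact single_le_sum (f := fun x => ∑ T ∈ CapSet r x (2 * N), rho ^ N * s ^ (N - hgt T))
        (fun x _ => sum_nonneg fun T _ => by positivity) (mem_Icc.2 ⟨hx, hN⟩)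
  -- long pieces
  have hvv : ∀ m, C * θ ^ m * vv L m ≤ C * (B * q ^ L) * q ^ m := by
    intro m
    unfold vv
    split_ifs with hm
    · have e1 : θ ^ m = q ^ m * q ^ m * q ^ m := by
        rw [← hq3, ← pow_mul, ← pow_add, ← pow_add]; congr 1; ring
      have e2 : q ^ m ≤ q ^ L := pow_le_pow_of_le_one hq0.le hq1.le hm.le
      have e3 : 4 * (m : ℝ) ^ 2 * q ^ m * q ^ m ≤ B * q ^ L :=
        mul_le_mul (hB m) e2 (by positivity) hB0.le
      have e4 : C * θ ^ m * (4 * (m : ℝ) ^ 2) =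
          C * (4 * (m : ℝ) ^ 2 * q ^ m * q ^ m) * q ^ m := by rw [e1]; ring
      rw [e4]
      apply mul_le_mul_of_nonneg_right _ (by positivity)
      exact mul_le_mul_of_nonneg_left e3 hC.le
    · rw [mul_zero]; positivity
  have hvsum : ∀ N : ℕ, ∑ m ∈ range N, C * θ ^ m * vv L m ≤ a := by
    intro N
    refine (sum_le_sum fun m _ => hvv m).trans ?_
    rw [← mul_sum]
    have e1 := mul_le_mul_of_nonneg_left (geo hq0.le hq1 N)
      (show 0 ≤ C * (B * q ^ L) by positivity)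
    refine e1.trans (le_of_eq ?_)
    rw [ha, ha0]; ring
  have hA : ∑ p ∈ Pc r, mu s rho p * vv L (hl p) ≤ a := by
    have hmaps : ∀ p ∈ Pc r, hl p ∈ range (n + 1) := by
      intro p hp
      have := len_hl hp
      rw [mem_range]; omega
    rw [← sum_fiberwise_of_maps_to hmaps]
    refine le_trans (sum_le_sum fun m _ => ?_) (hvsum (n + 1))
    have e1 : ∑ p ∈ (Pc r).filter (fun p => hl p = m), mu s rho p * vv L (hl p) =
        (∑ p ∈ (Pc r).filter (fun p => hl p = m), rho ^ m * s ^ (m - htn p)) * vv L m := by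
      rw [sum_mul]
      apply sum_congr rfl
      intro p hp
      rw [mem_filter] at hp
      unfold mu
      rw [hp.2]
    rw [e1]
    exact mul_le_mul_of_nonneg_right (ht1 m) (vv_nonneg _ _)
  have hmass' : ∑ p ∈ Pc r, mu s rho p = 1 := hmass
  -- total weight of the arches
  have hZ : ∀ k x, 1 ≤ x → Gs r s rho (fun _ _ => 1) k x ≤ Zb := by
    intro k x hx
    have := solve h hs hrho (f := fun _ _ => 1) (u := fun _ => 1) (v := fun _ => 0)
      (cN := fun N => C * θ ^ N) (Zb := 0) (A := 0) (fun _ => le_rfl) (fun _ => zero_le_one)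
      hcap (fun N => by positivity) hmass' (by simp) (fun _ _ _ _ _ => le_rfl)
      (fun _ _ _ _ _ _ _ _ => by simp) le_rfl (fun _ _ _ _ => by simp) k k x le_rfl hx
    refine this.trans ?_
    simp only [mul_one, mul_zero, add_zero]
    rw [← mul_sum]
    exact mul_le_mul_of_nonneg_left (geo hθ0.le hθ1 _) hC.le
  -- error of the arches
  have hE : ∀ k x, k ≤ n → 1 ≤ x → Gs r s rho (fE r L) k x ≤ a + n * (a * Zb) := by
    intro k x hk hx
    have := solve h hs hrho (f := fE r L) (u := vv L) (v := vv L)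
      (cN := fun N => C * θ ^ N) (Zb := Zb) (A := a) (vv_nonneg L) (vv_nonneg L)
      hcap (fun N => by positivity) hmass' hA (fun N x T hx hT => fE_cap hx hT)
      (fun N x p w hx hp hN hw => fE_step hx hp hN hw) hZb0.le
      (fun k x m hx => mul_le_mul_of_nonneg_left (hZ k x hx) (vv_nonneg _ _)) n k x hk hx
    refine this.trans ?_
    exact add_le_add (hvsum _) le_rfl
  set e : ℝ := a + n * (a * Zb) with he
  have he0 : 0 ≤ e := by positivity
  -- the polygons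
  have hsumOm : ∀ F : (_ : ℤ) × (_ : ℕ) × (Wd × Wd) → ℝ, ∑ q ∈ M41.Om r n, F q =
      ∑ x ∈ Icc (1 : ℤ) r, ∑ M ∈ range (r + 2), ∑ T ∈ CapSet r x M,
        ∑ w ∈ ArchSet r x (2 * n - M), F ⟨x, M, T, w⟩ := by
    intro F
    unfold M41.Om
    rw [sum_sigma]
    apply sum_congr rfl
    intro x _
    rw [sum_sigma]
    apply sum_congr rfl
    intro M _
    rw [sum_product]
  have hL2 : 4 * (L : ℝ) ≤ 4 * (K + 2) * Real.log n := by
    have e1 : (L : ℝ) < K * Real.log n + 1 := Nat.ceil_lt_add_one (by positivity)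
    linarith
  have hL3 : 4 * (L : ℝ) * n ≤ 4 * (K + 2) * Real.log n * n :=
    mul_le_mul_of_nonneg_right hL2 hn0.le
  have hmain : ∑ q ∈ M41.Om r n, wtq n s q *
      max 0 (|(|((dbl 0 q.2.2.2 + dbl 0 q.2.2.1 : ℤ) : ℝ)| - (M41.Ar r q.2.2.2 : ℝ))| - 4 * L * n) ≤
      (rho ^ n)⁻¹ * ∑ k ∈ range (n + 1), C * θ ^ k * (e + vv L k * Zb) := by
    have hc := caps (L := L) (C := C) (θ := θ) (s := s) (rho := rho) (e := e) (Zb := Zb)
      (by omega : 1 ≤ n) he0 hZb0.le ht2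
    rw [← hr] at hc
    refine le_trans ?_
      (mul_le_mul_of_nonneg_left hc (by positivity : (0 : ℝ) ≤ (rho ^ n)⁻¹))
    rw [hsumOm]
    simp only [mul_sum]
    apply sum_le_sum
    intro x hx
    apply sum_le_sum
    intro M hM
    apply sum_le_sum
    intro T hT
    rw [mem_Icc] at hx
    rw [mem_range] at hM
    obtain ⟨⟨k, hk⟩, h2, h3, -⟩ := H66.k5cap.1 r x M T hx.1 hT
    have hM2 : M = 2 * k := by omega
    subst hM2
    have := innerP h (n := n) (k := k) (L := L) (e := e) (Zb := Zb) hs hrho hx.1 (by omega) hT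
      (hE _ _ (by omega) hx.1) (hZ _ _ hx.1)
    rw [show 2 * k / 2 = k by omega]
    simp only [wtq] at this ⊢
    exact this
  have hmono : ∑ q ∈ M41.Om r n, wtq n s q *
      max 0 (|(|((dbl 0 q.2.2.2 + dbl 0 q.2.2.1 : ℤ) : ℝ)| - (M41.Ar r q.2.2.2 : ℝ))| -
        4 * (K + 2) * Real.log n * n) ≤
      ∑ q ∈ M41.Om r n, wtq n s q *
      max 0 (|(|((dbl 0 q.2.2.2 + dbl 0 q.2.2.1 : ℤ) : ℝ)| - (M41.Ar r q.2.2.2 : ℝ))| -
        4 * L * n) := by
    apply sum_le_sum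
    intro q _
    have hw : 0 ≤ wtq n s q := by
      unfold wtq
      positivity
    exact mul_le_mul_of_nonneg_left (max_le_max le_rfl (sub_le_sub_left hL3 _)) hw
  refine hmono.trans (hmain.trans ?_)
  have hsum : ∑ k ∈ range (n + 1), C * θ ^ k * (e + vv L k * Zb) ≤ Zb * e + a * Zb := by
    have e1 : ∑ k ∈ range (n + 1), C * θ ^ k * (e + vv L k * Zb) =
        (C * ∑ k ∈ range (n + 1), θ ^ k) * e + (∑ k ∈ range (n + 1), C * θ ^ k * vv L k) * Zb := by
      rw [mul_sum, sum_mul, sum_mul, ← sum_add_distrib]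
      apply sum_congr rfl
      intro k _
      ring
    rw [e1]
    apply add_le_add
    · apply mul_le_mul_of_nonneg_right _ he0
      exact mul_le_mul_of_nonneg_left (geo hθ0.le hθ1 _) hC.le
    · exact mul_le_mul_of_nonneg_right (hvsum _) hZb0.le
  have hqL : q ^ L ≤ ((n : ℝ) ^ (J + 1))⁻¹ := by
    have e1 : q ^ L = Real.exp (L * Real.log q) := by
      rw [Real.exp_nat_mul, Real.exp_log hq0]
    have e2 : ((n : ℝ) ^ (J + 1))⁻¹ = Real.exp (-(((J + 1 : ℕ) : ℝ) * Real.log n)) := by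
      rw [Real.exp_neg, Real.exp_nat_mul, Real.exp_log hn0]
    rw [e1, e2]
    apply Real.exp_le_exp.2
    have e3 : K * Real.log n ≤ L := Nat.le_ceil _
    have e4 := mul_le_mul_of_nonneg_right e3 hlq.le
    have hKq : K * (-Real.log q) = (J : ℝ) + 1 := div_mul_cancel₀ _ hlq.ne'
    have e5 : K * Real.log n * (-Real.log q) = ((J : ℝ) + 1) * Real.log n := by
      rw [← hKq]; ring
    rw [e5] at e4
    push_cast
    linarith
  have hrn : 0 < rho ^ n := by positivity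
  have hC1 : 0 < a0 * Zb * (2 + Zb) := by positivity
  have e1 : Zb * e + a * Zb ≤ a0 * Zb * (2 + Zb) / (n : ℝ) ^ J := by
    have e2 : Zb * e + a * Zb = a0 * Zb * (2 + n * Zb) * q ^ L := by
      rw [he, ha]; ring
    rw [e2]
    have e3 : a0 * Zb * (2 + n * Zb) ≤ a0 * Zb * (2 + Zb) * n := by
      have : 2 + n * Zb ≤ (2 + Zb) * n := by nlinarith
      have h2 := mul_le_mul_of_nonneg_left this (show 0 ≤ a0 * Zb by positivity)
      linarith
    have e4 : a0 * Zb * (2 + n * Zb) * q ^ L ≤ a0 * Zb * (2 + Zb) * n * ((n : ℝ) ^ (J + 1))⁻¹ :=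
      mul_le_mul e3 hqL (by positivity) (by positivity)
    refine e4.trans (le_of_eq ?_)
    rw [pow_succ]
    field_simp
  have e5 := hsum.trans e1
  have e6 := mul_le_mul_of_nonneg_left e5 (inv_nonneg.2 hrn.le)
  refine e6.trans (le_of_eq ?_)
  field_simp

end NEARP

open NEARP QNEAR in
/-- NEARP : tail of the error of the area functional. -/
theorem t_NEARP (h : HG_Stmt) : NEARP_Stmt := by
  intro J
  refine ⟨12 * J + 24, fun D hD n s rho hn hs hs1 hrho hmass ht => ?_⟩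
  have hD0 : 0 < D := by linarith
  have hD1 : 1 ≤ D := by linarith
  have hθ0 := th_pos hD
  have hθ1 := th_lt hD
  obtain ⟨q, hq0, hq3⟩ : ∃ q : ℝ, 0 < q ∧ q ^ 3 = 1 - D⁻¹ :=
    ⟨(1 - D⁻¹) ^ (((3 : ℕ) : ℝ)⁻¹), Real.rpow_pos_of_pos hθ0 _,
      Real.rpow_inv_natCast_pow hθ0.le (by norm_num)⟩
  have hq := cbrt_th hD hq0.le hq3
  have hi : 0 < (3 * D)⁻¹ := by positivity
  have hq1 : q < 1 := by linarith
  have hB : ∀ k : ℕ, 4 * (k : ℝ) ^ 2 * q ^ k ≤ 216 * D ^ 3 := by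
    intro k
    have h1 := geo_le 2 hq0.le hi hq
    have h2 : ((k : ℝ) + 1) ^ 2 * q ^ k ≤ ∑' m : ℕ, ((m : ℝ) + 1) ^ 2 * q ^ m :=
      (summable_geo 2 hq0.le hq1).le_tsum k fun m _ => by positivity
    have h3 : (k : ℝ) ^ 2 * q ^ k ≤ ((k : ℝ) + 1) ^ 2 * q ^ k := by gcongr; linarith
    have h4 : ((2 : ℕ).factorial : ℝ) / (3 * D)⁻¹ ^ (2 + 1) = 54 * D ^ 3 := by
      rw [inv_pow, div_inv_eq_mul]
      norm_num [Nat.factorial]
      ring
    rw [h4] at h1
    linarith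
  have hcore := coreP h J hD0 hθ0 hθ1 hq3 hq0 hq1 (by positivity : (0 : ℝ) < 216 * D ^ 3) hB
    n s rho hn hs hs1 hrho hmass ht
  have hc := const_le hD hq0 hq
  have hn1 : (1 : ℝ) ≤ n := by exact_mod_cast (by omega : 1 ≤ n)
  have hlog : 0 ≤ Real.log n := Real.log_nonneg hn1
  have hn0 : (0 : ℝ) < n := by linarith
  have hlq : (3 * D)⁻¹ ≤ -Real.log q := by
    have := Real.log_le_sub_one_of_pos hq0
    linarith
  have hlq0 : 0 < -Real.log q := hi.trans_le hlq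
  -- the constant in front of `log n`
  have hK : 4 * (((J : ℝ) + 1) / (-Real.log q) + 2) ≤ D ^ (12 * J + 24) := by
    have h1 : ((J : ℝ) + 1) / (-Real.log q) ≤ 3 * ((J : ℝ) + 1) * D := by
      rw [div_le_iff₀ hlq0]
      have h2 := mul_le_mul_of_nonneg_left hlq (show 0 ≤ 3 * ((J : ℝ) + 1) * D by positivity)
      have e : 3 * ((J : ℝ) + 1) * D * (3 * D)⁻¹ = (J : ℝ) + 1 := by field_simp
      linarith
    have h2 : 4 * (3 * ((J : ℝ) + 1) * D + 2) ≤ (12 * (J : ℝ) + 16) * D := by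
      nlinarith [hD]
    have h3 : (12 * (J : ℝ) + 16) ≤ D ^ (12 * J + 16) := by
      have h4 : (12 * J + 16 : ℕ) < 2 ^ (12 * J + 16) := Nat.lt_two_pow_self
      have h5 : ((12 * J + 16 : ℕ) : ℝ) ≤ 2 ^ (12 * J + 16) := by exact_mod_cast h4.le
      have h6 : (2 : ℝ) ^ (12 * J + 16) ≤ D ^ (12 * J + 16) := pow_le_pow_left₀ (by norm_num) hD _
      push_cast at h5
      exact h5.trans h6
    calc 4 * (((J : ℝ) + 1) / (-Real.log q) + 2) ≤ 4 * (3 * ((J : ℝ) + 1) * D + 2) := by linarith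
      _ ≤ (12 * (J : ℝ) + 16) * D := h2
      _ ≤ D ^ (12 * J + 16) * D := mul_le_mul_of_nonneg_right h3 hD0.le
      _ = D ^ (12 * J + 17) := by rw [← pow_succ]
      _ ≤ D ^ (12 * J + 24) := pow_le_pow_right₀ hD1 (by omega)
  have hmono : ∑ q ∈ M41.Om (2 * n - 1) n, wtq n s q *
      max 0 (|(|((dbl 0 q.2.2.2 + dbl 0 q.2.2.1 : ℤ) : ℝ)| - (M41.Ar (2 * n - 1) q.2.2.2 : ℝ))| -
        D ^ (12 * J + 24) * n * Real.log n) ≤
      ∑ q' ∈ M41.Om (2 * n - 1) n, wtq n s q' *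
      max 0 (|(|((dbl 0 q'.2.2.2 + dbl 0 q'.2.2.1 : ℤ) : ℝ)| -
          (M41.Ar (2 * n - 1) q'.2.2.2 : ℝ))| -
        4 * (((J : ℝ) + 1) / (-Real.log q) + 2) * Real.log n * n) := by
    apply sum_le_sum
    intro q' _
    have hw : 0 ≤ wtq n s q' := by
      unfold wtq
      positivity
    refine mul_le_mul_of_nonneg_left (max_le_max le_rfl (sub_le_sub_left ?_ _)) hw
    have h1 := mul_le_mul_of_nonneg_right hK (show 0 ≤ n * Real.log n by positivity)
    linarith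
  refine hmono.trans (hcore.trans ?_)
  apply div_le_div_of_nonneg_right _ (by positivity)
  have h1 : 0 ≤ 4 * (6 / (-Real.log q) + 2) := by positivity
  have h2 : D ^ 24 ≤ D ^ (12 * J + 24) := pow_le_pow_right₀ hD1 (by omega)
  linarith

end Pool.Agent.EXW
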