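import Pool.Agent.EXW.Stmts3
import Pool.Agent.Lib_helper89.FL.NEAR
import Pool.Agent.Lib_helper66.SapR.K4

/-!
# Project EXW, version 3: moments of the error of the area functional (module PDIF)
-/

set_option autoImplicit false

namespace Pool.Agent.EXW

open Finset Pool.Agent.Lib27 Pool.Agent.SapR Pool.Agent.FL Filter Topology

namespace PDIF

/-- the pointwise bound -/
theorem pw (n : ℕ) (hn : 1 ≤ n) (q : (_ : ℤ) × (_ : ℕ) × (Wd × Wd))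
    (hq : q ∈ M41.Om (2 * n - 1) n) :
    |(|((dbl 0 q.2.2.2 + dbl 0 q.2.2.1 : ℤ) : ℝ)| - (M41.Ar (2 * n - 1) q.2.2.2 : ℝ))| ≤
      36 * (n : ℝ) ^ 3 := by
  obtain ⟨x, M, T, w⟩ := q
  simp only
  unfold M41.Om at hq
  rw [mem_sigma, mem_sigma, mem_product] at hq
  obtain ⟨hx, hM, hT, hw⟩ := hq
  simp only at hx hM hT hw
  rw [mem_Icc] at hx
  set r := 2 * n - 1 with hr
  have h6 := M41.near_arch FL.NEAR.k2' H66.k4 H66.k5size H66.k5cap r (2 * n - M) (2 * n - M) le_rfl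
    x hx.1 w hw
  have h7 := (H66.k5cap.1 r x M T hx.1 hT).2.2.2
  have h8 : |(|dbl 0 w + dbl 0 T| : ℤ) - (M41.Ar r w : ℤ)| ≤ 4 * ((r : ℤ) + 2) ^ 2 * n := by
    have hA : |(M41.Ar r w : ℤ)| = (M41.Ar r w : ℤ) := abs_of_nonneg (by positivity)
    have h9 := abs_abs_sub_abs_le (dbl 0 w + dbl 0 T) (M41.Ar r w : ℤ)
    rw [hA] at h9
    have h10 : |(dbl 0 w + dbl 0 T) - (M41.Ar r w : ℤ)| ≤
        |dbl 0 w - (M41.Ar r w : ℤ)| + |dbl 0 T| := by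
      have : (dbl 0 w + dbl 0 T) - (M41.Ar r w : ℤ) = (dbl 0 w - (M41.Ar r w : ℤ)) + dbl 0 T := by
        ring
      rw [this]
      exact abs_add_le _ _
    have h11 : ((2 * n - M : ℕ) : ℤ) ≤ 2 * n := by omega
    have h12 : ((r : ℤ) + 2) ^ 2 * ((2 * n - M : ℕ) : ℤ) ≤ ((r : ℤ) + 2) ^ 2 * (2 * n) :=
      mul_le_mul_of_nonneg_left h11 (sq_nonneg _)
    have h13 : ((r : ℤ) + 1) ^ 2 ≤ ((r : ℤ) + 2) ^ 2 := by
      have : (0 : ℤ) ≤ r := by positivity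
      nlinarith
    have h14 : ((r : ℤ) + 2) ^ 2 * 1 ≤ ((r : ℤ) + 2) ^ 2 * n := by
      apply mul_le_mul_of_nonneg_left _ (sq_nonneg _)
      exact_mod_cast hn
    nlinarith [sq_nonneg ((r : ℤ) + 2)]
  have h15 : ((|(|dbl 0 w + dbl 0 T| : ℤ) - (M41.Ar r w : ℤ)| : ℤ) : ℝ) ≤
      ((4 * ((r : ℤ) + 2) ^ 2 * n : ℤ) : ℝ) := by exact_mod_cast h8
  push_cast at h15 ⊢
  refine h15.trans ?_
  have hr1 : (r : ℝ) + 2 = 2 * n + 1 := by
    have : r + 2 = 2 * n + 1 := by omega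
    exact_mod_cast this
  rw [hr1]
  have hn1 : (1 : ℝ) ≤ n := by exact_mod_cast hn
  have e1 : (2 * (n : ℝ) + 1) ^ 2 ≤ 9 * (n : ℝ) ^ 2 := by nlinarith
  have e2 : (2 * (n : ℝ) + 1) ^ 2 * n ≤ 9 * (n : ℝ) ^ 2 * n :=
    mul_le_mul_of_nonneg_right e1 (by positivity)
  nlinarith

/-- powers -/
theorem pp (p : ℕ) (δ L B : ℝ) (h0 : 0 ≤ δ) (hL : 0 ≤ L) (hB : δ ≤ B) :
    δ ^ p ≤ (L + 1) ^ p + B ^ p * max 0 (δ - L) := by
  have hB0 : 0 ≤ B := h0.trans hB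
  rcases le_or_gt δ (L + 1) with h | h
  · have h1 : δ ^ p ≤ (L + 1) ^ p := pow_le_pow_left₀ h0 h p
    have h2 : 0 ≤ B ^ p * max 0 (δ - L) := mul_nonneg (by positivity) (le_max_left _ _)
    linarith
  · have h1 : 1 ≤ max 0 (δ - L) := le_max_of_le_right (by linarith)
    have h2 : δ ^ p ≤ B ^ p := pow_le_pow_left₀ h0 hB p
    have h3 : B ^ p * 1 ≤ B ^ p * max 0 (δ - L) := mul_le_mul_of_nonneg_left h1 (by positivity)
    have h4 : 0 ≤ (L + 1) ^ p := by positivity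
    linarith

end PDIF

/-- **PDIF** -/
theorem t_PDIF (h : NEARP_Stmt) : PDIF_Stmt := by
  intro p
  obtain ⟨K1, hK1⟩ := h (3 * p + 2)
  refine ⟨K1 + 6 * p + 1, ?_⟩
  intro D hD n s rho hn hs hs1 hrho hmass ht
  have hk := hK1 D hD n s rho hn hs hs1 hrho hmass ht
  have hn2 : (2 : ℝ) ≤ n := by exact_mod_cast hn
  have hn0 : (0 : ℝ) < n := by linarith
  have hlog : 1 / 2 < Real.log n := by
    have h1 : Real.log 2 ≤ Real.log n := Real.log_le_log (by norm_num) hn2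
    have h2 := Real.log_two_gt_d9
    norm_num at h2 ⊢
    linarith
  have hD0 : 0 < D := by linarith
  have hD1 : 1 ≤ D := by linarith
  set L : ℝ := D ^ K1 * n * Real.log n with hL
  have hL0 : 0 ≤ L := by positivity
  set S := M41.Om (2 * n - 1) n with hS
  set dl : ((_ : ℤ) × (_ : ℕ) × (Wd × Wd)) → ℝ := fun q =>
    |(|((dbl 0 q.2.2.2 + dbl 0 q.2.2.1 : ℤ) : ℝ)| - (M41.Ar (2 * n - 1) q.2.2.2 : ℝ))| with hdl
  have hw0 : ∀ q, 0 ≤ wtq n s q := by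
    intro q
    unfold wtq
    positivity
  have h1 : ∑ q ∈ S, wtq n s q * dl q ^ p ≤
      ∑ q ∈ S, ((L + 1) ^ p * wtq n s q +
        (36 * (n : ℝ) ^ 3) ^ p * (wtq n s q * max 0 (dl q - L))) := by
    apply sum_le_sum
    intro q hq
    have h2 := PDIF.pp p (dl q) L (36 * (n : ℝ) ^ 3) (abs_nonneg _) hL0
      (PDIF.pw n (by omega) q hq)
    have h3 := mul_le_mul_of_nonneg_left h2 (hw0 q)
    refine h3.trans (le_of_eq ?_)
    ring
  rw [sum_add_distrib, ← mul_sum, ← mul_sum] at h1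
  have hlog0 : 0 < Real.log n := by linarith
  have hnl : 1 ≤ (n : ℝ) * Real.log n := by nlinarith
  have hW0 : 0 ≤ ∑ q ∈ S, wtq n s q := sum_nonneg fun q _ => hw0 q
  have hDK : 1 ≤ D ^ K1 := one_le_pow₀ hD1
  have h4 : L + 1 ≤ D ^ (K1 + 6 * p + 1) * n * Real.log n := by
    have e1 : D ^ K1 * 2 ≤ D ^ K1 * D := mul_le_mul_of_nonneg_left hD (by positivity)
    have e2 : D ^ (K1 + 1) ≤ D ^ (K1 + 6 * p + 1) := pow_le_pow_right₀ hD1 (by omega)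
    have e3 : D ^ K1 * 2 ≤ D ^ (K1 + 6 * p + 1) := by
      rw [pow_succ] at e2
      linarith
    have e4 : D ^ K1 * 2 * ((n : ℝ) * Real.log n) ≤
        D ^ (K1 + 6 * p + 1) * ((n : ℝ) * Real.log n) :=
      mul_le_mul_of_nonneg_right e3 (by positivity)
    have e5 : 1 ≤ D ^ K1 * ((n : ℝ) * Real.log n) := by
      nlinarith
    rw [hL]
    nlinarith
  have h5 : (L + 1) ^ p * ∑ q ∈ S, wtq n s q ≤
      (D ^ (K1 + 6 * p + 1) * n * Real.log n) ^ p * ∑ q ∈ S, wtq n s q :=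
    mul_le_mul_of_nonneg_right (pow_le_pow_left₀ (by positivity) h4 p) hW0
  have h6 : (36 * (n : ℝ) ^ 3) ^ p * ∑ q ∈ S, wtq n s q * max 0 (dl q - L) ≤
      D ^ (K1 + 6 * p + 1) * (1 / ((n : ℝ) ^ 2 * rho ^ n)) := by
    refine (mul_le_mul_of_nonneg_left hk (by positivity)).trans ?_
    have e1 : (36 * (n : ℝ) ^ 3) ^ p * (D ^ K1 / ((n : ℝ) ^ (3 * p + 2) * rho ^ n)) =
        ((36 : ℝ) ^ p * D ^ K1) * (1 / ((n : ℝ) ^ 2 * rho ^ n)) := by
      rw [mul_pow, ← pow_mul, pow_add]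
      have hnp : (n : ℝ) ^ (3 * p) ≠ 0 := by positivity
      have hrp : rho ^ n ≠ 0 := by positivity
      field_simp
    rw [e1]
    apply mul_le_mul_of_nonneg_right _ (by positivity)
    have e2 : (36 : ℝ) ^ p ≤ D ^ (6 * p) := by
      rw [pow_mul]
      apply pow_le_pow_left₀ (by norm_num)
      calc (36 : ℝ) ≤ 2 ^ 6 := by norm_num
        _ ≤ D ^ 6 := pow_le_pow_left₀ (by norm_num) hD 6
    calc (36 : ℝ) ^ p * D ^ K1 ≤ D ^ (6 * p) * D ^ K1 :=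
          mul_le_mul_of_nonneg_right e2 (by positivity)
      _ = D ^ (K1 + 6 * p) := by rw [← pow_add]; congr 1; omega
      _ ≤ D ^ (K1 + 6 * p + 1) := pow_le_pow_right₀ hD1 (by omega)
  exact h1.trans (add_le_add h5 h6)

end Pool.Agent.EXW
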