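import Pool.Agent.EXW.Stmts3
import Pool.Agent.EXW.SLOW2

/-!
# EXW version 3, module SLOW3: sequences
-/

set_option autoImplicit false

namespace Pool.Agent.EXW

open Finset Pool.Agent.Lib27 Pool.Agent.SapR Pool.Agent.Gap Pool.Agent.FL Filter Topology
  Pool.Agent.AreaLaw MeasureTheory
open scoped NNReal ENNReal

open SLOW2aux in
theorem t_SLOW3 : SLOW3_Stmt := by
  intro A hA f hf i j
  have hexp : ∀ᶠ n : ℕ in atTop, ((i : ℝ) + 1) * Real.log n ≤ Real.exp (Real.log n / 2) := by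
    have h1 : Tendsto (fun L : ℝ => ((i : ℝ) + 1) * L * Real.exp (-(L / 2))) atTop (𝓝 0) := by
      have h2 := (Real.tendsto_pow_mul_exp_neg_atTop_nhds_zero 1).comp
        (tendsto_id.atTop_div_const (show (0 : ℝ) < 2 by norm_num))
      have h3 := h2.const_mul (((i : ℝ) + 1) * 2)
      rw [mul_zero] at h3
      refine h3.congr fun L => ?_
      simp only [Function.comp_apply, id, pow_one]
      ring
    have := (h1.comp tend_log).eventually (gt_mem_nhds (show (0 : ℝ) < 1 by norm_num))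
    filter_upwards [this] with n hn
    simp only [Function.comp_apply] at hn
    have h3 := mul_le_mul_of_nonneg_right (le_of_lt hn) (Real.exp_pos (Real.log n / 2)).le
    rwa [mul_assoc, ← Real.exp_add, neg_add_cancel, Real.exp_zero, mul_one, one_mul] at h3
  refine squeeze_zero' ?_ ?_ tend_g
  · filter_upwards [ev_M hA 1 le_rfl f hf] with n h1
    obtain ⟨-, h4, -⟩ := h1
    have h10 : 0 ≤ 1 - (Mf A (f n))⁻¹ := by
      have := inv_le_one_of_one_le₀ h4
      linarith
    have h11 : 0 < Mf A (f n) := by linarith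
    positivity
  · filter_upwards [ev_M hA (j + 1) (by omega) f hf, tend_log.eventually_ge_atTop 1, hexp]
      with n h1 h2 he
    obtain ⟨h3, h4, h5⟩ := h1
    obtain ⟨h6, h7⟩ := nat_exp h2
    set u : ℝ := Mf A (f n) with hu
    set L : ℝ := Real.log n with hL
    have hu0 : 0 < u := by linarith
    have hpow : ∀ k : ℕ, k ≤ j + 1 → u ^ k ≤ Real.exp (L / 8) := fun k hk =>
      (pow_le_pow_right₀ h4 hk).trans h5
    have hL2 : (1 : ℝ) ≤ L ^ 2 := one_le_pow₀ h2
    have h10 : 0 ≤ 1 - u⁻¹ := by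
      have := inv_le_one_of_one_le₀ h4
      linarith
    have hu8 : u ≤ Real.exp (L / 8) := by
      have := hpow 1 (by omega)
      rwa [pow_one] at this
    have h12 : ((i : ℝ) + 1) * L ≤ (n : ℝ) * u⁻¹ := by
      have h13 : (Real.exp (L / 8))⁻¹ ≤ u⁻¹ := inv_anti₀ hu0 hu8
      calc ((i : ℝ) + 1) * L ≤ Real.exp (L / 2) := he
        _ ≤ Real.exp (L - L / 8) := Real.exp_le_exp.2 (by linarith)
        _ = (n : ℝ) * (Real.exp (L / 8))⁻¹ := by
            rw [Real.exp_sub, ← h6, div_eq_mul_inv]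
        _ ≤ (n : ℝ) * u⁻¹ := mul_le_mul_of_nonneg_left h13 h7.le
    have h11 : (1 - u⁻¹) ^ n ≤ Real.exp (-(((i : ℝ) + 1) * L)) := by
      calc (1 - u⁻¹) ^ n ≤ Real.exp (-u⁻¹) ^ n :=
            pow_le_pow_left₀ h10 (Real.one_sub_le_exp_neg _) n
        _ = Real.exp ((n : ℝ) * (-u⁻¹)) := (Real.exp_nat_mul _ _).symm
        _ ≤ Real.exp (-(((i : ℝ) + 1) * L)) := Real.exp_le_exp.2 (by linarith)
    have hni : (n : ℝ) ^ i = Real.exp (i * L) := by
      rw [h6, ← Real.exp_nat_mul]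
    calc (n : ℝ) ^ i * u ^ j * (1 - u⁻¹) ^ n
        ≤ Real.exp (i * L) * Real.exp (L / 8) * Real.exp (-(((i : ℝ) + 1) * L)) := by
          rw [hni]
          exact mul_le_mul (mul_le_mul_of_nonneg_left (hpow _ (by omega)) (Real.exp_pos _).le) h11
            (pow_nonneg h10 _) (by positivity)
      _ = Real.exp (i * L + L / 8 + -(((i : ℝ) + 1) * L)) := by
          rw [Real.exp_add, Real.exp_add]
      _ ≤ Real.exp (-(L / 4)) := Real.exp_le_exp.2 (by linarith)
      _ ≤ L ^ 2 * Real.exp (-(L / 4)) := le_mul_of_one_le_left (Real.exp_pos _).le hL2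

end Pool.Agent.EXW
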