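import Mathlib
import Pool.Agent.EXW.Stmts3
import Pool.Agent.KCS.IDN
import Pool.Agent.KCS.FEQ
import Pool.Agent.KCS.CRA
import Pool.Agent.KCS.MRC
import Pool.Agent.KCS.CV1
import Pool.Agent.KCS.CV2
import Pool.Agent.KCS.CBA

/-!
# Project EXW version 3 (MP_f6626d_co): module SMM, moments of the staircase model
-/

set_option autoImplicit false

namespace Pool.Agent.EXW

open Finset Filter Topology Pool.Agent.Gap
open Pool.Agent.KCG (mr)
open Pool.Agent.KCS (kap eP)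

namespace SMM

theorem mr_zero_eq (P : Polynomial ℝ) : mr 0 P = P.eval 1 := by
  unfold KCG.mr
  rw [Polynomial.eval_eq_sum]
  refine congrArg (fun f => P.sum f) ?_
  funext m c
  simp

theorem close_eq (m : ℕ) : closeP 1 cap1 B0 (m + 2) = eP m :=
  (KCS.feq B0 B0_isSol m).2

theorem mr_zero_pos (m : ℕ) : 0 < mr 0 (eP m) := by
  rw [KCS.mrc.1 m]
  have h : 0 < catalan (m + 1) := by
    rw [Nat.pos_iff_ne_zero]
    intro h
    have h1 := catalan_eq_centralBinom_div (m + 1)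
    have h2 := succ_mul_catalan_eq_centralBinom (m + 1)
    rw [h, mul_zero] at h2
    exact (Nat.centralBinom_ne_zero (m + 1)) h2.symm
  exact_mod_cast h

theorem cra : KCS.CRA_Stmt := KCS.t_CRA KCS.mrc KCS.cv1 KCS.cv2 KCS.cba

theorem rpow_three_half (x : ℝ) (hx : 0 < x) : x ^ (3 / 2 : ℝ) = x * Real.sqrt x := by
  rw [Real.sqrt_eq_rpow, show (3 / 2 : ℝ) = 1 + 1 / 2 by norm_num, Real.rpow_add hx, Real.rpow_one]

/-- the ratios in terms of `n` -/
theorem lim_n (r : ℕ) : Tendsto (fun n : ℕ => mr r (eP n) /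
    (((n : ℝ) * Real.sqrt n) ^ r * mr 0 (eP n))) atTop (𝓝 (kap r / kap 0)) := by
  have h := (cra r).div (cra 0) KCS.IDN.kap_zero_pos.ne'
  refine h.congr' ?_
  filter_upwards [eventually_ge_atTop 1] with n hn
  have hn0 : (0 : ℝ) < n := by exact_mod_cast hn
  have e0 : (n : ℝ) ^ (3 / 2 - 3 / 2 * ((0 : ℕ) : ℝ)) = (n : ℝ) ^ (3 / 2 : ℝ) := by
    congr 1; norm_num
  have er : (n : ℝ) ^ (3 / 2 - 3 / 2 * (r : ℝ)) =
      (n : ℝ) ^ (3 / 2 : ℝ) / ((n : ℝ) ^ (3 / 2 : ℝ)) ^ r := by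
    rw [Real.rpow_sub hn0, Real.rpow_mul hn0.le, Real.rpow_natCast]
  simp only [Pi.div_apply]
  rw [e0, er, rpow_three_half _ hn0]
  have hs : 0 < Real.sqrt (n : ℝ) := Real.sqrt_pos.2 hn0
  have hy : 0 < (n : ℝ) * Real.sqrt n := by positivity
  have hm := mr_zero_pos n
  set y := (n : ℝ) * Real.sqrt n
  have h4 : (0 : ℝ) < 4 ^ n := by positivity
  field_simp

theorem lim_shift (r : ℕ) : Tendsto (fun n : ℕ => (((n : ℝ) * Real.sqrt n) ^ r) /
    ((((n + 2 : ℕ) : ℝ) * Real.sqrt ((n + 2 : ℕ) : ℝ)) ^ r)) atTop (𝓝 1) := by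
  have h1 : Tendsto (fun n : ℕ => (n : ℝ) / ((n + 2 : ℕ) : ℝ)) atTop (𝓝 1) := by
    have h := tendsto_natCast_div_add_atTop (𝕜 := ℝ) (2 : ℝ)
    refine h.congr fun n => ?_
    push_cast
    rfl
  have h2 : Tendsto (fun n : ℕ => Real.sqrt ((n : ℝ) / ((n + 2 : ℕ) : ℝ))) atTop (𝓝 1) := by
    have h := h1.sqrt
    rwa [Real.sqrt_one] at h
  have h3 := (h1.mul h2).pow r
  rw [mul_one, one_pow] at h3
  refine h3.congr fun n => ?_
  rw [← div_pow, Real.sqrt_div (Nat.cast_nonneg n)]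
  congr 1
  rw [mul_div_mul_comm]

theorem lim_final (r : ℕ) : Tendsto (fun n : ℕ => mr r (closeP 1 cap1 B0 n) /
    (((n : ℝ) * Real.sqrt n) ^ r * (closeP 1 cap1 B0 n).eval 1)) atTop (𝓝 (kap r / kap 0)) := by
  rw [← tendsto_add_atTop_iff_nat 2]
  have h := (lim_n r).mul (lim_shift r)
  rw [mul_one] at h
  refine h.congr' ?_
  filter_upwards [eventually_ge_atTop 1] with n hn
  have hn0 : (0 : ℝ) < n := by exact_mod_cast hn
  rw [close_eq, ← mr_zero_eq]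
  have hs : 0 < Real.sqrt (n : ℝ) := Real.sqrt_pos.2 hn0
  have hy : 0 < (n : ℝ) * Real.sqrt n := by positivity
  have hm := mr_zero_pos n
  have h2 : (0 : ℝ) < ((n + 2 : ℕ) : ℝ) := by positivity
  have hs2 : 0 < Real.sqrt ((n + 2 : ℕ) : ℝ) := Real.sqrt_pos.2 h2
  have hy2 : 0 < ((n + 2 : ℕ) : ℝ) * Real.sqrt ((n + 2 : ℕ) : ℝ) := by positivity
  set y := (n : ℝ) * Real.sqrt n
  set y2 := ((n + 2 : ℕ) : ℝ) * Real.sqrt ((n + 2 : ℕ) : ℝ)
  field_simp

end SMM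

open SMM in
/-- SMM: moments of the staircase model. -/
theorem t_SMM : SMM_Stmt := by
  refine ⟨fun n hn => ⟨fun j => ?_, ?_⟩, fun r => lim_final r⟩
  · exact closeP_coeff_nonneg isCap_cap1_35.nonneg isCap_cap1_35.nonneg B0_isSol n j
  · obtain ⟨m, rfl⟩ := Nat.exists_eq_add_of_le' hn
    rw [close_eq, ← mr_zero_eq]
    exact mr_zero_pos m

end Pool.Agent.EXW
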