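import Pool.Agent.EXW.Stmts3

/-!
TRM: the moments of the polygons on the sample space.
-/

set_option autoImplicit false

namespace Pool.Agent.EXW

open Finset Pool.Agent.Lib27 Pool.Agent.SapR Pool.Agent.Gap Filter Topology Pool.Agent.AreaLaw
open Pool.Agent.FL

theorem t_TRM (hHG : FL.HG_Stmt) (hTR : FL.TR_Stmt) : TRM_Stmt := by
  classical
  intro n f r hn
  have hn0 : (0 : ℝ) < n := by exact_mod_cast hn
  obtain ⟨K, hK⟩ : ∃ K, K = Real.exp (f * n) * (4 * n) := ⟨_, rfl⟩
  have hK0 : 0 < K := by rw [hK]; positivity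
  have hZ : forceZ f n = K * ∑ y : Omg n, wtO n (Real.exp (-f)) y := by
    have := transfer hHG hTR n hn f (fun _ => 1)
    simp only [mul_one] at this
    unfold forceZ
    rw [this, hK]
  have harea : ∀ s : Fin (2 * n) → Fin 4, area n s = ((|dbl 0 (List.ofFn s)| : ℤ) : ℝ) / 2 := by
    intro s
    rw [area_eq]
    rfl
  have hS : ∑ t ∈ SAP n, Real.exp (f * span n t) * area n t =
      K * (∑ y : Omg n, wtO n (Real.exp (-f)) y * (TZ n y : ℝ)) / 2 := by
    have := transfer hHG hTR n hn f (fun a => (a : ℝ))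
    simp only [harea]
    rw [← hK] at this
    rw [← this, Finset.sum_div]
    refine sum_congr rfl fun s _ => ?_
    ring
  have hR : ∑ t ∈ SAP n, Real.exp (f * span n t) * area n t ^ r =
      K * (∑ y : Omg n, wtO n (Real.exp (-f)) y * (TZ n y : ℝ) ^ r) / 2 ^ r := by
    have := transfer hHG hTR n hn f (fun a => (a : ℝ) ^ r)
    simp only [harea]
    rw [← hK] at this
    rw [← this, Finset.sum_div]
    refine sum_congr rfl fun s _ => ?_
    rw [div_pow]
    ring
  unfold forceMoment momO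
  rw [hZ, hS, hR]
  have e : ∀ a b : ℝ, K * a / b / (K * ∑ y : Omg n, wtO n (Real.exp (-f)) y) =
      a / (∑ y : Omg n, wtO n (Real.exp (-f)) y) / b := by
    intro a b
    rw [div_div, mul_comm b, mul_assoc, mul_div_mul_left _ _ hK0.ne', ← div_div]
  rw [e, e, div_pow _ (2 : ℝ), div_div_div_cancel_right₀ (pow_ne_zero r two_ne_zero)]

end Pool.Agent.EXW
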