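import Pool.Agent.EXW.Main
import Pool.Agent.EXW.FINAL3
import Pool.Agent.EXW.CHA
import Pool.Agent.EXW.FDX
import Pool.Agent.EXW.MOMA
import Pool.Agent.EXW.MOMC
import Pool.Agent.EXW.MOMD
import Pool.Agent.EXW.MOMK
import Pool.Agent.EXW.NEARP
import Pool.Agent.EXW.PDIF
import Pool.Agent.EXW.SLOW3
import Pool.Agent.EXW.SMM
import Pool.Agent.EXW.TRM
import Pool.Agent.KCS.Main

/-!
# Project EXW, version 3: assembly
-/

set_option autoImplicit false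

namespace Pool.Agent.EXW

open Finset Pool.Agent.Lib27 Pool.Agent.SapR Pool.Agent.Gap Pool.Agent.FL Filter Topology
  Pool.Agent.AreaLaw MeasureTheory
open scoped NNReal ENNReal

/-- normalised Laplace transforms with a rate -/
theorem m_QRAT (hW : QGW_Stmt) : QRAT_Stmt := by
  obtain ⟨oLT, oLT1, oM2, oBAL, oST, oSUP, oW⟩ := old_gap
  have hJ1 : J1_Stmt := J1
  have hC2 : C2_Stmt := Gap.C2
  have hC : C_Stmt := Gap.C hC2
  have hRE : RE_Stmt := Gap.RE hC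
  have hJ2s : J2_Stmt := J2 hC2 hC hRE
  have hB1 : B1_Stmt := B1
  have hS0 : QS0_Stmt := t_QS0 oSUP oW
  have hETA : QETA_Stmt := t_QETA oST
  have hRB : QRB_Stmt := t_QRB t_QPAR hS0
  have hE : QE_Stmt := t_QE m_QGRE hW t_QGEB t_QPAR hS0 hETA hRB
  have hJ : QGJ2_Stmt := t_QGJ2 t_QGC m_QGRE m_QGSUP hW
  have hP : QP_Stmt := t_QP hE (t_QCA t_QGVL) hJ t_QPAR hS0 hJ1 hJ2s
  have hLT : QLT_Stmt := t_QLT hP t_QX hJ t_QPAR hJ1 hJ2s hB1
  have hM2 : QGM2_Stmt := t_QGM2 t_QGC m_QGRE m_QGSUP hW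
  exact t_QRAT hLT hM2 t_QPAR oM2 oBAL

/-- the moments of the area polynomials -/
theorem m_MOMC (hCHB : CHB_Stmt) : MOMC_Stmt := by
  have hR : QRAT_Stmt := m_QRAT m_QGW
  have hA : MOMA_Stmt := t_MOMA hR t_CHA hCHB
  exact t_MOMC (t_MOMD hR hA t_FDX t_SMM t_QPAR) hA hR t_SMM t_QPAR

/-- the moments of the universal law -/
theorem m_IDN : KCS.IDN_Stmt :=
  KCS.idn KCS.feq (KCS.t_CRA KCS.mrc KCS.cv1 KCS.cv2 KCS.cba) KCC.amg_stmt

end Pool.Agent.EXW
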