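import Pool.Agent.EXW.StmtsA

/-!
# Project EXW, module QS0: bounds of the staircase solution
-/

set_option autoImplicit false

open Finset Filter Topology

namespace Pool.Agent.EXW

open Pool.Agent.Gap Pool.Agent.FL

/-- distance of the evaluation point to the critical point -/
lemma qs0_delta (m : ℕ) (hm : 1 ≤ m) (w : ℂ) (hw : w.re = 1) :
    1 / 8 / (m : ℝ) ≤ ‖(1 / 4 : ℂ) - zn (1 / 4) w m‖ := by
  have hm' : (0 : ℝ) < m := by exact_mod_cast hm
  have hm1 : (1 : ℝ) ≤ m := by exact_mod_cast hm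
  have h1 : ‖(1 / 4 : ℂ)‖ = 1 / 4 := by norm_num
  have h2 : ‖zn (1 / 4) w m‖ = 1 / 4 * Real.exp (-(1 / (m : ℝ))) := by
    unfold zn
    rw [norm_mul, Complex.norm_exp]
    congr 1
    · norm_num
    · congr 1
      have : (w / (m : ℂ)).re = 1 / (m : ℝ) := by
        rw [← Complex.ofReal_natCast, Complex.div_ofReal_re, hw]
      rw [Complex.neg_re, this]
  have h3 : ‖(1 / 4 : ℂ)‖ - ‖zn (1 / 4) w m‖ ≤ ‖(1 / 4 : ℂ) - zn (1 / 4) w m‖ :=
    norm_sub_norm_le _ _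
  rw [h1, h2] at h3
  refine le_trans ?_ h3
  set x : ℝ := 1 / (m : ℝ) with hx
  have hx0 : 0 < x := by positivity
  have hx1 : x ≤ 1 := by
    rw [hx, div_le_one hm']
    exact hm1
  have h4 : Real.exp (-x) ≤ 1 - x / 2 := by
    have h5 : 1 + x ≤ Real.exp x := by linarith [Real.add_one_le_exp x]
    have h6 : Real.exp (-x) ≤ (1 + x)⁻¹ := by
      rw [Real.exp_neg]
      exact inv_anti₀ (by linarith) h5
    refine h6.trans ?_
    rw [inv_le_comm₀ (by linarith) (by linarith)]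
    rw [inv_le_iff_one_le_mul₀ (by linarith)]
    nlinarith
  have h7 : 1 / 8 / (m : ℝ) = 1 / 8 * x := by rw [hx]; ring
  rw [h7]
  linarith

theorem t_QS0 (hSUP : Pool.Agent.Gap.SUP_Stmt) (hW : Pool.Agent.Gap.W_Stmt) : QS0_Stmt := by
  obtain ⟨Cs, hCs, hS⟩ := hSUP stair 1
  obtain ⟨Cw, hCw, hW'⟩ := hW stair 1
  set c : ℝ := Real.sqrt (1 / 8) with hc
  have hcpos : 0 < c := Real.sqrt_pos.mpr (by norm_num)
  have hc2 : c ^ 2 = 1 / 8 := Real.sq_sqrt (by norm_num)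
  set Cb : ℝ := Cw / c + Cw / (c * c ^ 2) + Cw / (c * (c ^ 2) ^ 2) + Cs + 1 with hCb
  have hCbpos : 0 < Cb := by positivity
  refine ⟨Real.sqrt Cb, Real.sqrt_pos.mpr hCbpos, ?_⟩
  intro m N e' w v0 hm hwre he'0 hsol
  have hw : 0 < w.re := by rw [hwre]; norm_num
  have hq := qn_pos m hm
  have hδ0 := qs0_delta m hm w hwre
  set z' := zn (1 / 4) w m with hz'
  have hz'le : ‖z'‖ ≤ 1 / 4 := zn_norm_le (1 / 4) (by norm_num) w hw _
  have hz'ne : z' ≠ ((stair.rho : ℝ) : ℂ) := zn_ne (1 / 4) (by norm_num) w hw _ hm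
  have hstair : stair.rho = 1 / 4 := rfl
  have hsrc : ∀ g : ℤ, ((1 : ℕ) : ℤ) < g → src1 z' g = 0 := by
    intro g hg
    unfold src1
    rw [if_neg]
    push_cast at hg
    omega
  have hl1 : l1 1 (src1 z') ≤ 1 := by
    rw [l1_src1]
    linarith
  have hl10 : 0 ≤ l1 1 (src1 z') := by
    rw [l1_src1]
    exact norm_nonneg _
  have hl1sq : (l1 1 (src1 z')) ^ 2 ≤ 1 := by nlinarith
  obtain ⟨hWk, hWe⟩ := hW' N e' z' v0 (src1 z') he'0 (by rw [hstair]; exact hz'le) hz'ne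
    hsol hsrc
  obtain ⟨_, hSe⟩ := hS N e' z' v0 (src1 z') he'0 (by rw [hstair]; exact hz'le) hsol hsrc
  have hδeq : ‖((stair.rho : ℝ) : ℂ) - z'‖ = ‖(1 / 4 : ℂ) - z'‖ := by
    rw [hstair]
    push_cast
    rfl
  rw [hδeq] at hWk hWe
  set δ := ‖(1 / 4 : ℂ) - z'‖ with hδ
  have hn' : (0 : ℝ) < m := by exact_mod_cast hm
  have hδlow : c ^ 2 / qn m ^ 4 ≤ δ := by
    rw [qn_four, hc2]
    exact hδ0
  have hδpos : 0 < δ := lt_of_lt_of_le (by positivity) hδlow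
  have hsδ : c / qn m ^ 2 ≤ Real.sqrt δ := by
    refine Real.le_sqrt_of_sq_le ?_
    refine le_trans (le_of_eq ?_) hδlow
    rw [div_pow]
    ring
  have hkey : ∀ k : ℕ, k ≤ 2 → nsq N (mulg k v0) ≤
      Cw / (c * (c ^ 2) ^ k) * (qn m ^ (1 + 2 * k)) ^ 2 := by
    intro k hk
    refine (hWk k hk).trans ?_
    have h3 : c / qn m ^ 2 * (c ^ 2 / qn m ^ 4) ^ k ≤ Real.sqrt δ * δ ^ k := by
      gcongr
    calc Cw * (l1 1 (src1 z')) ^ 2 / (Real.sqrt δ * δ ^ k)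
        ≤ Cw * 1 / (c / qn m ^ 2 * (c ^ 2 / qn m ^ 4) ^ k) := by
          gcongr
      _ = _ := by
          rw [div_pow]
          field_simp
          ring
  have hsqrt : ∀ (a b x : ℝ), 0 ≤ x → a ≤ b * x ^ 2 → b ≤ Cb → Real.sqrt a ≤ Real.sqrt Cb * x := by
    intro a b x hx hab hb
    rw [← Real.sqrt_sq hx, ← Real.sqrt_mul hCbpos.le]
    refine Real.sqrt_le_sqrt (hab.trans ?_)
    gcongr
  have hp1 : 0 ≤ Cw / c := by positivity
  have hp2 : 0 ≤ Cw / (c * c ^ 2) := by positivity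
  have hp3 : 0 ≤ Cw / (c * (c ^ 2) ^ 2) := by positivity
  refine ⟨?_, ?_, ?_, ?_, ?_⟩
  · have := hkey 0 (by norm_num)
    rw [nsq_mulg_zero] at this
    refine hsqrt _ (Cw / c) _ hq.le ?_ (by rw [hCb]; linarith)
    simpa using this
  · have := hkey 1 (by norm_num)
    refine hsqrt _ (Cw / (c * c ^ 2)) _ (by positivity) ?_ (by rw [hCb]; linarith)
    simpa using this
  · have := hkey 2 (by norm_num)
    refine hsqrt _ (Cw / (c * (c ^ 2) ^ 2)) _ (by positivity) ?_ (by rw [hCb]; linarith)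
    simpa using this
  · have h3 : En N v0 ≤ Cs := by
      have := Pot_nonneg e' he'0 N v0
      have h4 : Cs * (l1 1 (src1 z')) ^ 2 ≤ Cs * 1 := by gcongr
      linarith
    refine Real.sqrt_le_sqrt ?_
    rw [hCb]
    linarith
  · have h3 := hWe 1 le_rfl (by norm_num)
    have h4 := Pot_nonneg e' he'0 N (mulg 1 v0)
    have h5 : En N (mulg 1 v0) ≤ Cw / c * qn m ^ 2 := by
      have h6 : Cw * (l1 1 (src1 z')) ^ 2 * Real.sqrt δ / δ ^ 1 ≤ Cw / c * qn m ^ 2 := by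
        have h7 : Real.sqrt δ / δ = 1 / Real.sqrt δ := by
          rw [Real.sqrt_div_self', one_div]
        calc Cw * (l1 1 (src1 z')) ^ 2 * Real.sqrt δ / δ ^ 1
            = Cw * (l1 1 (src1 z')) ^ 2 * (Real.sqrt δ / δ) := by ring
          _ = Cw * (l1 1 (src1 z')) ^ 2 * (1 / Real.sqrt δ) := by rw [h7]
          _ ≤ Cw * 1 * (1 / (c / qn m ^ 2)) := by gcongr
          _ = _ := by field_simp
      linarith
    exact hsqrt _ (Cw / c) _ hq.le h5 (by rw [hCb]; linarith)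

end Pool.Agent.EXW
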