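import Pool.Agent.Lib_helper89.FL.StmtsMG
import Pool.Agent.Lib_helper74.MG.Final

/-!
# Project EXW (MP_f6626d_co, explicit window): statements of the mass gap modules

For the force `f` in `(0, 1]` all constants are at most `exp (A / f)`. Proofs: `PAPER.md`.
-/

set_option autoImplicit false

namespace Pool.Agent.EXW

open Finset Pool.Agent.Lib27 Pool.Agent.SapR Pool.Agent.FL
open scoped NNReal ENNReal

/-- `l` is an upper bound of the decay rate of the bridges at `x` -/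
structure Up (x : ℝ≥0) (l : ℝ) : Prop where
  x_pos : 0 < x
  chi_fin : chi x ≠ ⊤
  l_pos : 0 < l
  l_lt : l < 1
  up : ∀ H : ℕ, MG.gw (x : ℝ≥0∞) (MG.Bri H) ≤ ENNReal.ofReal (l ^ H)

/-- MA : words from level `0` to level `h` (from `MG.gw_Tp_le`, `MG.gw_Dn_le`). -/
def MA_Stmt : Prop :=
  (∀ x : ℝ≥0, chi x = MG.chi (x : ℝ≥0∞)) ∧
  (∀ (x : ℝ≥0) (h : ℤ), gfw x (Gn h) ≤ chi x ^ 2 * MG.gw (x : ℝ≥0∞) (MG.Bri h.natAbs)) ∧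
  ∀ (x : ℝ≥0) (l : ℝ), Up x l → ∀ h : ℤ,
    gfw x (Gn h) ≤ ENNReal.ofReal ((chi x).toReal ^ 2 * l ^ h.natAbs)

/-- MD : backtrack estimate (from MA). -/
def MD_Stmt : Prop := ∀ (x : ℝ≥0) (l : ℝ), Up x l → ∀ K H : ℕ, 1 ≤ K →
  ∑' w : Cr H, (x : ℝ≥0∞) ^ (w : Wd).length * ENNReal.ofReal ((l⁻¹) ^ (RK K w H)) ≤
    ENNReal.ofReal (2 * (chi x).toReal ^ 6 / (1 - l) *
      (1 + (chi x).toReal ^ 6 * l ^ K / (1 - l)) ^ (H + 1) * l ^ H)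

/-- MGAP : mass gap with explicit constants (from MA, MD and the modules `FL.MGE_Stmt`,
`FL.MGF_Stmt`). -/
def MGAP_Stmt : Prop := ∀ A0 : ℝ, 1 ≤ A0 → ∃ A1 : ℝ, 1 ≤ A1 ∧ ∀ (f l : ℝ) (x : ℝ≥0),
  0 < f → f ≤ 1 → Real.exp (-f) ≤ l → l ≤ Real.exp (-(f / 4)) → Up x l →
  chi x ≤ ENNReal.ofReal (Real.exp (A0 / f)) → ∀ H : ℕ,
    gfp x (NC H) ≤ ENNReal.ofReal (Real.exp (A1 / f) *
      Real.exp (-(Real.exp (-(A1 / f)) * H)) * l ^ (2 * H))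

/-- MC1 : the critical point is not small, and the Hammersley-Welsh bound. -/
def MC1_Stmt : Prop :=
  (∀ x q : ℝ, MG.Crit x q → Real.exp (-1) ≤ q → 1 / 12 ≤ x) ∧
  ∃ A : ℝ, 1 ≤ A ∧ ∀ f x q : ℝ, 0 < f → f ≤ 1 → MG.Crit x q → Real.exp (-1) ≤ q →
    q ≤ Real.exp (-(f / 4)) →
    MG.chi (ENNReal.ofReal x) ≤ ENNReal.ofReal (Real.exp (A / f))

/-- MC2 : lower bound of the susceptibility, and bridges below the critical point. -/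
def MC2_Stmt : Prop :=
  (∀ x X : ℝ, 0 < x → x < MG.xc → MG.chi (ENNReal.ofReal x) ≤ ENNReal.ofReal X →
    1 ≤ X * (1 - x / MG.xc)) ∧
  ∀ x : ℝ, 0 < x → x < MG.xc → ∀ H : ℕ, MG.gw (ENNReal.ofReal x) (MG.Bri H) ≤ 1

/-- MC3 : interpolation (Hölder). -/
def MC3_Stmt : Prop := ∀ (S : Set Wd) (x y t a b : ℝ), 0 < x → 0 < y → 0 ≤ t → t ≤ 1 →
  0 ≤ a → 0 ≤ b → MG.gw (ENNReal.ofReal x) S ≤ ENNReal.ofReal a →
  MG.gw (ENNReal.ofReal y) S ≤ ENNReal.ofReal b →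
  MG.gw (ENNReal.ofReal (x ^ (1 - t) * y ^ t)) S ≤ ENNReal.ofReal (a ^ (1 - t) * b ^ t)

/-- MC : room above the critical point (from MC1, MC2, MC3 and `MG.exists_crit`). -/
def MC_Stmt : Prop := ∃ A0 : ℝ, 1 ≤ A0 ∧ ∀ f : ℝ, 0 < f → f ≤ 1 →
  ∃ x : ℝ, MG.Crit x (Real.exp (-(f / 2))) ∧ ∀ c : ℝ, 0 < c → c ≤ f / 4 →
    ∃ y : ℝ, x * (1 + c * Real.exp (-(A0 / f))) ≤ y ∧
      Up y.toNNReal (Real.exp (-(f / 2) + c)) ∧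
      chi y.toNNReal ≤ ENNReal.ofReal (Real.exp (A0 / f))

/-- MN : the critical `x` of the free pieces for the force `f` and the room above it (from MC,
MGAP and `MG.free_one`). -/
def MN_Stmt : Prop := ∃ A : ℝ, 1 ≤ A ∧ ∀ f : ℝ, 0 < f → f ≤ 1 → ∃ x e C0 : ℝ≥0, 0 < x ∧
  Real.exp (-(A / f)) ≤ (e : ℝ) ∧ e ≤ 1 ∧ (C0 : ℝ) ≤ Real.exp (A / f) ∧
  ∑' p : {p : Wd × Wd | FreePiece p.1 p.2}, (x : ℝ≥0∞) ^ ((p : Wd × Wd).1.length +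
    (p : Wd × Wd).2.length) * (((Real.exp (-f)).toNNReal⁻¹ : ℝ≥0) : ℝ≥0∞) ^ htn p = 1 ∧
  ∑' H : ℕ, (((Real.exp (-f)).toNNReal⁻¹ : ℝ≥0) : ℝ≥0∞) ^ H * gfp ((1 + e) * x) (NC H) ≤ C0

/-- QMG : exponential tails at the critical weight with explicit constants (from MN, the old
MGI1 and `FL.MGT.core`). -/
def QMG_Stmt : Prop := ∃ A : ℝ, 1 ≤ A ∧ ∀ f : ℝ, 0 < f → f ≤ 1 → ∀ (n : ℕ) (rho : ℝ),
  Real.exp (A / f) ≤ n → 0 < rho →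
  ∑ p ∈ Pc (2 * n - 1), rho ^ hl p * Real.exp (-f) ^ (hl p - htn p) = 1 →
    Tails (Real.exp (A / f)) (1 - (Real.exp (A / f))⁻¹) n (Real.exp (-f)) rho

end Pool.Agent.EXW
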