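import Pool.Agent.EXW.StmtsA
import Pool.Agent.EXW.StmtsM
import Pool.Agent.Lib_helper89.FL.FinB
import Pool.Agent.Lib_helper41.SapR.FinalDefs

/-!
# Project EXW (MP_f6626d_co, explicit window): statements of the assembly
-/

set_option autoImplicit false

namespace Pool.Agent.EXW

open Finset Pool.Agent.Lib27 Pool.Agent.SapR Pool.Agent.Gap Pool.Agent.FL Filter Topology
  Pool.Agent.AreaLaw MeasureTheory
open scoped NNReal ENNReal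

/-- QNEAR : mean error of the area functional (old `FL.near`). -/
def QNEAR_Stmt : Prop := ∃ K : ℕ, ∀ D : ℝ, 2 ≤ D →
  ∀ (n : ℕ) (s rho : ℝ), 2 ≤ n → 0 < s → s ≤ 1 → 0 < rho →
    ∑ p ∈ Pc (2 * n - 1), rho ^ hl p * s ^ (hl p - htn p) = 1 → Tails D (1 - D⁻¹) n s rho →
    ∑ q ∈ M41.Om (2 * n - 1) n, wtq n s q *
      |(|((dbl 0 q.2.2.2 + dbl 0 q.2.2.1 : ℤ) : ℝ)| - (M41.Ar (2 * n - 1) q.2.2.2 : ℝ))| ≤
    D ^ K * n * Real.log n * ∑ q ∈ M41.Om (2 * n - 1) n, wtq n s q +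
      D ^ K / ((n : ℝ) ^ 5 * rho ^ n)

/-- the class parameter of the force `f` -/
noncomputable def Mf (A f : ℝ) : ℝ := Real.exp (A / min f 1)

/-- QDAT : the kernel of the force `f` (from QMG, the old MG, MGI2, KW). -/
def QDAT_Stmt : Prop := ∃ A : ℝ, 1 ≤ A ∧ ∃ N0 : ℕ, 2 ≤ N0 ∧ ∀ (n : ℕ) (f : ℝ), N0 ≤ n →
  0 < f → Mf A f ≤ n → Nonempty (Dat (Mf A f) (1 - (Mf A f)⁻¹) n (Real.exp (-f)))

/-- QSLOW : sequences (pure analysis). -/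
def QSLOW_Stmt : Prop := ∀ (A : ℝ) (K K1 : ℕ), 1 ≤ A → ∃ C : ℝ, 0 < C ∧ ∀ f : ℕ → ℝ,
  (∀ᶠ n : ℕ in atTop, C / Real.log (Real.log n) ≤ f n) →
    (∀ᶠ n : ℕ in atTop, 0 < f n ∧ Mf A (f n) ≤ n) ∧
    (∀ j : ℕ, Tendsto (fun n : ℕ => Real.exp (Mf A (f n) ^ K) ^ j / (n : ℝ)) atTop (𝓝 0)) ∧
    ∀ j : ℕ, Tendsto (fun n : ℕ =>
      kap0 (Mf A (f n) ^ K1) (Mf A (f n)) (1 - (Mf A (f n))⁻¹) n *
        Real.exp (Mf A (f n) ^ K) ^ j) atTop (𝓝 0)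

/-- QMOD : the sequence of models (from QGV, QNEAR; old `FL.seqM`, `FL.near_bound`,
`FL.bad_bound`). Here `Kv` is the exponent for the class parameter, `Kn` the one of QNEAR. -/
def QMOD_Stmt : Prop := ∃ Kv Kn : ℕ, ∀ (M D f : ℕ → ℝ) (N0 : ℕ), 2 ≤ N0 → (∀ n, 2 ≤ M n) →
  (∀ n, Real.exp (M n ^ Kv) ≤ D n) → (∀ n, 0 < f n) →
  (∀ j : ℕ, Tendsto (fun n : ℕ => kap0 (M n ^ Kn) (M n) (1 - (M n)⁻¹) n * D n ^ j)
    atTop (𝓝 0)) →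
  (∀ n, Nonempty (Dat (M n) (1 - (M n)⁻¹) (mx N0 n) (Real.exp (-f n)))) →
  ∃ Q : QModel D, ∀ n x, Q.cdf n x = cdfO (mx N0 n) (Real.exp (-f n)) x

/-- the final theorem: explicit window -/
def QFINAL_Stmt : Prop := ∃ μ : Measure ℝ, IsProbabilityMeasure μ ∧
  (∀ x : ℝ, μ {x} = 0 →
    Tendsto (fun n : ℕ => areaCdf n (Staircase n) x) atTop (𝓝 (μ (Set.Iic x)).toReal)) ∧
  ∃ C : ℝ, 0 < C ∧ ∀ f : ℕ → ℝ,
    (∀ᶠ n : ℕ in atTop, C / Real.log (Real.log n) ≤ f n) → ∀ x : ℝ, μ {x} = 0 →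
      Tendsto (fun n : ℕ => forceCdf (f n) n x) atTop (𝓝 (μ (Set.Iic x)).toReal)

end Pool.Agent.EXW
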